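import Pool.Agent.PPL.St4

/-!
# Project PPL, module ALLC (helper62): with `N + 1` coins PP mode gives every function
-/

set_option autoImplicit false

open Finset
open scoped Classical

namespace Pool.Agent.PPL

namespace ALLCx

open Pool.Agent.HPM (GMachs)

/-- The machine which compares the input with `y`. -/
noncomputable def mach {N : ℕ} (hN : 0 < N) (L : (Fin N → Bool) → Prop) (y : Fin N → Bool)
    (c : Bool) : GMachs 1 0 (Fin N) Bool where
  start := true
  query t _ _ := if h : t < N then ⟨t, h⟩ else ⟨0, hN⟩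
  next t v a _ := if v = true ∧ a 0 = y (if h : t < N then ⟨t, h⟩ else ⟨0, hN⟩) then true
    else false
  acc v := (v = true ∧ L y) ∨ (v = false ∧ c = true)

theorem state_eq {N : ℕ} (hN : 0 < N) (L : (Fin N → Bool) → Prop) (y : Fin N → Bool) (c : Bool)
    (x : Fin N → Bool) (g : ℕ → Fin 0 → Bool) (t : ℕ) (ht : t ≤ N) :
    (mach hN L y c).state x g t = true ↔ ∀ i : Fin N, (i : ℕ) < t → x i = y i := by
  induction t with
  | zero =>
    refine ⟨fun _ i hi => absurd hi (Nat.not_lt_zero _), fun _ => rfl⟩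
  | succ t ih =>
    have h1 : (mach hN L y c).state x g (t + 1) = if (mach hN L y c).state x g t = true ∧
        x (if h : t < N then ⟨t, h⟩ else ⟨0, hN⟩) = y (if h : t < N then ⟨t, h⟩ else ⟨0, hN⟩) then
          true else false := rfl
    have ht' : t < N := ht
    rw [h1, dif_pos ht']
    constructor
    · intro h i hi
      by_cases h2 : (mach hN L y c).state x g t = true ∧ x ⟨t, ht'⟩ = y ⟨t, ht'⟩
      · rcases Nat.lt_succ_iff_lt_or_eq.1 hi with h3 | h3
        · exact (ih ht'.le).1 h2.1 i h3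
        · have h4 : i = ⟨t, ht'⟩ := Fin.ext h3
          rw [h4]
          exact h2.2
      · rw [if_neg h2] at h
        exact absurd h (by simp)
    · intro h
      rw [if_pos]
      exact ⟨(ih ht'.le).2 fun i hi => h i (Nat.lt_succ_of_lt hi), h _ (Nat.lt_succ_self t)⟩

theorem acc_iff {N : ℕ} (hN : 0 < N) (L : (Fin N → Bool) → Prop) (y : Fin N → Bool) (c : Bool)
    (x : Fin N → Bool) (g : ℕ → Fin 0 → Bool) :
    (mach hN L y c).acc ((mach hN L y c).state x g N) ↔ (x = y ∧ L y) ∨ (x ≠ y ∧ c = true) := by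
  have h1 : (mach hN L y c).state x g N = true ↔ x = y := by
    rw [state_eq hN L y c x g N le_rfl]
    exact ⟨fun h => funext fun i => h i i.2, fun h i _ => by rw [h]⟩
  have h2 : (mach hN L y c).state x g N = false ↔ x ≠ y := by
    rw [Ne, ← h1, Bool.not_eq_true]
  show ((mach hN L y c).state x g N = true ∧ L y) ∨
    ((mach hN L y c).state x g N = false ∧ c = true) ↔ _
  rw [h1, h2]

theorem card_pairs {N : ℕ} (L : (Fin N → Bool) → Prop) (x : Fin N → Bool) :
    (univ.filter fun p : (Fin N → Bool) × Bool => (x = p.1 ∧ L p.1) ∨ (x ≠ p.1 ∧ p.2 = true)).card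
      + 1 = 2 ^ N + if L x then 2 else 0 := by
  rw [Finset.card_filter, Fintype.sum_prod_type]
  have h1 : ∀ y : Fin N → Bool, (∑ c : Bool, if (x = y ∧ L y) ∨ (x ≠ y ∧ c = true) then 1 else 0) =
      (if y = x then (if L x then 2 else 0) else 1 : ℕ) := by
    intro y
    rw [Fintype.sum_bool]
    by_cases h : y = x
    · subst h
      by_cases h2 : L y <;> simp [h2]
    · have h3 : x ≠ y := fun h4 => h h4.symm
      simp [h, h3]
  rw [Finset.sum_congr rfl fun y _ => h1 y, ← Finset.add_sum_erase univ _ (mem_univ x), if_pos rfl]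
  have h2 : ∑ y ∈ univ.erase x, (if y = x then (if L x then 2 else 0) else 1 : ℕ) =
      2 ^ N - 1 := by
    rw [Finset.sum_congr rfl fun y hy => if_neg (Finset.ne_of_mem_erase hy), Finset.sum_const,
      Finset.card_erase_of_mem (mem_univ x), Finset.card_univ]
    simp
  rw [h2]
  have h3 : 1 ≤ 2 ^ N := Nat.one_le_two_pow
  omega

end ALLCx

theorem t_ALLC : S_ALLC := by
  intro N L hN
  have hc : Fintype.card (Fin (2 ^ (N + 1))) = Fintype.card ((Fin N → Bool) × Bool) := by
    simp [pow_succ]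
  let e : Fin (2 ^ (N + 1)) ≃ (Fin N → Bool) × Bool := Fintype.equivOfCardEq hc
  refine ⟨fun w x => (x = (e w).1 ∧ L (e w).1) ∨ (x ≠ (e w).1 ∧ (e w).2 = true), fun w => ?_,
    fun x => ?_⟩
  · exact ⟨ALLCx.mach hN L (e w).1 (e w).2, fun x =>
      (ALLCx.acc_iff hN L (e w).1 (e w).2 x _).symm⟩
  · have h1 : Nat.card {w // (x = (e w).1 ∧ L (e w).1) ∨ (x ≠ (e w).1 ∧ (e w).2 = true)} =
        (univ.filter fun p : (Fin N → Bool) × Bool =>
          (x = p.1 ∧ L p.1) ∨ (x ≠ p.1 ∧ p.2 = true)).card := by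
      have e2 : {w // (x = (e w).1 ∧ L (e w).1) ∨ (x ≠ (e w).1 ∧ (e w).2 = true)} ≃
          {p : (Fin N → Bool) × Bool // (x = p.1 ∧ L p.1) ∨ (x ≠ p.1 ∧ p.2 = true)} :=
        e.subtypeEquiv fun w => Iff.rfl
      rw [Nat.card_congr e2, Nat.card_eq_fintype_card, Fintype.card_subtype]
    rw [h1]
    have h2 := ALLCx.card_pairs L x
    have h3 : 2 ^ (N + 1) = 2 * 2 ^ N := by rw [pow_succ, mul_comm]
    rw [h3]
    by_cases hL : L x
    · rw [if_pos hL] at h2
      refine ⟨fun _ => by omega, fun _ => hL⟩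
    · rw [if_neg hL] at h2
      refine ⟨fun h => absurd h hL, fun h => ?_⟩
      omega

end Pool.Agent.PPL
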