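import Pool.Agent.PPL.St3
import Pool.Agent.TKN.O_AUT

/-!
# Project PPL: an automaton for one item
-/

set_option autoImplicit false

open Finset hiding val

namespace Pool.Agent.PPL

open Pool.Agent.URG (VarA VarX deg pols)
open Pool.Agent.HPM.Fn (Coord)
open Pool.Agent.TKN.ONE (Aut)

open Pool.Agent.TKN.ONE.MAUT in
theorem t_AUP : S_AUP := by
  intro n e L m β pos _ hp1 hp2 t l
  refine aut3 pos (ca β t) (cy l) (cs β t) _
    (fun s => ¬ ∀ i : Fin 1, β.repr s (Fin.castLE (one_le_deg n e) i) = 0) ?_ ?_ ?_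
  · intro w w' b b' y h h'
    obtain ⟨t', i, rfl⟩ := ca_ne h'
    have h0 : cy l y w b ≠ 0 ∨ cy l 0 w b ≠ 0 := by
      rcases h with h | h
      · by_contra hc
        push Not at hc
        exact h (by rw [hc.1, hc.2])
      · exact Or.inl h
    rcases h0 with h0 | h0
    · obtain ⟨p, rfl⟩ := cy_ne h0
      exact hp1 t' i p
    · obtain ⟨p, rfl⟩ := cy_ne h0
      exact hp1 t' i p
  · intro w w' b b' y y' h h'
    obtain ⟨t', q, rfl⟩ := cs_ne h
    obtain ⟨p, rfl⟩ := cy_ne h'
    exact hp2 t' q p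
  · intro v
    have e1 := sum_ca β t (fun w => v (pos w))
    have e2 := sum_cy l (Pool.Agent.HPM.elt β fun i => v (pos (Sum.inl (t, Sum.inl i))))
      (fun w => v (pos w))
    have e3 := fun y => sum_cs β t y (fun w => v (pos w))
    rw [e1, e2, e3]
    exact Iff.rfl

end Pool.Agent.PPL
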