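import Pool.Agent.PPL.St4

/-!
# Project PPL, module AVG: from small correlation to the modes
-/

set_option autoImplicit false

open Finset
open scoped Classical

namespace Pool.Agent.PPL

namespace MAVG

theorem sgP_true {P : Prop} (h : P) : sgP P = -1 := if_pos h

theorem sgP_false {P : Prop} (h : ¬ P) : sgP P = 1 := if_neg h

theorem sgP_eq (P : Prop) : sgP P = 1 - 2 * (if P then 1 else 0) := by
  by_cases h : P
  · rw [sgP_true h, if_pos h]; norm_num
  · rw [sgP_false h, if_neg h]; norm_num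

/-- the sum of the signs of the members -/
theorem sum_sgP {m : ℕ} (P : Fin m → Prop) :
    ∑ w, sgP (P w) = (m : ℝ) - 2 * (Nat.card {w // P w} : ℝ) := by
  have h1 : (Nat.card {w // P w} : ℝ) = ∑ w, (if P w then (1 : ℝ) else 0) := by
    rw [Nat.card_eq_fintype_card, Fintype.card_subtype, Finset.sum_boole]
  rw [h1, Finset.mul_sum, Finset.sum_congr rfl fun w _ => sgP_eq (P w), Finset.sum_sub_distrib]
  simp

theorem two_rpow_le {b : ℝ} {W : ℕ} (h : (W : ℝ) + 3 ≤ b) :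
    (2 : ℝ) ^ (-b) ≤ ((2 : ℝ) ^ W * 8)⁻¹ := by
  have h1 : (2 : ℝ) ^ (-b) ≤ (2 : ℝ) ^ (-(((W + 3 : ℕ) : ℝ))) := by
    apply Real.rpow_le_rpow_of_exponent_le (by norm_num)
    push_cast
    linarith
  refine h1.trans (le_of_eq ?_)
  rw [Real.rpow_neg (by norm_num), Real.rpow_natCast, pow_add]
  norm_num

end MAVG

open MAVG in
theorem t_AVG : S_AVG := by
  intro I C b L H hH hF hcor W hW
  have hδ := two_rpow_le hW
  have h2W : (0 : ℝ) < 2 ^ W := by positivity
  have hh : (0 : ℝ) < H.card := by exact_mod_cast hH.card_pos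
  -- the bound for one member
  have hb : ∀ P, C P → |∑ v ∈ H, sgP (P v) * sgP (L v)| ≤ ((2 : ℝ) ^ W * 8)⁻¹ * H.card :=
    fun P hP => (hcor P hP).trans (mul_le_mul_of_nonneg_right hδ hh.le)
  refine ⟨?_, ?_⟩
  · rintro ⟨P, hC, hL⟩
    have h0 := hb _ (hF _ (hC ⟨0, by positivity⟩))
    -- few inputs outside of `L`
    have h1 : ∑ v ∈ H, sgP (L v) ≤ H.card / 8 := by
      have e1 : ∑ v ∈ H, sgP ((fun _ => False) v) * sgP (L v) = ∑ v ∈ H, sgP (L v) :=
        Finset.sum_congr rfl fun v _ => by rw [sgP_false (by simp), one_mul]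
      rw [e1] at h0
      refine (le_abs_self _).trans (h0.trans ?_)
      have h2 : ((2 : ℝ) ^ W * 8)⁻¹ ≤ 8⁻¹ := by
        apply inv_anti₀ (by norm_num)
        have : (1 : ℝ) ≤ 2 ^ W := one_le_pow₀ (by norm_num)
        linarith
      calc ((2 : ℝ) ^ W * 8)⁻¹ * H.card ≤ 8⁻¹ * H.card := mul_le_mul_of_nonneg_right h2 hh.le
        _ = H.card / 8 := by ring
    have h3 : ∀ v, (1 - sgP (L v)) / 2 ≤ sgP (L v) * ∑ w, sgP (P w v) := by
      intro v
      rw [sum_sgP (fun w => P w v)]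
      by_cases hv : L v
      · have h4 := (hL v).1 hv
        have h5 : ((2 ^ W : ℕ) : ℝ) + 1 ≤ 2 * (Nat.card {w // P w v} : ℝ) := by exact_mod_cast h4
        rw [sgP_true hv]
        linarith
      · have h4 := not_lt.1 fun h => hv ((hL v).2 h)
        have h5 : 2 * (Nat.card {w // P w v} : ℝ) ≤ ((2 ^ W : ℕ) : ℝ) := by exact_mod_cast h4
        rw [sgP_false hv]
        linarith
    have h6 : ∑ v ∈ H, (1 - sgP (L v)) / 2 ≤ ∑ v ∈ H, sgP (L v) * ∑ w, sgP (P w v) :=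
      Finset.sum_le_sum fun v _ => h3 v
    have h7 : ∑ v ∈ H, (1 - sgP (L v)) / 2 = (H.card - ∑ v ∈ H, sgP (L v)) / 2 := by
      rw [← Finset.sum_div, Finset.sum_sub_distrib]
      simp
    have h8 : ∑ v ∈ H, sgP (L v) * ∑ w, sgP (P w v) =
        ∑ w : Fin (2 ^ W), ∑ v ∈ H, sgP (P w v) * sgP (L v) := by
      rw [Finset.sum_comm]
      refine Finset.sum_congr rfl fun v _ => ?_
      rw [Finset.mul_sum]
      exact Finset.sum_congr rfl fun w _ => mul_comm _ _
    have h9 : ∑ w : Fin (2 ^ W), ∑ v ∈ H, sgP (P w v) * sgP (L v) ≤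
        ∑ _w : Fin (2 ^ W), ((2 : ℝ) ^ W * 8)⁻¹ * H.card :=
      Finset.sum_le_sum fun w _ => (le_abs_self _).trans (hb _ (hC w))
    have h10 : ∑ _w : Fin (2 ^ W), ((2 : ℝ) ^ W * 8)⁻¹ * (H.card : ℝ) = H.card / 8 := by
      rw [Finset.sum_const, Finset.card_univ, Fintype.card_fin, nsmul_eq_mul]
      push_cast
      field_simp
    rw [h7, h8] at h6
    rw [h10] at h9
    linarith
  · rintro ⟨Ω, _, p, P, hC, hp, hp1, hL⟩
    have h3 : ∀ v, 2 / (2 : ℝ) ^ W ≤ sgP (L v) * ∑ ω, p ω * sgP (P ω v) := by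
      intro v
      have e1 : ∑ ω, p ω * sgP (P ω v) = 1 - 2 * ∑ ω, (if P ω v then p ω else 0) := by
        rw [← hp1, Finset.mul_sum, ← Finset.sum_sub_distrib]
        refine Finset.sum_congr rfl fun ω _ => ?_
        by_cases h : P ω v
        · rw [sgP_true h, if_pos h]; ring
        · rw [sgP_false h, if_neg h]; ring
      have e2 : 2 / (2 : ℝ) ^ W = 2 * (1 / 2 ^ W) := by ring
      rw [e1, e2]
      by_cases hv : L v
      · have h4 := (hL v).1 hv
        rw [sgP_true hv]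
        linarith
      · have h4 := (hL v).2 hv
        rw [sgP_false hv]
        linarith
    have h6 : ∑ _v ∈ H, 2 / (2 : ℝ) ^ W ≤ ∑ v ∈ H, sgP (L v) * ∑ ω, p ω * sgP (P ω v) :=
      Finset.sum_le_sum fun v _ => h3 v
    have h8 : ∑ v ∈ H, sgP (L v) * ∑ ω, p ω * sgP (P ω v) =
        ∑ ω, p ω * ∑ v ∈ H, sgP (P ω v) * sgP (L v) := by
      simp_rw [Finset.mul_sum]
      rw [Finset.sum_comm]
      exact Finset.sum_congr rfl fun ω _ => Finset.sum_congr rfl fun v _ => by ring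
    have h9 : ∑ ω, p ω * ∑ v ∈ H, sgP (P ω v) * sgP (L v) ≤
        ∑ ω, p ω * (((2 : ℝ) ^ W * 8)⁻¹ * H.card) :=
      Finset.sum_le_sum fun ω _ =>
        mul_le_mul_of_nonneg_left ((le_abs_self _).trans (hb _ (hC ω))) (hp ω)
    rw [← Finset.sum_mul, hp1, one_mul] at h9
    rw [h8, Finset.sum_const, nsmul_eq_mul] at h6
    have h10 := h6.trans h9
    rw [mul_inv] at h10
    have h11 : (H.card : ℝ) * (2 / 2 ^ W) = 2 * (((2 : ℝ) ^ W)⁻¹ * H.card) := by
      rw [div_eq_mul_inv]; ring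
    have h12 : (0 : ℝ) < ((2 : ℝ) ^ W)⁻¹ * H.card := by positivity
    rw [h11] at h10
    have h13 : ((2 : ℝ) ^ W)⁻¹ * 8⁻¹ * H.card = 8⁻¹ * (((2 : ℝ) ^ W)⁻¹ * H.card) := by ring
    rw [h13] at h10
    linarith

end Pool.Agent.PPL
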