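import Pool.Agent.PPL.St1

/-!
# Project PPL, module CUB (helper28): few words in sparse cubes
-/

set_option autoImplicit false

open Finset
open scoped Classical

namespace Pool.Agent.PPL

namespace CUBx

theorem card_cube {n : ℕ} (S : Finset (Fin n)) (x : Fin n → Bool) :
    (univ.filter fun y : Fin n → Bool => ∀ v, v ∉ S → y v = x v).card = 2 ^ S.card := by
  have h1 : (univ.filter fun y : Fin n → Bool => ∀ v, v ∉ S → y v = x v) =
      Fintype.piFinset fun v => if v ∈ S then (univ : Finset Bool) else {x v} := by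
    ext y
    rw [mem_filter, Fintype.mem_piFinset]
    constructor
    · rintro ⟨-, h⟩ v
      by_cases hv : v ∈ S
      · rw [if_pos hv]
        exact mem_univ _
      · rw [if_neg hv, mem_singleton]
        exact h v hv
    · intro h
      refine ⟨mem_univ _, fun v hv => ?_⟩
      have h2 := h v
      rwa [if_neg hv, mem_singleton] at h2
  rw [h1, Fintype.card_piFinset]
  have h2 : ∀ v : Fin n, (if v ∈ S then (univ : Finset Bool) else {x v}).card =
      if v ∈ S then 2 else 1 := by
    intro v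
    split_ifs
    · rfl
    · rfl
  rw [Finset.prod_congr rfl fun v _ => h2 v, Finset.prod_ite_mem, univ_inter, prod_const]

end CUBx

open CUBx in
theorem t_CUB : S_CUB := by
  intro n N B τ hτ hN hB
  have hsym : ∀ x y : Fin n → Bool, (∀ v, v ∉ N x → y v = x v) →
      N y = N x ∧ ∀ v, v ∉ N y → x v = y v := by
    intro x y h
    have h1 : N y = N x := hN x y fun v hv => (h v hv).symm
    refine ⟨h1, fun v hv => ?_⟩
    rw [h1] at hv
    exact (h v hv).symm
  have h1 : ∀ x : Fin n → Bool, ∑ y ∈ univ.filter (fun y : Fin n → Bool =>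
      ∀ v, v ∉ N x → y v = x v), ((2 : ℝ) ^ (N y).card)⁻¹ = 1 := by
    intro x
    rw [Finset.sum_congr rfl (g := fun _ => ((2 : ℝ) ^ (N x).card)⁻¹) fun y hy => by
      rw [(hsym x y (mem_filter.1 hy).2).1], sum_const, card_cube, nsmul_eq_mul]
    push_cast
    exact mul_inv_cancel₀ (pow_ne_zero _ two_ne_zero)
  have h2 : (B.card : ℝ) = ∑ y : Fin n → Bool, ∑ x ∈ B.filter (fun x =>
      ∀ v, v ∉ N x → y v = x v), ((2 : ℝ) ^ (N y).card)⁻¹ := by
    have h3 : (B.card : ℝ) = ∑ x ∈ B, ∑ y ∈ univ.filter (fun y : Fin n → Bool =>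
        ∀ v, v ∉ N x → y v = x v), ((2 : ℝ) ^ (N y).card)⁻¹ := by
      rw [Finset.sum_congr rfl fun x _ => h1 x, sum_const, nsmul_eq_mul, mul_one]
    rw [h3]
    refine Finset.sum_comm' ?_
    intro x y
    rw [mem_filter, mem_filter]
    constructor
    · rintro ⟨hx, -, h⟩
      exact ⟨⟨hx, h⟩, mem_univ _⟩
    · rintro ⟨⟨hx, h⟩, -⟩
      exact ⟨hx, mem_univ _, h⟩
  rw [h2]
  have h4 : ∀ y : Fin n → Bool, ∑ x ∈ B.filter (fun x => ∀ v, v ∉ N x → y v = x v),
      ((2 : ℝ) ^ (N y).card)⁻¹ ≤ τ := by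
    intro y
    rcases (B.filter fun x => ∀ v, v ∉ N x → y v = x v).eq_empty_or_nonempty with he | ⟨x, hx⟩
    · rw [he, sum_empty]
      exact hτ
    · rw [mem_filter] at hx
      obtain ⟨hxB, hxy⟩ := hx
      obtain ⟨h5, h6⟩ := hsym x y hxy
      have h7 : (B.filter fun x => ∀ v, v ∉ N x → y v = x v) ⊆
          B.filter fun z => ∀ v, v ∉ N x → z v = x v := by
        intro z hz
        rw [mem_filter] at hz ⊢
        refine ⟨hz.1, fun v hv => ?_⟩
        have h8 := (hsym z y hz.2).1
        rw [h5] at h8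
        rw [h8] at hv
        rw [← hz.2 v hv]
        rw [← h8] at hv
        exact hxy v hv
      have h9 : ((B.filter fun x => ∀ v, v ∉ N x → y v = x v).card : ℝ) ≤
          τ * 2 ^ (N x).card :=
        le_trans (by exact_mod_cast card_le_card h7) (hB x hxB)
      rw [sum_const, nsmul_eq_mul, h5]
      rw [mul_inv_le_iff₀ (by positivity)]
      exact h9
  calc ∑ y : Fin n → Bool, ∑ x ∈ B.filter (fun x => ∀ v, v ∉ N x → y v = x v),
      ((2 : ℝ) ^ (N y).card)⁻¹ ≤ ∑ _y : Fin n → Bool, τ := Finset.sum_le_sum fun y _ => h4 y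
    _ = τ * 2 ^ n := by
      rw [sum_const, nsmul_eq_mul, card_univ, Fintype.card_fun, Fintype.card_bool,
        Fintype.card_fin]
      push_cast
      ring

end Pool.Agent.PPL
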