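import Pool.Agent.PPL.St3

/-!
# PPL, module EVN (helper90): the number of the tuples in which every value occurs an even number of times
-/

set_option autoImplicit false

open Finset
open scoped Classical

namespace Pool.Agent.PPL

namespace MEVN

/-- two more components -/
theorem step (α : Type) [Fintype α] (n : ℕ) :
    (univ.filter fun a : Fin (n + 2) → α => ∀ z, Even (univ.filter fun i => a i = z).card).card ≤
      (n + 1) * (Fintype.card α * (univ.filter fun a : Fin n → α =>
        ∀ z, Even (univ.filter fun i => a i = z).card).card) := by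
  have hsub : (univ.filter fun a : Fin (n + 2) → α =>
      ∀ z, Even (univ.filter fun i => a i = z).card) ⊆
      ((univ : Finset (Fin (n + 1))) ×ˢ ((univ : Finset α) ×ˢ (univ.filter fun a : Fin n → α =>
        ∀ z, Even (univ.filter fun i => a i = z).card))).image
        (fun q : Fin (n + 1) × α × (Fin n → α) =>
          (Fin.snoc (α := fun _ => α) (Fin.insertNth (α := fun _ => α) q.1 q.2.1 q.2.2) q.2.1 :
            Fin (n + 2) → α)) := by
    intro a ha
    rw [mem_filter] at ha
    have ha := ha.2
    have hsum : ∀ z, (univ.filter fun i => a i = z).card =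
        (∑ i : Fin (n + 1), if a (Fin.castSucc i) = z then 1 else 0) +
          (if a (Fin.last (n + 1)) = z then 1 else 0) := by
      intro z
      rw [Finset.card_filter, Fin.sum_univ_castSucc]
    obtain ⟨j, hj⟩ : ∃ j : Fin (n + 1), a (Fin.castSucc j) = a (Fin.last (n + 1)) := by
      by_contra hc
      have h1 : ∀ j : Fin (n + 1), ¬ a (Fin.castSucc j) = a (Fin.last (n + 1)) := fun j hj =>
        hc ⟨j, hj⟩
      have h2 := ha (a (Fin.last (n + 1)))
      rw [hsum, if_pos rfl, Finset.sum_eq_zero (fun i _ => if_neg (h1 i))] at h2
      exact absurd h2 (by decide)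
    rw [mem_image]
    refine ⟨(j, a (Fin.last (n + 1)), fun i => a (Fin.castSucc (j.succAbove i))), ?_, ?_⟩
    · rw [mem_product, mem_product, mem_filter]
      refine ⟨mem_univ _, mem_univ _, mem_univ _, ?_⟩
      intro z
      have h3 := ha z
      rw [hsum, Fin.sum_univ_succAbove _ j, hj] at h3
      have h4 : (univ.filter fun i : Fin n => a (Fin.castSucc (j.succAbove i)) = z).card =
          ∑ i : Fin n, if a (Fin.castSucc (j.succAbove i)) = z then 1 else 0 := by
        rw [Finset.card_filter]
      have h5 : (univ.filter fun i : Fin n =>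
          ((j, a (Fin.last (n + 1)), fun i => a (Fin.castSucc (j.succAbove i))) :
            Fin (n + 1) × α × (Fin n → α)).2.2 i = z).card =
          ∑ i : Fin n, if a (Fin.castSucc (j.succAbove i)) = z then 1 else 0 := h4
      rw [h5]
      rw [Nat.even_iff] at h3 ⊢
      omega
    · funext i
      refine Fin.lastCases ?_ (fun i => ?_) i
      · exact Fin.snoc_last _ _
      · show (Fin.snoc (α := fun _ => α) (Fin.insertNth (α := fun _ => α) j
          (a (Fin.last (n + 1))) (fun i => a (Fin.castSucc (j.succAbove i))))
          (a (Fin.last (n + 1))) : Fin (n + 2) → α) (Fin.castSucc i) = a (Fin.castSucc i)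
        rw [Fin.snoc_castSucc]
        rcases Fin.eq_self_or_eq_succAbove j i with h | ⟨i', h⟩
        · rw [h, Fin.insertNth_apply_same]
          exact hj.symm
        · rw [h, Fin.insertNth_apply_succAbove]
  calc (univ.filter fun a : Fin (n + 2) → α => ∀ z, Even (univ.filter fun i => a i = z).card).card
      ≤ _ := card_le_card hsub
    _ ≤ _ := card_image_le
    _ = (n + 1) * (Fintype.card α * (univ.filter fun a : Fin n → α =>
        ∀ z, Even (univ.filter fun i => a i = z).card).card) := by
      rw [card_product, card_product, Finset.card_univ, Finset.card_univ, Fintype.card_fin]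

/-- the bound in natural numbers -/
theorem main (α : Type) [Fintype α] (t : ℕ) :
    (univ.filter fun a : Fin (2 * t) → α => ∀ z, Even (univ.filter fun i => a i = z).card).card ≤
      (2 * t) ^ t * Fintype.card α ^ t := by
  induction t with
  | zero =>
    rw [pow_zero, pow_zero, mul_one]
    refine (Finset.card_le_univ _).trans ?_
    have : Subsingleton (Fin (2 * 0) → α) := by
      constructor
      intro a b
      funext i
      exact absurd i.2 (by omega)
    exact Fintype.card_le_one_iff_subsingleton.2 this
  | succ t ih =>
    refine (step α (2 * t)).trans ?_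
    calc (2 * t + 1) * (Fintype.card α * (univ.filter fun a : Fin (2 * t) → α =>
          ∀ z, Even (univ.filter fun i => a i = z).card).card)
        ≤ (2 * t + 1) * (Fintype.card α * ((2 * t) ^ t * Fintype.card α ^ t)) :=
          Nat.mul_le_mul_left _ (Nat.mul_le_mul_left _ ih)
      _ ≤ (2 * (t + 1)) * (Fintype.card α * ((2 * (t + 1)) ^ t * Fintype.card α ^ t)) := by
          refine Nat.mul_le_mul (by omega) (Nat.mul_le_mul_left _ (Nat.mul_le_mul_right _ ?_))
          exact Nat.pow_le_pow_left (by omega) t
      _ = (2 * (t + 1)) ^ (t + 1) * Fintype.card α ^ (t + 1) := by ring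

end MEVN

theorem t_EVN : S_EVN := by
  intro α _ t
  have h := MEVN.main α t
  exact_mod_cast h

end Pool.Agent.PPL
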