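import Pool.Agent.PPL.St1

/-!
# Project PPL, module JAV: averaging over the sets `J` of size `m0`
-/

set_option autoImplicit false

open Finset
open scoped Classical

namespace Pool.Agent.PPL

namespace JAV

/-- at least half of the `v` have `|R v| ≤ 2 k` -/
lemma half (n r k : ℕ) (R : Fin n → Finset (Fin r)) (hk : 1 ≤ k) (h : ∑ v, (R v).card ≤ k * n) :
    (n : ℝ) / 2 ≤ ((univ.filter fun v => (R v).card ≤ 2 * k).card : ℝ) := by
  have h1 : (univ.filter fun v => ¬ (R v).card ≤ 2 * k).card * (2 * k) ≤ ∑ v, (R v).card := by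
    calc (univ.filter fun v => ¬ (R v).card ≤ 2 * k).card * (2 * k)
        = ∑ v ∈ univ.filter (fun v => ¬ (R v).card ≤ 2 * k), 2 * k := by
          rw [Finset.sum_const, smul_eq_mul]
      _ ≤ ∑ v ∈ univ.filter (fun v => ¬ (R v).card ≤ 2 * k), (R v).card :=
          Finset.sum_le_sum fun v hv => (not_le.1 (Finset.mem_filter.1 hv).2).le
      _ ≤ ∑ v, (R v).card :=
          Finset.sum_le_sum_of_subset_of_nonneg (Finset.subset_univ _) fun _ _ _ => Nat.zero_le _
  have h2 : (univ.filter fun v => (R v).card ≤ 2 * k).card +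
      (univ.filter fun v => ¬ (R v).card ≤ 2 * k).card = n := by
    rw [Finset.card_filter_add_card_filter_not, Finset.card_univ, Fintype.card_fin]
  have h3 : (univ.filter fun v => ¬ (R v).card ≤ 2 * k).card * 2 ≤ n := by
    have h4 : k * ((univ.filter fun v => ¬ (R v).card ≤ 2 * k).card * 2) ≤ k * n := by
      calc k * ((univ.filter fun v => ¬ (R v).card ≤ 2 * k).card * 2)
          = (univ.filter fun v => ¬ (R v).card ≤ 2 * k).card * (2 * k) := by ring
        _ ≤ k * n := h1.trans h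
    exact Nat.le_of_mul_le_mul_left h4 hk
  have h5 : n ≤ 2 * (univ.filter fun v => (R v).card ≤ 2 * k).card := by omega
  have h6 : (n : ℝ) ≤ 2 * ((univ.filter fun v => (R v).card ≤ 2 * k).card : ℝ) := by
    exact_mod_cast h5
  linarith

/-- the number of the sets `J` of size `m0` which contain `A` -/
lemma card_super (r m0 : ℕ) (A : Finset (Fin r)) (hA : A.card ≤ m0) :
    (r - A.card).choose (m0 - A.card) ≤
      (((univ : Finset (Fin r)).powersetCard m0).filter fun J => A ⊆ J).card := by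
  have h1 : (Aᶜ.powersetCard (m0 - A.card)).card = (r - A.card).choose (m0 - A.card) := by
    rw [Finset.card_powersetCard, Finset.card_compl, Fintype.card_fin]
  rw [← h1]
  refine Finset.card_le_card_of_injOn (fun B => A ∪ B) ?_ ?_
  · intro B hB
    have hB' := Finset.mem_powersetCard.1 (Finset.mem_coe.1 hB)
    have hd : Disjoint A B := Finset.disjoint_left.2 fun a ha hb =>
      Finset.mem_compl.1 (hB'.1 hb) ha
    refine Finset.mem_coe.2 (Finset.mem_filter.2 ⟨Finset.mem_powersetCard.2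
      ⟨Finset.subset_univ _, ?_⟩, Finset.subset_union_left⟩)
    rw [Finset.card_union_of_disjoint hd, hB'.2]
    omega
  · intro B hB C hC hBC
    have hB' := (Finset.mem_powersetCard.1 (Finset.mem_coe.1 hB)).1
    have hC' := (Finset.mem_powersetCard.1 (Finset.mem_coe.1 hC)).1
    have key : ∀ D : Finset (Fin r), D ⊆ Aᶜ → (A ∪ D) \ A = D := by
      intro D hD
      ext x
      simp only [Finset.mem_sdiff, Finset.mem_union]
      constructor
      · rintro ⟨h | h, h'⟩
        · exact absurd h h'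
        · exact h
      · intro h
        exact ⟨Or.inr h, Finset.mem_compl.1 (hD h)⟩
    have h2 : (A ∪ B) \ A = (A ∪ C) \ A := by
      have : A ∪ B = A ∪ C := hBC
      rw [this]
    rwa [key B hB', key C hC'] at h2

/-- the ratio of the binomial coefficients -/
lemma ratio (r m0 k c : ℕ) (hk : 1 ≤ k) (h4 : 4 * k ≤ m0) (hr : m0 ≤ r) (hc : c ≤ 2 * k) :
    ((m0 : ℝ) / (2 * r)) ^ (2 * k) * (r.choose m0 : ℝ) ≤ ((r - c).choose (m0 - c) : ℝ) := by
  have hr0 : (0 : ℝ) < r := by
    have : 0 < r := by omega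
    exact_mod_cast this
  have hm0 : (0 : ℝ) < m0 := by
    have : 0 < m0 := by omega
    exact_mod_cast this
  have hcm : c ≤ m0 := by omega
  have h1 : r.choose m0 * m0.choose c = r.choose c * (r - c).choose (m0 - c) :=
    Nat.choose_mul hcm
  have h2 : r.descFactorial c = c.factorial * r.choose c := Nat.descFactorial_eq_factorial_mul_choose r c
  have h3 : m0.descFactorial c = c.factorial * m0.choose c :=
    Nat.descFactorial_eq_factorial_mul_choose m0 c
  have h5 : r.choose m0 * m0.descFactorial c = r.descFactorial c * (r - c).choose (m0 - c) := by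
    rw [h2, h3]
    calc r.choose m0 * (c.factorial * m0.choose c) = c.factorial * (r.choose m0 * m0.choose c) := by
          ring
      _ = c.factorial * r.choose c * (r - c).choose (m0 - c) := by rw [h1]; ring
  have h6 : ((m0 : ℝ) / 2) ^ c ≤ (m0.descFactorial c : ℝ) := by
    have h7 : (m0 + 1 - c) ^ c ≤ m0.descFactorial c := Nat.pow_sub_le_descFactorial m0 c
    have h8 : ((m0 : ℝ) / 2) ≤ ((m0 + 1 - c : ℕ) : ℝ) := by
      have h9 : m0 ≤ 2 * (m0 + 1 - c) := by omega
      have h10 : (m0 : ℝ) ≤ 2 * ((m0 + 1 - c : ℕ) : ℝ) := by exact_mod_cast h9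
      linarith
    calc ((m0 : ℝ) / 2) ^ c ≤ ((m0 + 1 - c : ℕ) : ℝ) ^ c := pow_le_pow_left₀ (by positivity) h8 c
      _ ≤ (m0.descFactorial c : ℝ) := by exact_mod_cast h7
  have h11 : (r.descFactorial c : ℝ) ≤ (r : ℝ) ^ c := by
    exact_mod_cast Nat.descFactorial_le_pow r c
  have h12 : (r.choose m0 : ℝ) * (m0.descFactorial c : ℝ) =
      (r.descFactorial c : ℝ) * ((r - c).choose (m0 - c) : ℝ) := by exact_mod_cast h5
  have hq : (m0 : ℝ) / (2 * r) ≤ 1 := by
    rw [div_le_one (by positivity)]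
    have : (m0 : ℝ) ≤ r := by exact_mod_cast hr
    linarith
  have h13 : ((m0 : ℝ) / (2 * r)) ^ (2 * k) ≤ ((m0 : ℝ) / (2 * r)) ^ c :=
    pow_le_pow_of_le_one (by positivity) hq hc
  have h14 : ((m0 : ℝ) / (2 * r)) ^ c * (r : ℝ) ^ c = ((m0 : ℝ) / 2) ^ c := by
    rw [← mul_pow]
    congr 1
    field_simp
  have h15 : (0 : ℝ) < (r : ℝ) ^ c := pow_pos hr0 c
  have h16 : ((m0 : ℝ) / (2 * r)) ^ c * (r.choose m0 : ℝ) ≤ ((r - c).choose (m0 - c) : ℝ) := by
    have h17 : (((m0 : ℝ) / (2 * r)) ^ c * (r.choose m0 : ℝ)) * (r : ℝ) ^ c ≤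
        ((r - c).choose (m0 - c) : ℝ) * (r : ℝ) ^ c := by
      calc (((m0 : ℝ) / (2 * r)) ^ c * (r.choose m0 : ℝ)) * (r : ℝ) ^ c
          = (r.choose m0 : ℝ) * (((m0 : ℝ) / (2 * r)) ^ c * (r : ℝ) ^ c) := by ring
        _ = (r.choose m0 : ℝ) * ((m0 : ℝ) / 2) ^ c := by rw [h14]
        _ ≤ (r.choose m0 : ℝ) * (m0.descFactorial c : ℝ) :=
            mul_le_mul_of_nonneg_left h6 (Nat.cast_nonneg _)
        _ = (r.descFactorial c : ℝ) * ((r - c).choose (m0 - c) : ℝ) := h12
        _ ≤ (r : ℝ) ^ c * ((r - c).choose (m0 - c) : ℝ) :=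
            mul_le_mul_of_nonneg_right h11 (Nat.cast_nonneg _)
        _ = ((r - c).choose (m0 - c) : ℝ) * (r : ℝ) ^ c := by ring
    exact le_of_mul_le_mul_right h17 h15
  exact (mul_le_mul_of_nonneg_right h13 (Nat.cast_nonneg _)).trans h16

end JAV

open JAV in
/-- module JAV -/
theorem t_JAV : S_JAV := by
  intro n r m0 k R hk h4 hr hsum
  have hPC : ((univ : Finset (Fin r)).powersetCard m0).card = r.choose m0 := by
    rw [Finset.card_powersetCard, Finset.card_univ, Fintype.card_fin]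
  have hne : ((univ : Finset (Fin r)).powersetCard m0).Nonempty := by
    rw [← Finset.card_pos, hPC]
    exact Nat.choose_pos hr
  have hlow : ∑ J ∈ (univ : Finset (Fin r)).powersetCard m0,
      ((n : ℝ) / 2 * ((m0 : ℝ) / (2 * r)) ^ (2 * k)) ≤
      ∑ J ∈ (univ : Finset (Fin r)).powersetCard m0, ((univ.filter fun v => R v ⊆ J).card : ℝ) := by
    have h1 : ∑ J ∈ (univ : Finset (Fin r)).powersetCard m0,
        ((univ.filter fun v => R v ⊆ J).card : ℝ) =
        ∑ v, ((((univ : Finset (Fin r)).powersetCard m0).filter fun J => R v ⊆ J).card : ℝ) := by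
      simp only [Finset.card_filter, Nat.cast_sum]
      exact Finset.sum_comm
    rw [h1, Finset.sum_const, hPC, nsmul_eq_mul]
    calc (r.choose m0 : ℝ) * ((n : ℝ) / 2 * ((m0 : ℝ) / (2 * r)) ^ (2 * k))
        = (n : ℝ) / 2 * (((m0 : ℝ) / (2 * r)) ^ (2 * k) * (r.choose m0 : ℝ)) := by ring
      _ ≤ ((univ.filter fun v => (R v).card ≤ 2 * k).card : ℝ) *
          (((m0 : ℝ) / (2 * r)) ^ (2 * k) * (r.choose m0 : ℝ)) :=
          mul_le_mul_of_nonneg_right (half n r k R hk hsum) (by positivity)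
      _ = ∑ v ∈ univ.filter (fun v => (R v).card ≤ 2 * k),
          (((m0 : ℝ) / (2 * r)) ^ (2 * k) * (r.choose m0 : ℝ)) := by
          rw [Finset.sum_const, nsmul_eq_mul]
      _ ≤ ∑ v ∈ univ.filter (fun v => (R v).card ≤ 2 * k),
          ((((univ : Finset (Fin r)).powersetCard m0).filter fun J => R v ⊆ J).card : ℝ) := by
          refine Finset.sum_le_sum fun v hv => ?_
          have hv' := (Finset.mem_filter.1 hv).2
          refine (ratio r m0 k (R v).card hk h4 hr hv').trans ?_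
          exact_mod_cast card_super r m0 (R v) (by omega)
      _ ≤ ∑ v, ((((univ : Finset (Fin r)).powersetCard m0).filter fun J => R v ⊆ J).card : ℝ) :=
          Finset.sum_le_sum_of_subset_of_nonneg (Finset.subset_univ _) fun _ _ _ =>
            Nat.cast_nonneg _
  obtain ⟨J, hJ, hJ'⟩ := Finset.exists_le_of_sum_le hne hlow
  exact ⟨J, (Finset.mem_powersetCard.1 hJ).2, hJ'⟩

end Pool.Agent.PPL
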