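import Pool.Agent.PPL.St3

/-!
# Project PPL: exponentially small correlation on a set of inputs (module LOW)
-/

set_option autoImplicit false

open Finset
open scoped Classical

namespace Pool.Agent.PPL.LOWP

open Pool.Agent.URG (VarX VarA deg lg pols Zero)
open Pool.Agent.HPM (GMachs)
open Pool.Agent.HPM.Fn (Coord)
open Pool.Agent.TKN.ONE (cop pt blk size BV Bas Lay sw dat inp)

/-! ## Signs -/

lemma auto_mono {n : ℕ} {f : (Fin n → Bool) → Bool} {d d' : ℝ} (h : Auto f d) (hd : d ≤ d') :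
    Auto f d' := fun D hD => h D (hd.trans hD)

lemma sg_odd (m : ℕ) : sg (decide (Odd m)) = (-1) ^ m := by
  unfold sg
  by_cases h : Odd m
  · simp [h, h.neg_one_pow]
  · simp [h, (Nat.not_odd_iff_even.1 h).neg_one_pow]

lemma sgP_odd (m : ℕ) : sgP (decide (Odd m) = true) = (-1) ^ m := by
  unfold sgP
  by_cases h : Odd m
  · simp [h, h.neg_one_pow]
  · simp [h, (Nat.not_odd_iff_even.1 h).neg_one_pow]

lemma sgP_abs (P : Prop) : |sgP P| ≤ 1 := by
  unfold sgP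
  split_ifs <;> simp

/-! ## The inputs -/

section
variable {M : ℕ} (ly : Lay M) (E : Fin (blk M)) (u : VarX (pt M (E.val + 1)) (E.val + 1) → Bool)

/-- the input with the point bits `x` -/
noncomputable def emb (x : Fin (cop (E.val + 1)) × Fin (pt M (E.val + 1)) → Bool) :
    Fin (size M) → Bool :=
  Fin.append (fun e' => decide (e' = E))
    (Function.extend (ly.pos E) (Sum.elim u x) (fun _ => false))

lemma emb_sw (x : Fin (cop (E.val + 1)) × Fin (pt M (E.val + 1)) → Bool) (e' : Fin (blk M)) :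
    emb ly E u x (sw e') = decide (e' = E) := by
  unfold emb sw
  exact Fin.append_left _ _ _

lemma emb_right (x : Fin (cop (E.val + 1)) × Fin (pt M (E.val + 1)) → Bool) (i : Fin (2 * M)) :
    emb ly E u x (Fin.natAdd (blk M) i) =
      Function.extend (ly.pos E) (Sum.elim u x) (fun _ => false) i := by
  unfold emb
  exact Fin.append_right _ _ _

lemma emb_dat (x : Fin (cop (E.val + 1)) × Fin (pt M (E.val + 1)) → Bool) (w : BV M (E.val + 1)) :
    emb ly E u x (dat (ly.pos E w)) = Sum.elim u x w := by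
  unfold dat
  rw [emb_right]
  exact (ly.inj E).extend_apply _ _ _

lemma emb_inj : Function.Injective (emb ly E u) := by
  intro x y h
  funext p
  have h1 := congrFun h (dat (ly.pos E (Sum.inr p)))
  rw [emb_dat, emb_dat] at h1
  exact h1

lemma emb_loc (x y : Fin (cop (E.val + 1)) × Fin (pt M (E.val + 1)) → Bool) (j : Fin (size M))
    (h : ∀ p, j = dat (ly.pos E (Sum.inr p)) → x p = y p) : emb ly E u x j = emb ly E u y j := by
  revert h
  refine Fin.addCases (motive := fun j : Fin (size M) =>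
    (∀ p, j = dat (ly.pos E (Sum.inr p)) → x p = y p) → emb ly E u x j = emb ly E u y j)
    (fun i => ?_) (fun i => ?_) j
  · intro _
    exact (emb_sw ly E u x i).trans (emb_sw ly E u y i).symm
  · intro h
    rw [emb_right, emb_right]
    by_cases hi : ∃ w, ly.pos E w = i
    · obtain ⟨w, rfl⟩ := hi
      rw [(ly.inj E).extend_apply, (ly.inj E).extend_apply]
      rcases w with w | p
      · rfl
      · exact h p rfl
    · rw [Function.extend_apply' _ _ _ hi, Function.extend_apply' _ _ _ hi]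

lemma fP_emb (β : Bas M) (x : Fin (cop (E.val + 1)) × Fin (pt M (E.val + 1)) → Bool) :
    sgP (fP β ly (emb ly E u x) = true) = ∏ l, sg (par (β E) u fun j => x (l, j)) := by
  unfold fP par
  rw [sgP_odd]
  simp only [sg_odd]
  rw [Finset.prod_pow_eq_pow_sum]
  congr 1
  rw [Finset.card_filter, Fintype.sum_sigma, Finset.sum_eq_single E]
  · rw [Fintype.sum_prod_type]
    refine Finset.sum_congr rfl fun l _ => ?_
    rw [Finset.card_filter]
    refine Finset.sum_congr rfl fun t _ => ?_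
    have h1 : On β ly ⟨E, (l, t)⟩ (emb ly E u x) ↔ Bit (β E) u t (fun j => x (l, j)) := by
      unfold On
      simp only [inp, emb_sw, emb_dat, decide_true, true_and, Sum.elim_inl, Sum.elim_inr]
    simp only [h1]
  · intro e' _ he
    refine Finset.sum_eq_zero fun p _ => ?_
    rw [if_neg]
    unfold On
    rw [emb_sw]
    simp [he]
  · intro h
    exact absurd (Finset.mem_univ _) h

/-! ## The machines -/

/-- the system of a machine -/
noncomputable def toRS {s : ℕ} {V : Type} (G : GMachs s 0 (Fin (size M)) V) :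
    RS (Fin (cop (E.val + 1)) × Fin (pt M (E.val + 1))) V where
  start := G.start
  rd t v := univ.filter fun p => ∃ i, G.query t v i = dat (ly.pos E (Sum.inr p))
  next t v x := G.next t v (fun i => emb ly E u x (G.query t v i)) (fun _ => false)
  loc t v x y h := by
    congr 1
    funext i
    refine emb_loc ly E u x y _ fun p hp => h p ?_
    exact Finset.mem_filter.2 ⟨Finset.mem_univ _, i, hp⟩

lemma toRS_st {s : ℕ} {V : Type} (G : GMachs s 0 (Fin (size M)) V)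
    (x : Fin (cop (E.val + 1)) × Fin (pt M (E.val + 1)) → Bool) (t : ℕ) :
    (toRS ly E u G).st x t = G.state (emb ly E u x) (fun _ _ => false) t := by
  induction t with
  | zero => rfl
  | succ t ih =>
    unfold RS.st GMachs.state
    rw [ih]
    rfl

lemma toRS_rd {s : ℕ} {V : Type} (G : GMachs s 0 (Fin (size M)) V) (t : ℕ) (v : V) :
    ((toRS ly E u G).rd t v).card ≤ s := by
  have h1 : ((toRS ly E u G).rd t v).card ≤ (univ.image (G.query t v)).card := by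
    refine Finset.card_le_card_of_injOn (fun p => dat (ly.pos E (Sum.inr p))) ?_ ?_
    · intro p hp
      obtain ⟨i, hi⟩ := (Finset.mem_filter.1 (Finset.mem_coe.1 hp)).2
      exact Finset.mem_coe.2 (Finset.mem_image.2 ⟨i, Finset.mem_univ _, hi⟩)
    · intro p _ q _ h
      have h2 : ly.pos E (Sum.inr p) = ly.pos E (Sum.inr q) := by
        unfold dat at h
        exact Fin.natAdd_injective _ _ h
      exact Sum.inr_injective (ly.inj E h2)
  refine h1.trans (Finset.card_image_le.trans ?_)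
  rw [Finset.card_univ, Fintype.card_fin]

/-- a machine that reads nothing is constant -/
lemma const_state {V I : Type} (G : GMachs 0 0 I V) (x y : I → Bool) (t : ℕ) :
    G.state x (fun _ _ => false) t = G.state y (fun _ _ => false) t := by
  induction t with
  | zero => rfl
  | succ t ih =>
    unfold GMachs.state
    rw [ih]
    congr 1
    funext i
    exact i.elim0

end

/-- the system that does nothing -/
def stay {P V : Type} (v : V) : RS P V where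
  start := v
  rd _ _ := ∅
  next _ v _ := v
  loc _ _ _ _ _ := rfl

/-! ## Numbers -/

lemma num_W (A1 k : ℕ) (hk : 2 ≤ k) :
    2 ^ 102 * ((12 * k) ^ (A1 * (12 * k))) ^ 12 * k ≤ k ^ ((720 * A1 + 103) * k) := by
  have h12 : 12 * k ≤ k ^ 5 := by
    have h1 : 2 ^ 4 ≤ k ^ 4 := Nat.pow_le_pow_left hk 4
    have h2 : k ^ 5 = k ^ 4 * k := by ring
    rw [h2]
    exact Nat.mul_le_mul_right k (by omega)
  have h3 : ((12 * k) ^ (A1 * (12 * k))) ^ 12 ≤ k ^ (720 * A1 * k) := by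
    calc ((12 * k) ^ (A1 * (12 * k))) ^ 12 ≤ ((k ^ 5) ^ (A1 * (12 * k))) ^ 12 :=
          Nat.pow_le_pow_left (Nat.pow_le_pow_left h12 _) _
      _ = k ^ (720 * A1 * k) := by
          rw [← pow_mul, ← pow_mul]
          congr 1
          ring
  have h4 : 2 ^ 102 * k ≤ k ^ (103 * k) := by
    calc 2 ^ 102 * k ≤ k ^ 102 * k := Nat.mul_le_mul_right k (Nat.pow_le_pow_left hk _)
      _ = k ^ 103 := by ring
      _ ≤ k ^ (103 * k) := Nat.pow_le_pow_right (by omega) (by nlinarith)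
  calc 2 ^ 102 * ((12 * k) ^ (A1 * (12 * k))) ^ 12 * k
      = ((12 * k) ^ (A1 * (12 * k))) ^ 12 * (2 ^ 102 * k) := by ring
    _ ≤ k ^ (720 * A1 * k) * k ^ (103 * k) := Nat.mul_le_mul h3 h4
    _ = k ^ ((720 * A1 + 103) * k) := by
        rw [← pow_add]
        congr 1
        ring

lemma cop_le (e : ℕ) : cop e ≤ 64 * (4 ^ e) ^ 2 := by
  have h1 : (4 : ℕ) ^ e = 2 ^ e * 2 ^ e := by
    rw [show (4 : ℕ) = 2 * 2 by norm_num, mul_pow]
  have h2 : 1 ≤ 2 ^ e := Nat.one_le_two_pow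
  unfold cop
  rw [h1]
  generalize 2 ^ e = z at *
  have h3 : z ≤ z * z := by nlinarith
  have h4 : 1 ≤ z * z := by nlinarith
  calc 3 * (z * z + 1) * (4 * (z + 1) + 1) + 1 ≤ 3 * (z * z + z * z) * (4 * (z * z + z * z) + z * z) + z * z * (z * z) := by
        have h5 : 4 * (z + 1) + 1 ≤ 4 * (z * z + z * z) + z * z := by omega
        have h6 : 3 * (z * z + 1) ≤ 3 * (z * z + z * z) := by omega
        exact add_le_add (Nat.mul_le_mul h6 h5) (by nlinarith)
    _ ≤ 64 * (z * z) ^ 2 := by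
        have : 3 * (z * z + z * z) * (4 * (z * z + z * z) + z * z) + z * z * (z * z) =
          55 * (z * z) ^ 2 := by ring
        rw [this]
        exact Nat.mul_le_mul_right _ (by norm_num)

lemma two_mul_le (y : ℝ) (hy : 0 ≤ y) : 2 * y ≤ (2 : ℝ) ^ (3 * y) := by
  have h1 := Real.log_two_gt_d9
  have h2 : (2 : ℝ) ^ (3 * y) = Real.exp (Real.log 2 * (3 * y)) := Real.rpow_def_of_pos two_pos _
  rw [h2]
  refine le_trans ?_ (Real.add_one_le_exp _)
  nlinarith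

lemma four_mul_le (x : ℝ) (hx : 0 ≤ x) : 4 * x ≤ (2 : ℝ) ^ (6 * √x) := by
  have h1 := two_mul_le (√x) (Real.sqrt_nonneg x)
  have h2 : (2 : ℝ) ^ (6 * √x) = (2 : ℝ) ^ (3 * √x) * (2 : ℝ) ^ (3 * √x) := by
    rw [← Real.rpow_add two_pos]
    congr 1
    ring
  rw [h2]
  have h3 : 4 * x = (2 * √x) * (2 * √x) := by
    nlinarith [Real.mul_self_sqrt hx]
  rw [h3]
  exact mul_le_mul h1 h1 (by positivity) (by positivity)

/-- the final exponent -/
lemma expo (k M N n L Q F W : ℝ) (hk : 2 ≤ k) (hQ : 1 ≤ Q) (hW : 2 ^ 102 * Q ^ 12 * k ≤ W)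
    (hWM : W ≤ M) (hN : N ≤ 3 * M) (hL1 : 1 ≤ L) (hL : L ≤ 2 ^ 22 * Q ^ 2)
    (hF0 : 0 ≤ F) (hF : F ≤ 2 * Q) (hMn : M ≤ 2 * (n * L)) :
    (6 * √(k * M) + 6 * √(k * M) * L + 1 / W * N) * F + -(n / Q) ≤ -(1 / W * N) := by
  have hk0 : 0 < k := by linarith
  have hQ0 : 0 < Q := by linarith
  have hL0 : 0 < L := by linarith
  have hW0 : 0 < W := lt_of_lt_of_le (by positivity) hW
  have hM0 : 0 < M := lt_of_lt_of_le hW0 hWM
  -- the square root
  have h1 : √(k * M) ≤ M / (24 * 2 ^ 46 * Q ^ 6) := by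
    refine Real.sqrt_le_iff.2 ⟨by positivity, ?_⟩
    rw [div_pow, le_div_iff₀ (by positivity)]
    have h2 : (24 * 2 ^ 46 * Q ^ 6) ^ 2 = 576 * 2 ^ 92 * Q ^ 12 := by ring
    rw [h2]
    have h3 : k * (576 * 2 ^ 92 * Q ^ 12) ≤ M := by
      refine le_trans ?_ (hW.trans hWM)
      have : 0 < Q ^ 12 * k := by positivity
      nlinarith
    calc k * M * (576 * 2 ^ 92 * Q ^ 12) = k * (576 * 2 ^ 92 * Q ^ 12) * M := by ring
      _ ≤ M * M := mul_le_mul_of_nonneg_right h3 hM0.le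
      _ = M ^ 2 := by ring
  -- `n / Q`
  have h4 : M / (2 ^ 23 * Q ^ 3) ≤ n / Q := by
    rw [div_le_div_iff₀ (by positivity) hQ0]
    have hn0 : 0 ≤ n := by
      by_contra hn
      push Not at hn
      nlinarith
    have h5 : n * L ≤ n * (2 ^ 22 * Q ^ 2) := mul_le_mul_of_nonneg_left hL hn0
    calc M * Q ≤ 2 * (n * L) * Q := mul_le_mul_of_nonneg_right hMn hQ0.le
      _ ≤ 2 * (n * (2 ^ 22 * Q ^ 2)) * Q := by gcongr
      _ = n * (2 ^ 23 * Q ^ 3) := by ring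
  -- `N / W`
  have h6 : 1 / W * N * (F + 1) ≤ M / (2 ^ 24 * Q ^ 3) := by
    have h7 : F + 1 ≤ 3 * Q := by linarith
    have h8 : 1 / W * N ≤ 3 * M / W := by
      rw [one_div, inv_mul_eq_div]
      gcongr
    have h9 : 3 * M / W * (3 * Q) ≤ M / (2 ^ 24 * Q ^ 3) := by
      rw [div_mul_eq_mul_div, div_le_div_iff₀ hW0 (by positivity)]
      have h10 : 9 * Q * (2 ^ 24 * Q ^ 3) ≤ W := by
        refine le_trans ?_ hW
        have h11 : Q ^ 4 ≤ Q ^ 12 := pow_le_pow_right₀ hQ (by norm_num)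
        have h12 : 9 * Q * (2 ^ 24 * Q ^ 3) = 9 * 2 ^ 24 * Q ^ 4 := by ring
        rw [h12]
        have h13 : Q ^ 12 * 1 ≤ Q ^ 12 * k := mul_le_mul_of_nonneg_left (by linarith) (by positivity)
        nlinarith [pow_pos hQ0 12]
      calc 3 * M * (3 * Q) * (2 ^ 24 * Q ^ 3) = M * (9 * Q * (2 ^ 24 * Q ^ 3)) := by ring
        _ ≤ M * W := mul_le_mul_of_nonneg_left h10 hM0.le
    refine le_trans ?_ h9
    exact mul_le_mul h8 h7 (by linarith) (by positivity)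
  -- the main term
  have h14 : (6 * √(k * M) + 6 * √(k * M) * L) * F ≤ M / (2 ^ 24 * Q ^ 3) := by
    have h15 : (1 : ℝ) + L ≤ 2 ^ 23 * Q ^ 2 := by
      have : (1 : ℝ) ≤ 2 ^ 22 * Q ^ 2 := by linarith
      linarith
    have h16 : (6 * √(k * M) + 6 * √(k * M) * L) * F = 6 * √(k * M) * ((1 + L) * F) := by ring
    rw [h16]
    have h17 : (1 + L) * F ≤ 2 ^ 23 * Q ^ 2 * (2 * Q) := mul_le_mul h15 hF hF0 (by positivity)
    calc 6 * √(k * M) * ((1 + L) * F)
        ≤ 6 * (M / (24 * 2 ^ 46 * Q ^ 6)) * (2 ^ 23 * Q ^ 2 * (2 * Q)) := by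
          refine mul_le_mul ?_ h17 (by positivity) (by positivity)
          linarith
      _ = M / (2 ^ 24 * Q ^ 3) := by
          field_simp
          norm_num
  have h18 : M / (2 ^ 23 * Q ^ 3) = M / (2 ^ 24 * Q ^ 3) + M / (2 ^ 24 * Q ^ 3) := by
    field_simp
    norm_num
  nlinarith

/-- the final estimate -/
lemma final (k M N n L Q F s T : ℕ) (W cV : ℝ) (hk : 2 ≤ k) (hQ : 1 ≤ Q)
    (hW : 2 ^ 102 * (Q : ℝ) ^ 12 * k ≤ W) (hWM : W ≤ M) (hN : N ≤ 3 * M) (hL1 : 1 ≤ L)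
    (hL : L ≤ 2 ^ 22 * Q ^ 2) (hF : F ≤ 2 * Q) (hMn : M ≤ 2 * (n * L)) (hT : T ≤ k * N)
    (hTs : T * s ≤ k * N) (hc0 : 0 ≤ cV) (hc : cV ≤ (2 : ℝ) ^ (1 / W * N)) :
    (((T : ℝ) + 1) * ((T : ℝ) * s + 1) ^ L * cV) ^ F * 2 ^ (L * n) * (2 : ℝ) ^ (-((n : ℝ) / Q)) ≤
      (2 : ℝ) ^ (-(1 / W * N)) * 2 ^ (L * n) := by
  have hkM : (3 * (k : ℝ) * M + 1) ≤ 4 * (k * M) := by
    have hQ' : (1 : ℝ) ≤ Q := by exact_mod_cast hQ
    have hk' : (2 : ℝ) ≤ k := by exact_mod_cast hk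
    have h1 : (1 : ℝ) ≤ M := by
      refine le_trans ?_ (hW.trans hWM)
      have h2 : (1 : ℝ) ≤ (Q : ℝ) ^ 12 := one_le_pow₀ hQ'
      nlinarith
    nlinarith
  have hT1 : ((T : ℝ) + 1) ≤ (2 : ℝ) ^ (6 * √((k : ℝ) * M)) := by
    refine le_trans (le_trans ?_ hkM) (four_mul_le _ (by positivity))
    have : (T : ℝ) ≤ k * N := by exact_mod_cast hT
    have h2 : (N : ℝ) ≤ 3 * M := by exact_mod_cast hN
    have h3 : (k : ℝ) * N ≤ k * (3 * M) := mul_le_mul_of_nonneg_left h2 (by positivity)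
    linarith
  have hT2 : ((T : ℝ) * s + 1) ≤ (2 : ℝ) ^ (6 * √((k : ℝ) * M)) := by
    refine le_trans (le_trans ?_ hkM) (four_mul_le _ (by positivity))
    have : (T : ℝ) * s ≤ k * N := by exact_mod_cast hTs
    have h2 : (N : ℝ) ≤ 3 * M := by exact_mod_cast hN
    have h3 : (k : ℝ) * N ≤ k * (3 * M) := mul_le_mul_of_nonneg_left h2 (by positivity)
    linarith
  have h1 : ((T : ℝ) + 1) * ((T : ℝ) * s + 1) ^ L * cV ≤
      (2 : ℝ) ^ (6 * √((k : ℝ) * M) + 6 * √((k : ℝ) * M) * L + 1 / W * N) := by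
    rw [Real.rpow_add two_pos, Real.rpow_add two_pos, Real.rpow_mul two_pos.le (6 * √((k : ℝ) * M)),
      Real.rpow_natCast]
    refine mul_le_mul (mul_le_mul hT1 ?_ (by positivity) (by positivity)) hc hc0 (by positivity)
    exact pow_le_pow_left₀ (by positivity) hT2 _
  have h2 : (((T : ℝ) + 1) * ((T : ℝ) * s + 1) ^ L * cV) ^ F ≤
      (2 : ℝ) ^ ((6 * √((k : ℝ) * M) + 6 * √((k : ℝ) * M) * L + 1 / W * N) * F) := by
    rw [Real.rpow_mul two_pos.le, Real.rpow_natCast]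
    exact pow_le_pow_left₀ (by positivity) h1 _
  have h3 := expo k M N n L Q F W (by exact_mod_cast hk) (by exact_mod_cast hQ) hW hWM
    (by exact_mod_cast hN) (by exact_mod_cast hL1) (by exact_mod_cast hL)
    (by positivity) (by exact_mod_cast hF) (by exact_mod_cast hMn)
  have h4 : (2 : ℝ) ^ ((6 * √((k : ℝ) * M) + 6 * √((k : ℝ) * M) * L + 1 / W * N) * F) *
      (2 : ℝ) ^ (-((n : ℝ) / Q)) ≤ (2 : ℝ) ^ (-(1 / W * N)) := by
    rw [← Real.rpow_add two_pos]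
    exact Real.rpow_le_rpow_of_exponent_le one_le_two h3
  calc (((T : ℝ) + 1) * ((T : ℝ) * s + 1) ^ L * cV) ^ F * 2 ^ (L * n) * (2 : ℝ) ^ (-((n : ℝ) / Q))
      = (((T : ℝ) + 1) * ((T : ℝ) * s + 1) ^ L * cV) ^ F * (2 : ℝ) ^ (-((n : ℝ) / Q)) *
          2 ^ (L * n) := by ring
    _ ≤ (2 : ℝ) ^ ((6 * √((k : ℝ) * M) + 6 * √((k : ℝ) * M) * L + 1 / W * N) * F) *
          (2 : ℝ) ^ (-((n : ℝ) / Q)) * 2 ^ (L * n) := by gcongr
    _ ≤ (2 : ℝ) ^ (-(1 / W * N)) * 2 ^ (L * n) := by gcongr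

/-! ## The bound for one machine -/

section
variable {M : ℕ} (ly : Lay M) (E : Fin (blk M)) (u : VarX (pt M (E.val + 1)) (E.val + 1) → Bool)

/-- the set of the inputs -/
noncomputable def HH : Finset (Fin (size M) → Bool) := univ.image (emb ly E u)

lemma HH_nonempty : (HH ly E u).Nonempty :=
  ⟨emb ly E u fun _ => false, Finset.mem_image_of_mem _ (Finset.mem_univ _)⟩

lemma HH_card : (HH ly E u).card = 2 ^ (cop (E.val + 1) * pt M (E.val + 1)) := by
  unfold HH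
  rw [Finset.card_image_of_injective _ (emb_inj ly E u), Finset.card_univ]
  simp

lemma HH_sum (β : Bas M) (P : (Fin (size M) → Bool) → Prop) :
    ∑ v ∈ HH ly E u, sgP (P v) * sgP (fP β ly v = true) =
      ∑ x : Fin (cop (E.val + 1)) × Fin (pt M (E.val + 1)) → Bool,
        sgP (P (emb ly E u x)) * ∏ l, sg (par (β E) u fun j => x (l, j)) := by
  unfold HH
  rw [Finset.sum_image fun x _ y _ h => emb_inj ly E u h]
  refine Finset.sum_congr rfl fun x _ => ?_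
  rw [fP_emb]

end

/-- `S_MUL` for one `k` -/
def MulK (A1 K : ℕ) : Prop := ∀ n : ℕ, K ^ (A1 * K) ≤ n →
  ∀ (L : ℕ) (V : Type) [Fintype V] (R : RS (Fin L × Fin n) V) (s T : ℕ)
    (f : (Fin n → Bool) → Bool) (g : V → ℝ), 1 ≤ L → (∀ t v, (R.rd t v).card ≤ s) →
  2 * (T * s) ≤ K * (n * L) → (s : ℝ) ≤ (n : ℝ) / K ^ (A1 * K) →
  Auto f ((n : ℝ) / K ^ (A1 * K)) → (∀ v, |g v| ≤ 1) →
  |∑ x : Fin L × Fin n → Bool, g (R.st x T) * ∏ l, sg (f fun j => x (l, j))| ≤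
    (((T + 1) * (T * s + 1) ^ L * Fintype.card V : ℕ) : ℝ) ^ (K ^ A1 + 1) * 2 ^ (L * n) *
      (2 : ℝ) ^ (-((n : ℝ) / K ^ (A1 * K)))

lemma core (A1 k M : ℕ) (hk : 2 ≤ k) (hMul : MulK A1 (12 * k))
    (hW : 2 ^ 102 * ((12 * k) ^ (A1 * (12 * k))) ^ 12 * k ≤ M) (W : ℝ)
    (hW1 : 2 ^ 102 * (((12 * k) ^ (A1 * (12 * k)) : ℕ) : ℝ) ^ 12 * k ≤ W) (hW2 : W ≤ M)
    (β : Bas M) (ly : Lay M) (E : Fin (blk M)) (u : VarX (pt M (E.val + 1)) (E.val + 1) → Bool)
    (hN : size M ≤ 3 * M) (hL1 : 1 ≤ cop (E.val + 1))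
    (hL : cop (E.val + 1) ≤ 2 ^ 22 * ((12 * k) ^ (A1 * (12 * k))) ^ 2)
    (hMn : M ≤ 2 * (pt M (E.val + 1) * cop (E.val + 1)))
    (hAuto : Auto (par (β E) u) ((pt M (E.val + 1) : ℝ) / ((12 * k) ^ (A1 * (12 * k)) : ℕ)))
    (s T : ℕ) (V : Type) [Fintype V] (P : (Fin (size M) → Bool) → Prop)
    (hs : (s : ℝ) ≤ 1 / W * size M) (hTs : T * s ≤ k * size M)
    (hV : (Fintype.card V : ℝ) ≤ (2 : ℝ) ^ (1 / W * size M)) (hP : Det s (Fin (size M)) V T P) :
    |∑ v ∈ HH ly E u, sgP (P v) * sgP (fP β ly v = true)| ≤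
      (2 : ℝ) ^ (-(1 / W * size M)) * (HH ly E u).card := by
  obtain ⟨G, hG⟩ := hP
  rw [HH_sum, HH_card]
  -- numbers
  have hQ : 1 ≤ (12 * k) ^ (A1 * (12 * k)) := Nat.one_le_pow _ _ (by omega)
  have hF : (12 * k) ^ A1 + 1 ≤ 2 * (12 * k) ^ (A1 * (12 * k)) := by
    have : (12 * k) ^ A1 ≤ (12 * k) ^ (A1 * (12 * k)) :=
      Nat.pow_le_pow_right (by omega) (by nlinarith)
    omega
  have hQn : (12 * k) ^ (A1 * (12 * k)) ≤ pt M (E.val + 1) := by
    by_contra hlt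
    push Not at hlt
    have h1 : M ≤ 2 * ((12 * k) ^ (A1 * (12 * k)) * (2 ^ 22 * ((12 * k) ^ (A1 * (12 * k))) ^ 2)) := by
      refine hMn.trans (Nat.mul_le_mul_left _ (Nat.mul_le_mul hlt.le hL))
    generalize (12 * k) ^ (A1 * (12 * k)) = Q at *
    have h2 : 2 * (Q * (2 ^ 22 * Q ^ 2)) < 2 ^ 102 * Q ^ 12 * k := by
      have h3 : Q ^ 3 ≤ Q ^ 12 := Nat.pow_le_pow_right hQ (by norm_num)
      have h4 : 2 * (Q * (2 ^ 22 * Q ^ 2)) = 2 ^ 23 * Q ^ 3 := by ring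
      have h5 : 1 ≤ Q ^ 12 := Nat.one_le_pow _ _ hQ
      rw [h4]
      nlinarith
    omega
  have hcast : (((12 * k : ℕ) : ℝ)) ^ (A1 * (12 * k)) = (((12 * k) ^ (A1 * (12 * k)) : ℕ) : ℝ) := by
    push_cast
    rfl
  have hQ' : (1 : ℝ) ≤ (((12 * k) ^ (A1 * (12 * k)) : ℕ) : ℝ) := by exact_mod_cast hQ
  have hk' : (2 : ℝ) ≤ k := by exact_mod_cast hk
  have hW0 : 0 < W := lt_of_lt_of_le (by positivity) hW1
  -- `s ≤ n / Q`
  have hs' : (s : ℝ) ≤ (pt M (E.val + 1) : ℝ) / ((12 * k : ℕ) : ℝ) ^ (A1 * (12 * k)) := by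
    rw [hcast]
    refine hs.trans ?_
    have h1 : ((size M : ℕ) : ℝ) ≤ 3 * M := by exact_mod_cast hN
    have h2 : ((M : ℕ) : ℝ) ≤ 2 * ((pt M (E.val + 1) : ℝ) * cop (E.val + 1)) := by
      exact_mod_cast hMn
    have h3 : ((cop (E.val + 1) : ℕ) : ℝ) ≤
        2 ^ 22 * (((12 * k) ^ (A1 * (12 * k)) : ℕ) : ℝ) ^ 2 := by exact_mod_cast hL
    generalize (((12 * k) ^ (A1 * (12 * k)) : ℕ) : ℝ) = Q at *
    generalize ((pt M (E.val + 1) : ℕ) : ℝ) = n at *
    have hn0 : 0 ≤ n := by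
      by_contra hn
      push Not at hn
      have : (0 : ℝ) < cop (E.val + 1) := by exact_mod_cast hL1
      have h0 : (0 : ℝ) ≤ M := Nat.cast_nonneg _
      nlinarith
    rw [one_div, inv_mul_eq_div, div_le_div_iff₀ hW0 (by linarith)]
    have h4 : (M : ℝ) ≤ 2 ^ 23 * Q ^ 2 * n := by
      refine h2.trans ?_
      have := mul_le_mul_of_nonneg_left h3 hn0
      linarith
    have h5 : 3 * 2 ^ 23 * Q ^ 2 * Q ≤ W := by
      refine le_trans ?_ hW1
      have h6 : Q ^ 3 ≤ Q ^ 12 := pow_le_pow_right₀ hQ' (by norm_num)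
      have h7 : Q ^ 12 * 1 ≤ Q ^ 12 * k := mul_le_mul_of_nonneg_left (by linarith) (by positivity)
      have h8 : 0 < Q ^ 12 := by positivity
      have h9 : 3 * 2 ^ 23 * Q ^ 2 * Q = 3 * 2 ^ 23 * Q ^ 3 := by ring
      rw [h9]
      nlinarith
    calc (size M : ℝ) * Q ≤ 3 * M * Q := by gcongr
      _ ≤ 3 * (2 ^ 23 * Q ^ 2 * n) * Q := by gcongr
      _ = n * (3 * 2 ^ 23 * Q ^ 2 * Q) := by ring
      _ ≤ n * W := by gcongr
  have hAuto' : Auto (par (β E) u)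
      ((pt M (E.val + 1) : ℝ) / ((12 * k : ℕ) : ℝ) ^ (A1 * (12 * k))) := by
    rw [hcast]
    exact hAuto
  -- the bound for a system
  have key : ∀ (R : RS (Fin (cop (E.val + 1)) × Fin (pt M (E.val + 1))) V) (T' : ℕ),
      (∀ t v, (R.rd t v).card ≤ s) → T' * s ≤ k * size M → T' ≤ k * size M →
      |∑ x : Fin (cop (E.val + 1)) × Fin (pt M (E.val + 1)) → Bool,
        sgP (G.acc (R.st x T')) * ∏ l, sg (par (β E) u fun j => x (l, j))| ≤
      (2 : ℝ) ^ (-(1 / W * size M)) * (2 : ℝ) ^ (cop (E.val + 1) * pt M (E.val + 1)) := by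
    intro R T' hR hT's hT'
    have h1 := hMul (pt M (E.val + 1)) hQn (cop (E.val + 1)) V R s T' (par (β E) u)
      (fun v => sgP (G.acc v)) hL1 hR (by nlinarith) hs' hAuto' fun v => sgP_abs _
    refine h1.trans ?_
    have h2 := final k M (size M) (pt M (E.val + 1)) (cop (E.val + 1))
      ((12 * k) ^ (A1 * (12 * k))) ((12 * k) ^ A1 + 1) s T' W (Fintype.card V) hk hQ hW1 hW2 hN hL1
      hL hF hMn hT' hT's (Nat.cast_nonneg _) hV
    rw [hcast]
    refine le_trans (le_of_eq ?_) h2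
    push_cast
    rfl
  rcases Nat.eq_zero_or_pos s with hs0 | hs0
  · subst hs0
    have h1 := key (stay (G.state (emb ly E u fun _ => false) (fun _ _ => false) T)) 0
      (fun t v => by simp [stay]) (by simp) (Nat.zero_le _)
    have h2 : ∀ x : Fin (cop (E.val + 1)) × Fin (pt M (E.val + 1)) → Bool,
        sgP (P (emb ly E u x)) =
          sgP (G.acc ((stay (P := Fin (cop (E.val + 1)) × Fin (pt M (E.val + 1)))
            (G.state (emb ly E u fun _ => false) (fun _ _ => false) T)).st x 0)) := by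
      intro x
      have h3 : G.state (emb ly E u x) (fun _ _ => false) T =
          G.state (emb ly E u fun _ => false) (fun _ _ => false) T := const_state G _ _ T
      have h4 : (P (emb ly E u x)) = (G.acc (G.state (emb ly E u fun _ => false)
          (fun _ _ => false) T)) := by
        rw [← h3]
        exact propext (hG _)
      rw [h4]
      rfl
    simp only [h2]
    push_cast
    exact h1
  · have h1 := key (toRS ly E u G) T (toRS_rd ly E u G) hTs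
      ((Nat.le_mul_of_pos_right T hs0).trans hTs)
    have h2 : ∀ x : Fin (cop (E.val + 1)) × Fin (pt M (E.val + 1)) → Bool,
        sgP (P (emb ly E u x)) = sgP (G.acc ((toRS ly E u G).st x T)) := by
      intro x
      rw [toRS_st]
      congr 1
      exact propext (hG _)
    simp only [h2]
    push_cast
    exact h1

end Pool.Agent.PPL.LOWP

namespace Pool.Agent.PPL

open Pool.Agent.PPL.LOWP
open Pool.Agent.URG (VarX VarA deg lg pols Zero)
open Pool.Agent.TKN.ONE (cop pt blk size BV Bas Lay sw dat inp)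

theorem t_LOW (hMUL : S_MUL) (hGSD : S_GSD) (hSIZ : Pool.Agent.TKN.ONE.S_SIZ) : S_LOW := by
  obtain ⟨A1, hA1⟩ := hMUL
  refine ⟨720 * A1 + 103, fun k M hk hM β ly => ?_⟩
  have hMul : MulK A1 (12 * k) := fun n hn => hA1 (12 * k) (by omega) n hn
  have hW := num_W A1 k hk
  have hWM := hW.trans hM
  have hQ : 1 ≤ (12 * k) ^ (A1 * (12 * k)) := Nat.one_le_pow _ _ (by omega)
  set Q := (12 * k) ^ (A1 * (12 * k)) with hQdef
  -- the parameter
  obtain ⟨e0, he0, he1⟩ : ∃ e0 : ℕ, 64 * Q ≤ 4 ^ (e0 + 1) ∧ 4 ^ (e0 + 1) ≤ 256 * Q := by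
    have h1 : 1 < 64 * Q := by omega
    have h2 : 64 * Q ≤ 4 ^ Nat.clog 4 (64 * Q) := Nat.le_pow_clog (by norm_num) _
    have h3 : 4 ^ (Nat.clog 4 (64 * Q)).pred < 64 * Q := Nat.pow_pred_clog_lt_self (by norm_num) h1
    have h4 : 0 < Nat.clog 4 (64 * Q) := Nat.clog_pos (by norm_num) h1
    refine ⟨(Nat.clog 4 (64 * Q)).pred, ?_, ?_⟩
    · rw [← Nat.succ_eq_add_one, Nat.succ_pred_eq_of_pos h4]
      exact h2
    · rw [pow_succ]
      omega
  have he2 : 2 ≤ e0 + 1 := by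
    by_contra h
    have : e0 = 0 := by omega
    subst this
    omega
  -- `2 ^ 56 ≤ M`
  have hQ12 : 1 ≤ Q ^ 12 := Nat.one_le_pow _ _ hQ
  have hM56 : 2 ^ 56 ≤ M := by
    refine le_trans ?_ hWM
    calc 2 ^ 56 ≤ 2 ^ 102 * 1 * 1 := by norm_num
      _ ≤ 2 ^ 102 * Q ^ 12 * k := Nat.mul_le_mul (Nat.mul_le_mul_left _ hQ12) (by omega)
  obtain ⟨⟨hsz1, hsz2⟩, hb1, hsiz⟩ := hSIZ M hM56
  -- the parameter is in the range
  have hblk : e0 + 1 ≤ blk M := by
    unfold blk lg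
    rw [Nat.le_div_iff_mul_le (by norm_num)]
    have h1 : 2 ^ ((e0 + 1) * 8) ≤ M := by
      have h2 : 2 ^ ((e0 + 1) * 8) = (4 ^ (e0 + 1)) ^ 4 := by
        rw [← pow_mul, show (4 : ℕ) = 2 ^ 2 by norm_num, ← pow_mul]
        congr 1
        ring
      rw [h2]
      refine le_trans (Nat.pow_le_pow_left he1 4) (le_trans ?_ hWM)
      calc (256 * Q) ^ 4 = 2 ^ 32 * Q ^ 4 := by ring
        _ ≤ 2 ^ 102 * Q ^ 12 * 1 := by
            rw [mul_one]
            exact Nat.mul_le_mul (by norm_num) (Nat.pow_le_pow_right hQ (by norm_num))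
        _ ≤ 2 ^ 102 * Q ^ 12 * k := Nat.mul_le_mul_left _ (by omega)
    have h3 : (e0 + 1) * 8 ≤ Nat.log 2 M := Nat.le_log_of_pow_le (by norm_num) h1
    omega
  obtain ⟨hpt2, -, hcop1, -, -, -, -, hMn⟩ := hsiz (e0 + 1) (by omega) hblk
  have hcop : cop (e0 + 1) ≤ 2 ^ 22 * Q ^ 2 := by
    refine (cop_le (e0 + 1)).trans ?_
    calc 64 * (4 ^ (e0 + 1)) ^ 2 ≤ 64 * (256 * Q) ^ 2 :=
          Nat.mul_le_mul_left _ (Nat.pow_le_pow_left he1 2)
      _ = 2 ^ 22 * Q ^ 2 := by ring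
  have h64 : 64 ^ (e0 + 1) ≤ pt M (e0 + 1) := by
    by_contra hlt
    push Not at hlt
    have h1 : 64 ^ (e0 + 1) = (4 ^ (e0 + 1)) ^ 3 := by
      rw [← pow_mul, show (64 : ℕ) = 4 ^ 3 by norm_num, ← pow_mul]
      congr 1
      ring
    have h2 : 64 ^ (e0 + 1) ≤ (256 * Q) ^ 3 := by
      rw [h1]
      exact Nat.pow_le_pow_left he1 3
    have h3 : M ≤ 2 * ((256 * Q) ^ 3 * (2 ^ 22 * Q ^ 2)) :=
      hMn.trans (Nat.mul_le_mul_left _ (Nat.mul_le_mul (hlt.le.trans h2) hcop))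
    have h4 : 2 * ((256 * Q) ^ 3 * (2 ^ 22 * Q ^ 2)) = 2 ^ 47 * Q ^ 5 := by ring
    rw [h4] at h3
    have h5 : Q ^ 5 ≤ Q ^ 12 := Nat.pow_le_pow_right hQ (by norm_num)
    have h6 : Q ^ 12 * 1 ≤ Q ^ 12 * k := Nat.mul_le_mul_left _ (by omega)
    have h7 : 2 ^ 102 * Q ^ 12 * k = 2 ^ 102 * (Q ^ 12 * k) := by ring
    rw [h7] at hWM
    have h8 : 2 ^ 47 * Q ^ 5 < 2 ^ 102 * (Q ^ 12 * k) := by
      calc 2 ^ 47 * Q ^ 5 ≤ 2 ^ 47 * (Q ^ 12 * k) := Nat.mul_le_mul_left _ (by omega)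
        _ < 2 ^ 102 * (Q ^ 12 * k) := Nat.mul_lt_mul_of_pos_right (by norm_num) (by omega)
    omega
  -- the seeds
  obtain ⟨u, hu⟩ := hGSD (pt M (e0 + 1)) (e0 + 1) (β ⟨e0, hblk⟩) he2 h64
  have hAuto : Auto (par (β ⟨e0, hblk⟩) u) ((pt M (e0 + 1) : ℝ) / (Q : ℕ)) := by
    refine auto_mono hu ?_
    have h1 : (64 : ℝ) * (Q : ℕ) ≤ 4 ^ (e0 + 1) := by exact_mod_cast he0
    have h2 : (0 : ℝ) < (Q : ℕ) := by exact_mod_cast hQ
    have h3 : (0 : ℝ) ≤ (pt M (e0 + 1) : ℝ) := Nat.cast_nonneg _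
    rw [div_le_div_iff₀ (by positivity) h2]
    nlinarith
  have hcast : ((k : ℝ)) ^ ((720 * A1 + 103) * k) = ((k ^ ((720 * A1 + 103) * k) : ℕ) : ℝ) := by
    push_cast
    rfl
  refine ⟨HH ly ⟨e0, hblk⟩ u, HH_nonempty _ _ _, fun s T V _ P hs hTs hV hP => ?_⟩
  exact core A1 k M hk hMul hWM ((k : ℝ) ^ ((720 * A1 + 103) * k))
    (by rw [hcast]; exact_mod_cast hW) (by rw [hcast]; exact_mod_cast hM) β ly ⟨e0, hblk⟩ u
    (by omega) hcop1 hcop hMn hAuto s T V P hs (by exact_mod_cast hTs) hV hP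

end Pool.Agent.PPL
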