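import Pool.Agent.PPL.St2
import Pool.Agent.TKN.St3

/-!
# PPL, module LV2: one level with numbers
-/

set_option autoImplicit false

open Finset
open scoped Classical

namespace Pool.Agent.PPL

namespace LV2Aux

open Pool.Agent.TKN (eta)

theorem eta_add {x y : ℝ} (hx : 0 < x) (hy : 0 < y) : eta (x + y) ≤ eta x + eta y := by
  unfold eta
  have h1 : Real.log (1 / (x + y)) ≤ Real.log (1 / x) :=
    Real.log_le_log (by positivity) (one_div_le_one_div_of_le hx (by linarith))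
  have h2 : Real.log (1 / (x + y)) ≤ Real.log (1 / y) :=
    Real.log_le_log (by positivity) (one_div_le_one_div_of_le hy (by linarith))
  nlinarith [mul_le_mul_of_nonneg_left h1 hx.le, mul_le_mul_of_nonneg_left h2 hy.le]

/-- `eta (5 / M) ≤ 5 / M * log M` -/
theorem eta_five {M : ℝ} (hM : 0 < M) : eta (5 / M) ≤ 5 / M * Real.log M := by
  unfold eta
  have h5 : (1 : ℝ) ≤ Real.log 5 := by
    rw [Real.le_log_iff_exp_le (by norm_num)]
    linarith [Real.exp_one_lt_d9]
  have h1 : Real.log (1 / (5 / M)) = Real.log M - Real.log 5 := by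
    rw [one_div_div, Real.log_div hM.ne' (by norm_num)]
  rw [h1]
  exact mul_le_mul_of_nonneg_left (by linarith) (by positivity)

theorem sq_two (p : ℕ) (hp : 22 ≤ p) : (p : ℝ) ^ 2 * 2 ^ 22 ≤ 484 * 2 ^ p := by
  induction p, hp using Nat.le_induction with
  | base => norm_num
  | succ q hq ih =>
    have h1 : (22 : ℝ) ≤ q := by exact_mod_cast hq
    have h2 : ((q + 1 : ℕ) : ℝ) ^ 2 ≤ 2 * (q : ℝ) ^ 2 := by
      push_cast
      nlinarith
    calc ((q + 1 : ℕ) : ℝ) ^ 2 * 2 ^ 22 ≤ 2 * (q : ℝ) ^ 2 * 2 ^ 22 :=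
          mul_le_mul_of_nonneg_right h2 (by positivity)
      _ = 2 * ((q : ℝ) ^ 2 * 2 ^ 22) := by ring
      _ ≤ 2 * (484 * 2 ^ q) := by linarith
      _ = 484 * 2 ^ (q + 1) := by ring

theorem eight_le (p : ℕ) (hp : 22 ≤ p) : (8 : ℝ) * p ≤ 2 ^ p := by
  have h1 := sq_two p hp
  have h2 : (22 : ℝ) ≤ p := by exact_mod_cast hp
  have h3 : 22 * (p : ℝ) ≤ (p : ℝ) ^ 2 := by
    rw [sq]
    exact mul_le_mul_of_nonneg_right h2 (by linarith)
  linarith

theorem numP (p : ℕ) (hp : 22 ≤ p) :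
    16 * (p : ℝ) * eta (5 / 2 ^ p) ≤ 80 * 484 / 2 ^ 22 * Real.log 2 := by
  have hl : 0 < Real.log 2 := Real.log_pos (by norm_num)
  have h1 := eta_five (M := (2 : ℝ) ^ p) (by positivity)
  rw [Real.log_pow] at h1
  have h2 := sq_two p hp
  have h3 : (p : ℝ) ^ 2 / 2 ^ p ≤ 484 / 2 ^ 22 := by
    rw [div_le_div_iff₀ (by positivity) (by positivity)]
    exact h2
  calc 16 * (p : ℝ) * eta (5 / 2 ^ p) ≤ 16 * (p : ℝ) * (5 / 2 ^ p * (p * Real.log 2)) :=
        mul_le_mul_of_nonneg_left h1 (by positivity)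
    _ = 80 * ((p : ℝ) ^ 2 / 2 ^ p) * Real.log 2 := by ring
    _ ≤ 80 * (484 / 2 ^ 22) * Real.log 2 :=
        mul_le_mul_of_nonneg_right (by linarith) hl.le
    _ = 80 * 484 / 2 ^ 22 * Real.log 2 := by ring

theorem numK (k p : ℕ) (hk : 2 ≤ k) (hp : p ≤ 6 + 2 * k * (41 + 3 * (Nat.log 2 k + 1))) :
    16 * (p : ℝ) * eta (5 / (2 ^ 40 * k ^ 2)) ≤ 80 * 5726 / 2 ^ 40 * Real.log 2 := by
  have hl : 0 < Real.log 2 := Real.log_pos (by norm_num)
  have hk2 : (2 : ℝ) ≤ k := by exact_mod_cast hk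
  have hk0 : (0 : ℝ) < k := by linarith
  set t : ℝ := Real.log k / Real.log 2 with ht
  have htl : t * Real.log 2 = Real.log k := by rw [ht]; field_simp
  have ht1 : 1 ≤ t := by
    rw [ht, le_div_iff₀ hl, one_mul]
    exact Real.log_le_log (by norm_num) hk2
  -- `t ^ 2 ≤ 9 k`
  have ht2 : t ^ 2 ≤ 9 * k := by
    have hs : 0 < Real.sqrt k := Real.sqrt_pos.mpr hk0
    have hss : Real.sqrt k ^ 2 = k := Real.sq_sqrt hk0.le
    have h1 : Real.log k = 2 * Real.log (Real.sqrt k) := by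
      rw [Real.log_sqrt hk0.le]; ring
    have h2 : Real.log (Real.sqrt k) ≤ Real.sqrt k - 1 := Real.log_le_sub_one_of_pos hs
    have h3 : (0.6931471803 : ℝ) < Real.log 2 := Real.log_two_gt_d9
    have h4 : t ≤ 3 * Real.sqrt k := by
      rw [ht, div_le_iff₀ hl]
      nlinarith
    calc t ^ 2 ≤ (3 * Real.sqrt (k : ℝ)) ^ 2 := pow_le_pow_left₀ (by linarith) h4 2
      _ = 9 * (k : ℝ) := by rw [mul_pow, hss]; ring
  have hL : (Nat.log 2 k : ℝ) ≤ t := by
    rw [ht, le_div_iff₀ hl]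
    have h1 : (2 : ℝ) ^ Nat.log 2 k ≤ k := by
      exact_mod_cast Nat.pow_log_le_self 2 (by omega)
    have h2 := Real.log_le_log (by positivity) h1
    rwa [Real.log_pow] at h2
  have hp' : (p : ℝ) ≤ k * (91 + 6 * t) := by
    have h1 : (p : ℝ) ≤ 6 + 2 * k * (41 + 3 * ((Nat.log 2 k : ℝ) + 1)) := by exact_mod_cast hp
    have h2 : (k : ℝ) * (Nat.log 2 k : ℝ) ≤ k * t := mul_le_mul_of_nonneg_left hL hk0.le
    nlinarith
  have hM : Real.log ((2 : ℝ) ^ 40 * k ^ 2) = (40 + 2 * t) * Real.log 2 := by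
    rw [Real.log_mul (by positivity) (by positivity), Real.log_pow, Real.log_pow, ← htl]
    push_cast
    ring
  have h1 := eta_five (M := (2 : ℝ) ^ 40 * k ^ 2) (by positivity)
  rw [hM] at h1
  have h3 : (k : ℝ) * (91 + 6 * t) * (40 + 2 * t) ≤ 5726 * k ^ 2 := by
    have h4 : (91 + 6 * t) * (40 + 2 * t) ≤ 5726 * k := by nlinarith
    calc (k : ℝ) * (91 + 6 * t) * (40 + 2 * t) = k * ((91 + 6 * t) * (40 + 2 * t)) := by ring
      _ ≤ k * (5726 * k) := mul_le_mul_of_nonneg_left h4 hk0.le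
      _ = 5726 * k ^ 2 := by ring
  have h4 : (p : ℝ) * (40 + 2 * t) ≤ 5726 * k ^ 2 :=
    (mul_le_mul_of_nonneg_right hp' (by linarith)).trans h3
  have h5 : (p : ℝ) * (40 + 2 * t) / k ^ 2 ≤ 5726 := by
    rw [div_le_iff₀ (by positivity)]
    exact h4
  calc 16 * (p : ℝ) * eta (5 / (2 ^ 40 * k ^ 2))
      ≤ 16 * (p : ℝ) * (5 / (2 ^ 40 * k ^ 2) * ((40 + 2 * t) * Real.log 2)) :=
        mul_le_mul_of_nonneg_left h1 (by positivity)
    _ = 80 / 2 ^ 40 * ((p : ℝ) * (40 + 2 * t) / k ^ 2) * Real.log 2 := by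
        field_simp
        ring
    _ ≤ 80 / 2 ^ 40 * 5726 * Real.log 2 :=
        mul_le_mul_of_nonneg_right (mul_le_mul_of_nonneg_left h5 (by positivity)) hl.le
    _ = 80 * 5726 / 2 ^ 40 * Real.log 2 := by ring

/-- the value of `α` -/
noncomputable def al (k p : ℕ) : ℝ := 5 / (2 ^ 40 * k ^ 2) + 5 / 2 ^ p

theorem al_pos (k p : ℕ) (hk : 2 ≤ k) : 0 < al k p := by
  unfold al
  have : (0 : ℝ) < k := by exact_mod_cast (by omega : 0 < k)
  positivity

theorem al_le (k p : ℕ) (hk : 2 ≤ k) (hp : 22 ≤ p) : al k p ≤ 1 / 100 := by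
  unfold al
  have hk2 : (2 : ℝ) ≤ k := by exact_mod_cast hk
  have h1 : (5 : ℝ) / (2 ^ 40 * k ^ 2) ≤ 5 / 2 ^ 40 := by
    apply div_le_div_of_nonneg_left (by norm_num) (by positivity)
    nlinarith
  have h2 : (5 : ℝ) / 2 ^ p ≤ 5 / 2 ^ 22 := by
    apply div_le_div_of_nonneg_left (by norm_num) (by positivity)
    exact pow_le_pow_right₀ (by norm_num) hp
  norm_num at h1 h2 ⊢
  linarith

theorem eta_al (k p : ℕ) (hk : 2 ≤ k) (hp : 22 ≤ p)
    (hp2 : p ≤ 6 + 2 * k * (41 + 3 * (Nat.log 2 k + 1))) :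
    16 * (p : ℝ) * eta (al k p) ≤ Real.log 2 / 64 := by
  have hl : 0 < Real.log 2 := Real.log_pos (by norm_num)
  have hk0 : (0 : ℝ) < k := by exact_mod_cast (by omega : 0 < k)
  have h1 : eta (al k p) ≤ eta (5 / (2 ^ 40 * k ^ 2)) + eta (5 / 2 ^ p) :=
    eta_add (by positivity) (by positivity)
  have h2 := numP p hp
  have h3 := numK k p hk hp2
  have h4 : 16 * (p : ℝ) * eta (al k p) ≤
      16 * (p : ℝ) * (eta (5 / (2 ^ 40 * k ^ 2)) + eta (5 / 2 ^ p)) :=
    mul_le_mul_of_nonneg_left h1 (by positivity)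
  have h5 : (80 * 484 / 2 ^ 22 + 80 * 5726 / 2 ^ 40 : ℝ) ≤ 1 / 64 := by norm_num
  have h6 := mul_le_mul_of_nonneg_right h5 hl.le
  linarith

theorem rp (y : ℝ) : (2 : ℝ) ^ y = Real.exp (Real.log 2 * y) :=
  Real.rpow_def_of_pos (by norm_num) y

end LV2Aux

open LV2Aux Pool.Agent.TKN in
theorem t_LV2 (hLVL : S_LVL) (hTHIN : S_THIN) (hSUBS : Pool.Agent.TKN.S_SUBS) : S_LV2 := by
  intro k p n r w m U A f d hSeg hAuto s Jf hk hp hp2 hr hrw hJ hn hd hrm
  have hl : 0 < Real.log 2 := Real.log_pos (by norm_num)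
  have hl69 : (0.6931471803 : ℝ) < Real.log 2 := Real.log_two_gt_d9
  have hk2 : (2 : ℝ) ≤ k := by exact_mod_cast hk
  have hk0 : (0 : ℝ) < k := by linarith
  have hpR : (22 : ℝ) ≤ p := by exact_mod_cast hp
  have h2p : (0 : ℝ) < 2 ^ p := by positivity
  obtain ⟨b, hb⟩ : ∃ b : ℝ, b = (n : ℝ) / 2 ^ p := ⟨_, rfl⟩
  have hbn : b * 2 ^ p = n := by rw [hb]; field_simp
  have hb1 : 1 ≤ b := by
    rw [hb, le_div_iff₀ h2p, one_mul]
    have h1 : (8 : ℝ) ^ p ≤ n := by exact_mod_cast hn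
    have h2 : (2 : ℝ) ^ p ≤ 8 ^ p := pow_le_pow_left₀ (by norm_num) (by norm_num) p
    linarith
  have hb0 : 0 ≤ b := by linarith
  -- the number `g`
  obtain ⟨g, hg⟩ : ∃ g : ℕ, g = 2 ^ p / (8 * p) := ⟨_, rfl⟩
  have h8p : 8 * p ≤ 2 ^ p := by
    have h2 := eight_le p hp
    exact_mod_cast h2
  have hg1 : 1 ≤ g := by
    rw [hg]
    exact (Nat.one_le_div_iff (by omega)).mpr h8p
  have hgR1 : (1 : ℝ) ≤ g := by exact_mod_cast hg1
  have hg0 : (0 : ℝ) < g := by linarith
  have hg2 : (g : ℝ) * (8 * p) ≤ 2 ^ p := by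
    have h1 : g * (8 * p) ≤ 2 ^ p := by rw [hg]; exact Nat.div_mul_le_self _ _
    exact_mod_cast h1
  have hg3 : (2 : ℝ) ^ p ≤ 16 * p * g := by
    have h1 : 2 ^ p < (g + 1) * (8 * p) := by
      rw [hg, mul_comm]
      exact Nat.lt_mul_div_succ _ (by omega)
    have h2 : (2 : ℝ) ^ p < (g + 1) * (8 * p) := by exact_mod_cast h1
    have h3 := mul_le_mul_of_nonneg_right hgR1 (by linarith : (0 : ℝ) ≤ 8 * p)
    linarith
  -- the number `x = n / g`
  obtain ⟨X, hX⟩ : ∃ X : ℝ, X = (n : ℝ) / g := ⟨_, rfl⟩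
  have hXg : X * g = n := by rw [hX]; field_simp
  have hX1 : 8 * p * b ≤ X := by
    rw [hX, le_div_iff₀ hg0, ← hbn]
    have h1 := mul_le_mul_of_nonneg_left hg2 hb0
    linarith
  have hX2 : X ≤ 16 * p * b := by
    rw [hX, div_le_iff₀ hg0, ← hbn]
    have h1 := mul_le_mul_of_nonneg_left hg3 hb0
    linarith
  have hq1 : ((n / g : ℕ) : ℝ) ≤ X := by
    rw [hX]; exact Nat.cast_div_le
  have hq2 : X < ((n / g : ℕ) : ℝ) + 1 := by
    rw [hX, div_lt_iff₀ hg0]
    have h1 : n < (n / g + 1) * g := by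
      rw [mul_comm]
      exact Nat.lt_mul_div_succ _ (by omega)
    exact_mod_cast h1
  have hpb : 22 * b ≤ p * b := mul_le_mul_of_nonneg_right hpR (by linarith)
  -- THIN
  obtain ⟨ε, hε⟩ : ∃ ε : ℝ, ε = 1 / (2 ^ 40 * k ^ 2) := ⟨_, rfl⟩
  have hε0 : 0 < ε := by rw [hε]; positivity
  obtain ⟨a, ha⟩ : ∃ a : ℝ, a = (ε + 1 / 2 ^ p) * X := ⟨_, rfl⟩
  have hX176 : 176 * b ≤ X := by linarith
  have hX0 : 0 ≤ X := by linarith
  have ha0 : 0 ≤ a := by rw [ha]; positivity
  obtain ⟨S, hS, hSc⟩ := hTHIN n g (fun x => UJ U (Jf (psi U s x)) x ∪ NJ U (Jf (psi U s x)) x) a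
    hg1 ha0
  have hal : al k p = 5 * (ε + 1 / 2 ^ p) := by unfold al; rw [hε]; ring
  have hal0 := al_pos k p hk
  have hal1 := al_le k p hk hp
  have hSR : (S.card : ℝ) = ((n / g : ℕ) : ℝ) := by rw [hS]
  have h4a : 4 * a ≤ al k p * S.card := by
    rw [hal, ha, hSR]
    have h1 : 4 * X ≤ 5 * ((n / g : ℕ) : ℝ) := by linarith
    have h2 : 0 ≤ ε + 1 / 2 ^ p := by positivity
    linarith [mul_le_mul_of_nonneg_left h1 h2]
  -- the two counts
  have hCN : ((univ.filter fun N : Finset (Fin n) => (N.card : ℝ) ≤ b).card : ℝ) ≤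
      Real.exp (eta (1 / 2 ^ p) * n) := by
    have h1 := hSUBS (Fin n) univ (1 / 2 ^ p) (by positivity) (by
      rw [div_le_one h2p]
      exact one_le_pow₀ (by norm_num))
    rw [Finset.card_univ, Fintype.card_fin] at h1
    refine le_trans ?_ h1
    have h2 : (univ.filter fun N : Finset (Fin n) => (N.card : ℝ) ≤ b).card ≤
        ((univ : Finset (Fin n)).powerset.filter fun T => (T.card : ℝ) ≤ 1 / 2 ^ p * n).card := by
      apply Finset.card_le_card
      intro N hN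
      rw [Finset.mem_filter] at hN ⊢
      refine ⟨Finset.mem_powerset.mpr (Finset.subset_univ _), ?_⟩
      have h3 : 1 / 2 ^ p * (n : ℝ) = b := by rw [hb]; ring
      rw [h3]
      exact hN.2
    exact_mod_cast h2
  have hCT : ((S.powerset.filter fun T => (1 - al k p) * S.card ≤ T.card).card : ℝ) ≤
      Real.exp (eta (al k p) * S.card) := by
    have h1 := hSUBS (Fin n) S (al k p) hal0 (by linarith)
    refine le_trans ?_ h1
    have h2 : (S.powerset.filter fun T => (1 - al k p) * S.card ≤ T.card).card ≤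
        (S.powerset.filter fun T => (T.card : ℝ) ≤ al k p * S.card).card := by
      apply Finset.card_le_card_of_injOn (fun T => S \ T)
      · intro T hT
        rw [Finset.mem_coe, Finset.mem_filter, Finset.mem_powerset] at hT
        rw [Finset.mem_coe, Finset.mem_filter, Finset.mem_powerset]
        refine ⟨Finset.sdiff_subset, ?_⟩
        have h3 : ((S \ T).card : ℝ) = S.card - T.card := by
          rw [Finset.card_sdiff_of_subset hT.1, Nat.cast_sub (Finset.card_le_card hT.1)]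
        rw [h3]
        linarith [hT.2]
      · intro T hT T' hT' h
        rw [Finset.mem_coe, Finset.mem_filter, Finset.mem_powerset] at hT hT'
        have h3 : S \ (S \ T) = S \ (S \ T') := by
          simp only at h
          rw [h]
        rwa [Finset.sdiff_sdiff_eq_self hT.1, Finset.sdiff_sdiff_eq_self hT'.1] at h3
    exact_mod_cast h2
  have hb2 : (n : ℝ) / 2 ^ (p + 1) = b / 2 := by rw [hb, pow_succ]; field_simp
  have hb5 : (n : ℝ) / 2 ^ (p + 5) = b / 32 := by rw [hb, pow_add]; field_simp; norm_num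
  have hb6 : (n : ℝ) / 2 ^ (p + 6) = b / 64 := by rw [hb, pow_add]; field_simp; norm_num
  rw [hb6] at hrm
  rw [hb2] at hd
  have hmain := hLVL n r w m U A f d hSeg hAuto s Jf S b (al k p) _ _ hd (by linarith) hCN hCT
  rw [hb2, hb5, ← hb]
  refine hmain.trans ?_
  -- the first term
  have hT1 : ((univ.filter fun x : Fin n → Bool =>
      b / 2 < ((NJ U (Jf (psi U s x)) x).card : ℝ) ∧
      ((NJ U (Jf (psi U s x)) x).card : ℝ) ≤ b ∧
      ((TJ U (Jf (psi U s x)) S x).card : ℝ) < (1 - al k p) * S.card).card : ℝ) ≤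
      2 ^ n * Real.exp (-(16 * n / 4 ^ p)) := by
    have h1 : (univ.filter fun x : Fin n → Bool =>
        b / 2 < ((NJ U (Jf (psi U s x)) x).card : ℝ) ∧
        ((NJ U (Jf (psi U s x)) x).card : ℝ) ≤ b ∧
        ((TJ U (Jf (psi U s x)) S x).card : ℝ) < (1 - al k p) * S.card).card ≤
        (univ.filter fun x : Fin n → Bool =>
          (((UJ U (Jf (psi U s x)) x ∪ NJ U (Jf (psi U s x)) x).card : ℕ) : ℝ) ≤ a * g ∧
          4 * a < ((S ∩ (UJ U (Jf (psi U s x)) x ∪ NJ U (Jf (psi U s x)) x)).card : ℝ)).card := by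
      apply Finset.card_le_card
      intro x hx
      rw [Finset.mem_filter] at hx ⊢
      obtain ⟨-, -, hx2, hx3⟩ := hx
      refine ⟨Finset.mem_univ _, ?_, ?_⟩
      · -- the size of `H x`
        have h2 : (UJ U (Jf (psi U s x)) x).card ≤ 4 * k * w := by
          calc (UJ U (Jf (psi U s x)) x).card
              ≤ ((Jf (psi U s x)).biUnion fun j => U j x).card := by
                apply Finset.card_le_card
                intro v hv
                rw [UJ, Finset.mem_filter] at hv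
                obtain ⟨-, j, hj, hv⟩ := hv
                exact Finset.mem_biUnion.mpr ⟨j, hj, hv⟩
            _ ≤ (Jf (psi U s x)).card * w :=
                Finset.card_biUnion_le_card_mul _ _ _ fun j _ => hSeg.card j x
            _ = 4 * k * w := by rw [hJ]
        have h3 : (4 * k * w : ℝ) ≤ ε * n := by
          have h4 : (2 ^ 42 * (k : ℝ) ^ 4) * w ≤ k * n := by
            rw [hr] at hrw
            exact_mod_cast hrw
          have h5 : (2 ^ 42 * (k : ℝ) ^ 3) * w ≤ n := by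
            have h6 : (k : ℝ) * ((2 ^ 42 * (k : ℝ) ^ 3) * w) ≤ k * n := by linarith
            exact le_of_mul_le_mul_left h6 hk0
          rw [hε, one_div_mul_eq_div, le_div_iff₀ (by positivity)]
          linarith
        have h2' : ((UJ U (Jf (psi U s x)) x).card : ℝ) ≤ 4 * k * w := by exact_mod_cast h2
        have h7 : (((UJ U (Jf (psi U s x)) x ∪ NJ U (Jf (psi U s x)) x).card : ℕ) : ℝ) ≤
            ((UJ U (Jf (psi U s x)) x).card : ℝ) + ((NJ U (Jf (psi U s x)) x).card : ℝ) := by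
          exact_mod_cast Finset.card_union_le _ _
        have h8 : a * g = ε * n + b := by
          rw [ha, mul_assoc, hXg, hb]; ring
        rw [h8]
        linarith
      · -- the intersection with `S`
        have h2 := Finset.card_sdiff_add_card_inter S
          (UJ U (Jf (psi U s x)) x ∪ NJ U (Jf (psi U s x)) x)
        have h3 : ((S \ (UJ U (Jf (psi U s x)) x ∪ NJ U (Jf (psi U s x)) x)).card : ℝ) +
            ((S ∩ (UJ U (Jf (psi U s x)) x ∪ NJ U (Jf (psi U s x)) x)).card : ℝ) = S.card := by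
          exact_mod_cast h2
        rw [TJ] at hx3
        linarith
    have h2 : (((univ.filter fun x : Fin n → Bool =>
        b / 2 < ((NJ U (Jf (psi U s x)) x).card : ℝ) ∧
        ((NJ U (Jf (psi U s x)) x).card : ℝ) ≤ b ∧
        ((TJ U (Jf (psi U s x)) S x).card : ℝ) < (1 - al k p) * S.card).card : ℕ) : ℝ) ≤
        2 ^ n * Real.exp (-(2 * a)) := le_trans (by exact_mod_cast h1) hSc
    refine h2.trans (mul_le_mul_of_nonneg_left (Real.exp_le_exp.mpr ?_) (by positivity))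
    have h4p : (4 : ℝ) ^ p = 2 ^ p * 2 ^ p := by rw [← mul_pow]; norm_num
    have h3 : 16 * (n : ℝ) / 4 ^ p ≤ 2 * (1 / 2 ^ p * X) := by
      rw [h4p, ← hbn]
      have h5 : 16 * (b * 2 ^ p) / (2 ^ p * 2 ^ p) = 1 / 2 ^ p * (16 * b) := by field_simp
      rw [h5]
      have h6 : 16 * b ≤ 2 * X := by linarith
      have h7 : (0 : ℝ) < 1 / 2 ^ p := by positivity
      have h8 := mul_le_mul_of_nonneg_left h6 h7.le
      linarith
    have h4 : 1 / 2 ^ p * X ≤ a := by
      rw [ha]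
      exact mul_le_mul_of_nonneg_right (by linarith) hX0
    linarith
  -- the other terms
  have hCTb : Real.exp (eta (al k p) * S.card) ≤ Real.exp (Real.log 2 * (b / 64)) := by
    apply Real.exp_le_exp.mpr
    have h1 := eta_al k p hk hp hp2
    have h2 : 0 ≤ eta (al k p) := by
      unfold eta
      have h3 : 0 ≤ Real.log (1 / al k p) := Real.log_nonneg (by
        rw [le_div_iff₀ hal0]; linarith)
      positivity
    have h3 : (S.card : ℝ) ≤ 16 * p * b := by rw [hSR]; linarith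
    calc eta (al k p) * S.card ≤ eta (al k p) * (16 * p * b) := mul_le_mul_of_nonneg_left h3 h2
      _ = 16 * (p : ℝ) * eta (al k p) * b := by ring
      _ ≤ Real.log 2 / 64 * b := mul_le_mul_of_nonneg_right h1 (by linarith)
      _ = Real.log 2 * (b / 64) := by ring
  have hRM : (2 : ℝ) ^ (r * m) ≤ Real.exp (Real.log 2 * (b / 64)) := by
    rw [← rp, ← Real.rpow_natCast]
    apply Real.rpow_le_rpow_of_exponent_le (by norm_num)
    push_cast
    exact hrm
  have hCNb : Real.exp (eta (1 / 2 ^ p) * n) = Real.exp (b * (1 + p * Real.log 2)) := by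
    congr 1
    unfold eta
    rw [one_div_one_div, Real.log_pow, hb]
    ring
  have hE : Real.exp (Real.log 2 * (-(b / 32))) = (2 : ℝ) ^ (-(b / 32)) := (rp _).symm
  have hT2 : Real.exp (eta (al k p) * S.card) * 2 ^ (r * m) * (2 : ℝ) ^ (-b / 16) ≤
      (2 : ℝ) ^ (-(b / 32)) := by
    calc Real.exp (eta (al k p) * S.card) * 2 ^ (r * m) * (2 : ℝ) ^ (-b / 16)
        ≤ Real.exp (Real.log 2 * (b / 64)) * Real.exp (Real.log 2 * (b / 64)) *
          (2 : ℝ) ^ (-b / 16) := by gcongr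
      _ = (2 : ℝ) ^ (-(b / 32)) := by
        rw [rp, rp, ← Real.exp_add, ← Real.exp_add]
        congr 1
        ring
  have hT3 : Real.exp (eta (1 / 2 ^ p) * n) * Real.exp (eta (al k p) * S.card) * 2 ^ (r * m) *
      (2 : ℝ) ^ (b - (1 - al k p) * S.card) ≤ (2 : ℝ) ^ (-(b / 32)) := by
    calc Real.exp (eta (1 / 2 ^ p) * n) * Real.exp (eta (al k p) * S.card) * 2 ^ (r * m) *
        (2 : ℝ) ^ (b - (1 - al k p) * S.card)
        ≤ Real.exp (b * (1 + p * Real.log 2)) * Real.exp (Real.log 2 * (b / 64)) *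
          Real.exp (Real.log 2 * (b / 64)) * (2 : ℝ) ^ (b - (1 - al k p) * S.card) := by
          rw [hCNb]; gcongr
      _ ≤ (2 : ℝ) ^ (-(b / 32)) := by
        rw [rp, rp, ← Real.exp_add, ← Real.exp_add, ← Real.exp_add]
        apply Real.exp_le_exp.mpr
        have h1 : 7.9 * (p * b) - 1 ≤ (1 - al k p) * S.card := by
          rw [hSR]
          have h6 := mul_le_mul_of_nonneg_right (by linarith : (0.99 : ℝ) ≤ 1 - al k p)
            (Nat.cast_nonneg (n / g) : (0 : ℝ) ≤ ((n / g : ℕ) : ℝ))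
          linarith
        have h2 : b ≤ Real.log 2 * (1.5 * b) := by
          have h6 := mul_le_mul_of_nonneg_right (by linarith : (1 : ℝ) ≤ Real.log 2 * 1.5) hb0
          linarith
        have h3 : 1.5 * b + p * b + b / 64 + b / 64 + b + b / 32 ≤ 7.9 * (p * b) - 1 := by
          linarith
        have h4 : 1.5 * b + p * b + b / 64 + b / 64 + (b - (1 - al k p) * S.card) ≤
            -(b / 32) := by linarith
        have h5 := mul_le_mul_of_nonneg_left h4 hl.le
        linarith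
  have h2n : (0 : ℝ) < 2 ^ n := by positivity
  have hT4 : (2 : ℝ) ^ (-b / 32) = (2 : ℝ) ^ (-(b / 32)) := by
    congr 1
    ring
  rw [hT4]
  have hfin : Real.exp (eta (al k p) * S.card) * 2 ^ (r * m) * (2 : ℝ) ^ (-b / 16) +
      Real.exp (eta (1 / 2 ^ p) * n) * Real.exp (eta (al k p) * S.card) * 2 ^ (r * m) *
      (2 : ℝ) ^ (b - (1 - al k p) * S.card) + 2 * (2 : ℝ) ^ (-(b / 32)) ≤
      4 * (2 : ℝ) ^ (-(b / 32)) := by linarith
  have h9 := mul_le_mul_of_nonneg_left hfin h2n.le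
  rw [mul_add]
  linarith

end Pool.Agent.PPL
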