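import Pool.Agent.PPL.St1

/-!
# Project PPL: one level (module LVL)
-/

set_option autoImplicit false

open Finset
open scoped Classical

namespace Pool.Agent.PPL

namespace LVLx

theorem sg_abs (b : Bool) : |sg b| = 1 := by
  unfold sg
  cases b <;> simp

theorem sum_sg_le {α : Type} (L : Finset α) (g : α → Bool) : |∑ x ∈ L, sg (g x)| ≤ L.card := by
  refine (Finset.abs_sum_le_sum_abs _ _).trans ?_
  simp [sg_abs]

/-- sums over a union of classes -/
theorem class_sum {α : Type} (L : Finset α) (C : α → Finset α) (g : α → ℝ) (c : ℝ)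
    (h1 : ∀ x ∈ L, x ∈ C x) (h2 : ∀ x ∈ L, ∀ y ∈ C x, y ∈ L ∧ C y = C x)
    (h3 : ∀ x ∈ L, |∑ y ∈ C x, g y| ≤ c * (C x).card) :
    |∑ x ∈ L, g x| ≤ c * L.card := by
  have hpos : ∀ x ∈ L, (0 : ℝ) < (C x).card := fun x hx => by
    exact_mod_cast Finset.card_pos.2 ⟨x, h1 x hx⟩
  have e : ∑ x ∈ L, g x = ∑ y ∈ L, (∑ x ∈ C y, g x) / (C y).card := by
    have e1 : ∀ y ∈ L, (∑ x ∈ C y, g x) / ((C y).card : ℝ) =
        ∑ x ∈ C y, g x / ((C x).card : ℝ) := by
      intro y hy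
      rw [Finset.sum_div]
      refine Finset.sum_congr rfl fun x hx => ?_
      rw [(h2 y hy x hx).2]
    have hsw : ∀ y x : α, y ∈ L ∧ x ∈ C y ↔ y ∈ C x ∧ x ∈ L := by
      intro y x
      constructor
      · rintro ⟨hy, hx⟩
        obtain ⟨h4, h5⟩ := h2 y hy x hx
        exact ⟨h5 ▸ h1 y hy, h4⟩
      · rintro ⟨hy, hx⟩
        obtain ⟨h4, h5⟩ := h2 x hx y hy
        exact ⟨h4, h5 ▸ h1 x hx⟩
    rw [Finset.sum_congr rfl e1, Finset.sum_comm' hsw]
    refine Finset.sum_congr rfl fun x hx => ?_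
    rw [Finset.sum_const, nsmul_eq_mul, mul_div_cancel₀ _ (hpos x hx).ne']
  rw [e]
  refine (Finset.abs_sum_le_sum_abs _ _).trans ?_
  have h4 : ∀ y ∈ L, |(∑ x ∈ C y, g x) / ((C y).card : ℝ)| ≤ c := by
    intro y hy
    rw [abs_div, abs_of_pos (hpos y hy), div_le_iff₀ (hpos y hy)]
    exact h3 y hy
  refine (Finset.sum_le_card_nsmul _ _ _ h4).trans ?_
  rw [nsmul_eq_mul, mul_comm]

theorem fiber_bound {α β : Type} (B : Finset α) (t : Finset β) (F : α → β) (c : ℝ)
    (hF : ∀ x ∈ B, F x ∈ t)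
    (h : ∀ b ∈ t, ∀ B' : Finset α, (∀ x, x ∈ B' ↔ x ∈ B ∧ F x = b) → (B'.card : ℝ) ≤ c) :
    (B.card : ℝ) ≤ t.card * c := by
  have h1 := Finset.card_eq_sum_card_fiberwise (s := B) (t := t) (f := F) hF
  rw [h1, Nat.cast_sum, ← nsmul_eq_mul]
  exact Finset.sum_le_card_nsmul _ _ _ fun b hb => h b hb _ fun x => Finset.mem_filter

theorem mix_in {n : ℕ} {D : Finset (Fin n)} {x y : Fin n → Bool} {v : Fin n} (h : v ∈ D) :
    mix D x y v = x v := by
  unfold mix
  rw [if_pos h]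

theorem mix_out {n : ℕ} {D : Finset (Fin n)} {x y : Fin n → Bool} {v : Fin n} (h : v ∉ D) :
    mix D x y v = y v := by
  unfold mix
  rw [if_neg h]

section
variable {n : ℕ} {Ψ : Type} (P : (Fin n → Bool) → Ψ) (N T : (Fin n → Bool) → Finset (Fin n))
  (good : (Fin n → Bool) → Prop)

/-- the classes -/
noncomputable def Cl (x : Fin n → Bool) : Finset (Fin n → Bool) :=
  univ.filter fun y => good y ∧ P y = P x ∧ N y = N x ∧ T y = T x ∧
    ∀ v, v ∉ N x → v ∉ T x → y v = x v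

theorem mem_Cl {x y : Fin n → Bool} : y ∈ Cl P N T good x ↔ good y ∧ P y = P x ∧ N y = N x ∧
    T y = T x ∧ ∀ v, v ∉ N x → v ∉ T x → y v = x v := by
  unfold Cl
  rw [Finset.mem_filter]
  exact ⟨fun h => h.2, fun h => ⟨Finset.mem_univ _, h⟩⟩

theorem Cl_eq {x y : Fin n → Bool} (h : y ∈ Cl P N T good x) :
    Cl P N T good y = Cl P N T good x := by
  rw [mem_Cl] at h
  obtain ⟨-, h2, h3, h4, h5⟩ := h
  ext z
  rw [mem_Cl, mem_Cl, h2, h3, h4]
  constructor
  · rintro ⟨k1, k2, k3, k4, k5⟩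
    exact ⟨k1, k2, k3, k4, fun v a b => (k5 v a b).trans (h5 v a b)⟩
  · rintro ⟨k1, k2, k3, k4, k5⟩
    exact ⟨k1, k2, k3, k4, fun v a b => (k5 v a b).trans (h5 v a b).symm⟩

variable {P N T good}

/-- classes are rectangles -/
theorem Cl_mix (hrect : ∀ x y, N x = N y → T x = T y →
      (∀ v, v ∉ N x → v ∉ T x → x v = y v) → P x = P y → good x → good y →
      N (mix (N x) x y) = N x ∧ T (mix (N x) x y) = T x ∧ P (mix (N x) x y) = P x ∧
        good (mix (N x) x y)) {x y z : Fin n → Bool} (hy : y ∈ Cl P N T good x)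
    (hz : z ∈ Cl P N T good x) : mix (N x) y z ∈ Cl P N T good x := by
  rw [mem_Cl] at hy hz
  obtain ⟨k1, k2, k3, k4, k5⟩ := hy
  obtain ⟨l1, l2, l3, l4, l5⟩ := hz
  obtain ⟨e1, e2, e3, e4⟩ := hrect y z (k3.trans l3.symm) (k4.trans l4.symm)
    (fun v a b => by
      rw [k3] at a
      rw [k4] at b
      exact (k5 v a b).trans (l5 v a b).symm) (k2.trans l2.symm) k1 l1
  rw [k3] at e1 e2 e3 e4
  rw [mem_Cl]
  refine ⟨e4, e3.trans k2, e1, e2.trans k4, fun v a b => ?_⟩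
  rw [mix_out a]
  exact l5 v a b

/-- the number of the words of the class in the first direction -/
theorem count_first (hrect : ∀ x y, N x = N y → T x = T y →
      (∀ v, v ∉ N x → v ∉ T x → x v = y v) → P x = P y → good x → good y →
      N (mix (N x) x y) = N x ∧ T (mix (N x) x y) = T x ∧ P (mix (N x) x y) = P x ∧
        good (mix (N x) x y)) {x y : Fin n → Bool} (hy : y ∈ Cl P N T good x) :
    ((Cl P N T good x).filter fun z => ∀ v, v ∉ N x → z v = x v).card ≤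
      ((Cl P N T good x).filter fun z => ∀ v, v ∉ N x → z v = y v).card := by
  refine Finset.card_le_card_of_injOn (fun z => mix (N x) z y) ?_ ?_
  · intro z hz
    have hz' := Finset.mem_filter.1 (Finset.mem_coe.1 hz)
    refine Finset.mem_coe.2 (Finset.mem_filter.2 ⟨Cl_mix hrect hz'.1 hy, fun v hv => ?_⟩)
    exact mix_out hv
  · intro z hz z' hz' h
    have hz1 := (Finset.mem_filter.1 (Finset.mem_coe.1 hz)).2
    have hz2 := (Finset.mem_filter.1 (Finset.mem_coe.1 hz')).2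
    funext v
    by_cases hv : v ∈ N x
    · have h1 := congrFun h v
      simp only [] at h1
      rwa [mix_in hv, mix_in hv] at h1
    · rw [hz1 v hv, hz2 v hv]

/-- the number of the words of the class in the second direction -/
theorem count_second (hdis : ∀ x, Disjoint (N x) (T x)) (hrect : ∀ x y, N x = N y → T x = T y →
      (∀ v, v ∉ N x → v ∉ T x → x v = y v) → P x = P y → good x → good y →
      N (mix (N x) x y) = N x ∧ T (mix (N x) x y) = T x ∧ P (mix (N x) x y) = P x ∧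
        good (mix (N x) x y)) {x y : Fin n → Bool} (hy : y ∈ Cl P N T good x) :
    ((Cl P N T good x).filter fun z => ∀ v, v ∉ T x → z v = x v).card ≤
      ((Cl P N T good x).filter fun z => ∀ v, v ∉ T x → z v = y v).card := by
  have hy5 := ((mem_Cl P N T good).1 hy).2.2.2.2
  refine Finset.card_le_card_of_injOn (fun z => mix (N x) y z) ?_ ?_
  · intro z hz
    have hz' := Finset.mem_filter.1 (Finset.mem_coe.1 hz)
    refine Finset.mem_coe.2 (Finset.mem_filter.2 ⟨Cl_mix hrect hy hz'.1, fun v hv => ?_⟩)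
    by_cases hv2 : v ∈ N x
    · exact mix_in hv2
    · show mix (N x) y z v = y v
      rw [mix_out hv2, hz'.2 v hv, hy5 v hv2 hv]
  · intro z hz z' hz' h
    have hz1 := (Finset.mem_filter.1 (Finset.mem_coe.1 hz)).2
    have hz2 := (Finset.mem_filter.1 (Finset.mem_coe.1 hz')).2
    funext v
    by_cases hv : v ∈ N x
    · have h3 : v ∉ T x := Finset.disjoint_left.1 (hdis x) hv
      rw [hz1 v h3, hz2 v h3]
    · have h1 := congrFun h v
      simp only [] at h1
      rwa [mix_out hv, mix_out hv] at h1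

end

theorem main (hRB : S_RB) (hCUB : S_CUB) {n : ℕ} {Ψ : Type} [Fintype Ψ]
    (P : (Fin n → Bool) → Ψ) (N T : (Fin n → Bool) → Finset (Fin n))
    (good : (Fin n → Bool) → Prop) (f : (Fin n → Bool) → Bool) (d : ℝ) (hf : Auto f d)
    (S : Finset (Fin n)) (b α CN CT : ℝ) (hT : ∀ x, T x ⊆ S)
    (hdis : ∀ x, Disjoint (N x) (T x))
    (hrect : ∀ x y, N x = N y → T x = T y →
      (∀ v, v ∉ N x → v ∉ T x → x v = y v) → P x = P y → good x → good y →
      N (mix (N x) x y) = N x ∧ T (mix (N x) x y) = T x ∧ P (mix (N x) x y) = P x ∧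
        good (mix (N x) x y))
    (hcube : ∀ ψ, ∃ N' : (Fin n → Bool) → Finset (Fin n),
      (∀ x y, (∀ v, v ∉ N' x → x v = y v) → N' y = N' x) ∧ ∀ x, P x = ψ → N x = N' x)
    (hd : d ≤ b / 2)
    (Ns : Finset (Finset (Fin n))) (hNs : ∀ M : Finset (Fin n), (M.card : ℝ) ≤ b → M ∈ Ns)
    (hCN : (Ns.card : ℝ) ≤ CN)
    (Ts : Finset (Finset (Fin n))) (hTs : ∀ M : Finset (Fin n), M ⊆ S →
      (1 - α) * S.card ≤ M.card → M ∈ Ts) (hCT : (Ts.card : ℝ) ≤ CT)
    (L : Finset (Fin n → Bool))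
    (hL : ∀ x, x ∈ L ↔ good x ∧ b / 2 < ((N x).card : ℝ) ∧ ((N x).card : ℝ) ≤ b)
    (F : Finset (Fin n → Bool)) (hF : ∀ x, b / 2 < ((N x).card : ℝ) → ((N x).card : ℝ) ≤ b →
      ((T x).card : ℝ) < (1 - α) * S.card → x ∈ F) :
    |∑ x ∈ L, sg (f x)| ≤ F.card + 2 ^ n * (CT * Fintype.card Ψ * (2 : ℝ) ^ (-b / 16) +
      CN * CT * Fintype.card Ψ * (2 : ℝ) ^ (b - (1 - α) * S.card) + 2 * (2 : ℝ) ^ (-b / 32)) := by
  have hCT0 : 0 ≤ CT := le_trans (Nat.cast_nonneg _) hCT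
  have hCN0 : 0 ≤ CN := le_trans (Nat.cast_nonneg _) hCN
  -- the parts
  obtain ⟨L0, hL0⟩ : ∃ L0 : Finset (Fin n → Bool), ∀ x, x ∈ L0 ↔ x ∈ L ∧
      ((T x).card : ℝ) < (1 - α) * S.card := ⟨L.filter _, fun x => Finset.mem_filter⟩
  obtain ⟨B1, hB1⟩ : ∃ B1 : Finset (Fin n → Bool), ∀ x, x ∈ B1 ↔ x ∈ L ∧
      (1 - α) * S.card ≤ ((T x).card : ℝ) ∧
      (((Cl P N T good x).filter fun z => ∀ v, v ∉ N x → z v = x v).card : ℝ) <
        (2 : ℝ) ^ (7 * ((N x).card : ℝ) / 8) := ⟨L.filter _, fun x => Finset.mem_filter⟩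
  obtain ⟨B2, hB2⟩ : ∃ B2 : Finset (Fin n → Bool), ∀ x, x ∈ B2 ↔ x ∈ L ∧
      (1 - α) * S.card ≤ ((T x).card : ℝ) ∧
      (((Cl P N T good x).filter fun z => ∀ v, v ∉ T x → z v = x v).card : ℝ) <
        (2 : ℝ) ^ (N x).card := ⟨L.filter _, fun x => Finset.mem_filter⟩
  obtain ⟨L2, hL2⟩ : ∃ L2 : Finset (Fin n → Bool), ∀ x, x ∈ L2 ↔ x ∈ L ∧
      (1 - α) * S.card ≤ ((T x).card : ℝ) ∧
      (2 : ℝ) ^ (7 * ((N x).card : ℝ) / 8) ≤
        (((Cl P N T good x).filter fun z => ∀ v, v ∉ N x → z v = x v).card : ℝ) ∧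
      (2 : ℝ) ^ (N x).card ≤
        (((Cl P N T good x).filter fun z => ∀ v, v ∉ T x → z v = x v).card : ℝ) :=
    ⟨L.filter _, fun x => Finset.mem_filter⟩
  have hself : ∀ x ∈ L, x ∈ Cl P N T good x := fun x hx => by
    rw [mem_Cl]
    exact ⟨((hL x).1 hx).1, rfl, rfl, rfl, fun _ _ _ => rfl⟩
  have hclL : ∀ x ∈ L, ∀ y ∈ Cl P N T good x, y ∈ L := fun x hx y hy => by
    rw [mem_Cl] at hy
    rw [hL] at hx ⊢
    rw [hy.2.2.1]
    exact ⟨hy.1, hx.2⟩
  -- the first term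
  have c0 : (L0.card : ℝ) ≤ F.card := by
    have : L0 ⊆ F := fun x hx => by
      rw [hL0, hL] at hx
      exact hF x hx.1.2.1 hx.1.2.2 hx.2
    exact_mod_cast Finset.card_le_card this
  -- the sets B1, B2
  have hTsx : ∀ x, (1 - α) * S.card ≤ ((T x).card : ℝ) → T x ∈ Ts := fun x hx =>
    hTs (T x) (hT x) hx
  have c1 : (B1.card : ℝ) ≤ 2 ^ n * (CT * Fintype.card Ψ * (2 : ℝ) ^ (-b / 16)) := by
    have h1 : (B1.card : ℝ) ≤ ((univ : Finset Ψ) ×ˢ Ts).card *
        ((2 : ℝ) ^ (-b / 16) * 2 ^ n) := by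
      refine fiber_bound B1 ((univ : Finset Ψ) ×ˢ Ts) (fun x => (P x, T x)) _ ?_ ?_
      · intro x hx
        rw [hB1] at hx
        exact Finset.mem_product.2 ⟨Finset.mem_univ _, hTsx x hx.2.1⟩
      · rintro ⟨ψ, T₀⟩ - B' hB'
        obtain ⟨N', hN1, hN2⟩ := hcube ψ
        refine hCUB n N' B' ((2 : ℝ) ^ (-b / 16)) (by positivity) hN1 ?_
        intro x hx
        obtain ⟨hx1, hx2⟩ := (hB' x).1 hx
        have hPx : P x = ψ := congrArg Prod.fst hx2
        have hTx : T x = T₀ := congrArg Prod.snd hx2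
        obtain ⟨hxL, hxT, hxc⟩ := (hB1 x).1 hx1
        have hb2 := ((hL x).1 hxL).2.1
        rw [← hN2 x hPx]
        have h2 : (((B'.filter fun y => ∀ v, v ∉ N x → y v = x v).card : ℕ) : ℝ) ≤
            (((Cl P N T good x).filter fun z => ∀ v, v ∉ N x → z v = x v).card : ℝ) := by
          refine Nat.cast_le.2 (Finset.card_le_card fun y hy => ?_)
          obtain ⟨hy1, hy3⟩ := Finset.mem_filter.1 hy
          obtain ⟨hy1, hy2⟩ := (hB' y).1 hy1
          have hPy : P y = ψ := congrArg Prod.fst hy2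
          have hTy : T y = T₀ := congrArg Prod.snd hy2
          refine Finset.mem_filter.2 ⟨?_, hy3⟩
          rw [mem_Cl]
          refine ⟨((hL y).1 ((hB1 y).1 hy1).1).1, hPy.trans hPx.symm, ?_, hTy.trans hTx.symm,
            fun v hv _ => hy3 v hv⟩
          rw [hN2 y hPy, hN2 x hPx]
          refine hN1 x y fun v hv => ?_
          rw [← hN2 x hPx] at hv
          exact (hy3 v hv).symm
        refine h2.trans (hxc.le.trans ?_)
        rw [← Real.rpow_natCast 2 (N x).card, ← Real.rpow_add (by norm_num : (0 : ℝ) < 2)]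
        exact Real.rpow_le_rpow_of_exponent_le (by norm_num) (by linarith)
    refine h1.trans ?_
    rw [Finset.card_product, Finset.card_univ, Nat.cast_mul]
    have h2 : (Fintype.card Ψ : ℝ) * Ts.card ≤ Fintype.card Ψ * CT :=
      mul_le_mul_of_nonneg_left hCT (Nat.cast_nonneg _)
    calc (Fintype.card Ψ : ℝ) * Ts.card * ((2 : ℝ) ^ (-b / 16) * 2 ^ n)
        ≤ (Fintype.card Ψ : ℝ) * CT * ((2 : ℝ) ^ (-b / 16) * 2 ^ n) :=
          mul_le_mul_of_nonneg_right h2 (by positivity)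
      _ = 2 ^ n * (CT * Fintype.card Ψ * (2 : ℝ) ^ (-b / 16)) := by ring
  have c2 : (B2.card : ℝ) ≤
      2 ^ n * (CN * CT * Fintype.card Ψ * (2 : ℝ) ^ (b - (1 - α) * S.card)) := by
    have h1 : (B2.card : ℝ) ≤ ((univ : Finset Ψ) ×ˢ Ns ×ˢ Ts).card *
        ((2 : ℝ) ^ (b - (1 - α) * S.card) * 2 ^ n) := by
      refine fiber_bound B2 ((univ : Finset Ψ) ×ˢ Ns ×ˢ Ts) (fun x => (P x, N x, T x)) _ ?_ ?_
      · intro x hx
        rw [hB2] at hx
        exact Finset.mem_product.2 ⟨Finset.mem_univ _, Finset.mem_product.2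
          ⟨hNs _ ((hL x).1 hx.1).2.2, hTsx x hx.2.1⟩⟩
      · rintro ⟨ψ, N₀, T₀⟩ hmem B' hB'
        refine hCUB n (fun _ => T₀) B' ((2 : ℝ) ^ (b - (1 - α) * S.card)) (by positivity)
          (fun _ _ _ => rfl) ?_
        intro x hx
        obtain ⟨hx1, hx2⟩ := (hB' x).1 hx
        have hPx : P x = ψ := congrArg Prod.fst hx2
        have hNx : N x = N₀ := congrArg (fun p => p.2.1) hx2
        have hTx : T x = T₀ := congrArg (fun p => p.2.2) hx2
        obtain ⟨hxL, hxT, hxc⟩ := (hB2 x).1 hx1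
        have hb2 := ((hL x).1 hxL).2.2
        subst hTx
        have h2 : (((B'.filter fun y => ∀ v, v ∉ T x → y v = x v).card : ℕ) : ℝ) ≤
            (((Cl P N T good x).filter fun z => ∀ v, v ∉ T x → z v = x v).card : ℝ) := by
          refine Nat.cast_le.2 (Finset.card_le_card fun y hy => ?_)
          obtain ⟨hy1, hy3⟩ := Finset.mem_filter.1 hy
          obtain ⟨hy1, hy2⟩ := (hB' y).1 hy1
          have hPy : P y = ψ := congrArg Prod.fst hy2
          have hNy : N y = N₀ := congrArg (fun p => p.2.1) hy2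
          have hTy : T y = T x := congrArg (fun p => p.2.2) hy2
          refine Finset.mem_filter.2 ⟨?_, hy3⟩
          rw [mem_Cl]
          exact ⟨((hL y).1 ((hB2 y).1 hy1).1).1, hPy.trans hPx.symm, hNy.trans hNx.symm, hTy,
            fun v _ hv => hy3 v hv⟩
        refine h2.trans (hxc.le.trans ?_)
        rw [← Real.rpow_natCast 2 (N x).card, ← Real.rpow_natCast 2 (T x).card,
          ← Real.rpow_add (by norm_num : (0 : ℝ) < 2)]
        exact Real.rpow_le_rpow_of_exponent_le (by norm_num) (by linarith)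
    refine h1.trans ?_
    rw [Finset.card_product, Finset.card_product, Finset.card_univ, Nat.cast_mul, Nat.cast_mul]
    have h2 : (Ns.card : ℝ) * Ts.card ≤ CN * CT :=
      mul_le_mul hCN hCT (Nat.cast_nonneg _) hCN0
    calc (Fintype.card Ψ : ℝ) * (Ns.card * Ts.card) *
          ((2 : ℝ) ^ (b - (1 - α) * S.card) * 2 ^ n)
        ≤ (Fintype.card Ψ : ℝ) * (CN * CT) * ((2 : ℝ) ^ (b - (1 - α) * S.card) * 2 ^ n) :=
          mul_le_mul_of_nonneg_right (mul_le_mul_of_nonneg_left h2 (Nat.cast_nonneg _))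
            (by positivity)
      _ = 2 ^ n * (CN * CT * Fintype.card Ψ * (2 : ℝ) ^ (b - (1 - α) * S.card)) := by ring
  -- the classes
  have c3 : |∑ x ∈ L2, sg (f x)| ≤ 2 * (2 : ℝ) ^ (-b / 32) * L2.card := by
    refine class_sum L2 (Cl P N T good) _ _ (fun x hx => hself x ((hL2 x).1 hx).1) ?_ ?_
    · intro x hx y hy
      obtain ⟨hxL, hxT, hx1, hx2⟩ := (hL2 x).1 hx
      have hCl := Cl_eq P N T good hy
      obtain ⟨-, -, hN, hTT, -⟩ := (mem_Cl P N T good).1 hy
      refine ⟨(hL2 y).2 ⟨hclL x hxL y hy, ?_, ?_, ?_⟩, hCl⟩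
      · rw [hTT]; exact hxT
      · rw [hCl, hN]
        exact hx1.trans (Nat.cast_le.2 (count_first hrect hy))
      · rw [hCl, hN, hTT]
        exact hx2.trans (Nat.cast_le.2 (count_second hdis hrect hy))
    · intro x hx
      obtain ⟨hxL, hxT, hx1, hx2⟩ := (hL2 x).1 hx
      have hb2 := ((hL x).1 hxL).2.1
      have h1 := hRB n f d hf (N x) (T x) (Cl P N T good x) (hdis x) (by linarith)
        (fun y hy z hz v a c => by
          rw [mem_Cl] at hy hz
          rw [hy.2.2.2.2 v a c, hz.2.2.2.2 v a c])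
        (fun y hy z hz => Cl_mix hrect hy hz)
        (fun y hy => hx1.trans (Nat.cast_le.2 (count_first hrect hy)))
        (fun y hy => hx2.trans (Nat.cast_le.2 (count_second hdis hrect hy)))
      refine h1.trans ?_
      refine mul_le_mul_of_nonneg_right (mul_le_mul_of_nonneg_left ?_ (by norm_num))
        (Nat.cast_nonneg _)
      exact Real.rpow_le_rpow_of_exponent_le (by norm_num) (by linarith)
  have c4 : (L2.card : ℝ) ≤ 2 ^ n := by
    have h1 : L2.card ≤ (univ : Finset (Fin n → Bool)).card := Finset.card_le_univ _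
    rw [Finset.card_univ, Fintype.card_fun, Fintype.card_bool, Fintype.card_fin] at h1
    exact_mod_cast h1
  -- together
  have hsplit : |∑ x ∈ L, sg (f x)| ≤ L0.card + B1.card + B2.card + |∑ x ∈ L2, sg (f x)| := by
    have hsub : L2 ⊆ L := fun x hx => ((hL2 x).1 hx).1
    rw [← Finset.sum_sdiff hsub]
    refine (abs_add_le _ _).trans ?_
    have h1 : ((L \ L2).card : ℝ) ≤ L0.card + B1.card + B2.card := by
      have h2 : L \ L2 ⊆ L0 ∪ (B1 ∪ B2) := by
        intro x hx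
        rw [Finset.mem_sdiff] at hx
        rw [Finset.mem_union, Finset.mem_union, hL0, hB1, hB2]
        by_contra hcon
        push Not at hcon
        obtain ⟨g1, g2, g3⟩ := hcon
        have g1 := g1 hx.1
        exact hx.2 ((hL2 x).2 ⟨hx.1, g1, g2 hx.1 g1, g3 hx.1 g1⟩)
      have h3 : (L \ L2).card ≤ L0.card + (B1.card + B2.card) :=
        (Finset.card_le_card h2).trans ((Finset.card_union_le _ _).trans
          (Nat.add_le_add_left (Finset.card_union_le _ _) _))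
      have h4 : ((L \ L2).card : ℝ) ≤ ((L0.card + (B1.card + B2.card) : ℕ) : ℝ) :=
        Nat.cast_le.2 h3
      push_cast at h4
      linarith
    have h5 := sum_sg_le (L \ L2) f
    linarith
  have c5 : 2 * (2 : ℝ) ^ (-b / 32) * L2.card ≤ 2 * (2 : ℝ) ^ (-b / 32) * 2 ^ n :=
    mul_le_mul_of_nonneg_left c4 (by positivity)
  nlinarith [hsplit, c0, c1, c2, c3, c5]

end LVLx

theorem t_LVL (hRB : S_RB) (hCUB : S_CUB) (hRCL : S_RCL) (hNCU : S_NCU) : S_LVL := by
  intro n r w m U A f d hU hf s Jf S b α CN CT hd hb hCN hCT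
  have hcard : (Fintype.card (Fin m → Fin r → Bool) : ℝ) = 2 ^ (r * m) := by
    rw [Fintype.card_fun, Fintype.card_fun, Fintype.card_bool, Fintype.card_fin,
      Fintype.card_fin, ← pow_mul]
    push_cast
    rfl
  rw [← hcard]
  refine LVLx.main hRB hCUB (psi U s) (fun x => NJ U (Jf (psi U s x)) x)
    (fun x => TJ U (Jf (psi U s x)) S x) (fun x => ∀ j, A j x) f d hf S b α CN CT
    (fun x => ?_) (fun x => ?_) (fun x y h1 h2 h3 h4 h5 h6 => ?_)
    (fun ψ => ⟨fun x => NJ U (Jf ψ) x, fun x y hxy => (hNCU n r w U A hU).1 (Jf ψ) x y hxy,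
      fun x hx => by simp only [hx]⟩) hd
    _ (fun M hM => Finset.mem_filter.2 ⟨Finset.mem_univ _, hM⟩) hCN
    _ (fun M hM hM2 => Finset.mem_filter.2 ⟨Finset.mem_powerset.2 hM, hM2⟩) hCT
    _ (fun x => ?_)
    _ (fun x h1 h2 h3 => Finset.mem_filter.2 ⟨Finset.mem_univ _, h1, h2, h3⟩)
  · unfold TJ
    exact Finset.sdiff_subset
  · show Disjoint (NJ U (Jf (psi U s x)) x) (TJ U (Jf (psi U s x)) S x)
    unfold TJ
    rw [Finset.disjoint_left]
    intro v hv hv2
    rw [Finset.mem_sdiff, Finset.mem_union] at hv2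
    exact hv2.2 (Or.inr hv)
  · have h1' : NJ U (Jf (psi U s x)) x = NJ U (Jf (psi U s y)) y := h1
    have h2' : TJ U (Jf (psi U s x)) S x = TJ U (Jf (psi U s y)) S y := h2
    rw [← h4] at h1' h2'
    obtain ⟨k1, k2, k3, k4⟩ := hRCL n r w m U A hU (Jf (psi U s x)) S s x y h1' h2' h3 h4 h5 h6
    refine ⟨?_, ?_, k3, k4⟩
    · show NJ U (Jf (psi U s (mix (NJ U (Jf (psi U s x)) x) x y)))
        (mix (NJ U (Jf (psi U s x)) x) x y) = NJ U (Jf (psi U s x)) x
      rw [k3]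
      exact k1
    · show TJ U (Jf (psi U s (mix (NJ U (Jf (psi U s x)) x) x y))) S
        (mix (NJ U (Jf (psi U s x)) x) x y) = TJ U (Jf (psi U s x)) S x
      rw [k3]
      exact k2
  · rw [Finset.mem_filter]
    exact ⟨fun h => h.2, fun h => ⟨Finset.mem_univ _, h⟩⟩

end Pool.Agent.PPL
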