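import Pool.Agent.PPL.St3
import Pool.Agent.URG.Blk

/-!
# Project PPL, module MOM: the moments
-/

set_option autoImplicit false

open Finset hiding val
open scoped Classical

namespace Pool.Agent.PPL

namespace MOMx

open Pool.Agent.URG (VarX deg lg pols Zero value)
open Pool.Agent.HPM (elt val)
open Pool.Agent.HPM.Fn (Coord)

/-- the sign of the first coordinate -/
noncomputable def chi {h : ℕ} (β : Coord h) (hz : 1 ≤ h) (w : GaloisField 2 h) : ℝ :=
  if ∀ i : Fin 1, β.repr w (Fin.castLE hz i) = 0 then 1 else -1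

theorem chi_add {h : ℕ} (β : Coord h) (hz : 1 ≤ h) (w : GaloisField 2 h) :
    chi β hz (w + β (Fin.castLE hz 0)) = - chi β hz w := by
  have key : ∀ w : GaloisField 2 h, (∀ i : Fin 1, β.repr w (Fin.castLE hz i) = 0) ↔
      β.repr w (Fin.castLE hz 0) = 0 := by
    intro w
    constructor
    · exact fun h => h 0
    · intro h i
      rw [Fin.eq_zero i]
      exact h
  have h1 : β.repr (w + β (Fin.castLE hz 0)) (Fin.castLE hz 0) =
      β.repr w (Fin.castLE hz 0) + 1 := by
    rw [map_add, Finsupp.add_apply, Module.Basis.repr_self, Finsupp.single_eq_same]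
  have h2 : ∀ u : ZMod 2, u + 1 = 0 ↔ ¬ u = 0 := by decide
  unfold chi
  by_cases h3 : β.repr w (Fin.castLE hz 0) = 0
  · rw [if_pos ((key w).2 h3), if_neg]
    rw [key, h1, h2]
    exact fun h => h h3
  · rw [if_neg (fun h => h3 ((key w).1 h)), if_pos]
    · ring
    · rw [key, h1, h2]
      exact h3

theorem chi_abs {h : ℕ} (β : Coord h) (hz : 1 ≤ h) (w : GaloisField 2 h) : |chi β hz w| = 1 := by
  unfold chi
  split_ifs <;> simp

/-- if the field element separates the points then the sum over the polynomials is zero -/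
theorem sum_zero {n h t : ℕ} (β : Coord h) (hz : 1 ≤ h) (O : Finset (Fin n → Bool))
    (hO : O.Nonempty) (hc : O.card ≤ t) (a : Fin h → Bool)
    (hinj : Set.InjOn (fun z => val z (elt β a)) (O : Set (Fin n → Bool))) :
    ∑ q : Fin t → Fin h → Bool, ∏ z ∈ O, chi β hz (value β a q z) = 0 := by
  obtain ⟨z0, hz0⟩ := hO
  have : Fintype (GaloisField 2 h) := Fintype.ofFinite _
  have hZ : (O.image fun z => val z (elt β a)).card ≤ t := card_image_le.trans hc
  obtain ⟨c, hcc⟩ := Pool.Agent.URG.BLK.ev_surj (O.image fun z => val z (elt β a)) hZ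
    (fun w => if (w : GaloisField 2 h) = val z0 (elt β a) then β (Fin.castLE hz 0) else 0)
  have hcz : ∀ z ∈ O, ∑ k : Fin t, c k * val z (elt β a) ^ (k : ℕ) =
      if z = z0 then β (Fin.castLE hz 0) else 0 := by
    intro z hz'
    have h1 := congrFun hcc ⟨val z (elt β a), mem_image_of_mem _ hz'⟩
    have h2 : ∑ k : Fin t, c k * val z (elt β a) ^ (k : ℕ) =
      if val z (elt β a) = val z0 (elt β a) then β (Fin.castLE hz 0) else 0 := h1
    rw [h2]
    by_cases h3 : z = z0
    · rw [if_pos h3, h3, if_pos rfl]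
    · rw [if_neg h3, if_neg]
      exact fun h4 => h3 (hinj hz' hz0 h4)
  have e1 : ∑ q : Fin t → Fin h → Bool, ∏ z ∈ O, chi β hz (value β a q z) =
      ∑ q : Fin t → GaloisField 2 h, ∏ z ∈ O,
        chi β hz (∑ k : Fin t, q k * val z (elt β a) ^ (k : ℕ)) :=
    Fintype.sum_equiv (Equiv.piCongrRight fun _ => Pool.Agent.URG.BLK.eq β) _ _ (fun _ => rfl)
  have e2 : ∑ q : Fin t → GaloisField 2 h, ∏ z ∈ O,
        chi β hz (∑ k : Fin t, q k * val z (elt β a) ^ (k : ℕ)) =
      - ∑ q : Fin t → GaloisField 2 h, ∏ z ∈ O,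
        chi β hz (∑ k : Fin t, q k * val z (elt β a) ^ (k : ℕ)) := by
    rw [← sum_neg_distrib]
    rw [← Fintype.sum_equiv (Equiv.addRight c)
      (fun q : Fin t → GaloisField 2 h => ∏ z ∈ O,
        chi β hz (∑ k : Fin t, (q k + c k) * val z (elt β a) ^ (k : ℕ))) _ (fun _ => rfl)]
    refine sum_congr rfl fun q _ => ?_
    have h5 : ∀ z ∈ O, ∑ k : Fin t, (q k + c k) * val z (elt β a) ^ (k : ℕ) =
        ∑ k : Fin t, q k * val z (elt β a) ^ (k : ℕ) +
          if z = z0 then β (Fin.castLE hz 0) else 0 := by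
      intro z hz'
      rw [← hcz z hz', ← sum_add_distrib]
      exact sum_congr rfl fun k _ => add_mul _ _ _
    rw [← mul_prod_erase O _ hz0, ← mul_prod_erase O (fun z =>
      chi β hz (∑ k : Fin t, q k * val z (elt β a) ^ (k : ℕ))) hz0, h5 z0 hz0, if_pos rfl, chi_add,
      neg_mul]
    congr 2
    refine prod_congr rfl fun z hz' => ?_
    rw [mem_erase] at hz'
    rw [h5 z hz'.2, if_neg hz'.1, add_zero]
  rw [e1]
  linarith

/-- the sum over one test -/
theorem sum_le {n h t : ℕ} (β : Coord h) (hz : 1 ≤ h) (O : Finset (Fin n → Bool))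
    (hO : O.Nonempty) (hc : O.card ≤ t) :
    |∑ σ : (Fin h → Bool) × (Fin t → Fin h → Bool), ∏ z ∈ O, chi β hz (value β σ.1 σ.2 z)| ≤
      ((O.card * O.card * n : ℕ) : ℝ) * (Fintype.card (Fin t → Fin h → Bool) : ℝ) := by
  rw [Fintype.sum_prod_type]
  refine (abs_sum_le_sum_abs _ _).trans ?_
  have h1 : ∀ a : Fin h → Bool, |∑ q : Fin t → Fin h → Bool, ∏ z ∈ O, chi β hz (value β a q z)| ≤
      if ¬ Set.InjOn (fun z => val z (elt β a)) (O : Set (Fin n → Bool)) then
        (Fintype.card (Fin t → Fin h → Bool) : ℝ) else 0 := by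
    intro a
    by_cases h2 : Set.InjOn (fun z => val z (elt β a)) (O : Set (Fin n → Bool))
    · rw [if_neg (not_not.2 h2), sum_zero β hz O hO hc a h2, abs_zero]
    · rw [if_pos h2]
      refine (abs_sum_le_sum_abs _ _).trans ?_
      have h3 : ∀ q : Fin t → Fin h → Bool, |∏ z ∈ O, chi β hz (value β a q z)| = 1 := by
        intro q
        rw [abs_prod]
        exact prod_eq_one fun z _ => chi_abs β hz _
      rw [sum_congr rfl fun q _ => h3 q, sum_const, card_univ, nsmul_eq_mul, mul_one]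
  refine (sum_le_sum fun a _ => h1 a).trans ?_
  rw [sum_ite, sum_const_zero, add_zero, sum_const, nsmul_eq_mul]
  refine mul_le_mul_of_nonneg_right ?_ (by positivity)
  exact_mod_cast Pool.Agent.URG.BLK.card_noninj β O

/-- the tests, one by one -/
def eqU (n e : ℕ) : (VarX n e → Bool) ≃
    (Fin (pols n e) → (Fin (deg n e) → Bool) × (Fin (4 ^ e) → Fin (deg n e) → Bool)) where
  toFun u t := (fun i => u (t, Sum.inl i), fun k i => u (t, Sum.inr (k, i)))
  invFun v p := Sum.elim (fun i => (v p.1).1 i) (fun q => (v p.1).2 q.1 q.2) p.2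
  left_inv u := by
    funext p
    obtain ⟨t, i | ⟨k, i⟩⟩ := p <;> rfl
  right_inv v := rfl

theorem sg_par {n e : ℕ} (β : Coord (deg n e)) (u : VarX n e → Bool) (z : Fin n → Bool) :
    sg (par β u z) = ∏ t : Fin (pols n e),
      chi β (one_le_deg n e) (value β (eqU n e u t).1 (eqU n e u t).2 z) := by
  have h1 : ∀ t : Fin (pols n e), chi β (one_le_deg n e) (value β (eqU n e u t).1 (eqU n e u t).2 z)
      = if Bit β u t z then -1 else 1 := by
    intro t
    by_cases h2 : Bit β u t z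
    · rw [if_pos h2, chi, if_neg]
      exact h2
    · rw [if_neg h2, chi, if_pos]
      exact not_not.1 h2
  rw [prod_congr rfl fun t _ => h1 t, prod_ite, prod_const, prod_const_one, mul_one]
  unfold sg par
  by_cases h3 : Odd (univ.filter fun t => Bit β u t z).card
  · rw [if_pos (decide_eq_true h3), h3.neg_one_pow]
  · rw [if_neg (by simpa using h3), (Nat.not_odd_iff_even.1 h3).neg_one_pow]

theorem exp_bound (n e : ℕ) (he : 1 ≤ e) : 9 * n ≤ pols n e * lg n := by
  have h1 : 0 < lg n := Pool.Agent.URG.lg_pos n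
  have h2 : 2 ≤ 2 ^ e := by
    calc 2 = 2 ^ 1 := by norm_num
      _ ≤ 2 ^ e := Nat.pow_le_pow_right (by norm_num) he
  have h3 : 12 * n ≤ 4 * (2 ^ e + 1) * n := Nat.mul_le_mul_right _ (by omega)
  unfold pols
  have h4 := Nat.div_add_mod (4 * (2 ^ e + 1) * n) (lg n)
  have h5 := Nat.mod_lt (4 * (2 ^ e + 1) * n) h1
  rw [add_mul, one_mul, mul_comm (4 * (2 ^ e + 1) * n / lg n) (lg n)]
  omega

theorem lt_two_lg (n : ℕ) : n < 2 ^ lg n := by
  unfold lg
  exact Nat.lt_pow_succ_log_self (by norm_num) n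

end MOMx

open MOMx in
theorem t_MOM : S_MOM := by
  intro n e β O _ he hO hc
  set G : (Fin (URG.deg n e) → Bool) × (Fin (4 ^ e) → Fin (URG.deg n e) → Bool) → ℝ :=
    fun σ => ∏ z ∈ O, chi β (one_le_deg n e) (URG.value β σ.1 σ.2 z) with hG
  have h1 : ∑ u : URG.VarX n e → Bool, ∏ z ∈ O, sg (par β u z) = (∑ σ, G σ) ^ URG.pols n e := by
    rw [Fintype.sum_pow]
    refine Fintype.sum_equiv (eqU n e) _ _ fun u => ?_
    rw [prod_congr rfl fun z _ => sg_par β u z, prod_comm]
  have h2 : |∑ σ, G σ| ≤ (2 ^ URG.lg n)⁻¹ *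
      (Fintype.card ((Fin (URG.deg n e) → Bool) × (Fin (4 ^ e) → Fin (URG.deg n e) → Bool)) : ℝ) := by
    refine (sum_le β (one_le_deg n e) O hO hc).trans ?_
    rw [Fintype.card_prod, Fintype.card_fun (α := Fin (URG.deg n e)), Fintype.card_bool,
      Fintype.card_fin]
    push_cast
    have h3 : (O.card : ℝ) * O.card ≤ 16 ^ e := by
      have h4 : O.card * O.card ≤ 4 ^ e * 4 ^ e := Nat.mul_le_mul hc hc
      rw [← mul_pow] at h4
      exact_mod_cast h4
    have h5 : (n : ℝ) ≤ 2 ^ URG.lg n := by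
      exact_mod_cast (lt_two_lg n).le
    have h6 : (2 : ℝ) ^ URG.deg n e = 2 ^ URG.lg n * 2 ^ URG.lg n * 16 ^ e := by
      unfold URG.deg
      rw [pow_add, pow_mul 2 4 e, two_mul, pow_add]
      norm_num
    rw [h6]
    calc (O.card : ℝ) * O.card * n * (Fintype.card (Fin (4 ^ e) → Fin (URG.deg n e) → Bool) : ℝ)
        ≤ 16 ^ e * 2 ^ URG.lg n *
          (Fintype.card (Fin (4 ^ e) → Fin (URG.deg n e) → Bool) : ℝ) := by
          refine mul_le_mul_of_nonneg_right ?_ (by positivity)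
          exact mul_le_mul h3 h5 (by positivity) (by positivity)
      _ = _ := by
          field_simp
  have h7 : (Fintype.card (URG.VarX n e → Bool) : ℝ) =
      (Fintype.card ((Fin (URG.deg n e) → Bool) ×
        (Fin (4 ^ e) → Fin (URG.deg n e) → Bool)) : ℝ) ^ URG.pols n e := by
    rw [Fintype.card_congr (eqU n e), Fintype.card_fun (α := Fin (URG.pols n e)), Fintype.card_fin]
    push_cast
    rfl
  have h8 : ((2 : ℝ) ^ (URG.lg n * URG.pols n e))⁻¹ ≤ (2 : ℝ) ^ (-(9 * (n : ℝ))) := by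
    have h9 : (9 * (n : ℝ)) = ((9 * n : ℕ) : ℝ) := by push_cast; ring
    rw [h9, Real.rpow_neg (by norm_num), Real.rpow_natCast]
    refine inv_anti₀ (by positivity) ?_
    refine pow_le_pow_right₀ (by norm_num) ?_
    rw [mul_comm (URG.lg n)]
    exact exp_bound n e he
  rw [h1, abs_pow, h7]
  calc |∑ σ, G σ| ^ URG.pols n e ≤ ((2 ^ URG.lg n)⁻¹ *
      (Fintype.card ((Fin (URG.deg n e) → Bool) ×
        (Fin (4 ^ e) → Fin (URG.deg n e) → Bool)) : ℝ)) ^ URG.pols n e :=
        pow_le_pow_left₀ (abs_nonneg _) h2 _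
    _ = ((2 : ℝ) ^ (URG.lg n * URG.pols n e))⁻¹ *
      (Fintype.card ((Fin (URG.deg n e) → Bool) ×
        (Fin (4 ^ e) → Fin (URG.deg n e) → Bool)) : ℝ) ^ URG.pols n e := by
        rw [mul_pow, inv_pow, ← pow_mul]
    _ ≤ _ := mul_le_mul_of_nonneg_right h8 (by positivity)

end Pool.Agent.PPL
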