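import Pool.Agent.PPL.St4

/-!
# Project PPL: MN1, the main theorem for fixed `k`
-/

set_option autoImplicit false

open Finset
open scoped Classical

namespace Pool.Agent.PPL

open Pool.Agent.HPM (GMachs)
open Pool.Agent.TKN.ONE (size Bas Lay)

namespace MN1

/-- the empty set is in the class if the class is not empty -/
theorem det_false {s : ℕ} {I V : Type} {T : ℕ} {P : (I → Bool) → Prop} (h : Det s I V T P) :
    Det s I V T fun _ => False := by
  obtain ⟨M, -⟩ := h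
  exact ⟨{ M with acc := fun _ => False }, fun _ => Iff.rfl⟩

/-- the numbers -/
theorem nums {k A1 M : ℕ} (hk : 2 ≤ k) (hM : k ^ ((A1 + 28) * k) ≤ M) :
    k ^ (A1 * k) ≤ M ∧ 2 ^ 56 ≤ M ∧
      4 * (k : ℝ) ^ (A1 * k) ≤ (k : ℝ) ^ ((A1 + 28) * k) ∧
      (k : ℝ) ^ ((A1 + 28) * k) ≤ M := by
  have h1 : k ^ ((A1 + 28) * k) = k ^ (A1 * k) * k ^ (28 * k) := by
    rw [← pow_add]
    congr 1
    ring
  have h2 : 2 ^ 56 ≤ k ^ (28 * k) := by
    calc 2 ^ 56 ≤ k ^ 56 := Nat.pow_le_pow_left hk 56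
      _ ≤ k ^ (28 * k) := Nat.pow_le_pow_right (by omega) (by omega)
  have h3 : 1 ≤ k ^ (A1 * k) := Nat.one_le_pow _ _ (by omega)
  have h4 : k ^ (A1 * k) ≤ k ^ ((A1 + 28) * k) := by
    rw [h1]
    exact Nat.le_mul_of_pos_right _ (by omega)
  have h5 : 2 ^ 56 ≤ k ^ ((A1 + 28) * k) := by
    rw [h1]
    exact h2.trans (Nat.le_mul_of_pos_left _ (by omega))
  refine ⟨h4.trans hM, h5.trans hM, ?_, by exact_mod_cast hM⟩
  have h6 : 4 * k ^ (A1 * k) ≤ k ^ ((A1 + 28) * k) := by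
    rw [h1, mul_comm]
    exact Nat.mul_le_mul_left _ (le_trans (by norm_num) h2)
  exact_mod_cast h6

end MN1

/-- MN1 -/
theorem t_MN1 (hL : S_LOW) (hA : S_AVG) (hS : TKN.ONE.S_SIZ) : S_MN1 := by
  obtain ⟨A1, hA1⟩ := hL
  refine ⟨A1 + 28, ?_⟩
  intro k M hk hM β ly N s T c V _ hN hc hs hT hV
  obtain ⟨n1, n2, n3, n4⟩ := MN1.nums hk hM
  subst hN
  set X : ℝ := (k : ℝ) ^ (A1 * k) with hX
  set Y : ℝ := (k : ℝ) ^ ((A1 + 28) * k) with hY
  have hk0 : (0 : ℝ) < k := by exact_mod_cast (by omega : 0 < k)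
  have hX0 : 0 < X := pow_pos hk0 _
  have hY0 : 0 < Y := pow_pos hk0 _
  have hsz : 2 * M ≤ size M := (hS M n2).1.1
  have hsz' : 2 * (M : ℝ) ≤ size M := by exact_mod_cast hsz
  have hN0 : (0 : ℝ) ≤ size M := Nat.cast_nonneg _
  have hcX : 4 * c ≤ 1 / X := by
    rw [hc, mul_one_div, div_le_div_iff₀ hY0 hX0, one_mul]
    exact n3
  have hc0 : 0 ≤ c := by
    rw [hc]
    positivity
  have hcX' : c ≤ 1 / X := by linarith
  have hcN : c * size M ≤ 1 / X * size M := mul_le_mul_of_nonneg_right hcX' hN0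
  have hcN2 : 2 ≤ c * size M := by
    rw [hc, one_div, inv_mul_eq_div, le_div_iff₀ hY0]
    linarith
  have hcN4 : 4 * (c * size M) ≤ 1 / X * size M := by
    rw [← mul_assoc]
    exact mul_le_mul_of_nonneg_right hcX hN0
  obtain ⟨H, hH, hb⟩ := hA1 k M hk n1 β ly
  have hb' : ∀ P, Det s (Fin (size M)) V T P →
      |∑ v ∈ H, sgP (P v) * sgP (fP β ly v = true)| ≤ (2 : ℝ) ^ (-(1 / X * size M)) * H.card := by
    intro P hP
    refine hb s T V P (hs.trans hcN) hT (hV.trans ?_) hP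
    exact Real.rpow_le_rpow_of_exponent_le (by norm_num) hcN
  refine ⟨⟨H, hH, fun P hP => (hb' P hP).trans ?_⟩, fun W hW => ?_⟩
  · refine mul_le_mul_of_nonneg_right ?_ (Nat.cast_nonneg _)
    exact Real.rpow_le_rpow_of_exponent_le (by norm_num) (neg_le_neg hcN)
  · refine hA (Fin (size M)) (Det s (Fin (size M)) V T) (1 / X * size M)
      (fun v => fP β ly v = true) H hH (fun P hP => MN1.det_false hP) hb' W ?_
    linarith

end Pool.Agent.PPL
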