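import Pool.Agent.PPL.St4

/-!
# The main theorem for time `o(N log N / log log N)`
-/

set_option autoImplicit false

open Finset
open scoped Classical

namespace Pool.Agent.PPL

open Pool.Agent.TKN.ONE (size Bas Lay)

namespace MN2M

theorem hard_mono {I : Type} {C : ((I → Bool) → Prop) → Prop} {b b' : ℝ} {L : (I → Bool) → Prop}
    (h : b' ≤ b) (hH : Hard C b L) : Hard C b' L := by
  obtain ⟨⟨H, hne, hc⟩, h2⟩ := hH
  refine ⟨⟨H, hne, fun P hP => (hc P hP).trans ?_⟩, fun W hW => h2 W (hW.trans h)⟩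
  have h3 : (2 : ℝ) ^ (-b) ≤ (2 : ℝ) ^ (-b') :=
    Real.rpow_le_rpow_of_exponent_le (by norm_num) (by linarith)
  exact mul_le_mul_of_nonneg_right h3 (Nat.cast_nonneg _)

/-- The real inequalities. -/
theorem key (A : ℕ) (ε : ℝ) (hε : 0 < ε) :
    ∃ c : ℝ, 0 < c ∧ ∃ N0 : ℕ, ∀ N ≥ N0, ∃ k : ℕ, 2 ≤ k ∧
      c * Real.log N / Real.log (Real.log N) ≤ k ∧ (k : ℝ) ^ (A * k) ≤ (N : ℝ) ^ (ε / 2) := by
  obtain ⟨c, hc⟩ : ∃ c : ℝ, c = ε / (4 * (A + 1)) := ⟨_, rfl⟩
  have hA : (0 : ℝ) < 4 * (A + 1) := by positivity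
  have hc0 : 0 < c := by rw [hc]; positivity
  have hcA : c * (4 * (A + 1)) = ε := by rw [hc]; exact div_mul_cancel₀ _ hA.ne'
  refine ⟨c, hc0, ?_⟩
  have e1 : ∀ᶠ L : ℝ in Filter.atTop, Real.log L ≤ c / 3 * L := by
    have h := Real.isLittleO_log_id_atTop.bound (show (0 : ℝ) < c / 3 by positivity)
    filter_upwards [h, Filter.eventually_ge_atTop (0 : ℝ)] with L h1 h2
    have h3 := (le_abs_self _).trans h1
    rwa [id, Real.norm_eq_abs, abs_of_nonneg h2] at h3
  have e2 : ∀ᶠ L : ℝ in Filter.atTop, max (2 * c) 1 ≤ Real.log L :=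
    Real.tendsto_log_atTop.eventually_ge_atTop _
  have e3 : ∀ᶠ L : ℝ in Filter.atTop, 1 ≤ L := Filter.eventually_ge_atTop _
  have hlog : Filter.Tendsto (fun N : ℕ => Real.log N) Filter.atTop Filter.atTop :=
    Real.tendsto_log_atTop.comp tendsto_natCast_atTop_atTop
  obtain ⟨N0, hN0⟩ := Filter.eventually_atTop.1
    ((hlog.eventually (e1.and (e2.and e3))).and (Filter.eventually_ge_atTop 1))
  refine ⟨N0, fun N hN => ?_⟩
  obtain ⟨⟨h1, h2, h3⟩, h4⟩ := hN0 N hN
  obtain ⟨L, hL⟩ : ∃ L : ℝ, L = Real.log N := ⟨_, rfl⟩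
  rw [← hL] at h1 h2 h3 ⊢
  obtain ⟨l, hl⟩ : ∃ l : ℝ, l = Real.log L := ⟨_, rfl⟩
  rw [← hl] at h1 h2 ⊢
  have hl1 : 1 ≤ l := (le_max_right _ _).trans h2
  have hl2 : 2 * c ≤ l := (le_max_left _ _).trans h2
  have hl0 : 0 < l := by linarith
  have hL0 : 0 < L := by linarith
  have hN1 : (0 : ℝ) < N := by exact_mod_cast h4
  refine ⟨⌈c * L / l⌉₊ + 2, by omega, ?_, ?_⟩
  · have := Nat.le_ceil (c * L / l)
    push_cast
    linarith
  · obtain ⟨k, hk⟩ : ∃ k : ℕ, k = ⌈c * L / l⌉₊ + 2 := ⟨_, rfl⟩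
    have hk1 : (k : ℝ) ≤ 2 * c * L / l := by
      have h5 := Nat.ceil_lt_add_one (show 0 ≤ c * L / l by positivity)
      have h6 : 3 ≤ c * L / l := by
        rw [le_div_iff₀ hl0]
        linarith
      have h7 : 2 * c * L / l = 2 * (c * L / l) := by ring
      rw [h7, hk]
      push_cast
      linarith
    rw [← hk]
    have hk2 : (k : ℝ) ≤ L := by
      refine hk1.trans ?_
      rw [div_le_iff₀ hl0]
      nlinarith
    have hk0 : (0 : ℝ) < k := by
      have : 0 < k := by omega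
      exact_mod_cast this
    have hk3 : Real.log k ≤ l := by
      rw [hl]
      exact Real.log_le_log hk0 hk2
    have hk4 : 0 ≤ Real.log k := by
      apply Real.log_nonneg
      have : 1 ≤ k := by omega
      exact_mod_cast this
    rw [← Real.rpow_natCast, Real.rpow_def_of_pos hk0, Real.rpow_def_of_pos hN1, ← hL]
    apply Real.exp_le_exp.2
    push_cast
    have h8 : Real.log k * k ≤ l * (2 * c * L / l) :=
      mul_le_mul hk3 hk1 hk0.le hl0.le
    have h9 : l * (2 * c * L / l) = 2 * c * L := by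
      field_simp
    have h10 : Real.log k * (A * k) ≤ A * (2 * c * L) := by
      have h11 := mul_le_mul_of_nonneg_left (h8.trans_eq h9) (Nat.cast_nonneg (α := ℝ) A)
      linarith [h11, show Real.log k * (A * k) = A * (Real.log k * k) by ring]
    have h12 : (A : ℝ) * (2 * c * L) ≤ L * (ε / 2) := by
      have h13 : 0 ≤ c * L := by positivity
      rw [← hcA]
      nlinarith
    linarith

end MN2M

theorem t_MN2 : S_MN1 → TKN.ONE.S_SIZ → S_MN2 := by
  intro hMN1 hSIZ ε hε hε1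
  obtain ⟨A, hA⟩ := hMN1
  obtain ⟨c, hc0, N0, hN0⟩ := MN2M.key A ε hε
  refine ⟨c, hc0, max N0 (2 ^ 56), fun M hM β ly N s T V _ hN hs hT hV => ?_⟩
  have hM1 : N0 ≤ M := (le_max_left _ _).trans hM
  have hM2 : 2 ^ 56 ≤ M := (le_max_right _ _).trans hM
  obtain ⟨⟨hs1, hs2⟩, -, -⟩ := hSIZ M hM2
  rw [← hN] at hs1 hs2
  obtain ⟨k, hk2, hk, hkA⟩ := hN0 N (by omega)
  have hNr : (1 : ℝ) ≤ N := by
    have : 1 ≤ N := by omega
    exact_mod_cast this
  have hN0' : (0 : ℝ) < N := by linarith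
  have hMr : (3 : ℝ) ≤ M := by
    have : 3 ≤ M := by omega
    exact_mod_cast this
  have hNM : (N : ℝ) ≤ 3 * M := by
    have : N ≤ 3 * M := by omega
    exact_mod_cast this
  -- the power of `k`
  have hkM : (k : ℝ) ^ (A * k) ≤ M := by
    refine hkA.trans ?_
    have h1 : (N : ℝ) ^ (ε / 2) ≤ (N : ℝ) ^ (1 / 2 : ℝ) :=
      Real.rpow_le_rpow_of_exponent_le hNr (by linarith)
    refine h1.trans ?_
    rw [← Real.sqrt_eq_rpow, Real.sqrt_le_left (by linarith)]
    nlinarith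
  have hkM' : k ^ (A * k) ≤ M := by exact_mod_cast hkM
  have hkε : (k : ℝ) ^ (A * k) ≤ (N : ℝ) ^ ε :=
    hkA.trans (Real.rpow_le_rpow_of_exponent_le hNr (by linarith))
  have hkpos : (0 : ℝ) < (k : ℝ) ^ (A * k) := by
    have : (0 : ℝ) < k := by
      have : 0 < k := by omega
      exact_mod_cast this
    positivity
  have hle : (N : ℝ) ^ (1 - ε) ≤ 1 / (k : ℝ) ^ (A * k) * N := by
    rw [div_mul_eq_mul_div, one_mul, le_div_iff₀ hkpos]
    calc (N : ℝ) ^ (1 - ε) * (k : ℝ) ^ (A * k) ≤ (N : ℝ) ^ (1 - ε) * (N : ℝ) ^ ε :=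
          mul_le_mul_of_nonneg_left hkε (Real.rpow_nonneg hN0'.le _)
      _ = N := by
          rw [← Real.rpow_add hN0', sub_add_cancel, Real.rpow_one]
  have hTs : T * s ≤ k * N := by
    have h1 : (T : ℝ) * s ≤ k * N := by
      refine hT.trans ?_
      have h2 := mul_le_mul_of_nonneg_right hk hN0'.le
      have h3 : c * N * Real.log N / Real.log (Real.log N) =
          c * Real.log N / Real.log (Real.log N) * N := by ring
      rw [h3]
      exact h2
    exact_mod_cast h1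
  refine MN2M.hard_mono hle (hA k M hk2 hkM' β ly N s T _ V hN rfl (hs.trans hle) hTs
    (hV.trans ?_))
  exact Real.rpow_le_rpow_of_exponent_le (by norm_num) hle

end Pool.Agent.PPL
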