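import Pool.Agent.PPL.St2

/-!
# Project PPL, module MUL: many points, counters (helper37)
-/

set_option autoImplicit false

open Finset
open scoped Classical

namespace Pool.Agent.PPL

namespace MUL

variable {L n : ℕ}

/-- the point `l` is `x`, the other points are those of `y` -/
def ext (l : Fin L) (y : Fin L × Fin n → Bool) (x : Fin n → Bool) : Fin L × Fin n → Bool :=
  fun p => if p.1 = l then x p.2 else y p

/-- the point `l` -/
def pt (l : Fin L) (y : Fin L × Fin n → Bool) : Fin n → Bool := fun j => y (l, j)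

theorem pt_ext (l : Fin L) (y : Fin L × Fin n → Bool) (x : Fin n → Bool) :
    pt l (ext l y x) = x := by
  funext j
  simp [pt, ext]

theorem pt_ext_ne (l l' : Fin L) (h : l' ≠ l) (y : Fin L × Fin n → Bool) (x : Fin n → Bool) :
    pt l' (ext l y x) = pt l' y := by
  funext j
  simp [pt, ext, h]

theorem ext_ext (l : Fin L) (y : Fin L × Fin n → Bool) (x : Fin n → Bool) :
    ext l (ext l y x) (pt l y) = y := by
  funext p
  obtain ⟨a, j⟩ := p
  by_cases h : a = l
  · subst h
    simp [pt, ext]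
  · simp [ext, h]

/-- exchange of the point `l` -/
def flip (l : Fin L) : ((Fin L × Fin n → Bool) × (Fin n → Bool)) ≃
    ((Fin L × Fin n → Bool) × (Fin n → Bool)) where
  toFun p := (ext l p.1 p.2, pt l p.1)
  invFun p := (ext l p.1 p.2, pt l p.1)
  left_inv p := by
    obtain ⟨y, x⟩ := p
    simp only [ext_ext, pt_ext]
  right_inv p := by
    obtain ⟨y, x⟩ := p
    simp only [ext_ext, pt_ext]

theorem sum_ext (l : Fin L) (F : (Fin L × Fin n → Bool) → ℝ) :
    ∑ y : Fin L × Fin n → Bool, ∑ x : Fin n → Bool, F (ext l y x) = 2 ^ n * ∑ y, F y := by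
  have h1 := Equiv.sum_comp (flip (n := n) l) (fun p => F p.1)
  have h2 : ∑ p, (fun p : (Fin L × Fin n → Bool) × (Fin n → Bool) => F p.1) (flip l p) =
      ∑ y : Fin L × Fin n → Bool, ∑ x : Fin n → Bool, F (ext l y x) := by
    rw [Fintype.sum_prod_type]
    rfl
  have h3 : ∑ p : (Fin L × Fin n → Bool) × (Fin n → Bool), F p.1 = 2 ^ n * ∑ y, F y := by
    rw [Fintype.sum_prod_type, Finset.mul_sum]
    refine Finset.sum_congr rfl fun y _ => ?_
    simp only [Finset.sum_const, Finset.card_univ, nsmul_eq_mul]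
    simp
  rw [← h2, h1, h3]

/-- number of the bits of the point `l` -/
noncomputable def cnt (l : Fin L) (S : Finset (Fin L × Fin n)) : ℕ :=
  (S.filter fun p => p.1 = l).card

theorem cnt_le (l : Fin L) (S : Finset (Fin L × Fin n)) : cnt l S ≤ S.card :=
  Finset.card_filter_le _ _

theorem sum_cnt (S : Finset (Fin L × Fin n)) : ∑ l, cnt l S = S.card := by
  unfold cnt
  exact (Finset.card_eq_sum_card_fiberwise (fun p _ => Finset.mem_univ p.1)).symm

theorem cnt_eq (l : Fin L) (S : Finset (Fin L × Fin n)) :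
    (univ.filter fun j : Fin n => (l, j) ∈ S).card = cnt l S := by
  unfold cnt
  refine Finset.card_bij (fun j _ => (l, j)) ?_ ?_ ?_
  · intro j hj
    rw [Finset.mem_filter] at hj ⊢
    exact ⟨hj.2, rfl⟩
  · intro a _ b _ h
    exact (Prod.mk.inj h).2
  · rintro ⟨a, j⟩ hp
    rw [Finset.mem_filter] at hp
    obtain ⟨h1, h2⟩ := hp
    have h3 : a = l := h2
    subst h3
    exact ⟨j, by rw [Finset.mem_filter]; exact ⟨Finset.mem_univ _, h1⟩, rfl⟩

section

variable {V : Type} (R : RS (Fin L × Fin n) V) (m : ℕ)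

/-- one step with counters -/
noncomputable def stp (t : ℕ) (v : V × (Fin L → Fin (m + 1))) (X : Fin L × Fin n → Bool) :
    V × (Fin L → Fin (m + 1)) :=
  (R.next t v.1 X, fun l => ⟨min ((v.2 l : ℕ) + cnt l (R.rd t v.1)) m,
    Nat.lt_succ_of_le (min_le_right _ _)⟩)

/-- the computation with counters -/
noncomputable def run (X : Fin L × Fin n → Bool) : ℕ → V × (Fin L → Fin (m + 1))
  | 0 => (R.start, fun _ => 0)
  | t + 1 => stp R m t (run X t) X

theorem run_fst (X : Fin L × Fin n → Bool) : ∀ t, (run R m X t).1 = R.st X t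
  | 0 => rfl
  | t + 1 => by
    show R.next t (run R m X t).1 X = R.next t (R.st X t) X
    rw [run_fst X t]

/-- the system for the point `l` -/
noncomputable def one (l : Fin L) (y : Fin L × Fin n → Bool) :
    RS (Fin n) (V × (Fin L → Fin (m + 1))) where
  start := (R.start, fun _ => 0)
  rd t v := univ.filter fun j : Fin n => (l, j) ∈ R.rd t v.1
  next t v x := stp R m t v (ext l y x)
  loc := by
    intro t v x x' h
    have h1 : R.next t v.1 (ext l y x) = R.next t v.1 (ext l y x') := by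
      refine R.loc t v.1 _ _ ?_
      rintro ⟨a, j⟩ hp
      by_cases h2 : a = l
      · subst h2
        have h3 := h j (by rw [Finset.mem_filter]; exact ⟨Finset.mem_univ _, hp⟩)
        simp only [ext, if_true, h3]
      · simp [ext, h2]
    unfold stp
    rw [h1]

theorem one_st (l : Fin L) (y : Fin L × Fin n → Bool) (x : Fin n → Bool) :
    ∀ t, (one R m l y).st x t = run R m (ext l y x) t
  | 0 => rfl
  | t + 1 => by
    show stp R m t ((one R m l y).st x t) (ext l y x) = stp R m t (run R m (ext l y x) t) (ext l y x)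
    rw [one_st l y x t]

theorem run_le (s : ℕ) (hs : ∀ t v, (R.rd t v).card ≤ s) (X : Fin L × Fin n → Bool) (l : Fin L) :
    ∀ t, ((run R m X t).2 l : ℕ) ≤ t * s
  | 0 => by simp [run]
  | t + 1 => by
    have h1 := run_le s hs X l t
    have h2 : ((run R m X (t + 1)).2 l : ℕ) =
      min (((run R m X t).2 l : ℕ) + cnt l (R.rd t (run R m X t).1)) m := rfl
    have h3 := (cnt_le l (R.rd t (run R m X t).1)).trans (hs t _)
    rw [h2, Nat.succ_mul]
    exact (min_le_left _ _).trans (by omega)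

theorem run_sum (s : ℕ) (hs : ∀ t v, (R.rd t v).card ≤ s) (X : Fin L × Fin n → Bool) :
    ∀ t, ∑ l, ((run R m X t).2 l : ℕ) ≤ t * s
  | 0 => by simp [run]
  | t + 1 => by
    have h1 := run_sum s hs X t
    have h2 : ∀ l, ((run R m X (t + 1)).2 l : ℕ) ≤
      ((run R m X t).2 l : ℕ) + cnt l (R.rd t (run R m X t).1) := fun l => min_le_left _ _
    have h3 : ∑ l, cnt l (R.rd t (run R m X t).1) ≤ s := by
      rw [sum_cnt]
      exact hs t _
    calc ∑ l, ((run R m X (t + 1)).2 l : ℕ)
        ≤ ∑ l, (((run R m X t).2 l : ℕ) + cnt l (R.rd t (run R m X t).1)) :=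
          Finset.sum_le_sum fun l _ => h2 l
      _ = ∑ l, ((run R m X t).2 l : ℕ) + ∑ l, cnt l (R.rd t (run R m X t).1) :=
          Finset.sum_add_distrib
      _ ≤ t * s + s := add_le_add h1 h3
      _ = (t + 1) * s := (Nat.succ_mul _ _).symm

theorem run_succ (s T : ℕ) (hm : m = T * s) (hs : ∀ t v, (R.rd t v).card ≤ s)
    (X : Fin L × Fin n → Bool) (l : Fin L) (t : ℕ) (ht : t < T) :
    ((run R m X (t + 1)).2 l : ℕ) =
      ((run R m X t).2 l : ℕ) + cnt l (R.rd t (run R m X t).1) := by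
  have h1 := run_le R m s hs X l t
  have h3 := (cnt_le l (R.rd t (run R m X t).1)).trans (hs t _)
  have h4 : (t + 1) * s ≤ T * s := Nat.mul_le_mul_right s ht
  rw [Nat.succ_mul] at h4
  refine min_eq_left ?_
  calc ((run R m X t).2 l : ℕ) + cnt l (R.rd t (run R m X t).1) ≤ t * s + s := by omega
    _ ≤ T * s := h4
    _ = m := hm.symm

end

theorem abs_sg (b : Bool) : |sg b| = 1 := by
  cases b <;> simp [sg]

/-- the sum over the inputs with a fixed final state with counters -/
theorem fixq {V : Type} [Fintype V] (R : RS (Fin L × Fin n) V) (m s T k : ℕ)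
    (f : (Fin n → Bool) → Bool) (B : ℝ) (hB : 0 ≤ B) (hm : m = T * s)
    (hs : ∀ t v, (R.rd t v).card ≤ s) (hL : 1 ≤ L) (hk : 2 * (T * s) ≤ k * (n * L))
    (q : V × (Fin L → Fin (m + 1)))
    (hPT : ∀ (R' : RS (Fin n) (V × (Fin L → Fin (m + 1)))) (c : V × (Fin L → Fin (m + 1)) → ℕ),
      (∀ t v, (R'.rd t v).card ≤ s) → c R'.start = 0 →
      (∀ x, ∀ t < T, c (R'.st x (t + 1)) = c (R'.st x t) + (R'.rd t (R'.st x t)).card) →
      2 * c q ≤ k * n →
      |∑ x ∈ univ.filter (fun x : Fin n → Bool => R'.st x T = q), sg (f x)| ≤ 2 ^ n * B) :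
    |∑ X ∈ univ.filter (fun X : Fin L × Fin n → Bool => run R m X T = q),
      ∏ l, sg (f (pt l X))| ≤ 2 ^ (L * n) * B := by
  have hB' : 0 ≤ 2 ^ (L * n) * B := by positivity
  by_cases hq : ∃ X, run R m X T = q
  swap
  · have h1 : (univ.filter fun X : Fin L × Fin n → Bool => run R m X T = q) = ∅ := by
      rw [Finset.filter_eq_empty_iff]
      exact fun X _ h => hq ⟨X, h⟩
    rw [h1, Finset.sum_empty, abs_zero]
    exact hB'
  obtain ⟨X0, hX0⟩ := hq
  -- the point with few bits
  obtain ⟨l, hl⟩ : ∃ l : Fin L, 2 * (q.2 l : ℕ) ≤ k * n := by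
    by_contra hcon
    push Not at hcon
    have h1 : ∑ l : Fin L, (k * n + 1) ≤ ∑ l, 2 * (q.2 l : ℕ) :=
      Finset.sum_le_sum fun l _ => hcon l
    have h2 := run_sum R m s hs X0 T
    rw [hX0] at h2
    rw [← Finset.mul_sum, Finset.sum_const, Finset.card_univ, Fintype.card_fin, smul_eq_mul] at h1
    have h3 : L * (k * n + 1) = k * (n * L) + L := by ring
    omega
  -- the one-point bound
  have hone : ∀ y : Fin L × Fin n → Bool,
      |∑ x ∈ univ.filter (fun x : Fin n → Bool => (one R m l y).st x T = q), sg (f x)| ≤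
        2 ^ n * B := by
    intro y
    refine hPT (one R m l y) (fun v => (v.2 l : ℕ)) ?_ ?_ ?_ hl
    · intro t v
      show (univ.filter fun j : Fin n => (l, j) ∈ R.rd t v.1).card ≤ s
      rw [cnt_eq]
      exact (cnt_le _ _).trans (hs _ _)
    · rfl
    · intro x t ht
      show (((one R m l y).st x (t + 1)).2 l : ℕ) = (((one R m l y).st x t).2 l : ℕ) +
        (univ.filter fun j : Fin n => (l, j) ∈ R.rd t ((one R m l y).st x t).1).card
      rw [one_st, one_st, cnt_eq]
      exact run_succ R m s T hm hs _ l t ht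
  -- the sum
  have key : ∀ y : Fin L × Fin n → Bool,
      |∑ x : Fin n → Bool, (if run R m (ext l y x) T = q then
        ∏ l', sg (f (pt l' (ext l y x))) else 0)| ≤ 2 ^ n * B := by
    intro y
    have h1 : ∀ x : Fin n → Bool, (if run R m (ext l y x) T = q then
        ∏ l', sg (f (pt l' (ext l y x))) else 0) =
        (∏ l' ∈ univ.erase l, sg (f (pt l' y))) *
          (if (one R m l y).st x T = q then sg (f x) else 0) := by
      intro x
      rw [one_st]
      by_cases hx : run R m (ext l y x) T = q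
      · rw [if_pos hx, if_pos hx, ← Finset.mul_prod_erase univ _ (Finset.mem_univ l), pt_ext,
          mul_comm]
        congr 1
        refine Finset.prod_congr rfl fun l' hl' => ?_
        rw [pt_ext_ne l l' (Finset.ne_of_mem_erase hl')]
      · rw [if_neg hx, if_neg hx, mul_zero]
    rw [Finset.sum_congr rfl fun x _ => h1 x, ← Finset.mul_sum, abs_mul, Finset.abs_prod]
    have h2 : ∏ l' ∈ univ.erase l, |sg (f (pt l' y))| = 1 :=
      Finset.prod_eq_one fun l' _ => abs_sg _
    rw [h2, one_mul]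
    have h3 := hone y
    rw [Finset.sum_filter] at h3
    exact h3
  have h1 := sum_ext l fun X : Fin L × Fin n → Bool =>
    if run R m X T = q then ∏ l', sg (f (pt l' X)) else 0
  rw [Finset.sum_filter]
  have h2 : |∑ y : Fin L × Fin n → Bool, ∑ x : Fin n → Bool,
      (if run R m (ext l y x) T = q then ∏ l', sg (f (pt l' (ext l y x))) else 0)| ≤
      2 ^ (L * n) * (2 ^ n * B) := by
    refine (Finset.abs_sum_le_sum_abs _ _).trans ?_
    refine (Finset.sum_le_sum fun y _ => key y).trans ?_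
    rw [Finset.sum_const, Finset.card_univ, nsmul_eq_mul]
    simp [mul_comm]
  rw [h1, abs_mul, abs_of_nonneg (by positivity : (0 : ℝ) ≤ 2 ^ n)] at h2
  have h3 : (0 : ℝ) < 2 ^ n := by positivity
  have h4 : (2 : ℝ) ^ n * |∑ X : Fin L × Fin n → Bool,
      (if run R m X T = q then ∏ l', sg (f (pt l' X)) else 0)| ≤
      2 ^ n * (2 ^ (L * n) * B) := by
    calc _ ≤ 2 ^ (L * n) * (2 ^ n * B) := h2
      _ = _ := by ring
  exact le_of_mul_le_mul_left h4 h3

end MUL

open MUL in
theorem t_MUL (hPT : S_PT) : S_MUL := by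
  obtain ⟨A, hA⟩ := hPT
  refine ⟨A, ?_⟩
  intro k hk n hn L V _ R s T f g hL hs hT hsn hf hg
  have hcard : Fintype.card (V × (Fin L → Fin (T * s + 1))) =
      Fintype.card V * (T * s + 1) ^ L := by
    simp
  obtain ⟨W, hW⟩ : ∃ W : ℝ, W = (((T + 1) * (T * s + 1) ^ L * Fintype.card V : ℕ) : ℝ) := ⟨_, rfl⟩
  obtain ⟨D, hD⟩ : ∃ D : ℝ, D = (2 : ℝ) ^ (-((n : ℝ) / k ^ (A * k))) := ⟨_, rfl⟩
  have hD0 : 0 ≤ D := by
    rw [hD]
    positivity
  have hW0 : 0 ≤ W := by
    rw [hW]
    positivity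
  have hW' : (((T + 1) * Fintype.card (V × (Fin L → Fin (T * s + 1))) : ℕ) : ℝ) = W := by
    rw [hcard, hW]
    push_cast
    ring
  have hfix : ∀ q : V × (Fin L → Fin (T * s + 1)),
      |∑ X ∈ univ.filter (fun X : Fin L × Fin n → Bool => run R (T * s) X T = q),
        ∏ l, sg (f (pt l X))| ≤ 2 ^ (L * n) * (W ^ k ^ A * D) := by
    intro q
    refine fixq R (T * s) s T k f (W ^ k ^ A * D) (by positivity) rfl hs hL hT q ?_
    intro R' c h1 h2 h3 h4
    have h5 := hA k hk n hn (V × (Fin L → Fin (T * s + 1))) R' c s T q f h1 h2 h3 h4 hsn hf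
    rw [hW', ← hD] at h5
    refine le_trans ?_ (h5.trans (le_of_eq (by ring)))
    refine le_of_eq (congrArg abs ?_)
    rw [Finset.sum_filter, Finset.sum_filter]
    refine Finset.sum_congr rfl fun x _ => ?_
    by_cases hx : R'.st x T = q
    · rw [if_pos hx, if_pos hx]
    · rw [if_neg hx, if_neg hx]
  have hsum : ∑ X : Fin L × Fin n → Bool, g (R.st X T) * ∏ l, sg (f fun j => X (l, j)) =
      ∑ q : V × (Fin L → Fin (T * s + 1)), g q.1 *
        ∑ X ∈ univ.filter (fun X : Fin L × Fin n → Bool => run R (T * s) X T = q),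
          ∏ l, sg (f (pt l X)) := by
    rw [← Finset.sum_fiberwise_of_maps_to (s := univ) (t := univ)
      (g := fun X : Fin L × Fin n → Bool => run R (T * s) X T) (fun X _ => Finset.mem_univ _)]
    refine Finset.sum_congr rfl fun q _ => ?_
    rw [Finset.mul_sum]
    refine Finset.sum_congr rfl fun X hX => ?_
    rw [Finset.mem_filter] at hX
    rw [← hX.2, run_fst]
    rfl
  rw [hsum]
  refine (Finset.abs_sum_le_sum_abs _ _).trans ?_
  have h1 : ∀ q : V × (Fin L → Fin (T * s + 1)), |g q.1 *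
        ∑ X ∈ univ.filter (fun X : Fin L × Fin n → Bool => run R (T * s) X T = q),
          ∏ l, sg (f (pt l X))| ≤ 2 ^ (L * n) * (W ^ k ^ A * D) := by
    intro q
    rw [abs_mul]
    calc |g q.1| * _ ≤ 1 * (2 ^ (L * n) * (W ^ k ^ A * D)) :=
          mul_le_mul (hg q.1) (hfix q) (abs_nonneg _) zero_le_one
      _ = _ := one_mul _
  refine (Finset.sum_le_sum fun q _ => h1 q).trans ?_
  rw [Finset.sum_const, Finset.card_univ, nsmul_eq_mul, ← hW, ← hD]
  have h2 : (Fintype.card (V × (Fin L → Fin (T * s + 1))) : ℝ) ≤ W := by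
    rw [← hW']
    push_cast
    have : (0 : ℝ) ≤ Fintype.card (V × (Fin L → Fin (T * s + 1))) := Nat.cast_nonneg _
    have hT0 : (0 : ℝ) ≤ T := Nat.cast_nonneg _
    nlinarith
  calc (Fintype.card (V × (Fin L → Fin (T * s + 1))) : ℝ) * (2 ^ (L * n) * (W ^ k ^ A * D))
      ≤ W * (2 ^ (L * n) * (W ^ k ^ A * D)) := mul_le_mul_of_nonneg_right h2 (by positivity)
    _ = W ^ (k ^ A + 1) * 2 ^ (L * n) * D := by ring

end Pool.Agent.PPL
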