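import Pool.Agent.PPL.St1

/-!
# PPL, NCU: the sets of unread variables define a partition into cubes
-/

set_option autoImplicit false

open Finset
open scoped Classical

namespace Pool.Agent.PPL

namespace NCU50

theorem key {n r w : ℕ} {U : Fin r → (Fin n → Bool) → Finset (Fin n)}
    {A : Fin r → (Fin n → Bool) → Prop} (h : Seg w U A) {J : Finset (Fin r)} {x y : Fin n → Bool}
    (hxy : ∀ v, v ∉ NJ U J x → x v = y v) {j : Fin r} (hj : j ∉ J) :
    U j y = U j x ∧ (A j y ↔ A j x) := by
  refine h.loc j x y fun v hv => hxy v fun hN => ?_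
  unfold NJ at hN
  exact (Finset.mem_filter.1 hN).2 j hj hv

end NCU50

open NCU50 in
/-- NCU -/
theorem t_NCU : S_NCU := by
  intro n r w U A h
  refine ⟨fun J x y hxy => ?_, fun x y hxy j => key h hxy (by simp)⟩
  unfold NJ
  refine Finset.filter_congr fun v _ => ?_
  constructor
  · intro h1 j hj
    rw [← (key h hxy hj).1]
    exact h1 j hj
  · intro h1 j hj
    rw [(key h hxy hj).1]
    exact h1 j hj

end Pool.Agent.PPL
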