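import Pool.Agent.PPL.St2

/-!
# PPL, module ONE (helper55): one point, one trace
-/

set_option autoImplicit false

open Finset
open scoped Classical

namespace Pool.Agent.PPL

namespace ONE

/-! ## Generalities -/

theorem abs_sg (b : Bool) : |sg b| = 1 := by
  unfold sg
  cases b <;> simp

theorem abs_sum_le {X : Type} (f : X → Bool) (B : Finset X) :
    |∑ x ∈ B, sg (f x)| ≤ (B.card : ℝ) := by
  refine (Finset.abs_sum_le_sum_abs _ _).trans ?_
  simp [abs_sg]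

theorem levels {X : Type} (Q : X → Prop) (h F : X → ℝ) (N : ℝ) (hN : 0 ≤ N) (a : ℕ)
    (T : Finset X) (hT : ∀ x, x ∈ T ↔ Q x) (C : ℕ → Finset X)
    (hC : ∀ p x, x ∈ C p ↔ Q x ∧ h x ≤ N / 2 ^ p) (L : ℕ → Finset X)
    (hL : ∀ p x, x ∈ L p ↔ Q x ∧ N / 2 ^ (p + 1) < h x ∧ h x ≤ N / 2 ^ p) (Z : Finset X)
    (hZ : ∀ x, x ∈ Z ↔ Q x ∧ N / 2 ^ a < h x) : ∀ P, a ≤ P →
    ∑ x ∈ T, F x = ∑ x ∈ C P, F x + ∑ p ∈ Finset.Ico a P, ∑ x ∈ L p, F x + ∑ x ∈ Z, F x := by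
  intro P hP
  induction P, hP using Nat.le_induction with
  | base =>
    rw [Finset.Ico_self, Finset.sum_empty, add_zero]
    have hd : Disjoint (C a) Z := by
      rw [Finset.disjoint_left]
      intro x h1 h2
      rw [hC] at h1
      rw [hZ] at h2
      linarith [h1.2, h2.2]
    have hu : T = C a ∪ Z := by
      ext x
      rw [Finset.mem_union, hT, hC, hZ]
      constructor
      · intro hx
        rcases le_or_gt (h x) (N / 2 ^ a) with h1 | h1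
        · exact Or.inl ⟨hx, h1⟩
        · exact Or.inr ⟨hx, h1⟩
      · rintro (hx | hx)
        · exact hx.1
        · exact hx.1
    rw [hu, Finset.sum_union hd]
  | succ P hP ih =>
    have hmono : N / 2 ^ (P + 1) ≤ N / 2 ^ P :=
      div_le_div_of_nonneg_left hN (by positivity) (pow_le_pow_right₀ one_le_two (Nat.le_succ P))
    have hd : Disjoint (C (P + 1)) (L P) := by
      rw [Finset.disjoint_left]
      intro x h1 h2
      rw [hC] at h1
      rw [hL] at h2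
      linarith [h1.2, h2.2.1]
    have hu : C P = C (P + 1) ∪ L P := by
      ext x
      rw [Finset.mem_union, hC, hC, hL]
      constructor
      · intro hx
        rcases le_or_gt (h x) (N / 2 ^ (P + 1)) with h1 | h1
        · exact Or.inl ⟨hx.1, h1⟩
        · exact Or.inr ⟨hx.1, h1, hx.2⟩
      · rintro (hx | hx)
        · exact ⟨hx.1, hx.2.trans hmono⟩
        · exact ⟨hx.1, hx.2.2⟩
    rw [ih, Finset.sum_Ico_succ_top hP, hu, Finset.sum_union hd]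
    ring

section
variable {n r w : ℕ} {U : Fin r → (Fin n → Bool) → Finset (Fin n)}
  {A : Fin r → (Fin n → Bool) → Prop}

theorem card_UJ (hS : Seg w U A) (J : Finset (Fin r)) (x : Fin n → Bool) :
    (UJ U J x).card ≤ J.card * w := by
  have h1 : UJ U J x ⊆ J.biUnion fun j => U j x := by
    intro v hv
    unfold UJ at hv
    rw [Finset.mem_filter] at hv
    rw [Finset.mem_biUnion]
    exact hv.2
  refine (Finset.card_le_card h1).trans (Finset.card_biUnion_le.trans ?_)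
  exact Finset.sum_le_card_nsmul _ _ _ fun j _ => hS.card j x

theorem card_NJ (hS : Seg w U A) (J : Finset (Fin r)) (x : Fin n → Bool) :
    (NJ U J x).card ≤ (NJ U ∅ x).card + J.card * w := by
  have h1 : NJ U J x ⊆ NJ U ∅ x ∪ UJ U J x := by
    intro v hv
    rw [Finset.mem_union]
    by_cases h : ∃ j ∈ J, v ∈ U j x
    · right
      unfold UJ
      rw [Finset.mem_filter]
      exact ⟨Finset.mem_univ _, h⟩
    · left
      unfold NJ at hv ⊢
      rw [Finset.mem_filter] at hv ⊢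
      refine ⟨Finset.mem_univ _, fun j _ hj => ?_⟩
      by_cases hJ : j ∈ J
      · exact h ⟨j, hJ, hj⟩
      · exact hv.2 j hJ hj
  refine (Finset.card_le_card h1).trans ((Finset.card_union_le _ _).trans ?_)
  exact Nat.add_le_add_left (card_UJ hS J x) _

end

/-! ## Numbers -/

theorem two_pow_P (k : ℕ) (hk : 2 ≤ k) :
    2 ^ (6 + 2 * k * (41 + 3 * (Nat.log 2 k + 1))) ≤ k ^ (97 * k) := by
  have h1 : 2 ^ (Nat.log 2 k + 1) ≤ 2 * k := by
    rw [pow_succ, mul_comm]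
    exact Nat.mul_le_mul_left 2 (Nat.pow_log_le_self 2 (by omega))
  have h2 : 2 ^ (41 + 3 * (Nat.log 2 k + 1)) ≤ k ^ 47 := by
    calc 2 ^ (41 + 3 * (Nat.log 2 k + 1)) = 2 ^ 41 * (2 ^ (Nat.log 2 k + 1)) ^ 3 := by
          rw [pow_add, mul_comm 3, pow_mul]
      _ ≤ 2 ^ 41 * (2 * k) ^ 3 := Nat.mul_le_mul_left _ (Nat.pow_le_pow_left h1 3)
      _ = 2 ^ 44 * k ^ 3 := by ring
      _ ≤ k ^ 44 * k ^ 3 := Nat.mul_le_mul_right _ (Nat.pow_le_pow_left hk 44)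
      _ = k ^ 47 := by ring
  calc 2 ^ (6 + 2 * k * (41 + 3 * (Nat.log 2 k + 1)))
      = 2 ^ 6 * (2 ^ (41 + 3 * (Nat.log 2 k + 1))) ^ (2 * k) := by
        rw [pow_add, mul_comm (2 * k), pow_mul]
    _ ≤ k ^ 6 * (k ^ 47) ^ (2 * k) :=
        Nat.mul_le_mul (Nat.pow_le_pow_left hk 6) (Nat.pow_le_pow_left h2 _)
    _ = k ^ (6 + 47 * (2 * k)) := by rw [← pow_mul, ← pow_add]
    _ ≤ k ^ (97 * k) := Nat.pow_le_pow_right (by omega) (by omega)

theorem big (k P r : ℕ) (hk : 2 ≤ k) (hP : P = 6 + 2 * k * (41 + 3 * (Nat.log 2 k + 1)))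
    (hr : r = 2 ^ 42 * k ^ 4) : r * (r + 4) * 2 ^ (3 * P + 10) ≤ k ^ (400 * k) := by
  have h1 : 2 ^ P ≤ k ^ (97 * k) := by
    rw [hP]
    exact two_pow_P k hk
  have h2 : r ≤ k ^ 46 := by
    rw [hr]
    calc 2 ^ 42 * k ^ 4 ≤ k ^ 42 * k ^ 4 :=
          Nat.mul_le_mul_right _ (Nat.pow_le_pow_left hk 42)
      _ = k ^ 46 := by ring
  have hr4 : 4 ≤ r := by
    rw [hr]
    have h3 : 1 ≤ k ^ 4 := Nat.one_le_pow _ _ (by omega)
    omega
  have h3 : r + 4 ≤ k ^ 47 := by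
    calc r + 4 ≤ 2 * r := by omega
      _ ≤ k * k ^ 46 := Nat.mul_le_mul hk h2
      _ = k ^ 47 := by ring
  calc r * (r + 4) * 2 ^ (3 * P + 10) = r * (r + 4) * ((2 ^ P) ^ 3 * 2 ^ 10) := by
        rw [pow_add, mul_comm 3, pow_mul]
    _ ≤ k ^ 46 * k ^ 47 * ((k ^ (97 * k)) ^ 3 * k ^ 10) :=
        Nat.mul_le_mul (Nat.mul_le_mul h2 h3)
          (Nat.mul_le_mul (Nat.pow_le_pow_left h1 3) (Nat.pow_le_pow_left hk 10))
    _ = k ^ (46 + 47 + (97 * k * 3 + 10)) := by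
        rw [← pow_mul, ← pow_add, ← pow_add, ← pow_add]
    _ ≤ k ^ (400 * k) := Nat.pow_le_pow_right (by omega) (by omega)

theorem P_le (k P r : ℕ) (hk : 2 ≤ k) (hP : P = 6 + 2 * k * (41 + 3 * (Nat.log 2 k + 1)))
    (hr : r = 2 ^ 42 * k ^ 4) : P ≤ r := by
  have h1 : Nat.log 2 k + 1 ≤ k := Nat.log_lt_self 2 (by omega)
  have h2 : 2 * k * (41 + 3 * (Nat.log 2 k + 1)) ≤ 2 * k * (41 + 3 * k) :=
    Nat.mul_le_mul_left _ (by omega)
  have h3 : k ≤ k ^ 4 := Nat.le_self_pow (by norm_num) k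
  have h4 : k * k ≤ k ^ 4 := by
    calc k * k = k ^ 2 := by ring
      _ ≤ k ^ 4 := Nat.pow_le_pow_right (by omega) (by norm_num)
  have h5 : 2 * k * (41 + 3 * k) = 82 * k + 6 * (k * k) := by ring
  rw [hP, hr]
  omega

theorem nu_lt (k P : ℕ) (hk : 2 ≤ k) (hP : P = 6 + 2 * k * (41 + 3 * (Nat.log 2 k + 1))) :
    (64 : ℝ) * (2 ^ 41 * (k : ℝ) ^ 3) ^ (2 * k) < 2 ^ P := by
  have h1 : k < 2 ^ (Nat.log 2 k + 1) := Nat.lt_pow_succ_log_self (by norm_num) k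
  have h2 : 2 ^ 41 * k ^ 3 < 2 ^ (41 + 3 * (Nat.log 2 k + 1)) := by
    calc 2 ^ 41 * k ^ 3 < 2 ^ 41 * (2 ^ (Nat.log 2 k + 1)) ^ 3 :=
          Nat.mul_lt_mul_of_pos_left (Nat.pow_lt_pow_left h1 (by norm_num)) (by norm_num)
      _ = 2 ^ (41 + 3 * (Nat.log 2 k + 1)) := by
          rw [pow_add 2 41, mul_comm 3 (Nat.log 2 k + 1), pow_mul]
  have h3 : 64 * (2 ^ 41 * k ^ 3) ^ (2 * k) < 2 ^ P := by
    calc 64 * (2 ^ 41 * k ^ 3) ^ (2 * k)
        < 64 * (2 ^ (41 + 3 * (Nat.log 2 k + 1))) ^ (2 * k) :=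
          Nat.mul_lt_mul_of_pos_left (Nat.pow_lt_pow_left h2 (by omega)) (by norm_num)
      _ = 2 ^ P := by
          rw [hP, pow_add 2 6, mul_comm (2 * k) (41 + 3 * (Nat.log 2 k + 1)),
            pow_mul 2 (41 + 3 * (Nat.log 2 k + 1)) (2 * k)]
          norm_num
  exact_mod_cast h3

theorem exp_le {x : ℝ} (hx : 0 ≤ x) : Real.exp (-x) ≤ (2 : ℝ) ^ (-x) := by
  rw [Real.rpow_def_of_pos (by norm_num : (0 : ℝ) < 2), Real.exp_le_exp]
  have h1 : Real.log 2 ≤ 1 := by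
    have := Real.log_two_lt_d9
    linarith
  nlinarith

theorem two_rpow_mono {x y : ℝ} (h : x ≤ y) : (2 : ℝ) ^ x ≤ (2 : ℝ) ^ y :=
  Real.rpow_le_rpow_of_exponent_le one_le_two h

/-- `1 / 2 * (4 k / (2 r)) ^ (2 k)` -/
theorem nu_facts (k P r : ℕ) (hk : 2 ≤ k) (hP : P = 6 + 2 * k * (41 + 3 * (Nat.log 2 k + 1)))
    (hr : r = 2 ^ 42 * k ^ 4) (ν : ℝ)
    (hν : ν = 1 / 2 * (((4 * k : ℕ) : ℝ) / (2 * r)) ^ (2 * k)) : 0 < ν ∧ 32 < ν * 2 ^ P := by
  have hk0 : (0 : ℝ) < k := by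
    have : 0 < k := by omega
    exact_mod_cast this
  have e1 : ((4 * k : ℕ) : ℝ) / (2 * r) = 1 / (2 ^ 41 * (k : ℝ) ^ 3) := by
    rw [hr]
    push_cast
    field_simp
    norm_num
  have e2 : ν * (2 * (2 ^ 41 * (k : ℝ) ^ 3) ^ (2 * k)) = 1 := by
    rw [hν, e1, one_div_pow]
    have h0 : (2 ^ 41 * (k : ℝ) ^ 3) ^ (2 * k) ≠ 0 := by positivity
    field_simp
  have hν0 : 0 < ν := by
    rw [hν, e1]
    positivity
  refine ⟨hν0, ?_⟩
  have h1 := nu_lt k P hk hP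
  have h2 := mul_lt_mul_of_pos_left h1 hν0
  nlinarith

/-- All numerical facts. -/
theorem nums (k n P r g : ℕ) (hk : 2 ≤ k)
    (hP : P = 6 + 2 * k * (41 + 3 * (Nat.log 2 k + 1))) (hr : r = 2 ^ 42 * k ^ 4)
    (hg : g = r * 2 ^ (P + 6)) (hn : k ^ (400 * k) ≤ n) (ν K : ℝ)
    (hν : ν = 1 / 2 * (((4 * k : ℕ) : ℝ) / (2 * r)) ^ (2 * k)) (hK : K = (k : ℝ) ^ (400 * k)) :
    (g : ℝ) ≤ ν * n / 2 ∧ (n : ℝ) / 2 ^ P < (ν * n - g) / 16 ∧ 8 ^ P ≤ n ∧
    (∀ p, p < P → (n : ℝ) / K ≤ (n : ℝ) / 2 ^ (p + 1)) ∧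
    2 * ((n : ℝ) / K) + 1 ≤ (n : ℝ) / 2 ^ 23 ∧
    2 ^ (r + 1) * Real.exp (-((ν * n / g - 1) / 8)) +
      ((P : ℝ) * (5 * (2 : ℝ) ^ (-((n : ℝ) / (r * 2 ^ (2 * P + 9))))) +
      2 * (2 : ℝ) ^ (-((n : ℝ) / 2 ^ 23 - 1) / 32)) ≤ (2 : ℝ) ^ (-((n : ℝ) / K)) := by
  have hb := big k P r hk hP hr
  have hPr := P_le k P r hk hP hr
  obtain ⟨hν0, hν1⟩ := nu_facts k P r hk hP hr ν hν
  have hr0 : 2 ^ 42 ≤ r := by
    rw [hr]
    exact Nat.le_mul_of_pos_right _ (Nat.pow_pos (by omega))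
  have hrR : (2 : ℝ) ^ 42 ≤ r := by exact_mod_cast hr0
  have hr1 : (0 : ℝ) < r := lt_of_lt_of_le (by positivity) hrR
  have hKW : (r : ℝ) * (r + 4) * 2 ^ (3 * P + 10) ≤ K := by
    rw [hK]
    exact_mod_cast hb
  have hNK : K ≤ (n : ℝ) := by
    rw [hK]
    exact_mod_cast hn
  have hNW : (r : ℝ) * (r + 4) * 2 ^ (3 * P + 10) ≤ n := hKW.trans hNK
  set N : ℝ := (n : ℝ) with hN
  set R : ℝ := (r : ℝ) with hR
  obtain ⟨X, hX⟩ : ∃ X : ℝ, X = 2 ^ P := ⟨_, rfl⟩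
  have hX1 : 1 ≤ X := by
    rw [hX]
    exact one_le_pow₀ one_le_two
  have hX0 : 0 < X := by linarith
  have e3 : (2 : ℝ) ^ (3 * P + 10) = X ^ 3 * 1024 := by
    rw [hX, pow_add, mul_comm 3, pow_mul]
    norm_num
  have e2 : (2 : ℝ) ^ (2 * P + 9) = X ^ 2 * 512 := by
    rw [hX, pow_add, mul_comm 2 P, pow_mul]
    norm_num
  have eg : (g : ℝ) = R * X * 64 := by
    rw [hg, hX, hR]
    push_cast
    rw [pow_add]
    norm_num
    ring
  rw [e3] at hKW hNW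
  rw [e2, ← hX]
  rw [← hX] at hν1
  have hR4 : 1 ≤ R + 4 := by linarith
  have hRX : 0 < R * X := mul_pos hr1 hX0
  have hg0 : (0 : ℝ) < g := by
    rw [eg]
    positivity
  -- `2 Q (r + 4)` with `Q = 512 R X ^ 2`
  have hXX : X ^ 2 ≤ X ^ 3 := pow_le_pow_right₀ hX1 (by norm_num)
  have hW2 : R * (R + 4) * (X ^ 2 * 1024) ≤ R * (R + 4) * (X ^ 3 * 1024) :=
    mul_le_mul_of_nonneg_left (by linarith) (by positivity)
  have hK2 : R * (R + 4) * (X ^ 2 * 1024) ≤ K := hW2.trans hKW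
  have hN2 : R * (R + 4) * (X ^ 2 * 1024) ≤ N := hW2.trans hNW
  have hlow : R * (X ^ 2 * 1024) ≤ R * (R + 4) * (X ^ 2 * 1024) := by
    have h1 : R * 1 ≤ R * (R + 4) := mul_le_mul_of_nonneg_left hR4 hr1.le
    have h2 := mul_le_mul_of_nonneg_right h1 (by positivity : 0 ≤ X ^ 2 * 1024)
    linarith
  have hNR : R * (X ^ 2 * 1024) ≤ N := hlow.trans hN2
  have hKR : R * (X ^ 2 * 1024) ≤ K := hlow.trans hK2
  have hN0 : 0 < N := lt_of_lt_of_le (by positivity) hNR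
  have hK0 : 0 < K := lt_of_lt_of_le (by positivity) hKR
  have hX2 : 1 ≤ X ^ 2 := one_le_pow₀ hX1
  have hXR : R ≤ R * X ^ 2 := le_mul_of_one_le_right hr1.le hX2
  -- (1)
  have p1 : (g : ℝ) ≤ ν * N / 2 := by
    have h1 : ν * (R * (X ^ 2 * 1024)) ≤ ν * N := mul_le_mul_of_nonneg_left hNR hν0.le
    have h2 : ν * (R * (X ^ 2 * 1024)) = (ν * X) * (R * X) * 1024 := by ring
    have h3 : 32 * (R * X) ≤ (ν * X) * (R * X) := mul_le_mul_of_nonneg_right hν1.le hRX.le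
    rw [eg]
    linarith
  -- (2)
  have p2 : N / X < (ν * N - g) / 16 := by
    rw [div_lt_iff₀ hX0]
    have h1 : ν * N / 32 ≤ (ν * N - g) / 16 := by linarith
    have h2 : ν * N / 32 * X ≤ (ν * N - g) / 16 * X := mul_le_mul_of_nonneg_right h1 hX0.le
    have h3 : 32 * N < (ν * X) * N := mul_lt_mul_of_pos_right hν1 hN0
    have h4 : ν * N / 32 * X = (ν * X) * N / 32 := by ring
    linarith
  -- (3)
  have p3 : 8 ^ P ≤ n := by
    refine le_trans ?_ (hb.trans hn)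
    have h1 : 8 ^ P = 2 ^ (3 * P) := by
      rw [pow_mul]
      norm_num
    rw [h1]
    calc 2 ^ (3 * P) ≤ 2 ^ (3 * P + 10) := Nat.pow_le_pow_right (by norm_num) (by omega)
      _ = 1 * 2 ^ (3 * P + 10) := (one_mul _).symm
      _ ≤ r * (r + 4) * 2 ^ (3 * P + 10) :=
        Nat.mul_le_mul_right _ (Nat.mul_pos (by omega) (by omega))
  refine ⟨p1, p2, p3, ?_, ?_, ?_⟩
  · -- (4)
    intro p hp
    refine div_le_div_of_nonneg_left hN0.le (by positivity) ?_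
    have h1 : (2 : ℝ) ^ (p + 1) ≤ X := by
      rw [hX]
      exact pow_le_pow_right₀ one_le_two hp
    have h2 : X ≤ R * (X ^ 2 * 1024) := by nlinarith
    linarith
  · -- (5)
    have h1 : N / K ≤ N / 2 ^ 25 := by
      refine div_le_div_of_nonneg_left hN0.le (by positivity) ?_
      linarith
    have h2 : (2 : ℝ) ^ 25 ≤ N := by linarith
    have h3 : (1 : ℝ) ≤ N / 2 ^ 25 := by
      rw [one_le_div (by positivity)]
      exact h2
    have h4 : N / 2 ^ 23 = 4 * (N / 2 ^ 25) := by ring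
    linarith
  · -- (6)
    have hQ0 : 0 < R * (X ^ 2 * 512) := by positivity
    set e : ℝ := (2 : ℝ) ^ (-(N / (R * (X ^ 2 * 512)))) with he
    have he0 : 0 < e := Real.rpow_pos_of_pos (by norm_num) _
    have hmul : ∀ c : ℝ, (2 : ℝ) ^ (c - N / (R * (X ^ 2 * 512))) = (2 : ℝ) ^ c * e := by
      intro c
      rw [sub_eq_add_neg, Real.rpow_add (by norm_num : (0 : ℝ) < 2)]
    have t1 : (2 : ℝ) ^ (r + 1) * Real.exp (-((ν * N / g - 1) / 8)) ≤ 2 ^ (r + 2) * e := by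
      have h1 : 1 ≤ ν * N / g := by
        rw [one_le_div hg0]
        have : 0 < ν * N := mul_pos hν0 hN0
        linarith
      have h2 : 0 ≤ (ν * N / g - 1) / 8 := by linarith
      have h3 : N / (R * (X ^ 2 * 512)) ≤ ν * N / g / 8 := by
        rw [div_le_iff₀ hQ0]
        have h4 : ν * N / g / 8 * (R * (X ^ 2 * 512)) = (ν * X) * N := by
          have h5 : R * (X ^ 2 * 512) = 8 * g * X := by
            rw [eg]
            ring
          rw [h5]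
          field_simp
        rw [h4]
        have h6 : 32 * N < (ν * X) * N := mul_lt_mul_of_pos_right hν1 hN0
        linarith
      have h4 : Real.exp (-((ν * N / g - 1) / 8)) ≤ 2 * e := by
        refine (exp_le h2).trans ?_
        have h5 := hmul 1
        rw [Real.rpow_one] at h5
        rw [← h5]
        refine two_rpow_mono ?_
        linarith
      calc (2 : ℝ) ^ (r + 1) * Real.exp (-((ν * N / g - 1) / 8)) ≤ 2 ^ (r + 1) * (2 * e) :=
            mul_le_mul_of_nonneg_left h4 (by positivity)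
        _ = 2 ^ (r + 2) * e := by ring
    have t3 : (2 : ℝ) ^ (-(N / 2 ^ 23 - 1) / 32) ≤ 2 * e := by
      have h5 := hmul 1
      rw [Real.rpow_one] at h5
      rw [← h5]
      refine two_rpow_mono ?_
      have h6 : N / (R * (X ^ 2 * 512)) ≤ N / 2 ^ 28 := by
        refine div_le_div_of_nonneg_left hN0.le (by positivity) ?_
        linarith
      have h7 : N / 2 ^ 28 = N / 2 ^ 23 / 32 := by ring
      linarith
    have hPR : (5 : ℝ) * P + 4 ≤ 2 ^ (r + 3) := by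
      have h1 : r < 2 ^ r := Nat.lt_two_pow_self
      have h2 : 5 * P + 4 ≤ 2 ^ (r + 3) := by
        rw [pow_add]
        omega
      exact_mod_cast h2
    have t4 : (2 : ℝ) ^ (r + 4) * e ≤ (2 : ℝ) ^ (-(N / K)) := by
      have h1 := hmul ((r + 4 : ℕ) : ℝ)
      rw [Real.rpow_natCast] at h1
      rw [← h1]
      refine two_rpow_mono ?_
      push_cast
      have hQ4 : 0 < R + 4 := by linarith
      have h2 : N / K ≤ N / (2 * (R * (X ^ 2 * 512))) := by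
        refine div_le_div_of_nonneg_left hN0.le (by positivity) ?_
        have h3 : 2 * (R * (X ^ 2 * 512)) = R * (X ^ 2 * 1024) := by ring
        rw [h3]
        exact hKR
      have h3 : R + 4 ≤ N / (2 * (R * (X ^ 2 * 512))) := by
        rw [le_div_iff₀ (by positivity)]
        have h4 : (R + 4) * (2 * (R * (X ^ 2 * 512))) = R * (R + 4) * (X ^ 2 * 1024) := by ring
        rw [h4]
        exact hN2
      have h4 : N / (R * (X ^ 2 * 512)) = 2 * (N / (2 * (R * (X ^ 2 * 512)))) := by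
        field_simp
      linarith
    refine le_trans ?_ t4
    have h1 : (2 : ℝ) ^ (r + 2) * e + ((P : ℝ) * (5 * e) + 2 * (2 * e)) ≤ 2 ^ (r + 4) * e := by
      have h2 : ((5 : ℝ) * P + 4) * e ≤ 2 ^ (r + 3) * e :=
        mul_le_mul_of_nonneg_right hPR he0.le
      have h3 : (2 : ℝ) ^ (r + 4) * e = 2 * (2 ^ (r + 3) * e) := by ring
      have h4 : (2 : ℝ) ^ (r + 3) * e = 2 * (2 ^ (r + 2) * e) := by ring
      have h5 : 0 ≤ (2 : ℝ) ^ (r + 2) * e := by positivity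
      nlinarith
    linarith

/-- The bound of one level. -/
theorem lev (n P r p : ℕ) (hr : 1 ≤ r) (hp : p < P) :
    Real.exp (-(16 * (n : ℝ) / 4 ^ p)) + 4 * (2 : ℝ) ^ (-((n : ℝ) / 2 ^ (p + 5))) ≤
      5 * (2 : ℝ) ^ (-((n : ℝ) / (r * 2 ^ (2 * P + 9)))) := by
  have hn0 : (0 : ℝ) ≤ n := Nat.cast_nonneg n
  have hr1 : (1 : ℝ) ≤ r := by exact_mod_cast hr
  have hQ : (2 : ℝ) ^ (2 * P + 9) ≤ r * 2 ^ (2 * P + 9) :=
    le_mul_of_one_le_left (by positivity) hr1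
  have h1 : Real.exp (-(16 * (n : ℝ) / 4 ^ p)) ≤
      (2 : ℝ) ^ (-((n : ℝ) / (r * 2 ^ (2 * P + 9)))) := by
    refine (exp_le (by positivity)).trans (two_rpow_mono (neg_le_neg ?_))
    have h2 : (n : ℝ) / (r * 2 ^ (2 * P + 9)) ≤ n / 4 ^ p := by
      refine div_le_div_of_nonneg_left hn0 (by positivity) ?_
      have h3 : (4 : ℝ) ^ p ≤ 2 ^ (2 * P + 9) := by
        have h4 : (4 : ℝ) ^ p = 2 ^ (2 * p) := by
          rw [pow_mul]
          norm_num
        rw [h4]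
        exact pow_le_pow_right₀ one_le_two (by omega)
      linarith
    have h3 : 16 * (n : ℝ) / 4 ^ p = 16 * (n / 4 ^ p) := by ring
    have h4 : 0 ≤ (n : ℝ) / 4 ^ p := by positivity
    linarith
  have h2 : (2 : ℝ) ^ (-((n : ℝ) / 2 ^ (p + 5))) ≤
      (2 : ℝ) ^ (-((n : ℝ) / (r * 2 ^ (2 * P + 9)))) := by
    refine two_rpow_mono (neg_le_neg ?_)
    refine div_le_div_of_nonneg_left hn0 (by positivity) ?_
    have h3 : (2 : ℝ) ^ (p + 5) ≤ 2 ^ (2 * P + 9) :=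
      pow_le_pow_right₀ one_le_two (by omega)
    linarith
  linarith

end ONE

theorem t_ONE (hLV2 : S_LV2) (hWCH : S_WCH) (hNCU : S_NCU) (hSCB : S_SCB) : S_ONE := by
  refine ⟨400, fun k hk n hn r w U E f hr hS hrw hA => ?_⟩
  obtain ⟨P, hP⟩ : ∃ P, P = 6 + 2 * k * (41 + 3 * (Nat.log 2 k + 1)) := ⟨_, rfl⟩
  obtain ⟨g, hg⟩ : ∃ g, g = r * 2 ^ (P + 6) := ⟨_, rfl⟩
  obtain ⟨ν, hν⟩ : ∃ ν : ℝ, ν = 1 / 2 * (((4 * k : ℕ) : ℝ) / (2 * r)) ^ (2 * k) := ⟨_, rfl⟩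
  obtain ⟨K, hK⟩ : ∃ K : ℝ, K = (k : ℝ) ^ (400 * k) := ⟨_, rfl⟩
  rw [← hK] at hA ⊢
  obtain ⟨q1, q2, q3, q4, q5, q6⟩ := ONE.nums k n P r g hk hP hr hg hn ν K hν hK
  have hr0 : 2 ^ 42 ≤ r := by
    rw [hr]
    exact Nat.le_mul_of_pos_right _ (Nat.pow_pos (by omega))
  have hkr : 4 * k ≤ r := by
    have h3 : k ≤ k ^ 4 := Nat.le_self_pow (by norm_num) k
    rw [hr]
    omega
  have hg1 : 1 ≤ g := by
    rw [hg]
    exact Nat.mul_pos (by omega) (Nat.pow_pos (by norm_num))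
  have hP22 : 22 ≤ P := by
    have h1 : 4 * 41 ≤ 2 * k * (41 + 3 * (Nat.log 2 k + 1)) :=
      Nat.mul_le_mul (by omega) (by omega)
    omega
  have hν0 := (ONE.nu_facts k P r hk hP hr ν hν).1
  have hνn : 0 ≤ ν * n := mul_nonneg hν0.le (Nat.cast_nonneg n)
  obtain ⟨s, Jf, hJ, hW⟩ := hWCH n r w k (4 * k) g U E ν hS (by omega) le_rfl hkr hrw hg1 hν
    (by linarith)
  have hdec := ONE.levels (fun x => ∀ j, E j x)
    (fun x => ((NJ U (Jf (psi U s x)) x).card : ℝ)) (fun x => sg (f x)) (n : ℝ)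
    (Nat.cast_nonneg n) 22
    (univ.filter fun x => ∀ j, E j x) (fun x => by simp)
    (fun p => univ.filter fun x => (∀ j, E j x) ∧
      ((NJ U (Jf (psi U s x)) x).card : ℝ) ≤ (n : ℝ) / 2 ^ p) (fun p x => by simp)
    (fun p => univ.filter fun x : Fin n → Bool => (∀ j, E j x) ∧
      (n : ℝ) / 2 ^ (p + 1) < ((NJ U (Jf (psi U s x)) x).card : ℝ) ∧
      ((NJ U (Jf (psi U s x)) x).card : ℝ) ≤ (n : ℝ) / 2 ^ p) (fun p x => by simp)
    (univ.filter fun x => (∀ j, E j x) ∧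
      (n : ℝ) / 2 ^ 22 < ((NJ U (Jf (psi U s x)) x).card : ℝ)) (fun x => by simp) P hP22
  rw [hdec]
  have h2n : (0 : ℝ) < 2 ^ n := by positivity
  -- few unread variables
  have b1 : |∑ x ∈ univ.filter (fun x => (∀ j, E j x) ∧
      ((NJ U (Jf (psi U s x)) x).card : ℝ) ≤ (n : ℝ) / 2 ^ P), sg (f x)| ≤
      2 ^ n * (2 ^ (r + 1) * Real.exp (-((ν * n / g - 1) / 8))) := by
    refine (ONE.abs_sum_le _ _).trans (le_trans ?_ hW)
    refine Nat.cast_le.2 (Finset.card_le_card fun x hx => ?_)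
    rw [Finset.mem_filter] at hx ⊢
    exact ⟨hx.1, lt_of_le_of_lt hx.2.2 q2⟩
  -- the levels
  have b2 : |∑ p ∈ Finset.Ico 22 P, ∑ x ∈ univ.filter (fun x : Fin n → Bool => (∀ j, E j x) ∧
      (n : ℝ) / 2 ^ (p + 1) < ((NJ U (Jf (psi U s x)) x).card : ℝ) ∧
      ((NJ U (Jf (psi U s x)) x).card : ℝ) ≤ (n : ℝ) / 2 ^ p), sg (f x)| ≤
      2 ^ n * (P * (5 * (2 : ℝ) ^ (-((n : ℝ) / (r * 2 ^ (2 * P + 9)))))) := by
    have hone : ∀ p ∈ Finset.Ico 22 P, |∑ x ∈ univ.filter (fun x : Fin n → Bool =>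
        (∀ j, E j x) ∧ (n : ℝ) / 2 ^ (p + 1) < ((NJ U (Jf (psi U s x)) x).card : ℝ) ∧
        ((NJ U (Jf (psi U s x)) x).card : ℝ) ≤ (n : ℝ) / 2 ^ p), sg (f x)| ≤
        2 ^ n * (5 * (2 : ℝ) ^ (-((n : ℝ) / (r * 2 ^ (2 * P + 9))))) := by
      intro p hp
      rw [Finset.mem_Ico] at hp
      have hrm : (r : ℝ) * ((n / g : ℕ) : ℝ) ≤ (n : ℝ) / 2 ^ (p + 6) := by
        have h1 : ((n / g : ℕ) : ℝ) ≤ (n : ℝ) / g := Nat.cast_div_le
        have hr1 : (0 : ℝ) < r := by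
          have : 0 < r := by omega
          exact_mod_cast this
        have h2 : (r : ℝ) * ((n : ℝ) / g) = (n : ℝ) / 2 ^ (P + 6) := by
          rw [hg]
          push_cast
          field_simp
        have h3 : (n : ℝ) / 2 ^ (P + 6) ≤ (n : ℝ) / 2 ^ (p + 6) :=
          div_le_div_of_nonneg_left (Nat.cast_nonneg n) (by positivity)
            (pow_le_pow_right₀ one_le_two (by omega))
        have h4 := mul_le_mul_of_nonneg_left h1 hr1.le
        linarith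
      refine (hLV2 k p n r w (n / g) U E f ((n : ℝ) / K) hS hA s Jf hk hp.1
        (by rw [← hP]; exact hp.2.le) hr hrw hJ ?_ (q4 p hp.2) hrm).trans ?_
      · exact (Nat.pow_le_pow_right (by norm_num) hp.2.le).trans q3
      · exact mul_le_mul_of_nonneg_left (ONE.lev n P r p (by omega) hp.2) h2n.le
    refine (Finset.abs_sum_le_sum_abs _ _).trans ((Finset.sum_le_card_nsmul _ _ _ hone).trans ?_)
    rw [nsmul_eq_mul, Nat.card_Ico]
    have h5 : ((P - 22 : ℕ) : ℝ) ≤ P := Nat.cast_le.2 (Nat.sub_le _ _)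
    have h6 : 0 ≤ 2 ^ n * (5 * (2 : ℝ) ^ (-((n : ℝ) / (r * 2 ^ (2 * P + 9))))) := by positivity
    have h7 := mul_le_mul_of_nonneg_right h5 h6
    linarith
  -- many unread variables
  have b3 : |∑ x ∈ univ.filter (fun x => (∀ j, E j x) ∧
      (n : ℝ) / 2 ^ 22 < ((NJ U (Jf (psi U s x)) x).card : ℝ)), sg (f x)| ≤
      2 ^ n * (2 * (2 : ℝ) ^ (-((n : ℝ) / 2 ^ 23 - 1) / 32)) := by
    obtain ⟨c1, c2⟩ := hNCU n r w U E hS
    have hw : 4 * (k * w) * 2 ^ 40 ≤ n := by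
      have h1 : r * w = 2 ^ 42 * k ^ 4 * w := by rw [hr]
      rw [h1] at hrw
      have h2 : k * (4 * (k * w) * 2 ^ 40) ≤ k * n := by
        refine le_trans ?_ hrw
        have h3 : k * (4 * (k * w) * 2 ^ 40) = 2 ^ 42 * k ^ 2 * w := by ring
        rw [h3]
        exact Nat.mul_le_mul_right _ (Nat.mul_le_mul_left _
          (Nat.pow_le_pow_right (by omega) (by norm_num)))
      exact Nat.le_of_mul_le_mul_left h2 (by omega)
    refine (hSCB n f ((n : ℝ) / K) hA (fun x => NJ U ∅ x) _ ((n : ℝ) / 2 ^ 23)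
      (fun x y h => c1 ∅ x y h) ?_ ?_ q5).trans ?_
    · intro x hx y hxy
      rw [Finset.mem_filter] at hx ⊢
      have h1 := c2 x y hxy
      have h2 : psi U s y = psi U s x := by
        funext i j
        unfold psi
        rw [(h1 j).1]
      have h3 : ∀ J, NJ U J y = NJ U J x := by
        intro J
        unfold NJ
        ext v
        rw [Finset.mem_filter, Finset.mem_filter]
        simp only [(h1 _).1]
      refine ⟨Finset.mem_univ _, fun j => (h1 j).2.2 (hx.2.1 j), ?_⟩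
      rw [h2, h3]
      exact hx.2.2
    · intro x hx
      rw [Finset.mem_filter] at hx
      have h1 := ONE.card_NJ hS (Jf (psi U s x)) x
      rw [hJ] at h1
      have h2 : ((NJ U (Jf (psi U s x)) x).card : ℝ) ≤ (NJ U ∅ x).card + 4 * k * w := by
        exact_mod_cast h1
      have h3 : (4 * (k * w) : ℝ) * 2 ^ 40 ≤ n := by exact_mod_cast hw
      have h4 : (4 * (k * w) : ℝ) ≤ (n : ℝ) / 2 ^ 40 := by
        rw [le_div_iff₀ (by positivity)]
        exact h3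
      have h5 : (n : ℝ) / 2 ^ 40 = n / 2 ^ 23 / 2 ^ 17 := by ring
      have h6 : (n : ℝ) / 2 ^ 22 = 2 * (n / 2 ^ 23) := by ring
      have h7 : 0 ≤ (n : ℝ) / 2 ^ 23 := by positivity
      have h8 : (n : ℝ) / 2 ^ 23 / 2 ^ 17 ≤ n / 2 ^ 23 :=
        div_le_self h7 (by norm_num)
      have h9 := hx.2.2
      have h10 : (4 : ℝ) * k * w = 4 * (k * w) := by ring
      linarith
    · have h1 : ∀ B : Finset (Fin n → Bool), (B.card : ℝ) ≤ 2 ^ n := by
        intro B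
        have h2 := Finset.card_le_univ B
        rw [Fintype.card_fun, Fintype.card_bool, Fintype.card_fin] at h2
        exact_mod_cast h2
      have h2 : (0 : ℝ) ≤ 2 * (2 : ℝ) ^ (-((n : ℝ) / 2 ^ 23 - 1) / 32) := by positivity
      rw [mul_comm ((2 : ℝ) ^ n)]
      exact mul_le_mul_of_nonneg_left (h1 _) h2
  have h6 := mul_le_mul_of_nonneg_left q6 h2n.le
  refine (abs_add_le _ _).trans (le_trans (add_le_add ((abs_add_le _ _).trans
    (add_le_add b1 b2)) b3) (le_trans (le_of_eq ?_) h6))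
  ring

end Pool.Agent.PPL
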