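import Pool.Agent.PPL.St2

/-!
# Project PPL: one point, one final state

`t_PT` from `S_ONE` (one trace) and `S_TRC` (traces).
-/

set_option autoImplicit false

open Finset

namespace Pool.Agent.PPL

namespace PTx

theorem sum_parts {α ι : Type} [Fintype α] [Fintype ι] (P : α → Prop) (Q : ι → α → Prop)
    (g : α → ℝ) [DecidablePred P] [∀ i, DecidablePred (Q i)]
    (h1 : ∀ x, P x → ∃! i, Q i x) (h2 : ∀ x, (∃ i, Q i x) → P x) :
    ∑ x ∈ univ.filter (fun x => P x), g x = ∑ i, ∑ x ∈ univ.filter (fun x => Q i x), g x := by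
  simp only [Finset.sum_filter]
  rw [Finset.sum_comm]
  refine Finset.sum_congr rfl fun x _ => ?_
  by_cases hx : P x
  · obtain ⟨i, hi, hu⟩ := h1 x hx
    rw [if_pos hx, Finset.sum_eq_single i]
    · rw [if_pos hi]
    · intro j _ hj
      rw [if_neg fun hq => hj (hu j hq)]
    · intro hn
      exact absurd (mem_univ i) hn
  · rw [if_neg hx]
    refine (Finset.sum_eq_zero fun i _ => ?_).symm
    rw [if_neg fun hq => hx (h2 x ⟨i, hq⟩)]

theorem Auto_mono {n : ℕ} {f : (Fin n → Bool) → Bool} {d d' : ℝ} (h : Auto f d) (hd : d ≤ d') :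
    Auto f d' :=
  fun D hD y y' hy => h D (hd.trans hD) y y' hy

/-- the number of segments is small -/
theorem r_le {k : ℕ} (hk : 2 ≤ k) : 2 ^ 42 * k ^ 4 ≤ k ^ 46 := by
  calc 2 ^ 42 * k ^ 4 ≤ k ^ 42 * k ^ 4 := Nat.mul_le_mul_right _ (Nat.pow_le_pow_left hk 42)
    _ = k ^ 46 := by rw [← pow_add]

theorem r_le4 {k A : ℕ} (hk : 2 ≤ k) (hA : 48 ≤ A) : 4 * (2 ^ 42 * k ^ 4) ≤ k ^ (A * k) := by
  have h2 : 4 ≤ k ^ 2 := by
    calc 4 = 2 ^ 2 := by norm_num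
      _ ≤ k ^ 2 := Nat.pow_le_pow_left hk 2
  calc 4 * (2 ^ 42 * k ^ 4) ≤ k ^ 2 * k ^ 46 := Nat.mul_le_mul h2 (r_le hk)
    _ = k ^ 48 := by rw [← pow_add]
    _ ≤ k ^ (A * k) := Nat.pow_le_pow_right (by omega) (by nlinarith)

theorem r_succ {k A : ℕ} (hk : 2 ≤ k) (hA : 48 ≤ A) : 2 ^ 42 * k ^ 4 + 1 ≤ k ^ A := by
  have h1 := r_le hk
  have h2 : 1 ≤ k ^ 46 := Nat.one_le_pow _ _ (by omega)
  calc 2 ^ 42 * k ^ 4 + 1 ≤ k ^ 46 + k ^ 46 := Nat.add_le_add h1 h2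
    _ = k ^ 46 * 2 := by ring
    _ ≤ k ^ 46 * k := Nat.mul_le_mul_left _ hk
    _ = k ^ 47 := by rw [← pow_succ]
    _ ≤ k ^ A := Nat.pow_le_pow_right (by omega) (by omega)

theorem w0_le {r m c : ℕ} (hr : 1 ≤ r) (hc : 2 * c ≤ m) : c ≤ r * (m / (2 * r) + 1) := by
  have h1 : m < 2 * r * (m / (2 * r) + 1) := Nat.lt_mul_div_succ m (by omega)
  have h2 : 2 * r * (m / (2 * r) + 1) = 2 * (r * (m / (2 * r) + 1)) := by ring
  omega

theorem rw_le {r k n s : ℕ} (hk : 2 ≤ k) (h1 : 4 * r ≤ n) (h2 : 4 * (r * s) ≤ n) :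
    r * (k * n / (2 * r) + 1 + s) ≤ k * n := by
  have h3 : 2 * r * (k * n / (2 * r)) ≤ k * n := Nat.mul_div_le _ _
  have h4 : 2 * (r * (k * n / (2 * r) + 1 + s)) =
      2 * r * (k * n / (2 * r)) + 2 * r + 2 * (r * s) := by ring
  have h5 : 2 * n ≤ k * n := Nat.mul_le_mul_right n hk
  omega

end PTx

open scoped Classical

open PTx in
theorem t_PT (h1 : S_ONE) (h2 : S_TRC) : S_PT := by
  obtain ⟨A1, hA1⟩ := h1
  refine ⟨A1 + 48, ?_⟩
  intro k hk n hn V _ R c s T q f hs hc0 hc hcq hsn hf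
  have hk0 : 0 < k := by omega
  have hkR : (1 : ℝ) ≤ (k : ℝ) := by exact_mod_cast (by omega : 1 ≤ k)
  have hexp : A1 * k ≤ (A1 + 48) * k := Nat.mul_le_mul_right k (by omega)
  have hn1 : k ^ (A1 * k) ≤ n := (Nat.pow_le_pow_right hk0 hexp).trans hn
  have hdiv : (n : ℝ) / k ^ ((A1 + 48) * k) ≤ (n : ℝ) / k ^ (A1 * k) :=
    div_le_div_of_nonneg_left (Nat.cast_nonneg n) (by positivity) (pow_le_pow_right₀ hkR hexp)
  have hf1 : Auto f ((n : ℝ) / k ^ (A1 * k)) := Auto_mono hf hdiv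
  have h4 : 4 * (2 ^ 42 * k ^ 4) ≤ k ^ ((A1 + 48) * k) := r_le4 hk (by omega)
  have h5 : 2 ^ 42 * k ^ 4 + 1 ≤ k ^ (A1 + 48) := r_succ hk (by omega)
  have hsn' : s * k ^ ((A1 + 48) * k) ≤ n := by
    have hp : (0 : ℝ) < (k : ℝ) ^ ((A1 + 48) * k) := by positivity
    rw [le_div_iff₀ hp] at hsn
    exact_mod_cast hsn
  have hr1 : 1 ≤ 2 ^ 42 * k ^ 4 := Nat.mul_pos (by norm_num) (pow_pos hk0 4)
  have key := fun U E => hA1 k hk n hn1 (2 ^ 42 * k ^ 4)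
    (k * n / (2 * (2 ^ 42 * k ^ 4)) + 1 + s) U E f rfl
  generalize hrdef : 2 ^ 42 * k ^ 4 = r at h4 h5 hr1 key
  generalize hKdef : k ^ ((A1 + 48) * k) = K at h4 hn hsn'
  have h6 : 4 * (r * s) ≤ n := by
    calc 4 * (r * s) = s * (4 * r) := by ring
      _ ≤ s * K := Nat.mul_le_mul_left s h4
      _ ≤ n := hsn'
  obtain ⟨ι, hι, U, E, hcard, hseg, hpart⟩ := h2 n V R c s T r (k * n / (2 * r) + 1) q hr1 hs hc0
    hc (w0_le hr1 hcq)
  have hsum := sum_parts (fun x : Fin n → Bool => R.st x T = q)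
    (fun (i : ι) (x : Fin n → Bool) => ∀ j, E i j x) (fun x => sg (f x))
    (fun x => (hpart x).1) (fun x => (hpart x).2)
  have hterm : ∀ i : ι, |∑ x ∈ univ.filter (fun x : Fin n → Bool => ∀ j, E i j x), sg (f x)| ≤
      2 ^ n * (2 : ℝ) ^ (-((n : ℝ) / k ^ (A1 * k))) := fun i =>
    key (U i) (E i) (hseg i) (rw_le hk (h4.trans hn) h6) hf1
  rw [hsum]
  have hB : 1 ≤ (T + 1) * Fintype.card V :=
    Nat.mul_pos (by omega) (Fintype.card_pos_iff.2 ⟨R.start⟩)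
  have hcard2 : Fintype.card ι ≤ ((T + 1) * Fintype.card V) ^ k ^ (A1 + 48) :=
    hcard.trans (Nat.pow_le_pow_right hB h5)
  have hcard3 : (Fintype.card ι : ℝ) ≤ (((T + 1) * Fintype.card V : ℕ) : ℝ) ^ k ^ (A1 + 48) := by
    exact_mod_cast hcard2
  have hpow : (2 : ℝ) ^ (-((n : ℝ) / k ^ (A1 * k))) ≤
      (2 : ℝ) ^ (-((n : ℝ) / k ^ ((A1 + 48) * k))) :=
    Real.rpow_le_rpow_of_exponent_le (by norm_num) (neg_le_neg hdiv)
  calc |∑ i, ∑ x ∈ univ.filter (fun x : Fin n → Bool => ∀ j, E i j x), sg (f x)|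
      ≤ ∑ i, |∑ x ∈ univ.filter (fun x : Fin n → Bool => ∀ j, E i j x), sg (f x)| :=
        Finset.abs_sum_le_sum_abs _ _
    _ ≤ ∑ _i : ι, 2 ^ n * (2 : ℝ) ^ (-((n : ℝ) / k ^ (A1 * k))) :=
        Finset.sum_le_sum fun i _ => hterm i
    _ = Fintype.card ι * (2 ^ n * (2 : ℝ) ^ (-((n : ℝ) / k ^ (A1 * k)))) := by
        rw [Finset.sum_const, Finset.card_univ, nsmul_eq_mul]
    _ ≤ (((T + 1) * Fintype.card V : ℕ) : ℝ) ^ k ^ (A1 + 48) *
          (2 ^ n * (2 : ℝ) ^ (-((n : ℝ) / k ^ ((A1 + 48) * k)))) :=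
        mul_le_mul hcard3 (mul_le_mul_of_nonneg_left hpow (by positivity)) (by positivity)
          (by positivity)
    _ = _ := by rw [mul_assoc]

end Pool.Agent.PPL
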