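import Pool.Agent.PPL.St1

/-!
# Project PPL, module RCL: classes are rectangles
-/

set_option autoImplicit false

open Finset
open scoped Classical

namespace Pool.Agent.PPL

theorem t_RCL : S_RCL := by
  intro n r w m U A hS J S s x y hN _ hxy hpsi hAx hAy
  set z : Fin n → Bool := mix (NJ U J x) x y with hz
  -- the segments of `J`
  have h1 : ∀ j ∈ J, U j z = U j x ∧ (A j z ↔ A j x) := by
    intro j hj
    refine hS.loc j x z fun v hv => ?_
    by_cases hvN : v ∈ NJ U J x
    · rw [hz]
      unfold mix
      rw [if_pos hvN]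
    · have hvT : v ∉ TJ U J S x := by
        intro h
        unfold TJ at h
        refine (Finset.mem_sdiff.1 h).2 (Finset.mem_union_left _ ?_)
        unfold UJ
        exact Finset.mem_filter.2 ⟨Finset.mem_univ _, j, hj, hv⟩
      rw [hz]
      unfold mix
      rw [if_neg hvN]
      exact hxy v hvN hvT
  -- the other segments
  have h2 : ∀ j, j ∉ J → U j z = U j y ∧ (A j z ↔ A j y) := by
    intro j hj
    refine hS.loc j y z fun v hv => ?_
    have hvN : v ∉ NJ U J x := by
      rw [hN]
      intro h
      unfold NJ at h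
      exact (Finset.mem_filter.1 h).2 j hj hv
    rw [hz]
    unfold mix
    rw [if_neg hvN]
  have hNz : NJ U J z = NJ U J x := by
    rw [hN]
    ext v
    unfold NJ
    rw [Finset.mem_filter, Finset.mem_filter]
    constructor
    · rintro ⟨a, b⟩
      exact ⟨a, fun j hj => by rw [← (h2 j hj).1]; exact b j hj⟩
    · rintro ⟨a, b⟩
      exact ⟨a, fun j hj => by rw [(h2 j hj).1]; exact b j hj⟩
  have hUz : UJ U J z = UJ U J x := by
    ext v
    unfold UJ
    rw [Finset.mem_filter, Finset.mem_filter]
    constructor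
    · rintro ⟨a, j, hj, b⟩
      exact ⟨a, j, hj, by rw [← (h1 j hj).1]; exact b⟩
    · rintro ⟨a, j, hj, b⟩
      exact ⟨a, j, hj, by rw [(h1 j hj).1]; exact b⟩
  refine ⟨hNz, ?_, ?_, ?_⟩
  · unfold TJ
    rw [hNz, hUz]
  · funext i j
    by_cases hj : j ∈ J
    · unfold psi
      rw [(h1 j hj).1]
    · have h3 : psi U s z i j = psi U s y i j := by
        unfold psi
        rw [(h2 j hj).1]
      rw [h3, ← hpsi]
  · intro j
    by_cases hj : j ∈ J
    · exact (h1 j hj).2.2 (hAx j)
    · exact (h2 j hj).2.2 (hAy j)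

end Pool.Agent.PPL
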