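import Pool.Agent.PPL.St1

/-!
# Project PPL, module SCB (helper43): a union of large cubes
-/

set_option autoImplicit false

open Finset
open scoped Classical

namespace Pool.Agent.PPL

namespace SCBaux

variable {n : ℕ}

/-- number of the words which agree with `x` outside of `D` -/
theorem card_agree (D : Finset (Fin n)) (x : Fin n → Bool) :
    (univ.filter fun y : Fin n → Bool => ∀ v, v ∉ D → y v = x v).card = 2 ^ D.card := by
  have h1 : (univ.filter fun y : Fin n → Bool => ∀ v, v ∉ D → y v = x v) =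
      Fintype.piFinset fun v => if v ∈ D then (univ : Finset Bool) else {x v} := by
    ext y
    rw [mem_filter, Fintype.mem_piFinset]
    constructor
    · rintro ⟨-, h⟩ v
      by_cases hv : v ∈ D
      · rw [if_pos hv]
        exact mem_univ _
      · rw [if_neg hv, mem_singleton]
        exact h v hv
    · intro h
      refine ⟨mem_univ _, fun v hv => ?_⟩
      have := h v
      rwa [if_neg hv, mem_singleton] at this
  rw [h1, Fintype.card_piFinset]
  have h2 : ∀ v, (if v ∈ D then (univ : Finset Bool) else {x v}).card =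
      if v ∈ D then 2 else 1 := by
    intro v
    by_cases hv : v ∈ D
    · rw [if_pos hv, if_pos hv]
      rfl
    · rw [if_neg hv, if_neg hv, card_singleton]
  rw [prod_congr rfl fun v _ => h2 v, prod_ite, prod_const_one, mul_one, prod_const,
    filter_mem_eq_inter, univ_inter]

/-- the words of a cube which agree with a word of the cube outside of a subset -/
theorem filter_eq {M D : Finset (Fin n)} (hD : D ⊆ M) {x0 x : Fin n → Bool}
    {R : Finset (Fin n → Bool)} (hR : ∀ y, y ∈ R ↔ ∀ v, v ∉ M → y v = x0 v) (hx : x ∈ R) :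
    (R.filter fun y => ∀ v, v ∉ D → y v = x v) =
      univ.filter fun y : Fin n → Bool => ∀ v, v ∉ D → y v = x v := by
  ext y
  rw [mem_filter, mem_filter]
  constructor
  · exact fun h => ⟨mem_univ _, h.2⟩
  · rintro ⟨-, h⟩
    refine ⟨(hR y).2 fun v hv => ?_, h⟩
    rw [h v fun h' => hv (hD h'), (hR x).1 hx v hv]

/-- one cube -/
theorem cube_bound (hRB : S_RB) (f : (Fin n → Bool) → Bool) (d : ℝ) (hA : Auto f d)
    (M : Finset (Fin n)) (x0 : Fin n → Bool) (R : Finset (Fin n → Bool))
    (hR : ∀ y, y ∈ R ↔ ∀ v, v ∉ M → y v = x0 v) (q : ℝ) (hq : q ≤ M.card)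
    (hd : 2 * d + 1 ≤ q) :
    |∑ x ∈ R, sg (f x)| ≤ 2 * (2 : ℝ) ^ (-(q - 1) / 32) * R.card := by
  obtain ⟨D, hDM, hDc⟩ := Finset.exists_subset_card_eq (s := M) (n := M.card / 2) (by omega)
  have hE : (M \ D).card = M.card - D.card := card_sdiff_of_subset hDM
  have hEM : M \ D ⊆ M := sdiff_subset
  have h1 : M.card ≤ 2 * D.card + 1 := by omega
  have h2 : (M.card : ℝ) ≤ 2 * (D.card : ℝ) + 1 := by exact_mod_cast h1
  have h3 : d ≤ (D.card : ℝ) := by linarith
  have key := hRB n f d hA D (M \ D) R disjoint_sdiff h3 ?_ ?_ ?_ ?_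
  · refine key.trans ?_
    have h4 : (2 : ℝ) ^ (-((D.card : ℝ)) / 16) ≤ (2 : ℝ) ^ (-(q - 1) / 32) := by
      apply Real.rpow_le_rpow_of_exponent_le (by norm_num)
      linarith
    have h5 : (0 : ℝ) ≤ R.card := Nat.cast_nonneg _
    nlinarith
  · intro x hx y hy v hvD hvE
    have hvM : v ∉ M := by
      intro h
      exact hvE (mem_sdiff.2 ⟨h, hvD⟩)
    rw [(hR x).1 hx v hvM, (hR y).1 hy v hvM]
  · intro x hx y hy
    rw [hR]
    intro v hv
    unfold mix
    by_cases hvD : v ∈ D
    · rw [if_pos hvD]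
      exact (hR x).1 hx v hv
    · rw [if_neg hvD]
      exact (hR y).1 hy v hv
  · intro x hx
    rw [filter_eq hDM hR hx, card_agree]
    push_cast
    rw [← Real.rpow_natCast]
    apply Real.rpow_le_rpow_of_exponent_le (by norm_num)
    have : (0 : ℝ) ≤ D.card := Nat.cast_nonneg _
    linarith
  · intro x hx
    rw [filter_eq hEM hR hx, card_agree]
    push_cast
    apply pow_le_pow_right₀ (by norm_num)
    rw [hE]
    omega

end SCBaux

open SCBaux in
theorem t_SCB (hRB : S_RB) : S_SCB := by
  intro n f d hA N B q hN hB hq hd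
  set c : (Fin n → Bool) → Finset (Fin n) × (Fin n → Bool) :=
    fun x => (N x, mix (N x) (fun _ => false) x) with hc
  have hmem : ∀ x ∈ B, c x ∈ B.image c := fun x hx => mem_image_of_mem c hx
  have hfib : ∀ x0 ∈ B, ∀ y, y ∈ B.filter (fun x => c x = c x0) ↔
      ∀ v, v ∉ N x0 → y v = x0 v := by
    intro x0 hx0 y
    rw [mem_filter]
    constructor
    · rintro ⟨-, h⟩ v hv
      simp only [hc, Prod.mk.injEq] at h
      obtain ⟨h1, h2⟩ := h
      have h3 := congrFun h2 v
      unfold mix at h3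
      rw [h1, if_neg hv, if_neg hv] at h3
      exact h3
    · intro h
      have h1 : N y = N x0 := hN x0 y fun v hv => (h v hv).symm
      refine ⟨hB x0 hx0 y fun v hv => (h v hv).symm, ?_⟩
      simp only [hc, Prod.mk.injEq]
      refine ⟨h1, ?_⟩
      funext v
      unfold mix
      rw [h1]
      by_cases hv : v ∈ N x0
      · rw [if_pos hv, if_pos hv]
      · rw [if_neg hv, if_neg hv]
        exact h v hv
  have hcard : (B.card : ℝ) = ∑ z ∈ B.image c, ((B.filter fun x => c x = z).card : ℝ) := by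
    exact_mod_cast card_eq_sum_card_fiberwise hmem
  calc |∑ x ∈ B, sg (f x)| = |∑ z ∈ B.image c, ∑ x ∈ B.filter (fun x => c x = z), sg (f x)| := by
        rw [sum_fiberwise_of_maps_to hmem]
    _ ≤ ∑ z ∈ B.image c, |∑ x ∈ B.filter (fun x => c x = z), sg (f x)| :=
        abs_sum_le_sum_abs _ _
    _ ≤ ∑ z ∈ B.image c, 2 * (2 : ℝ) ^ (-(q - 1) / 32) *
          ((B.filter fun x => c x = z).card : ℝ) := by
        refine sum_le_sum fun z hz => ?_
        obtain ⟨x0, hx0, rfl⟩ := mem_image.1 hz
        exact cube_bound hRB f d hA (N x0) x0 _ (hfib x0 hx0) q (hq x0 hx0) hd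
    _ = 2 * (2 : ℝ) ^ (-(q - 1) / 32) * B.card := by
        rw [← mul_sum, ← hcard]

end Pool.Agent.PPL
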