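import Pool.Agent.PPL.St1

/-!
# Project PPL, module THIN: a sparse set
-/

set_option autoImplicit false

open Finset
open scoped Classical

namespace Pool.Agent.PPL

namespace THINx

theorem smp_inj {n g : ℕ} {s : Fin (n / g) → Fin n} (hs : s ∈ smp n g) :
    Function.Injective s := by
  intro i j h
  rw [smp, Fintype.mem_piFinset] at hs
  have h1 := (mem_filter.1 (hs i)).2
  have h2 := (mem_filter.1 (hs j)).2
  rw [h] at h1
  exact Fin.ext (h1.symm.trans h2)

theorem card_image_inter {n m : ℕ} (s : Fin m → Fin n) (hs : Function.Injective s)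
    (T : Finset (Fin n)) :
    ((univ.image s) ∩ T).card = (univ.filter fun i => s i ∈ T).card := by
  rw [← card_image_of_injective _ hs]
  congr 1
  ext v
  simp only [mem_inter, mem_image, mem_univ, true_and, mem_filter]
  constructor
  · rintro ⟨⟨i, rfl⟩, hv⟩
    exact ⟨i, hv, rfl⟩
  · rintro ⟨i, hi, rfl⟩
    exact ⟨⟨i, rfl⟩, hi⟩

end THINx

open THINx in
theorem t_THIN (hTRS : S_TRS) : S_THIN := by
  intro n g H a hg ha
  obtain ⟨hpos, hT⟩ := hTRS n g hg
  let P : (Fin (n / g) → Fin n) → (Fin n → Bool) → Prop := fun s x =>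
    ((H x).card : ℝ) ≤ a * g ∧ 4 * a ≤ ((univ.filter fun i => s i ∈ H x).card : ℝ)
  have hx : ∀ x, (((smp n g).filter fun s => P s x).card : ℝ) ≤
      Real.exp (-(2 * a)) * (smp n g).card := by
    intro x
    by_cases h : ((H x).card : ℝ) ≤ a * g
    · refine le_trans ?_ ((hT (H x) a ha).1 h)
      exact_mod_cast card_le_card (fun s hs => by
        rw [mem_filter] at hs ⊢
        exact ⟨hs.1, hs.2.2⟩)
    · have h0 : ((smp n g).filter fun s => P s x) = ∅ :=
        filter_false_of_mem (fun s _ hs => h hs.1)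
      rw [h0, card_empty, Nat.cast_zero]
      positivity
  have hsum : ∑ s ∈ smp n g, ((univ.filter fun x => P s x).card : ℝ) ≤
      ∑ s ∈ smp n g, (2 ^ n * Real.exp (-(2 * a))) := by
    have h1 : ∑ s ∈ smp n g, ((univ.filter fun x => P s x).card : ℝ) =
        ∑ x : Fin n → Bool, (((smp n g).filter fun s => P s x).card : ℝ) := by
      simp only [card_filter]
      push_cast
      exact sum_comm
    rw [h1, sum_const, nsmul_eq_mul]
    refine (sum_le_sum fun x _ => hx x).trans (le_of_eq ?_)
    rw [sum_const, nsmul_eq_mul, card_univ, Fintype.card_fun, Fintype.card_bool, Fintype.card_fin]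
    push_cast
    ring
  obtain ⟨s, hs, hle⟩ := exists_le_of_sum_le (card_pos.1 hpos) hsum
  refine ⟨univ.image s, ?_, ?_⟩
  · rw [card_image_of_injective _ (smp_inj hs), card_univ, Fintype.card_fin]
  · refine le_trans ?_ hle
    exact_mod_cast card_le_card (fun x hx => by
      rw [mem_filter] at hx ⊢
      refine ⟨hx.1, hx.2.1, ?_⟩
      have h1 := hx.2.2
      rw [card_image_inter s (smp_inj hs)] at h1
      exact h1.le)

end Pool.Agent.PPL
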