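import Pool.Agent.PPL.St2

/-!
# PPL, module TRC: traces of deterministic transition systems
-/

set_option autoImplicit false

open Finset
open scoped Classical

namespace Pool.Agent.PPL

namespace TRC

variable {n : ℕ} {V : Type}

/-- the run of `k` steps from `v` at time `t` while at most `b` bits are read; its last state (if it is
not truncated) and the set of the bits read -/
noncomputable def go (R : RS (Fin n) V) (x : Fin n → Bool) :
    ℕ → ℕ → V → ℕ → Option V × Finset (Fin n)
  | 0, _, v, _ => (some v, ∅)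
  | k + 1, t, v, b =>
    if (R.rd t v).card ≤ b then
      ((go R x k (t + 1) (R.next t v x) (b - (R.rd t v).card)).1,
        R.rd t v ∪ (go R x k (t + 1) (R.next t v x) (b - (R.rd t v).card)).2)
    else (none, ∅)

lemma go_pos {R : RS (Fin n) V} {x : Fin n → Bool} {k t b : ℕ} {v : V}
    (h : (R.rd t v).card ≤ b) : go R x (k + 1) t v b =
      ((go R x k (t + 1) (R.next t v x) (b - (R.rd t v).card)).1,
        R.rd t v ∪ (go R x k (t + 1) (R.next t v x) (b - (R.rd t v).card)).2) := by
  rw [go, if_pos h]

lemma go_neg {R : RS (Fin n) V} {x : Fin n → Bool} {k t b : ℕ} {v : V}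
    (h : ¬ (R.rd t v).card ≤ b) : go R x (k + 1) t v b = (none, ∅) := by
  rw [go, if_neg h]

lemma go_card (R : RS (Fin n) V) (x : Fin n → Bool) (k : ℕ) :
    ∀ (t : ℕ) (v : V) (b : ℕ), (go R x k t v b).2.card ≤ b := by
  induction k with
  | zero => intro t v b; simp [go]
  | succ k ih =>
    intro t v b
    by_cases h : (R.rd t v).card ≤ b
    · rw [go_pos h]
      refine (card_union_le _ _).trans ?_
      have := ih (t + 1) (R.next t v x) (b - (R.rd t v).card)
      omega
    · rw [go_neg h]
      simp

lemma go_loc (R : RS (Fin n) V) (x y : Fin n → Bool) (k : ℕ) :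
    ∀ (t : ℕ) (v : V) (b : ℕ), (∀ p ∈ (go R x k t v b).2, x p = y p) →
      go R y k t v b = go R x k t v b := by
  induction k with
  | zero => intro t v b _; rfl
  | succ k ih =>
    intro t v b hxy
    by_cases h : (R.rd t v).card ≤ b
    · rw [go_pos h] at hxy
      rw [go_pos h, go_pos h]
      have h1 : R.next t v x = R.next t v y :=
        R.loc t v x y fun p hp => hxy p (mem_union_left _ hp)
      rw [← h1, ih (t + 1) (R.next t v x) _ fun p hp => hxy p (mem_union_right _ hp)]
    · rw [go_neg h, go_neg h]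

lemma go_st (R : RS (Fin n) V) (x : Fin n → Bool) (k : ℕ) :
    ∀ (t : ℕ) (v : V) (b : ℕ) (v' : V), R.st x t = v → (go R x k t v b).1 = some v' →
      R.st x (t + k) = v' := by
  induction k with
  | zero =>
    intro t v b v' h1 h2
    rw [go] at h2
    rw [add_zero, h1]
    exact Option.some.inj h2
  | succ k ih =>
    intro t v b v' h1 h2
    by_cases h : (R.rd t v).card ≤ b
    · rw [go_pos h] at h2
      have h3 : R.st x (t + 1) = R.next t v x := by
        show R.next t (R.st x t) x = _
        rw [h1]
      have := ih (t + 1) _ _ v' h3 h2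
      rw [← this]
      congr 1
      omega
    · rw [go_neg h] at h2
      cases h2

variable {R : RS (Fin n) V} {c : V → ℕ} {T : ℕ}

lemma c_mono {x : Fin n → Bool}
    (hc : ∀ t < T, c (R.st x (t + 1)) = c (R.st x t) + (R.rd t (R.st x t)).card) {t : ℕ} (k : ℕ)
    (hk : t + k ≤ T) : c (R.st x t) ≤ c (R.st x (t + k)) := by
  induction k with
  | zero => rfl
  | succ k ih =>
    have h1 := ih (by omega)
    have h2 := hc (t + k) (by omega)
    have h3 : R.st x (t + (k + 1)) = R.st x (t + k + 1) := rfl
    rw [h3, h2]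
    omega

lemma go_ok {x : Fin n → Bool}
    (hc : ∀ t < T, c (R.st x (t + 1)) = c (R.st x t) + (R.rd t (R.st x t)).card) (k : ℕ) :
    ∀ (t b : ℕ), t + k ≤ T → c (R.st x (t + k)) ≤ c (R.st x t) + b →
      (go R x k t (R.st x t) b).1 = some (R.st x (t + k)) := by
  induction k with
  | zero => intro t b _ _; rfl
  | succ k ih =>
    intro t b hk hb
    have h1 := hc t (by omega)
    have h2 := c_mono hc (t := t + 1) k (by omega)
    have h3 : R.st x (t + 1 + k) = R.st x (t + (k + 1)) := by
      congr 1
      omega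
    rw [h3] at h2
    have h4 : (R.rd t (R.st x t)).card ≤ b := by omega
    rw [go_pos h4]
    have h5 := ih (t + 1) (b - (R.rd t (R.st x t)).card) (by omega) (by rw [h3]; omega)
    rw [h3] at h5
    exact h5

/-- the times of the trace -/
noncomputable def tm (R : RS (Fin n) V) (c : V → ℕ) (T r w0 : ℕ) (x : Fin n → Bool) (j : ℕ) : ℕ :=
  if j = 0 then 0 else if j = r then T else
    Nat.findGreatest (fun t => c (R.st x t) ≤ j * w0) T

lemma tm_le {r w0 : ℕ} {x : Fin n → Bool} (j : ℕ) : tm R c T r w0 x j ≤ T := by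
  unfold tm
  split_ifs
  · exact Nat.zero_le _
  · exact le_rfl
  · exact Nat.findGreatest_le _

lemma tm_zero {r w0 : ℕ} {x : Fin n → Bool} : tm R c T r w0 x 0 = 0 := by
  simp [tm]

lemma tm_last {r w0 : ℕ} {x : Fin n → Bool} (hr : 1 ≤ r) : tm R c T r w0 x r = T := by
  unfold tm
  rw [if_neg (by omega), if_pos rfl]

lemma tm_mid {r w0 j : ℕ} {x : Fin n → Bool} (h0 : 0 < j) (h1 : j < r) :
    tm R c T r w0 x j = Nat.findGreatest (fun t => c (R.st x t) ≤ j * w0) T := by
  unfold tm
  rw [if_neg (by omega), if_neg (by omega)]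

lemma tm_mono {r w0 j : ℕ} {x : Fin n → Bool} (hj : j < r) :
    tm R c T r w0 x j ≤ tm R c T r w0 x (j + 1) := by
  rcases Nat.eq_zero_or_pos j with h0 | h0
  · subst h0
    rw [tm_zero]
    exact Nat.zero_le _
  · rcases Nat.lt_or_ge (j + 1) r with h1 | h1
    · rw [tm_mid h0 hj, tm_mid (by omega) h1]
      refine Nat.findGreatest_mono_left (fun t ht => ?_) T
      exact le_trans ht (Nat.mul_le_mul_right _ (by omega))
    · have h2 : j + 1 = r := by omega
      rw [h2, tm_last (by omega)]
      exact tm_le j

lemma tm_c {r w0 j : ℕ} {x : Fin n → Bool} (h0 : c R.start = 0) (hr : 1 ≤ r)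
    (hq : c (R.st x T) ≤ r * w0) (hj : j ≤ r) :
    c (R.st x (tm R c T r w0 x j)) ≤ j * w0 := by
  rcases Nat.eq_zero_or_pos j with h1 | h1
  · subst h1
    rw [tm_zero]
    show c R.start ≤ _
    omega
  · rcases Nat.lt_or_ge j r with h2 | h2
    · rw [tm_mid h1 h2]
      have h3 : (fun t => c (R.st x t) ≤ j * w0) 0 := by
        show c R.start ≤ _
        omega
      exact Nat.findGreatest_spec (P := fun t => c (R.st x t) ≤ j * w0) (Nat.zero_le T) h3
    · have h3 : j = r := by omega
      subst h3
      rw [tm_last hr]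
      exact hq

/-- the conditions on the traces -/
def Cond (R : RS (Fin n) V) (c : V → ℕ) (T r w0 : ℕ) (q : V)
    (τ : Fin (r + 1) → Fin (T + 1) × V) : Prop :=
  ((τ 0).1.val = 0 ∧ (τ 0).2 = R.start) ∧
  ((τ (Fin.last r)).1.val = T ∧ (τ (Fin.last r)).2 = q) ∧
  (∀ j : Fin r, (τ j.castSucc).1.val ≤ (τ j.succ).1.val) ∧
  ∀ j : Fin (r + 1), 0 < j.val → j.val < r → c (τ j).2 ≤ j.val * w0 ∧
    ((τ j).1.val = T ∨ j.val * w0 < c (τ j).2 + (R.rd (τ j).1.val (τ j).2).card)

/-- the segment `j` of the trace `τ` -/
noncomputable def sg' (R : RS (Fin n) V) (r b : ℕ) (τ : Fin (r + 1) → Fin (T + 1) × V) (j : Fin r)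
    (x : Fin n → Bool) : Option V × Finset (Fin n) :=
  go R x ((τ j.succ).1.val - (τ j.castSucc).1.val) (τ j.castSucc).1.val (τ j.castSucc).2 b

/-- a trace of `x` passes through the states of the computation -/
lemma pass {r b w0 : ℕ} {q : V} {τ : Fin (r + 1) → Fin (T + 1) × V} {x : Fin n → Bool}
    (hC : Cond R c T r w0 q τ) (hE : ∀ j : Fin r, (sg' R r b τ j x).1 = some (τ j.succ).2)
    (j : Fin (r + 1)) : R.st x (τ j).1.val = (τ j).2 := by
  induction j using Fin.induction with
  | zero =>
    rw [hC.1.1, hC.1.2]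
    rfl
  | succ j ih =>
    have h1 := go_st R x _ _ _ _ _ ih (hE j)
    rwa [Nat.add_sub_cancel' (hC.2.2.1 j)] at h1

lemma times {r b w0 : ℕ} {q : V} {τ : Fin (r + 1) → Fin (T + 1) × V} {x : Fin n → Bool}
    (hr : 1 ≤ r)
    (hc : ∀ t < T, c (R.st x (t + 1)) = c (R.st x t) + (R.rd t (R.st x t)).card)
    (hC : Cond R c T r w0 q τ) (hE : ∀ j : Fin r, (sg' R r b τ j x).1 = some (τ j.succ).2)
    (j : Fin (r + 1)) : (τ j).1.val = tm R c T r w0 x j.val := by
  rcases Nat.eq_zero_or_pos j.val with h1 | h1
  · have h2 : j = 0 := Fin.ext h1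
    subst h2
    rw [hC.1.1]
    exact tm_zero.symm
  · rcases Nat.lt_or_ge j.val r with h2 | h2
    · obtain ⟨h3, h4⟩ := hC.2.2.2 j h1 h2
      have h5 := pass hC hE j
      rw [← h5] at h3
      rw [tm_mid h1 h2]
      have hle : (τ j).1.val ≤ T := Nat.lt_succ_iff.1 (τ j).1.isLt
      refine le_antisymm (Nat.le_findGreatest hle h3) ?_
      rcases h4 with h4 | h4
      · rw [h4]
        exact Nat.findGreatest_le _
      · by_contra hlt
        rw [not_le] at hlt
        have h6 : Nat.findGreatest (fun t => c (R.st x t) ≤ j.val * w0) T ≤ T :=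
          Nat.findGreatest_le _
        have h7 : c (R.st x (Nat.findGreatest (fun t => c (R.st x t) ≤ j.val * w0) T))
            ≤ j.val * w0 :=
          Nat.findGreatest_spec (P := fun t => c (R.st x t) ≤ j.val * w0) hle h3
        have h8 := hc (τ j).1.val (by omega)
        rw [← h5] at h4
        obtain ⟨k, hk⟩ := Nat.exists_eq_add_of_lt hlt
        have h9 := c_mono hc (t := (τ j).1.val + 1) k (by omega)
        have h10 : (τ j).1.val + 1 + k
            = Nat.findGreatest (fun t => c (R.st x t) ≤ j.val * w0) T := by omega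
        rw [h10] at h9
        omega
    · have h3 : j.val = r := by omega
      have h4 : j = Fin.last r := Fin.ext h3
      subst h4
      rw [hC.2.1.1, h3, tm_last hr]

end TRC

open TRC in
/-- **TRC**: traces. -/
theorem t_TRC : S_TRC := by
  intro n V _ R c s T r w0 q hr hs h0 hc hq
  refine ⟨Fin (r + 1) → Fin (T + 1) × V, inferInstance,
    fun τ j x => (sg' R r (w0 + s) τ j x).2,
    fun τ j x => Cond R c T r w0 q τ ∧ (sg' R r (w0 + s) τ j x).1 = some (τ j.succ).2, ?_, ?_, ?_⟩
  · rw [Fintype.card_fun, Fintype.card_prod, Fintype.card_fin, Fintype.card_fin]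
  · intro τ
    constructor
    · intro j x
      exact go_card R x _ _ _ _
    · intro j x y hxy
      have h1 : sg' R r (w0 + s) τ j y = sg' R r (w0 + s) τ j x := go_loc R x y _ _ _ _ hxy
      exact ⟨by beta_reduce; rw [h1], by beta_reduce; rw [h1]⟩
  · intro x
    have hback : ∀ τ : Fin (r + 1) → Fin (T + 1) × V, (∀ j : Fin r, Cond R c T r w0 q τ ∧
        (sg' R r (w0 + s) τ j x).1 = some (τ j.succ).2) →
        Cond R c T r w0 q τ ∧ ∀ j : Fin r, (sg' R r (w0 + s) τ j x).1 = some (τ j.succ).2 :=
      fun τ h => ⟨(h ⟨0, hr⟩).1, fun j => (h j).2⟩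
    refine ⟨fun hT => ?_, ?_⟩
    · have hq' : c (R.st x T) ≤ r * w0 := by rw [hT]; exact hq
      refine ⟨fun j => (⟨tm R c T r w0 x j.val, Nat.lt_succ_of_le (tm_le _)⟩,
        R.st x (tm R c T r w0 x j.val)), ?_, ?_⟩
      · intro j
        refine ⟨⟨⟨?_, ?_⟩, ⟨?_, ?_⟩, ?_, ?_⟩, ?_⟩
        · show tm R c T r w0 x 0 = 0
          exact tm_zero
        · show R.st x (tm R c T r w0 x 0) = R.start
          rw [tm_zero]
          rfl
        · show tm R c T r w0 x r = T
          exact tm_last hr
        · show R.st x (tm R c T r w0 x r) = q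
          rw [tm_last hr, hT]
        · intro i
          exact tm_mono i.isLt
        · intro i hi0 hir
          refine ⟨tm_c h0 hr hq' hir.le, ?_⟩
          show tm R c T r w0 x i.val = T ∨ i.val * w0 < c (R.st x (tm R c T r w0 x i.val))
            + (R.rd (tm R c T r w0 x i.val) (R.st x (tm R c T r w0 x i.val))).card
          rcases (tm_le (R := R) (c := c) (T := T) (r := r) (w0 := w0) (x := x) i.val).eq_or_lt
            with h1 | h1
          · exact Or.inl h1
          · right
            rw [← hc x _ h1]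
            by_contra h2
            rw [not_lt] at h2
            have h3 := Nat.le_findGreatest (P := fun t => c (R.st x t) ≤ i.val * w0)
              (Nat.succ_le_of_lt h1) h2
            rw [← tm_mid (R := R) (c := c) (T := T) (x := x) hi0 hir] at h3
            omega
        · show (go R x (tm R c T r w0 x (j.val + 1) - tm R c T r w0 x j.val)
            (tm R c T r w0 x j.val) (R.st x (tm R c T r w0 x j.val)) (w0 + s)).1
            = some (R.st x (tm R c T r w0 x (j.val + 1)))
          have h1 : tm R c T r w0 x j.val ≤ tm R c T r w0 x (j.val + 1) := tm_mono j.isLt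
          have h2 : tm R c T r w0 x (j.val + 1) ≤ T := tm_le _
          have h3 := go_ok (hc x) (tm R c T r w0 x (j.val + 1) - tm R c T r w0 x j.val)
            (tm R c T r w0 x j.val) (w0 + s) (by omega)
          rw [Nat.add_sub_cancel' h1] at h3
          refine h3 ?_
          have h4 := tm_c (w0 := w0) h0 hr hq' (Nat.succ_le_of_lt j.isLt)
          rcases (tm_le (R := R) (c := c) (T := T) (r := r) (w0 := w0) (x := x) j.val).eq_or_lt
            with h5 | h5
          · have h6 : tm R c T r w0 x (j.val + 1) = tm R c T r w0 x j.val := by omega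
            rw [h6]
            omega
          · have h7 : j.val * w0 ≤ c (R.st x (tm R c T r w0 x j.val)) + s := by
              rcases Nat.eq_zero_or_pos j.val with h8 | h8
              · rw [h8]
                omega
              · have h9 := hc x _ h5
                have h10 := hs (tm R c T r w0 x j.val) (R.st x (tm R c T r w0 x j.val))
                by_contra h11
                have h12 := Nat.le_findGreatest (P := fun t => c (R.st x t) ≤ j.val * w0)
                  (Nat.succ_le_of_lt h5) (by
                    show c (R.st x (tm R c T r w0 x j.val + 1)) ≤ _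
                    omega)
                rw [← tm_mid (R := R) (c := c) (T := T) (x := x) h8 j.isLt] at h12
                omega
            have h13 : (j.val + 1) * w0 = j.val * w0 + w0 := by ring
            have h14 : c (R.st x (tm R c T r w0 x (j.val + 1))) ≤ (j.val + 1) * w0 := h4
            omega
      · intro τ hτ
        obtain ⟨hC, hE⟩ := hback τ hτ
        funext j
        have h1 := times hr (hc x) hC hE j
        have h2 := pass hC hE j
        refine Prod.ext (Fin.ext h1) ?_
        show (τ j).2 = R.st x (tm R c T r w0 x j.val)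
        rw [← h2, h1]
    · rintro ⟨τ, hτ⟩
      obtain ⟨hC, hE⟩ := hback τ hτ
      have h2 := pass hC hE (Fin.last r)
      rwa [hC.2.1.1, hC.2.1.2] at h2

end Pool.Agent.PPL
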