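import Pool.Agent.PPL.St1

/-!
# PPL_TRS: tails for random transversals
-/

set_option autoImplicit false

open Finset
open scoped Classical

namespace Pool.Agent.PPL

namespace TRSx

theorem blk_card (n g : ℕ) (hg : 1 ≤ g) (i : Fin (n / g)) :
    (univ.filter fun v : Fin n => v.val / g = i.val).card = g := by
  have h1 : (i.val + 1) * g ≤ n := (Nat.le_div_iff_mul_le hg).1 i.2
  have h2 : (univ.filter fun v : Fin n => v.val / g = i.val).map Fin.valEmbedding =
      Ico (i.val * g) ((i.val + 1) * g) := by
    ext m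
    simp only [mem_map, mem_filter, mem_univ, true_and, Fin.valEmbedding_apply, mem_Ico]
    constructor
    · rintro ⟨v, hv, rfl⟩
      exact ⟨(Nat.le_div_iff_mul_le hg).1 hv.ge,
        (Nat.div_lt_iff_lt_mul hg).1 (by rw [hv]; exact Nat.lt_succ_self _)⟩
    · rintro ⟨h3, h4⟩
      refine ⟨⟨m, lt_of_lt_of_le h4 h1⟩, ?_, rfl⟩
      have h5 := (Nat.le_div_iff_mul_le hg).2 h3
      have h6 := (Nat.div_lt_iff_lt_mul hg).2 h4
      change m / g = i.val
      omega
  rw [← card_map Fin.valEmbedding, h2, Nat.card_Ico, Nat.add_mul, one_mul]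
  omega

theorem smp_card (n g : ℕ) (hg : 1 ≤ g) : (smp n g).card = g ^ (n / g) := by
  unfold smp
  rw [Fintype.card_piFinset, prod_congr rfl fun i _ => blk_card n g hg i, prod_const, card_univ,
    Fintype.card_fin]

theorem sumc (n g : ℕ) (S : Finset (Fin n)) :
    ∑ i : Fin (n / g), (((univ.filter fun v : Fin n => v.val / g = i.val).filter
      fun v => v ∈ S).card : ℝ) = ((S.filter fun v : Fin n => v.val / g < n / g).card : ℝ) := by
  have h : (S.filter fun v : Fin n => v.val / g < n / g) =
      univ.biUnion (fun i : Fin (n / g) =>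
        (univ.filter fun v : Fin n => v.val / g = i.val).filter fun v => v ∈ S) := by
    ext v
    simp only [mem_filter, mem_biUnion, mem_univ, true_and]
    constructor
    · rintro ⟨h1, h2⟩
      exact ⟨⟨_, h2⟩, rfl, h1⟩
    · rintro ⟨i, h1, h2⟩
      exact ⟨h2, by rw [h1]; exact i.2⟩
  rw [h, card_biUnion, Nat.cast_sum]
  intro i _ j _ hij
  refine disjoint_left.2 fun v hv hv' => ?_
  apply hij
  apply Fin.ext
  rw [← (mem_filter.1 (mem_filter.1 hv).1).2, ← (mem_filter.1 (mem_filter.1 hv').1).2]

theorem mom (n g : ℕ) (hg : 1 ≤ g) (S : Finset (Fin n)) (l : ℝ) :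
    ∑ s ∈ smp n g, Real.exp (l * ((univ.filter fun i => s i ∈ S).card : ℝ)) ≤
      (g : ℝ) ^ (n / g) * Real.exp ((Real.exp l - 1) *
        ((S.filter fun v : Fin n => v.val / g < n / g).card : ℝ) / g) := by
  have hg' : (0 : ℝ) < g := by exact_mod_cast hg
  have h1 : ∀ s : Fin (n / g) → Fin n,
      Real.exp (l * ((univ.filter fun i => s i ∈ S).card : ℝ)) =
        ∏ i, (if s i ∈ S then Real.exp l else 1) := by
    intro s
    rw [prod_ite, prod_const, prod_const_one, mul_one, ← Real.exp_nat_mul, mul_comm]
  rw [sum_congr rfl fun s _ => h1 s]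
  unfold smp
  rw [← prod_univ_sum (fun i : Fin (n / g) => univ.filter fun v : Fin n => v.val / g = i.val)
    (fun _ v => if v ∈ S then Real.exp l else 1)]
  have h2 : ∀ i : Fin (n / g), ∑ v ∈ univ.filter (fun v : Fin n => v.val / g = i.val),
      (if v ∈ S then Real.exp l else 1) = g + (Real.exp l - 1) *
        (((univ.filter fun v : Fin n => v.val / g = i.val).filter fun v => v ∈ S).card : ℝ) := by
    intro i
    have h3 : ∀ v : Fin n, (if v ∈ S then Real.exp l else 1) =
        1 + (Real.exp l - 1) * (if v ∈ S then 1 else 0) := by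
      intro v
      split_ifs <;> ring
    rw [sum_congr rfl fun v _ => h3 v, sum_add_distrib, sum_const, nsmul_eq_mul, mul_one,
      blk_card n g hg i, ← mul_sum, sum_boole]
  have h4 : ∀ i : Fin (n / g), g + (Real.exp l - 1) *
      (((univ.filter fun v : Fin n => v.val / g = i.val).filter fun v => v ∈ S).card : ℝ) ≤
      g * Real.exp ((Real.exp l - 1) *
        (((univ.filter fun v : Fin n => v.val / g = i.val).filter fun v => v ∈ S).card : ℝ) /
          g) := by
    intro i
    set c : ℝ := (((univ.filter fun v : Fin n => v.val / g = i.val).filter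
      fun v => v ∈ S).card : ℝ)
    have h5 := Real.add_one_le_exp ((Real.exp l - 1) * c / g)
    have h6 : (g : ℝ) + (Real.exp l - 1) * c = g * ((Real.exp l - 1) * c / g + 1) := by
      field_simp
      ring
    rw [h6]
    exact mul_le_mul_of_nonneg_left h5 hg'.le
  calc ∏ i : Fin (n / g), ∑ v ∈ univ.filter (fun v : Fin n => v.val / g = i.val),
        (if v ∈ S then Real.exp l else 1)
      ≤ ∏ i : Fin (n / g), (g * Real.exp ((Real.exp l - 1) *
        (((univ.filter fun v : Fin n => v.val / g = i.val).filter fun v => v ∈ S).card : ℝ) /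
          g)) := by
        refine prod_le_prod (fun i _ => ?_) fun i _ => ?_
        · refine sum_nonneg fun v _ => ?_
          split_ifs
          · exact (Real.exp_pos l).le
          · exact zero_le_one
        · rw [h2]
          exact h4 i
    _ = (g : ℝ) ^ (n / g) * Real.exp ((Real.exp l - 1) *
        ((S.filter fun v : Fin n => v.val / g < n / g).card : ℝ) / g) := by
        rw [prod_mul_distrib, prod_const, card_univ, Fintype.card_fin, ← Real.exp_sum,
          ← sum_div, ← mul_sum, sumc]

theorem markov {α : Type} (T : Finset α) (p : α → Prop) (f : α → ℝ) (c : ℝ) (hf : ∀ s, 0 ≤ f s)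
    (h : ∀ s, p s → c ≤ f s) : c * ((T.filter p).card : ℝ) ≤ ∑ s ∈ T, f s := by
  calc c * ((T.filter p).card : ℝ) = ∑ _s ∈ T.filter p, c := by
        rw [sum_const, nsmul_eq_mul, mul_comm]
    _ ≤ ∑ s ∈ T.filter p, f s := sum_le_sum fun s hs => h s (mem_filter.1 hs).2
    _ ≤ ∑ s ∈ T, f s := sum_le_sum_of_subset_of_nonneg (filter_subset _ _) fun s _ _ => hf s

theorem low (n g : ℕ) (hg : 1 ≤ g) (S : Finset (Fin n)) :
    S.card ≤ (S.filter fun v : Fin n => v.val / g < n / g).card + g := by
  have h1 := S.card_filter_add_card_filter_not (fun v : Fin n => v.val / g < n / g)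
  have h2 : (S.filter fun v : Fin n => ¬ v.val / g < n / g).card ≤ g := by
    have h3 : (S.filter fun v : Fin n => ¬ v.val / g < n / g).map Fin.valEmbedding ⊆
        Ico (n / g * g) n := by
      intro m hm
      rw [mem_map] at hm
      obtain ⟨v, hv, rfl⟩ := hm
      have h4 := (mem_filter.1 hv).2
      rw [mem_Ico]
      exact ⟨(Nat.le_div_iff_mul_le hg).1 (not_lt.1 h4), v.2⟩
    have h5 := card_le_card h3
    rw [card_map, Nat.card_Ico] at h5
    have h6 := Nat.div_add_mod n g
    have h7 := Nat.mod_lt n hg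
    have h8 : g * (n / g) = n / g * g := mul_comm _ _
    omega
  omega

end TRSx

open TRSx in
theorem t_TRS : S_TRS := by
  intro n g hg
  have hg' : (0 : ℝ) < g := by exact_mod_cast hg
  have hcard := smp_card n g hg
  refine ⟨by rw [hcard]; exact pow_pos hg _, fun S a ha => ⟨fun h => ?_, fun h => ?_⟩⟩
  · have hm := mom n g hg S 1
    have hM := markov (smp n g) (fun s => 4 * a ≤ ((univ.filter fun i => s i ∈ S).card : ℝ))
      (fun s => Real.exp (1 * ((univ.filter fun i => s i ∈ S).card : ℝ))) (Real.exp (4 * a))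
      (fun s => (Real.exp_pos _).le)
      (fun s hs => Real.exp_le_exp.2 (by rw [one_mul]; exact hs))
    have h1 := hM.trans hm
    have hc : ((S.filter fun v : Fin n => v.val / g < n / g).card : ℝ) ≤ a * g :=
      le_trans (by exact_mod_cast card_filter_le _ _) h
    have he : Real.exp 1 - 1 ≤ 2 := by
      have := Real.exp_one_lt_d9
      linarith
    have he0 : 0 ≤ Real.exp 1 - 1 := by
      have := Real.add_one_le_exp (1 : ℝ)
      linarith
    have h2 : (Real.exp 1 - 1) * ((S.filter fun v : Fin n => v.val / g < n / g).card : ℝ) / g ≤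
        2 * a := by
      rw [div_le_iff₀ hg']
      have h3 := mul_le_mul he hc (Nat.cast_nonneg _) (by norm_num)
      linarith
    have h3 : Real.exp (4 * a) * (((smp n g).filter fun s =>
        4 * a ≤ ((univ.filter fun i => s i ∈ S).card : ℝ)).card : ℝ) ≤
        (g : ℝ) ^ (n / g) * Real.exp (2 * a) :=
      h1.trans (mul_le_mul_of_nonneg_left (Real.exp_le_exp.2 h2) (by positivity))
    have h4 : Real.exp (4 * a) * (Real.exp (-(2 * a)) * ((smp n g).card : ℝ)) =
        (g : ℝ) ^ (n / g) * Real.exp (2 * a) := by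
      rw [hcard, ← mul_assoc, ← Real.exp_add, Nat.cast_pow, mul_comm]
      congr 2
      ring
    rw [← h4] at h3
    exact le_of_mul_le_mul_left h3 (Real.exp_pos _)
  · have hm := mom n g hg S (-1)
    have hM := markov (smp n g) (fun s => ((univ.filter fun i => s i ∈ S).card : ℝ) ≤ a / 4)
      (fun s => Real.exp (-1 * ((univ.filter fun i => s i ∈ S).card : ℝ))) (Real.exp (-(a / 4)))
      (fun s => (Real.exp_pos _).le)
      (fun s hs => Real.exp_le_exp.2 (by linarith))
    have h1 := hM.trans hm
    have hc : a * g ≤ ((S.filter fun v : Fin n => v.val / g < n / g).card : ℝ) := by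
      have h5 : (S.card : ℝ) ≤ ((S.filter fun v : Fin n => v.val / g < n / g).card : ℝ) + g := by
        exact_mod_cast low n g hg S
      linarith
    have he : Real.exp (-1) - 1 ≤ -(1 / 2) := by
      have h6 : (2 : ℝ) ≤ Real.exp 1 := by
        have := Real.add_one_le_exp (1 : ℝ)
        linarith
      have h7 : Real.exp (-1) ≤ 1 / 2 := by
        rw [Real.exp_neg, inv_le_comm₀ (Real.exp_pos _) (by norm_num)]
        norm_num
        exact h6
      linarith
    have h2 : (Real.exp (-1) - 1) *
        ((S.filter fun v : Fin n => v.val / g < n / g).card : ℝ) / g ≤ -(a / 2) := by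
      rw [div_le_iff₀ hg']
      have h8 : (Real.exp (-1) - 1) * ((S.filter fun v : Fin n => v.val / g < n / g).card : ℝ) ≤
          -(1 / 2) * ((S.filter fun v : Fin n => v.val / g < n / g).card : ℝ) :=
        mul_le_mul_of_nonneg_right he (Nat.cast_nonneg _)
      linarith
    have h3 : Real.exp (-(a / 4)) * (((smp n g).filter fun s =>
        ((univ.filter fun i => s i ∈ S).card : ℝ) ≤ a / 4).card : ℝ) ≤
        (g : ℝ) ^ (n / g) * Real.exp (-(a / 2)) :=
      h1.trans (mul_le_mul_of_nonneg_left (Real.exp_le_exp.2 h2) (by positivity))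
    have h4 : Real.exp (-(a / 4)) * (Real.exp (-(a / 4)) * ((smp n g).card : ℝ)) =
        (g : ℝ) ^ (n / g) * Real.exp (-(a / 2)) := by
      rw [hcard, ← mul_assoc, ← Real.exp_add, Nat.cast_pow, mul_comm]
      congr 2
      ring
    rw [← h4] at h3
    exact le_of_mul_le_mul_left h3 (Real.exp_pos _)

end Pool.Agent.PPL
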