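import Pool.Agent.PPL.St3
import Pool.Agent.UM.Parm
import Pool.Agent.UM.Modes

/-!
# Project PPL, module UPP: the function is in parity mode and in PSPACE mode of automata
-/

set_option autoImplicit false

open Finset
open scoped Classical

namespace Pool.Agent.PPL

open Pool.Agent.URG (VarX VarA deg lg pols Zero)
open Pool.Agent.HPM (GMachs DecOs)
open Pool.Agent.HPM.Fn (Coord)
open Pool.Agent.TKN.ONE (cop pt blk size BV Bas Lay sw dat inp Aut)

namespace MUPP

/-- other accepting states -/
def wa {s b : ℕ} {I V : Type} (M : GMachs s b I V) (a : V → Prop) : GMachs s b I V where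
  start := M.start
  query := M.query
  next := M.next
  acc := a

lemma wa_state {s b : ℕ} {I V : Type} (M : GMachs s b I V) (a : V → Prop) (x : I → Bool)
    (c : ℕ → Fin b → Bool) (t : ℕ) : (wa M a).state x c t = M.state x c t := by
  induction t with
  | zero => rfl
  | succ t ih =>
    rw [GMachs.state, GMachs.state, ih]
    rfl

lemma dec_const {s : ℕ} {I V : Type} {T : ℕ} {σ : Fin T → Fin s → I} (L : (I → Bool) → Prop)
    (b : Prop) (h : DecOs s I V T σ L) : DecOs s I V T σ fun _ => b := by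
  obtain ⟨M, hM, -⟩ := h
  exact ⟨wa M fun _ => b, hM, fun _ => Iff.rfl⟩

lemma dec_compl {s : ℕ} {I V : Type} {T : ℕ} {σ : Fin T → Fin s → I} (L : (I → Bool) → Prop)
    (h : DecOs s I V T σ L) : DecOs s I V T σ fun x => ¬ L x := by
  obtain ⟨M, hM, hL⟩ := h
  refine ⟨wa M fun v => ¬ M.acc v, hM, fun x => ?_⟩
  have h1 := not_congr (hL x)
  rw [← wa_state M (fun v => ¬ M.acc v)] at h1
  exact h1

lemma lg_le (M : ℕ) (hM : 1 ≤ M) : lg M ≤ M := by
  unfold lg
  exact Nat.log_lt_self 2 (by omega)

lemma two_pow_lg (M : ℕ) (hM : 1 ≤ M) : 2 ^ lg M ≤ 2 * M := by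
  unfold lg
  rw [pow_succ, mul_comm]
  exact Nat.mul_le_mul_left 2 (Nat.pow_log_le_self 2 (by omega))

end MUPP

open MUPP in
theorem t_UPP (hCLO : TKN.ONE.S_CLO) (hDEC : TKN.ONE.S_DEC) (hAUP : S_AUP)
    (hSIZ : TKN.ONE.S_SIZ) : S_UPP := by
  intro M hM β ly
  obtain ⟨⟨hs1, hs2⟩, hb1, hsz⟩ := hSIZ M hM
  obtain ⟨c1, c2, c3, c4⟩ := hCLO
  have hM1 : 1 ≤ M := le_trans Nat.one_le_two_pow hM
  have hMbig : 4 ≤ M := le_trans (by norm_num) hM
  have hsM : 2 * M ≤ size M := hs1
  -- the number of the items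
  have hK : Fintype.card (Item M) ≤ M * (M * M) := by
    rw [Fintype.card_sigma]
    calc ∑ e : Fin (blk M), Fintype.card (Fin (cop (e.val + 1)) ×
          Fin (pols (pt M (e.val + 1)) (e.val + 1)))
        ≤ ∑ e : Fin (blk M), (M * M) := by
          refine sum_le_sum fun e _ => ?_
          obtain ⟨-, -, -, h1, h2, -⟩ := hsz (e.val + 1) (by omega) (by have := e.2; omega)
          rw [Fintype.card_prod, Fintype.card_fin, Fintype.card_fin]
          exact Nat.mul_le_mul h1 h2
      _ = blk M * (M * M) := by simp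
      _ ≤ M * (M * M) := Nat.mul_le_mul_right _ ((Nat.div_le_self _ _).trans (lg_le M hM1))
  -- the automata
  obtain ⟨V, hV⟩ : ∃ V : Type, V = Fin (2 ^ (9 * lg M + 1)) := ⟨_, rfl⟩
  have hVf : Fintype V := by rw [hV]; infer_instance
  have hVc : Fintype.card V = 2 ^ (9 * lg M + 1) := by
    subst hV
    rw [← Nat.card_eq_fintype_card, Nat.card_fin]
  have hVn : Nonempty V := by
    rw [← Fintype.card_pos_iff, hVc]
    positivity
  have hpos : 0 < size M := by omega
  have hmem : ∀ q : Item M, Aut (size M) V (On β ly q) := by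
    rintro ⟨e, l, t⟩
    obtain ⟨h2, -, -, -, -, -, hdeg, -⟩ := hsz (e.val + 1) (by omega) (by have := e.2; omega)
    have hA := hAUP (pt M (e.val + 1)) (e.val + 1) (cop (e.val + 1)) (size M) (β e)
      (fun w => dat (ly.pos e w)) (fun w w' h => ly.inj e (Fin.natAdd_injective _ _ h))
      (fun t i p => by
        have := ly.lt₁ e t i p
        rw [Fin.lt_def] at this ⊢
        simp only [dat, Fin.val_natAdd]
        omega)
      (fun t q p => by
        have := ly.lt₂ e t q p
        rw [Fin.lt_def] at this ⊢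
        simp only [dat, Fin.val_natAdd]
        omega) t l
    have hS : Aut (size M) Bool (fun v => v (sw e) = true) := c2 _ (sw e) (fun b => b = true)
    have h4 := c3 _ _ _ _ _ (fun A B => A ∧ B) hS hA
    have hU : Nat.card (Bool × (GaloisField 2 (deg (pt M (e.val + 1)) (e.val + 1)) ×
        GaloisField 2 (deg (pt M (e.val + 1)) (e.val + 1)) ×
        GaloisField 2 (deg (pt M (e.val + 1)) (e.val + 1)))) ≤ 2 ^ (9 * lg M + 1) := by
      have hne0 : deg (pt M (e.val + 1)) (e.val + 1) ≠ 0 := by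
        unfold Pool.Agent.URG.deg Pool.Agent.URG.lg
        omega
      rw [Nat.card_prod, Nat.card_prod, Nat.card_prod, GaloisField.card 2 _ hne0,
        Nat.card_eq_fintype_card, Fintype.card_bool]
      calc 2 * (2 ^ deg (pt M (e.val + 1)) (e.val + 1) * (2 ^ deg (pt M (e.val + 1)) (e.val + 1) *
            2 ^ deg (pt M (e.val + 1)) (e.val + 1)))
          = 2 ^ (3 * deg (pt M (e.val + 1)) (e.val + 1) + 1) := by ring
        _ ≤ 2 ^ (9 * lg M + 1) := Nat.pow_le_pow_right (by norm_num) (by omega)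
    have hfin : Fintype (Bool × (GaloisField 2 (deg (pt M (e.val + 1)) (e.val + 1)) ×
        GaloisField 2 (deg (pt M (e.val + 1)) (e.val + 1)) ×
        GaloisField 2 (deg (pt M (e.val + 1)) (e.val + 1)))) := Fintype.ofFinite _
    rw [Nat.card_eq_fintype_card, ← hVc] at hU
    obtain ⟨j⟩ := Function.Embedding.nonempty_of_card_le hU
    exact c4 _ _ _ j _ j.injective h4
  set K := Fintype.card (Item M) with hKdef
  have hlog : K ≤ 2 ^ (Nat.log 2 K + 1) := (Nat.lt_pow_succ_log_self (by norm_num) _).le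
  have hpar : UM.InParity (DecOs 1 (Fin (size M)) V (size M) (fun t _ => t)) (Nat.log 2 K + 1)
      (fun v => fP β ly v = true) := by
    have h1 := UM.PARM.par_sum (w := Nat.log 2 K + 1)
      (DecOs 1 (Fin (size M)) V (size M) (fun t _ => t)) (hDEC _ _ _ hpos (c1 _ _ False))
      (fun (q : Item M) v => if On β ly q v then (1 : ZMod 2) else 0)
      (fun q => by
        have h2 : (fun v => (if On β ly q v then (1 : ZMod 2) else 0) = 1) = On β ly q := by
          funext v
          by_cases h : On β ly q v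
          · simp [h]
          · simp [h]
        rw [h2]
        exact hDEC _ _ _ hpos (hmem q)) hlog
    have h3 : (fun v => fP β ly v = true) =
        fun v => ∑ q : Item M, (if On β ly q v then (1 : ZMod 2) else 0) = 1 := by
      funext v
      unfold fP
      rw [decide_eq_true_iff, Finset.sum_boole, ZMod.natCast_eq_one_iff_odd]
    rw [h3]
    exact h1
  refine ⟨V, hVf, Nat.log 2 K + 1, ?_, ?_, hpar, ?_⟩
  · rw [hVc]
    have h1 := two_pow_lg M hM1
    calc 2 ^ (9 * lg M + 1) = (2 ^ lg M) ^ 9 * 2 := by rw [pow_add, mul_comm 9, pow_mul]; norm_num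
      _ ≤ (size M) ^ 9 * (size M) ^ 15 := by
          refine Nat.mul_le_mul (Nat.pow_le_pow_left (h1.trans hsM) 9) ?_
          calc 2 ≤ size M := by omega
            _ = size M ^ 1 := (pow_one _).symm
            _ ≤ size M ^ 15 := Nat.pow_le_pow_right (by omega) (by norm_num)
      _ = size M ^ 24 := by rw [← pow_add]
  · have hKe : 2 ^ (Nat.log 2 K + 1) ≤ 2 * (M * (M * M)) := by
      rcases Nat.eq_zero_or_pos K with h0 | h0
      · rw [h0]
        simp only [Nat.log_zero_right, zero_add, pow_one]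
        have : 1 ≤ M * (M * M) := Nat.mul_pos hM1 (Nat.mul_pos hM1 hM1)
        omega
      · have h1 : 2 ^ Nat.log 2 K ≤ K := Nat.pow_log_le_self 2 (by omega)
        rw [pow_succ, mul_comm]
        exact Nat.mul_le_mul_left _ (h1.trans hK)
    calc 2 ^ (Nat.log 2 K + 1) ≤ 2 * (M * (M * M)) := hKe
      _ ≤ 8 * (M * (M * M)) := Nat.mul_le_mul_right _ (by norm_num)
      _ = (2 * M) ^ 3 := by ring
      _ ≤ size M ^ 3 := Nat.pow_le_pow_left hsM 3
      _ ≤ size M ^ 24 := Nat.pow_le_pow_right (by omega) (by norm_num)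
  · exact UM.MODES.parity dec_const dec_compl hpar

end Pool.Agent.PPL
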