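import Pool.Agent.PPL.St1

/-!
# Project PPL, module WCH: the sample and the choice of `J`
-/

set_option autoImplicit false

open Finset
open scoped Classical

namespace Pool.Agent.PPL

namespace WCHx

noncomputable def hit {m r : ℕ} (ψ : Fin m → Fin r → Bool) (J : Finset (Fin r)) : ℕ :=
  (univ.filter fun i => ∀ j, j ∉ J → ψ i j = false).card

theorem exists_best {m r m0 : ℕ} (hm : m0 ≤ r) (ψ : Fin m → Fin r → Bool) :
    ∃ J : Finset (Fin r), J.card = m0 ∧
      ∀ J' : Finset (Fin r), J'.card = m0 → hit ψ J' ≤ hit ψ J := by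
  have hne : (powersetCard m0 (univ : Finset (Fin r))).Nonempty := by
    apply powersetCard_nonempty.2
    rw [card_univ, Fintype.card_fin]
    exact hm
  obtain ⟨J, hJ, hmax⟩ := exists_max_image _ (hit ψ) hne
  exact ⟨J, (mem_powersetCard.1 hJ).2,
    fun J' hJ' => hmax J' (mem_powersetCard.2 ⟨subset_univ _, hJ'⟩)⟩

theorem hit_psi {n r m : ℕ} (U : Fin r → (Fin n → Bool) → Finset (Fin n)) (s : Fin m → Fin n)
    (x : Fin n → Bool) (J : Finset (Fin r)) :
    hit (psi U s x) J = (univ.filter fun i => s i ∈ NJ U J x).card := by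
  unfold hit
  congr 1
  ext i
  simp only [mem_filter, mem_univ, true_and, NJ, psi, decide_eq_false_iff_not]

theorem sum_R {n r w k : ℕ} (U : Fin r → (Fin n → Bool) → Finset (Fin n)) (x : Fin n → Bool)
    (hc : ∀ j, (U j x).card ≤ w) (h4 : r * w ≤ k * n) :
    ∑ v : Fin n, ((univ : Finset (Fin r)).filter fun j => v ∈ U j x).card ≤ k * n := by
  have e : ∑ v : Fin n, ((univ : Finset (Fin r)).filter fun j => v ∈ U j x).card =
      ∑ j : Fin r, (U j x).card := by
    simp only [card_filter]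
    rw [sum_comm]
    refine sum_congr rfl fun j _ => ?_
    rw [← card_filter]
    congr 1
    ext v
    simp
  rw [e]
  refine le_trans (sum_le_sum fun j _ => hc j) ?_
  rw [sum_const, card_univ, Fintype.card_fin, smul_eq_mul]
  exact h4

theorem perx (hT : S_TRS) (hJ : S_JAV) (n r w k m0 g : ℕ)
    (U : Fin r → (Fin n → Bool) → Finset (Fin n)) (ν : ℝ)
    (h1 : 1 ≤ k) (h2 : 4 * k ≤ m0) (h3 : m0 ≤ r) (h4 : r * w ≤ k * n) (h5 : 1 ≤ g)
    (h6 : ν = 1 / 2 * ((m0 : ℝ) / (2 * r)) ^ (2 * k)) (h7 : (g : ℝ) ≤ ν * n)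
    (Jf : (Fin (n / g) → Fin r → Bool) → Finset (Fin r))
    (hbest : ∀ ψ J', J'.card = m0 → hit ψ J' ≤ hit ψ (Jf ψ)) (x : Fin n → Bool)
    (hc : ∀ j, (U j x).card ≤ w) :
    (((smp n g).filter fun s =>
      ((NJ U (Jf (psi U s x)) x).card : ℝ) < (ν * n - g) / 16).card : ℝ) ≤
      (2 ^ (r + 1) * Real.exp (-((ν * n / g - 1) / 8))) * (smp n g).card := by
  have hg : (0 : ℝ) < g := by exact_mod_cast h5
  obtain ⟨J₀, hJ₀, hlow⟩ := hJ n r m0 k (fun v => univ.filter fun j => v ∈ U j x) h1 h2 h3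
    (sum_R U x hc h4)
  have hN : ((univ : Finset (Fin n)).filter fun v =>
      ((univ : Finset (Fin r)).filter fun j => v ∈ U j x) ⊆ J₀) = NJ U J₀ x := by
    ext v
    simp only [mem_filter, mem_univ, true_and, NJ, subset_iff]
    exact ⟨fun h j hj hv => hj (h hv), fun h j hv => by
      by_contra hj
      exact h j hj hv⟩
  set a : ℝ := ν * n / g - 1 with ha_def
  have ha : 0 ≤ a := by
    rw [ha_def, sub_nonneg, le_div_iff₀ hg, one_mul]
    exact h7
  have hag : (a + 1) * g = ν * n := by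
    rw [ha_def]
    field_simp
    ring
  have hag2 : (ν * n - g) / 16 = a / 16 * g := by
    rw [← hag]
    ring
  have hlow2 : (a + 1) * g ≤ ((NJ U J₀ x).card : ℝ) := by
    rw [hag, ← hN]
    refine le_trans (le_of_eq ?_) hlow
    rw [h6]
    ring
  obtain ⟨hpos, hT'⟩ := hT n g h5
  have hA := (hT' (NJ U J₀ x) a ha).2 hlow2
  have hB : ∀ J, ((NJ U J x).card : ℝ) ≤ a / 16 * g → _ :=
    fun J h => (hT' (NJ U J x) (a / 16) (by positivity)).1 h
  set BA := (smp n g).filter fun s =>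
      ((univ.filter fun i => s i ∈ NJ U J₀ x).card : ℝ) ≤ a / 4 with hBA
  set BB : Finset (Fin r) → Finset (Fin (n / g) → Fin n) := fun J => (smp n g).filter fun s =>
      4 * (a / 16) ≤ ((univ.filter fun i => s i ∈ NJ U J x).card : ℝ) with hBB
  set Js := (univ : Finset (Finset (Fin r))).filter fun J =>
    ((NJ U J x).card : ℝ) ≤ a / 16 * g with hJs
  have hsub : ((smp n g).filter fun s =>
      ((NJ U (Jf (psi U s x)) x).card : ℝ) < (ν * n - g) / 16) ⊆ BA ∪ Js.biUnion BB := by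
    intro s hs
    rw [mem_filter, hag2] at hs
    rw [mem_union]
    by_cases h : 4 * (a / 16) ≤ ((univ.filter fun i => s i ∈ NJ U (Jf (psi U s x)) x).card : ℝ)
    · right
      rw [mem_biUnion]
      exact ⟨Jf (psi U s x), by rw [hJs, mem_filter]; exact ⟨mem_univ _, hs.2.le⟩, by
        rw [hBB]; exact mem_filter.2 ⟨hs.1, h⟩⟩
    · left
      rw [hBA, mem_filter]
      refine ⟨hs.1, ?_⟩
      have h8 := hbest (psi U s x) J₀ hJ₀
      rw [hit_psi, hit_psi] at h8
      have h9 : ((univ.filter fun i => s i ∈ NJ U J₀ x).card : ℝ) ≤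
        ((univ.filter fun i => s i ∈ NJ U (Jf (psi U s x)) x).card : ℝ) := by exact_mod_cast h8
      linarith
  have hJc : (Js.card : ℝ) ≤ 2 ^ r := by
    have h8 : Js.card ≤ 2 ^ r := by
      refine le_trans (card_le_univ _) ?_
      rw [Fintype.card_finset, Fintype.card_fin]
    exact_mod_cast h8
  have hcard : (((smp n g).filter fun s =>
      ((NJ U (Jf (psi U s x)) x).card : ℝ) < (ν * n - g) / 16).card : ℝ) ≤
      (BA.card : ℝ) + ∑ J ∈ Js, ((BB J).card : ℝ) := by
    have h8 := (card_le_card hsub).trans ((card_union_le _ _).trans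
      (Nat.add_le_add_left card_biUnion_le _))
    exact_mod_cast h8
  have hS : (0 : ℝ) ≤ (smp n g).card := Nat.cast_nonneg _
  have hsum : ∑ J ∈ Js, ((BB J).card : ℝ) ≤
      2 ^ r * (Real.exp (-(a / 8)) * (smp n g).card) := by
    refine le_trans (sum_le_sum fun J hJ' => ?_) (?_ : ∑ J ∈ Js,
      (Real.exp (-(a / 8)) * ((smp n g).card : ℝ)) ≤ _)
    · have h8 := hB J (by rw [hJs, mem_filter] at hJ'; exact hJ'.2)
      rw [show 2 * (a / 16) = a / 8 by ring] at h8
      exact h8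
    · rw [sum_const, nsmul_eq_mul]
      exact mul_le_mul_of_nonneg_right hJc (by positivity)
  have he : Real.exp (-(a / 4)) ≤ 2 ^ r * Real.exp (-(a / 8)) := by
    have h8 : Real.exp (-(a / 4)) ≤ Real.exp (-(a / 8)) := Real.exp_le_exp.2 (by linarith)
    have h9 : (1 : ℝ) ≤ 2 ^ r := one_le_pow₀ (by norm_num)
    nlinarith [Real.exp_pos (-(a / 8))]
  calc _ ≤ (BA.card : ℝ) + ∑ J ∈ Js, ((BB J).card : ℝ) := hcard
    _ ≤ Real.exp (-(a / 4)) * (smp n g).card + 2 ^ r * (Real.exp (-(a / 8)) * (smp n g).card) :=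
        add_le_add hA hsum
    _ ≤ 2 ^ r * Real.exp (-(a / 8)) * (smp n g).card +
        2 ^ r * (Real.exp (-(a / 8)) * (smp n g).card) := by
          gcongr
    _ = _ := by
      rw [pow_succ]
      ring

end WCHx

open WCHx in
theorem t_WCH (hT : S_TRS) (hJ : S_JAV) : S_WCH := by
  intro n r w k m0 g U A ν hseg h1 h2 h3 h4 h5 h6 h7
  choose Jf hJc hbest using fun ψ : Fin (n / g) → Fin r → Bool => exists_best h3 ψ
  have hx := fun x => perx hT hJ n r w k m0 g U ν h1 h2 h3 h4 h5 h6 h7 Jf hbest x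
    fun j => hseg.card j x
  have hne : (smp n g).Nonempty := card_pos.1 (hT n g h5).1
  have hsum : ∑ s ∈ smp n g, ((univ.filter fun x : Fin n → Bool =>
      ((NJ U (Jf (psi U s x)) x).card : ℝ) < (ν * n - g) / 16).card : ℝ) ≤
      ∑ _s ∈ smp n g, (2 ^ n * (2 ^ (r + 1) * Real.exp (-((ν * n / g - 1) / 8)))) := by
    have e1 : ∑ s ∈ smp n g, ((univ.filter fun x : Fin n → Bool =>
        ((NJ U (Jf (psi U s x)) x).card : ℝ) < (ν * n - g) / 16).card : ℝ) =
        ∑ x : Fin n → Bool, (((smp n g).filter fun s =>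
        ((NJ U (Jf (psi U s x)) x).card : ℝ) < (ν * n - g) / 16).card : ℝ) := by
      simp only [card_filter, Nat.cast_sum]
      rw [sum_comm]
    rw [e1]
    refine le_trans (sum_le_sum fun x _ => hx x) (le_of_eq ?_)
    rw [sum_const, sum_const, nsmul_eq_mul, nsmul_eq_mul, card_univ, Fintype.card_fun,
      Fintype.card_bool, Fintype.card_fin]
    push_cast
    ring
  obtain ⟨s, _, hs⟩ := exists_le_of_sum_le hne hsum
  exact ⟨s, Jf, hJc, hs⟩

end Pool.Agent.PPL
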