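import Pool.Agent.PPL.RB
import Pool.Agent.PPL.CUB
import Pool.Agent.PPL.SCB
import Pool.Agent.PPL.RCL
import Pool.Agent.PPL.NCU
import Pool.Agent.PPL.TRS
import Pool.Agent.PPL.THIN
import Pool.Agent.PPL.JAV
import Pool.Agent.PPL.WCH
import Pool.Agent.PPL.LVL
import Pool.Agent.PPL.LV2
import Pool.Agent.PPL.ONE
import Pool.Agent.PPL.TRC
import Pool.Agent.PPL.PT
import Pool.Agent.PPL.MUL
import Pool.Agent.PPL.MOM
import Pool.Agent.PPL.EVN
import Pool.Agent.PPL.GSD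
import Pool.Agent.PPL.AUP
import Pool.Agent.PPL.UPP
import Pool.Agent.PPL.LOW
import Pool.Agent.PPL.AVG
import Pool.Agent.PPL.MU
import Pool.Agent.PPL.ALLC
import Pool.Agent.TKN.P_SUBS
import Pool.Agent.TKN.O_CLO
import Pool.Agent.TKN.O_DEC
import Pool.Agent.TKN.O_SIZ
import Pool.Agent.TKN.O_LAY

/-!
# Project PPL: the theorems
-/

set_option autoImplicit false

namespace Pool.Agent.PPL

open Pool.Agent.TKN.ONE (t_SIZ t_CLO t_DEC t_LAY)

theorem scb : S_SCB := t_SCB t_RB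

theorem thin : S_THIN := t_THIN t_TRS

theorem wch : S_WCH := t_WCH t_TRS t_JAV

theorem lvl : S_LVL := t_LVL t_RB t_CUB t_RCL t_NCU

theorem lv2 : S_LV2 := t_LV2 lvl thin Pool.Agent.TKN.t_SUBS

theorem one : S_ONE := t_ONE lv2 wch t_NCU scb

theorem mul : S_MUL := t_MUL (t_PT one t_TRC)

theorem gsd : S_GSD := t_GSD t_MOM t_EVN

theorem lay : Pool.Agent.TKN.ONE.S_LAY := t_LAY t_SIZ

theorem upp : S_UPP := t_UPP t_CLO t_DEC t_AUP t_SIZ

theorem low : S_LOW := t_LOW mul gsd t_SIZ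

theorem mu1 : S_MU1 := t_MU1 low t_AVG t_SIZ

theorem mu2 : S_MU2 := t_MU2 mu1 t_SIZ

theorem allc (N : ℕ) (L : (Fin N → Bool) → Prop) (h : 0 < N) :
    UM.InPP (Mch (Fin N) N 1) (N + 1) L :=
  MU.pp_mono (fun P hP => ⟨1, N, Bool, inferInstance, by norm_num, by simp, by
    simp only [Fintype.card_bool, Real.rpow_one, Nat.cast_ofNat, le_refl], hP⟩) (t_ALLC N L h)

end Pool.Agent.PPL
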