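import Pool.Agent.PPL.St3

/-!
# Project PPL: good seeds exist
-/

set_option autoImplicit false

open Finset
open scoped Classical

namespace Pool.Agent.PPL

open Pool.Agent.URG (VarX VarA deg lg pols Zero)
open Pool.Agent.HPM.Fn (Coord)

namespace GSDx

lemma sg_sq (b : Bool) : sg b * sg b = 1 := by cases b <;> simp [sg]

lemma sg_even (b : Bool) {m : ℕ} (h : Even m) : sg b ^ m = 1 := by
  obtain ⟨k, rfl⟩ := h
  rw [pow_add, ← mul_pow, sg_sq, one_pow]

lemma sg_odd (b : Bool) {m : ℕ} (h : Odd m) : sg b ^ m = sg b := by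
  obtain ⟨k, rfl⟩ := h
  rw [pow_succ, sg_even b ⟨k, by ring⟩, one_mul]

lemma sg_abs (b : Bool) : |sg b| = 1 := by cases b <;> simp [sg]

lemma prod_fib {Z κ : Type} [Fintype Z] [Fintype κ] (G : Z → Bool) (g : κ → Z) :
    ∏ i, sg (G (g i)) = ∏ z, sg (G z) ^ (univ.filter fun i => g i = z).card := by
  rw [← Finset.prod_fiberwise univ g (fun i => sg (G (g i)))]
  refine Finset.prod_congr rfl fun z _ => ?_
  rw [← prod_const]
  refine Finset.prod_congr rfl fun i hi => ?_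
  rw [(mem_filter.mp hi).2]

/-- the places with odd multiplicity -/
noncomputable def Od {Z κ : Type} [Fintype Z] [Fintype κ] (g1 g2 : κ → Z) : Finset Z :=
  univ.filter fun z =>
    Odd ((univ.filter fun i => g1 i = z).card + (univ.filter fun i => g2 i = z).card)

lemma prod_Od {Z κ : Type} [Fintype Z] [Fintype κ] (G : Z → Bool) (g1 g2 : κ → Z) :
    ∏ i, (sg (G (g1 i)) * sg (G (g2 i))) = ∏ z ∈ Od g1 g2, sg (G z) := by
  rw [prod_mul_distrib, prod_fib G g1, prod_fib G g2, ← prod_mul_distrib, Od, prod_filter]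
  refine prod_congr rfl fun z _ => ?_
  rw [← pow_add]
  split_ifs with h
  · exact sg_odd _ h
  · exact sg_even _ (Nat.not_odd_iff_even.mp h)

lemma card_Od_le {Z κ : Type} [Fintype Z] [Fintype κ] (g1 g2 : κ → Z) :
    (Od g1 g2).card ≤ 2 * Fintype.card κ := by
  have hsub : Od g1 g2 ⊆ univ.image g1 ∪ univ.image g2 := by
    intro z hz
    have hz' := (mem_filter.mp hz).2
    by_contra hn
    simp only [mem_union, mem_image, mem_univ, true_and, not_or, not_exists] at hn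
    have h1 : (univ.filter fun i => g1 i = z).card = 0 := by
      rw [card_eq_zero, filter_eq_empty_iff]
      exact fun i _ => hn.1 i
    have h2 : (univ.filter fun i => g2 i = z).card = 0 := by
      rw [card_eq_zero, filter_eq_empty_iff]
      exact fun i _ => hn.2 i
    rw [h1, h2] at hz'
    simp at hz'
  calc (Od g1 g2).card ≤ (univ.image g1 ∪ univ.image g2).card := card_le_card hsub
    _ ≤ (univ.image g1).card + (univ.image g2).card := card_union_le _ _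
    _ ≤ (univ : Finset κ).card + (univ : Finset κ).card :=
        add_le_add card_image_le card_image_le
    _ = 2 * Fintype.card κ := by rw [card_univ]; ring

lemma Od_nonempty {α Z κ : Type} [Fintype α] [Fintype Z] [Fintype κ] (i1 i2 : α → Z)
    (h1 : Function.Injective i1) (h12 : ∀ a b, i1 a ≠ i2 b) (p : κ → α)
    (hp : ¬ ∀ z, Even (univ.filter fun i => p i = z).card) :
    (Od (fun i => i1 (p i)) fun i => i2 (p i)).Nonempty := by
  push Not at hp
  obtain ⟨a, ha⟩ := hp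
  refine ⟨i1 a, mem_filter.mpr ⟨mem_univ _, ?_⟩⟩
  have e1 : (univ.filter fun i => i1 (p i) = i1 a) = univ.filter fun i => p i = a :=
    filter_congr fun i _ => ⟨fun h => h1 h, fun h => by rw [h]⟩
  have e2 : (univ.filter fun i => i2 (p i) = i1 a) = ∅ := by
    rw [filter_eq_empty_iff]
    exact fun i _ h => h12 a (p i) h.symm
  rw [e1, e2, card_empty, add_zero]
  exact Nat.not_even_iff_odd.mp ha

lemma moment (hE : S_EVN) {α Z U : Type} [Fintype α] [Fintype Z] [Fintype U] (i1 i2 : α → Z)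
    (h1 : Function.Injective i1) (h12 : ∀ a b, i1 a ≠ i2 b) (F : U → Z → Bool) (t : ℕ) (ε : ℝ)
    (hε : 0 ≤ ε)
    (hM : ∀ O : Finset Z, O.Nonempty → O.card ≤ 4 * t →
      |∑ u, ∏ z ∈ O, sg (F u z)| ≤ ε * Fintype.card U) :
    ∑ u, (∑ a, sg (F u (i1 a)) * sg (F u (i2 a))) ^ (2 * t) ≤
      ((2 * t) ^ t * (Fintype.card α : ℝ) ^ t + ε * (Fintype.card α : ℝ) ^ (2 * t)) *
        Fintype.card U := by
  have e1 : ∀ u, (∑ a, sg (F u (i1 a)) * sg (F u (i2 a))) ^ (2 * t) =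
      ∑ p : Fin (2 * t) → α, ∏ i, (sg (F u (i1 (p i))) * sg (F u (i2 (p i)))) :=
    fun u => Fintype.sum_pow _ _
  rw [sum_congr rfl fun u _ => e1 u, sum_comm]
  have hU : (0 : ℝ) ≤ Fintype.card U := Nat.cast_nonneg _
  have e2 : ∀ p : Fin (2 * t) → α,
      ∑ u, ∏ i, (sg (F u (i1 (p i))) * sg (F u (i2 (p i)))) ≤
      (if ∀ z, Even (univ.filter fun i => p i = z).card then (1 : ℝ) else 0) * Fintype.card U +
        ε * Fintype.card U := by
    intro p
    split_ifs with hp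
    · have h3 : ∑ u, ∏ i, (sg (F u (i1 (p i))) * sg (F u (i2 (p i)))) ≤ ∑ u : U, (1 : ℝ) := by
        refine sum_le_sum fun u _ => ?_
        refine (le_abs_self _).trans ?_
        rw [abs_prod]
        refine le_of_eq (prod_eq_one fun i _ => ?_)
        rw [abs_mul, sg_abs, sg_abs, one_mul]
      have h4 : ∑ u : U, (1 : ℝ) = Fintype.card U := by simp
      rw [h4] at h3
      nlinarith [mul_nonneg hε hU]
    · have h3 := hM _ (Od_nonempty i1 i2 h1 h12 p hp)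
        ((card_Od_le _ _).trans (by rw [Fintype.card_fin]; omega))
      have h4 : ∑ u, ∏ i, (sg (F u (i1 (p i))) * sg (F u (i2 (p i)))) =
          ∑ u, ∏ z ∈ Od (fun i => i1 (p i)) (fun i => i2 (p i)), sg (F u z) :=
        sum_congr rfl fun u _ => prod_Od (F u) _ _
      rw [h4, zero_mul, zero_add]
      exact (le_abs_self _).trans h3
  refine (sum_le_sum fun p _ => e2 p).trans ?_
  rw [sum_add_distrib, ← sum_mul, sum_const, card_univ, Fintype.card_fun, Fintype.card_fin,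
    sum_boole, nsmul_eq_mul, add_mul]
  have h5 := hE α t
  push_cast
  have h6 : ((Fintype.card α : ℝ)) ^ (2 * t) * (ε * Fintype.card U) =
      ε * (Fintype.card α : ℝ) ^ (2 * t) * Fintype.card U := by ring
  rw [h6]
  have h7 := mul_le_mul_of_nonneg_right h5 hU
  linarith

/-! ### the words on `D` -/

/-- `a` on `D` and `y` elsewhere -/
noncomputable def mx {n : ℕ} (D : Finset (Fin n)) (y : Fin n → Bool)
    (a : {v : Fin n // v ∈ D} → Bool) : Fin n → Bool :=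
  fun v => if h : v ∈ D then a ⟨v, h⟩ else y v

lemma mx_inj {n : ℕ} (D : Finset (Fin n)) (y : Fin n → Bool) : Function.Injective (mx D y) := by
  intro a b h
  funext v
  have := congrFun h v.1
  simpa [mx, v.2] using this

lemma mx_ne {n : ℕ} (D : Finset (Fin n)) (y y' : Fin n → Bool) (hy : ∃ v, v ∉ D ∧ y v ≠ y' v)
    (a b : {v : Fin n // v ∈ D} → Bool) : mx D y a ≠ mx D y' b := by
  obtain ⟨v, hv, hne⟩ := hy
  intro h
  have := congrFun h v
  simp only [mx, hv, dif_neg, not_false_eq_true] at this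
  exact hne this

lemma card_D {n : ℕ} (D : Finset (Fin n)) :
    Fintype.card ({v : Fin n // v ∈ D} → Bool) = 2 ^ D.card := by
  rw [Fintype.card_fun, Fintype.card_bool, Fintype.card_coe]

/-- the sum over all words -/
lemma full {n : ℕ} (D : Finset (Fin n)) (y y' : Fin n → Bool) (φ : (Fin n → Bool) → ℝ) :
    ∃ K : ℝ, 0 < K ∧ K * 2 ^ D.card = 2 ^ n ∧
      ∑ a : Fin n → Bool, φ (mix D a y) * φ (mix D a y') =
        K * ∑ a, φ (mx D y a) * φ (mx D y' a) := by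
  refine ⟨Fintype.card ({v : Fin n // ¬ v ∈ D} → Bool), ?_, ?_, ?_⟩
  · exact_mod_cast Fintype.card_pos
  · have h := Fintype.card_congr (Equiv.piEquivPiSubtypeProd (fun v : Fin n => v ∈ D)
      (fun _ => Bool))
    rw [Fintype.card_prod, card_D, Fintype.card_fun, Fintype.card_bool, Fintype.card_fin] at h
    have h' : ((2 ^ n : ℕ) : ℝ) =
        ((2 ^ D.card * Fintype.card ({v : Fin n // ¬ v ∈ D} → Bool) : ℕ) : ℝ) := by
      exact_mod_cast h
    push_cast at h'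
    rw [h']
    ring
  · rw [Fintype.sum_equiv (Equiv.piEquivPiSubtypeProd (fun v : Fin n => v ∈ D) (fun _ => Bool))
      (fun a => φ (mix D a y) * φ (mix D a y'))
      (fun q => φ (mx D y q.1) * φ (mx D y' q.1)), Fintype.sum_prod_type]
    · rw [mul_sum]
      refine sum_congr rfl fun a _ => ?_
      simp only [sum_const, card_univ, nsmul_eq_mul]
    · intro a
      have h : ∀ z, mix D a z = mx D z
          ((Equiv.piEquivPiSubtypeProd (fun v : Fin n => v ∈ D) (fun _ => Bool)) a).1 := by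
        intro z
        funext v
        unfold mix mx
        split_ifs <;> rfl
      rw [h y, h y']

/-! ### one triple -/

lemma numbers {n e m t : ℕ} (he : 2 ≤ e) (hn : 64 ^ e ≤ n) (hm : m ≤ n) (hm1 : 64 * n ≤ m * 4 ^ e)
    (ht : t = (8 * n + m - 1) / m) : 1 ≤ t ∧ 4 * t ≤ 4 ^ e ∧ 8 * n ≤ t * m ∧ t * m ≤ 9 * n ∧
      2 * (2 * t) ^ t < 2 ^ n := by
  have hn0 : 1 ≤ n := le_trans (Nat.one_le_pow _ _ (by norm_num)) hn
  have hm0 : 0 < m := by
    rcases Nat.eq_zero_or_pos m with h | h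
    · rw [h, zero_mul] at hm1
      omega
    · exact h
  have h1 := Nat.div_add_mod (8 * n + m - 1) m
  have h2 := Nat.mod_lt (8 * n + m - 1) hm0
  rw [← ht] at h1
  have h3 : 8 * n ≤ t * m := by
    rw [mul_comm t m]
    omega
  have h4 : t * m < 8 * n + m := by
    rw [mul_comm t m]
    omega
  have h5 : 1 ≤ t := by
    rcases Nat.eq_zero_or_pos t with h | h
    · rw [h, zero_mul] at h3
      omega
    · exact h
  have h16 : 16 ≤ 4 ^ e := by
    calc 16 = 4 ^ 2 := by norm_num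
      _ ≤ 4 ^ e := Nat.pow_le_pow_right (by norm_num) he
  have h6 : 4 * t < 4 ^ e := by
    by_contra hcon
    push Not at hcon
    have h7 : 4 ^ e * m ≤ 4 * t * m := Nat.mul_le_mul_right m hcon
    have h8 : 16 * m ≤ 4 ^ e * m := Nat.mul_le_mul_right m h16
    have h9 : m * 4 ^ e = 4 ^ e * m := mul_comm _ _
    have h10 : 4 * t * m = 4 * (t * m) := by ring
    omega
  refine ⟨h5, h6.le, h3, by omega, ?_⟩
  have h7 : (2 * t) ^ t ≤ 2 ^ (2 * e * t) := by
    calc (2 * t) ^ t ≤ (4 ^ e) ^ t := Nat.pow_le_pow_left (by omega) t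
      _ = 2 ^ (2 * e * t) := by
        rw [show (4 : ℕ) = 2 ^ 2 by norm_num, ← pow_mul, ← pow_mul, mul_assoc]
  have h8 : 2 * e * t + 1 < n := by
    have h9 : e + 1 ≤ 16 ^ e := by
      calc e + 1 ≤ 2 ^ e := Nat.lt_two_pow_self
        _ ≤ 16 ^ e := Nat.pow_le_pow_left (by norm_num) e
    have h10 : 4 ^ e * (e + 1) ≤ n := by
      calc 4 ^ e * (e + 1) ≤ 4 ^ e * 16 ^ e := Nat.mul_le_mul_left _ h9
        _ = 64 ^ e := by
          rw [← mul_pow]
          norm_num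
        _ ≤ n := hn
    have h11 : 2 * e * (4 * t) ≤ 2 * e * 4 ^ e := Nat.mul_le_mul_left _ h6.le
    nlinarith
  calc 2 * (2 * t) ^ t ≤ 2 * 2 ^ (2 * e * t) := Nat.mul_le_mul_left _ h7
    _ = 2 ^ (2 * e * t + 1) := by rw [pow_succ]; ring
    _ < 2 ^ n := Nat.pow_lt_pow_right (by norm_num) h8

/-- the seeds which are bad for a triple -/
noncomputable def Bd {n e : ℕ} (β : Coord (deg n e)) (D : Finset (Fin n)) (y y' : Fin n → Bool) :
    Finset (VarX n e → Bool) :=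
  univ.filter fun u => 2 ^ n * (2 : ℝ) ^ (-((D.card : ℝ)) / 4) <
    |∑ a : Fin n → Bool, sg (par β u (mix D a y)) * sg (par β u (mix D a y'))|

lemma bad_card (hM : S_MOM) (hE : S_EVN) {n e : ℕ} (β : Coord (deg n e)) (he : 2 ≤ e)
    (hn : 64 ^ e ≤ n) (D : Finset (Fin n)) (hD : 64 * (n : ℝ) / 4 ^ e ≤ D.card)
    (y y' : Fin n → Bool) (hy : ∃ v, v ∉ D ∧ y v ≠ y' v) :
    (2 : ℝ) ^ (3 * n) * ((Bd β D y y').card : ℝ) < Fintype.card (VarX n e → Bool) := by
  obtain ⟨m, hm⟩ : ∃ m, m = D.card := ⟨_, rfl⟩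
  have hmn : m ≤ n := by
    rw [hm]
    exact (card_le_univ D).trans (by rw [Fintype.card_fin])
  have h4 : (0 : ℝ) < 4 ^ e := by positivity
  have hm1 : 64 * n ≤ m * 4 ^ e := by
    rw [div_le_iff₀ h4, ← hm] at hD
    exact_mod_cast hD
  obtain ⟨t, ht⟩ : ∃ t, t = (8 * n + m - 1) / m := ⟨_, rfl⟩
  obtain ⟨t1, t2, t3, t4, t5⟩ := numbers he hn hmn hm1 ht
  have hn256 : 256 ≤ n := by
    calc 256 ≤ 64 ^ 2 := by norm_num
      _ ≤ 64 ^ e := Nat.pow_le_pow_right (by norm_num) he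
      _ ≤ n := hn
  have hmom := moment hE (mx D y) (mx D y') (mx_inj D y) (mx_ne D y y' hy) (par β) t
    ((2 : ℝ) ^ (-(9 * (n : ℝ)))) (by positivity)
    (fun O hO hO4 => hM n e β O hn256 (by omega) hO (hO4.trans t2))
  obtain ⟨Un, hUn⟩ : ∃ Un : ℝ, Un = Fintype.card (VarX n e → Bool) := ⟨_, rfl⟩
  have hU0 : 0 < Un := by
    rw [hUn]
    exact_mod_cast Fintype.card_pos
  rw [card_D, ← hUn, ← hm] at hmom
  push_cast at hmom
  -- the bound of the moment
  have h5 : ((2 : ℝ) ^ m) ^ t = 2 ^ (t * m) := by rw [← pow_mul, mul_comm]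
  have h6 : (2 : ℝ) ^ (-(9 * (n : ℝ))) * ((2 : ℝ) ^ m) ^ (2 * t) ≤ 2 ^ (t * m) := by
    have h7 : ((2 : ℝ) ^ m) ^ (2 * t) = 2 ^ (t * m) * 2 ^ (t * m) := by
      rw [← pow_mul, ← pow_add]
      congr 1
      ring
    have h8 : (2 : ℝ) ^ (t * m) ≤ 2 ^ (9 * n) := pow_le_pow_right₀ (by norm_num) t4
    have h9 : (2 : ℝ) ^ (-(9 * (n : ℝ))) * 2 ^ (9 * n) = 1 := by
      rw [← Real.rpow_natCast 2 (9 * n), ← Real.rpow_add (by norm_num)]
      push_cast
      rw [neg_add_cancel, Real.rpow_zero]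
    have h10 : (0 : ℝ) < 2 ^ (t * m) := by positivity
    calc (2 : ℝ) ^ (-(9 * (n : ℝ))) * ((2 : ℝ) ^ m) ^ (2 * t)
        = ((2 : ℝ) ^ (-(9 * (n : ℝ))) * 2 ^ (t * m)) * 2 ^ (t * m) := by rw [h7]; ring
      _ ≤ ((2 : ℝ) ^ (-(9 * (n : ℝ))) * 2 ^ (9 * n)) * 2 ^ (t * m) := by gcongr
      _ = 2 ^ (t * m) := by rw [h9, one_mul]
  have ht1 : (1 : ℝ) ≤ (2 * (t : ℝ)) ^ t := by
    apply one_le_pow₀
    have : (1 : ℝ) ≤ t := by exact_mod_cast t1
    linarith
  have h11 : (2 * (t : ℝ)) ^ t * ((2 : ℝ) ^ m) ^ t +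
      (2 : ℝ) ^ (-(9 * (n : ℝ))) * ((2 : ℝ) ^ m) ^ (2 * t) ≤
      2 * (2 * (t : ℝ)) ^ t * 2 ^ (t * m) := by
    rw [h5]
    have h10 : (0 : ℝ) < 2 ^ (t * m) := by positivity
    nlinarith
  have h12 := hmom.trans (mul_le_mul_of_nonneg_right h11 hU0.le)
  -- Markov
  obtain ⟨K, hK0, hK1, hK2⟩ := full D y y' (fun _ => 0)
  have hlow : ∀ u ∈ Bd β D y y', (2 : ℝ) ^ (t * m) * 2 ^ (4 * n) ≤
      (∑ a, sg (par β u (mx D y a)) * sg (par β u (mx D y' a))) ^ (2 * t) := by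
    intro u hu
    have hu' := (mem_filter.mp hu).2
    obtain ⟨K, hK0, hK1, hK2⟩ := full D y y' (fun z => sg (par β u z))
    rw [hK2, abs_mul, abs_of_pos hK0, ← hK1, ← hm] at hu'
    have h13 : (2 : ℝ) ^ m * (2 : ℝ) ^ (-(m : ℝ) / 4) ≤
        |∑ a, sg (par β u (mx D y a)) * sg (par β u (mx D y' a))| := by
      have : K * ((2 : ℝ) ^ m * (2 : ℝ) ^ (-(m : ℝ) / 4)) ≤
          K * |∑ a, sg (par β u (mx D y a)) * sg (par β u (mx D y' a))| := by
        rw [← mul_assoc]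
        exact hu'.le
      exact le_of_mul_le_mul_left this hK0
    have h14 : (2 : ℝ) ^ m * (2 : ℝ) ^ (-(m : ℝ) / 4) = (2 : ℝ) ^ (3 * (m : ℝ) / 4) := by
      rw [← Real.rpow_natCast 2 m, ← Real.rpow_add (by norm_num)]
      congr 1
      ring
    rw [h14] at h13
    have h15 : ((2 : ℝ) ^ (3 * (m : ℝ) / 4)) ^ (2 * t) ≤
        |∑ a, sg (par β u (mx D y a)) * sg (par β u (mx D y' a))| ^ (2 * t) :=
      pow_le_pow_left₀ (by positivity) h13 _
    rw [pow_mul |_|, sq_abs, ← pow_mul] at h15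
    refine le_trans ?_ h15
    rw [← Real.rpow_natCast, ← Real.rpow_natCast, ← Real.rpow_natCast, ← Real.rpow_mul (by norm_num),
      ← Real.rpow_add (by norm_num)]
    apply Real.rpow_le_rpow_of_exponent_le (by norm_num)
    have h16 : (8 * (n : ℝ)) ≤ t * m := by exact_mod_cast t3
    push_cast
    nlinarith
  have h17 : ((Bd β D y y').card : ℝ) * ((2 : ℝ) ^ (t * m) * 2 ^ (4 * n)) ≤
      ∑ u, (∑ a, sg (par β u (mx D y a)) * sg (par β u (mx D y' a))) ^ (2 * t) := by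
    calc ((Bd β D y y').card : ℝ) * ((2 : ℝ) ^ (t * m) * 2 ^ (4 * n))
        = ∑ u ∈ Bd β D y y', ((2 : ℝ) ^ (t * m) * 2 ^ (4 * n)) := by
          rw [sum_const, nsmul_eq_mul]
      _ ≤ ∑ u ∈ Bd β D y y',
          (∑ a, sg (par β u (mx D y a)) * sg (par β u (mx D y' a))) ^ (2 * t) :=
          sum_le_sum hlow
      _ ≤ _ := sum_le_sum_of_subset_of_nonneg (subset_univ _) fun u _ _ =>
          (even_two_mul t).pow_nonneg _
  have h18 := h17.trans h12
  have h19 : (2 : ℝ) * (2 * (t : ℝ)) ^ t < 2 ^ n := by exact_mod_cast t5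
  have h20 : (0 : ℝ) < 2 ^ (t * m) := by positivity
  have h21 : ((Bd β D y y').card : ℝ) * 2 ^ (4 * n) ≤ 2 * (2 * (t : ℝ)) ^ t * Un := by
    have : (((Bd β D y y').card : ℝ) * 2 ^ (4 * n)) * 2 ^ (t * m) ≤
        (2 * (2 * (t : ℝ)) ^ t * Un) * 2 ^ (t * m) := by
      calc (((Bd β D y y').card : ℝ) * 2 ^ (4 * n)) * 2 ^ (t * m)
          = ((Bd β D y y').card : ℝ) * ((2 : ℝ) ^ (t * m) * 2 ^ (4 * n)) := by ring
        _ ≤ _ := h18
        _ = _ := by ring
    exact le_of_mul_le_mul_right this h20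
  rw [← hUn]
  have h22 : (0 : ℝ) < 2 ^ n := by positivity
  have h23 : (2 : ℝ) ^ (4 * n) = 2 ^ (3 * n) * 2 ^ n := by
    rw [← pow_add]
    congr 1
    ring
  have h24 : (2 : ℝ) ^ (3 * n) * ((Bd β D y y').card : ℝ) * 2 ^ n < Un * 2 ^ n := by
    calc (2 : ℝ) ^ (3 * n) * ((Bd β D y y').card : ℝ) * 2 ^ n
        = ((Bd β D y y').card : ℝ) * 2 ^ (4 * n) := by rw [h23]; ring
      _ ≤ 2 * (2 * (t : ℝ)) ^ t * Un := h21
      _ < 2 ^ n * Un := mul_lt_mul_of_pos_right h19 hU0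
      _ = _ := mul_comm _ _
  exact lt_of_mul_lt_mul_right h24 h22.le

end GSDx

open GSDx in
/-- **Good seeds exist.** -/
theorem t_GSD (hM : S_MOM) (hE : S_EVN) : S_GSD := by
  intro n e β he hn
  by_contra hcon
  push Not at hcon
  have hex : ∀ u : VarX n e → Bool, ∃ q : Finset (Fin n) × (Fin n → Bool) × (Fin n → Bool),
      (64 * (n : ℝ) / 4 ^ e ≤ q.1.card ∧ ∃ v, v ∉ q.1 ∧ q.2.1 v ≠ q.2.2 v) ∧
        u ∈ Bd β q.1 q.2.1 q.2.2 := by
    intro u
    have h := hcon u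
    unfold Auto at h
    push Not at h
    obtain ⟨D, hD, y, y', hy, hlt⟩ := h
    exact ⟨(D, y, y'), ⟨hD, hy⟩, mem_filter.mpr ⟨mem_univ _, hlt⟩⟩
  obtain ⟨Un, hUn⟩ : ∃ Un : ℝ, Un = Fintype.card (VarX n e → Bool) := ⟨_, rfl⟩
  have hU0 : 0 < Un := by
    rw [hUn]
    exact_mod_cast Fintype.card_pos
  obtain ⟨B, hB⟩ : ∃ B : Finset (Fin n) × (Fin n → Bool) × (Fin n → Bool) →
      Finset (VarX n e → Bool), B = fun q =>
        if 64 * (n : ℝ) / 4 ^ e ≤ q.1.card ∧ ∃ v, v ∉ q.1 ∧ q.2.1 v ≠ q.2.2 v then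
          Bd β q.1 q.2.1 q.2.2 else ∅ := ⟨_, rfl⟩
  have hcov : (univ : Finset (VarX n e → Bool)) ⊆ univ.biUnion B := by
    intro u _
    obtain ⟨q, hq, hu⟩ := hex u
    refine mem_biUnion.mpr ⟨q, mem_univ _, ?_⟩
    rw [hB]
    simp only [if_pos hq]
    exact hu
  have hb : ∀ q, (2 : ℝ) ^ (3 * n) * ((B q).card : ℝ) < Un := by
    intro q
    rw [hB]
    by_cases hq : 64 * (n : ℝ) / 4 ^ e ≤ q.1.card ∧ ∃ v, v ∉ q.1 ∧ q.2.1 v ≠ q.2.2 v
    · simp only [if_pos hq]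
      rw [hUn]
      exact bad_card hM hE β he hn q.1 hq.1 q.2.1 q.2.2 hq.2
    · simp only [if_neg hq, card_empty, Nat.cast_zero, mul_zero]
      exact hU0
  have hcard : Fintype.card (Finset (Fin n) × (Fin n → Bool) × (Fin n → Bool)) = 2 ^ (3 * n) := by
    rw [Fintype.card_prod, Fintype.card_prod, Fintype.card_finset, Fintype.card_fun,
      Fintype.card_bool, Fintype.card_fin, ← pow_add, ← pow_add]
    congr 1
    ring
  have h1 : Un ≤ ∑ q, ((B q).card : ℝ) := by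
    have h2 : (univ : Finset (VarX n e → Bool)).card ≤ ∑ q, (B q).card :=
      (card_le_card hcov).trans card_biUnion_le
    rw [card_univ] at h2
    rw [hUn]
    exact_mod_cast h2
  have h3 : (2 : ℝ) ^ (3 * n) * Un ≤ ∑ q, (2 : ℝ) ^ (3 * n) * ((B q).card : ℝ) := by
    rw [← mul_sum]
    gcongr
  have h4 : ∑ q, (2 : ℝ) ^ (3 * n) * ((B q).card : ℝ) <
      ∑ q : Finset (Fin n) × (Fin n → Bool) × (Fin n → Bool), Un :=
    sum_lt_sum_of_nonempty univ_nonempty fun q _ => hb q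
  rw [sum_const, card_univ, hcard, nsmul_eq_mul] at h4
  push_cast at h4
  linarith

end Pool.Agent.PPL
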