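import Pool.Agent.PPL.St5
import Pool.Agent.UM.Modes

/-!
# Project PPL: PP mode is a part of PSPACE mode
-/

set_option autoImplicit false

namespace Pool.Agent.PPL

/-- PP mode with `W` coins is a part of PSPACE mode with `W (W + 3) / 2` bits, for the machines with
`2 ^ b` states and time `τ`. -/
theorem psp (I : Type) (τ b : ℝ) (W : ℕ) (L : (I → Bool) → Prop)
    (h : UM.InPP (Mch I τ b) W L) : UM.InPSPACE (Mch I τ b) (W * (W + 3) / 2) L := by
  refine UM.MODES.pp (fun P c hP => ?_) h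
  obtain ⟨s, T, V, hV, hs, hT, hc, M, hM⟩ := hP
  exact ⟨s, T, V, hV, hs, hT, hc, ⟨M.start, M.query, M.next, fun _ => c⟩, fun x => Iff.rfl⟩

end Pool.Agent.PPL
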