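import Pool.Agent.PPL.St1

/-!
# Module RB: the bias on a rectangle (helper7)
-/

set_option autoImplicit false

open Finset
open scoped Classical

namespace Pool.Agent.PPL

namespace RBx

variable {n : ℕ}

theorem mix_mem {D : Finset (Fin n)} {v : Fin n} (h : v ∈ D) (x y : Fin n → Bool) :
    mix D x y v = x v := by
  unfold mix
  rw [if_pos h]

theorem mix_not_mem {D : Finset (Fin n)} {v : Fin n} (h : v ∉ D) (x y : Fin n → Bool) :
    mix D x y v = y v := by
  unfold mix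
  rw [if_neg h]

theorem sg_sq (b : Bool) : sg b * sg b = 1 := by
  cases b <;> simp [sg]

/-- The words which agree with `a` on `D`. -/
noncomputable def fib (D : Finset (Fin n)) (a : Fin n → Bool) : Finset (Fin n → Bool) :=
  Fintype.piFinset fun v => if v ∈ D then {a v} else univ

theorem mem_fib {D : Finset (Fin n)} {a z : Fin n → Bool} :
    z ∈ fib D a ↔ ∀ v ∈ D, z v = a v := by
  unfold fib
  rw [Fintype.mem_piFinset]
  constructor
  · intro h v hv
    have h1 := h v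
    rw [if_pos hv, mem_singleton] at h1
    exact h1
  · intro h v
    by_cases hv : v ∈ D
    · rw [if_pos hv, mem_singleton]
      exact h v hv
    · rw [if_neg hv]
      exact mem_univ _

theorem card_fib (D : Finset (Fin n)) (a : Fin n → Bool) :
    (fib D a).card * 2 ^ D.card = 2 ^ n := by
  unfold fib
  rw [Fintype.card_piFinset]
  have h : ∀ v : Fin n, (if v ∈ D then ({a v} : Finset Bool) else univ).card =
      if v ∈ D then 1 else 2 := by
    intro v
    split_ifs <;> simp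
  have h2 : (2 : ℕ) ^ D.card = ∏ v : Fin n, if v ∈ D then 2 else 1 := by
    rw [Finset.prod_ite_mem, univ_inter, prod_const]
  rw [Finset.prod_congr rfl fun v _ => h v, h2, ← prod_mul_distrib]
  have h3 : ∀ v : Fin n, ((if v ∈ D then 1 else 2) * if v ∈ D then 2 else 1) = 2 := by
    intro v
    split_ifs <;> simp
  rw [Finset.prod_congr rfl fun v _ => h3 v, prod_const, card_univ, Fintype.card_fin]

end RBx

open RBx in
/-- RB: the bias on a rectangle. -/
theorem t_RB : S_RB := by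
  intro n f d hf D E R hDE hd hR1 hR2 hX hY
  rcases R.eq_empty_or_nonempty with rfl | ⟨x₀, hx₀⟩
  · simp
  have hX0 := hX x₀ hx₀
  have hY0 := hY x₀ hx₀
  obtain ⟨X, hXdef⟩ : ∃ X, X = R.filter fun y => ∀ v, v ∉ D → y v = x₀ v := ⟨_, rfl⟩
  obtain ⟨Y, hYdef⟩ : ∃ Y, Y = R.filter fun y => ∀ v, v ∉ E → y v = x₀ v := ⟨_, rfl⟩
  rw [← hXdef] at hX0
  rw [← hYdef] at hY0
  have hmX : ∀ a, a ∈ X ↔ a ∈ R ∧ ∀ v, v ∉ D → a v = x₀ v := by
    intro a
    rw [hXdef]
    exact mem_filter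
  have hmY : ∀ a, a ∈ Y ↔ a ∈ R ∧ ∀ v, v ∉ E → a v = x₀ v := by
    intro a
    rw [hYdef]
    exact mem_filter
  have hDE' : ∀ v, v ∈ D → v ∉ E := fun v h1 h2 => (disjoint_left.mp hDE) h1 h2
  -- the bijection
  have hinj : Set.InjOn (fun p : (Fin n → Bool) × (Fin n → Bool) => mix D p.1 p.2)
      (X ×ˢ Y : Finset ((Fin n → Bool) × (Fin n → Bool))) := by
    rintro ⟨a, b⟩ hp ⟨a', b'⟩ hp' heq
    rw [mem_coe, mem_product] at hp hp'
    simp only at heq hp hp'
    have ha := (hmX a).mp hp.1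
    have ha' := (hmX a').mp hp'.1
    have hb := (hmY b).mp hp.2
    have hb' := (hmY b').mp hp'.2
    have h1 : a = a' := by
      funext v
      by_cases hv : v ∈ D
      · have := congrFun heq v
        rwa [mix_mem hv, mix_mem hv] at this
      · rw [ha.2 v hv, ha'.2 v hv]
    have h2 : b = b' := by
      funext v
      by_cases hv : v ∈ D
      · rw [hb.2 v (hDE' v hv), hb'.2 v (hDE' v hv)]
      · have := congrFun heq v
        rwa [mix_not_mem hv, mix_not_mem hv] at this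
    rw [h1, h2]
  have himg : (X ×ˢ Y).image (fun p : (Fin n → Bool) × (Fin n → Bool) => mix D p.1 p.2) = R := by
    ext x
    rw [mem_image]
    constructor
    · rintro ⟨⟨a, b⟩, hp, rfl⟩
      rw [mem_product] at hp
      exact hR2 a ((hmX a).mp hp.1).1 b ((hmY b).mp hp.2).1
    · intro hx
      refine ⟨(mix D x x₀, mix D x₀ x), ?_, ?_⟩
      · rw [mem_product]
        refine ⟨(hmX _).mpr ⟨hR2 x hx x₀ hx₀, fun v hv => mix_not_mem hv _ _⟩,
          (hmY _).mpr ⟨hR2 x₀ hx₀ x hx, fun v hv => ?_⟩⟩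
        by_cases hvD : v ∈ D
        · exact mix_mem hvD _ _
        · show mix D x₀ x v = x₀ v
          rw [mix_not_mem hvD]
          exact hR1 x hx x₀ hx₀ v hvD hv
      · funext v
        show mix D (mix D x x₀) (mix D x₀ x) v = x v
        by_cases hv : v ∈ D
        · rw [mix_mem hv, mix_mem hv]
        · rw [mix_not_mem hv, mix_not_mem hv]
  obtain ⟨g, hg⟩ : ∃ g : (Fin n → Bool) → ℝ, g = fun a => ∑ b ∈ Y, sg (f (mix D a b)) :=
    ⟨_, rfl⟩
  have hga : ∀ a, g a = ∑ b ∈ Y, sg (f (mix D a b)) := fun a => by rw [hg]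
  have hsum : ∑ x ∈ R, sg (f x) = ∑ a ∈ X, g a := by
    rw [← himg, sum_image hinj, sum_product]
    exact sum_congr rfl fun a _ => (hga a).symm
  have hcard : (R.card : ℝ) = X.card * Y.card := by
    rw [← himg, card_image_of_injOn hinj, card_product]
    push_cast
    ring
  -- Cauchy-Schwarz
  have hCS : (∑ a ∈ X, g a) ^ 2 ≤ X.card * ∑ a ∈ X, g a ^ 2 := sq_sum_le_card_mul_sum_sq
  -- from `X` to all words
  have hfibg : ∀ a z, z ∈ fib D a → g z = g a := by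
    intro a z hz
    rw [hga, hga]
    refine sum_congr rfl fun b _ => ?_
    have h1 : mix D z b = mix D a b := by
      funext v
      by_cases hv : v ∈ D
      · rw [mix_mem hv, mix_mem hv]
        exact mem_fib.mp hz v hv
      · rw [mix_not_mem hv, mix_not_mem hv]
    rw [h1]
  have hfib : (2 : ℝ) ^ n * ∑ a ∈ X, g a ^ 2 ≤ 2 ^ D.card * ∑ z, g z ^ 2 := by
    have hdisj : (X : Set (Fin n → Bool)).PairwiseDisjoint (fib D) := by
      intro a ha a' ha' hne
      refine disjoint_left.mpr fun z hz hz' => hne ?_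
      rw [mem_coe] at ha ha'
      funext v
      by_cases hv : v ∈ D
      · rw [← mem_fib.mp hz v hv, ← mem_fib.mp hz' v hv]
      · rw [((hmX a).mp ha).2 v hv, ((hmX a').mp ha').2 v hv]
    have h1 : ∑ z ∈ X.biUnion (fib D), g z ^ 2 ≤ ∑ z, g z ^ 2 :=
      sum_le_sum_of_subset_of_nonneg (subset_univ _) fun z _ _ => sq_nonneg _
    rw [sum_biUnion hdisj] at h1
    have h2 : (2 : ℝ) ^ n * ∑ a ∈ X, g a ^ 2 =
        2 ^ D.card * ∑ a ∈ X, ∑ z ∈ fib D a, g z ^ 2 := by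
      rw [mul_sum, mul_sum]
      refine sum_congr rfl fun a _ => ?_
      rw [sum_congr rfl fun z hz => by rw [hfibg a z hz], sum_const, nsmul_eq_mul]
      have h3 : ((fib D a).card : ℝ) * 2 ^ D.card = 2 ^ n := by exact_mod_cast card_fib D a
      rw [← h3]
      ring
    rw [h2]
    exact mul_le_mul_of_nonneg_left h1 (by positivity)
  -- the sum over all words
  have hall : ∑ z, g z ^ 2 ≤
      Y.card * 2 ^ n + (Y.card : ℝ) ^ 2 * (2 ^ n * (2 : ℝ) ^ (-((D.card : ℝ)) / 4)) := by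
    have h1 : ∑ z, g z ^ 2 = ∑ b ∈ Y, ∑ b' ∈ Y, ∑ z : Fin n → Bool,
        sg (f (mix D z b)) * sg (f (mix D z b')) := by
      have h2 : ∀ z, g z ^ 2 = ∑ b ∈ Y, ∑ b' ∈ Y, sg (f (mix D z b)) * sg (f (mix D z b')) := by
        intro z
        rw [sq, hga, sum_mul_sum]
      rw [sum_congr rfl fun z _ => h2 z, sum_comm]
      exact sum_congr rfl fun b _ => sum_comm
    rw [h1]
    have h3 : ∀ b ∈ Y, ∀ b' ∈ Y, ∑ z : Fin n → Bool,
        sg (f (mix D z b)) * sg (f (mix D z b')) ≤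
        (if b = b' then (2 : ℝ) ^ n else 0) + 2 ^ n * (2 : ℝ) ^ (-((D.card : ℝ)) / 4) := by
      intro b hb b' hb'
      by_cases hbb : b = b'
      · subst hbb
        rw [if_pos rfl, sum_congr rfl fun z _ => sg_sq _, sum_const, card_univ, Fintype.card_fun,
          Fintype.card_bool, Fintype.card_fin, nsmul_eq_mul, mul_one]
        push_cast
        have : (0 : ℝ) ≤ 2 ^ n * (2 : ℝ) ^ (-((D.card : ℝ)) / 4) := by positivity
        linarith
      · rw [if_neg hbb, zero_add]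
        refine (le_abs_self _).trans (hf D hd b b' ?_)
        by_contra hcon
        push Not at hcon
        apply hbb
        funext v
        by_cases hv : v ∈ D
        · rw [((hmY b).mp hb).2 v (hDE' v hv), ((hmY b').mp hb').2 v (hDE' v hv)]
        · exact hcon v hv
    refine (sum_le_sum fun b hb => sum_le_sum fun b' hb' => h3 b hb b' hb').trans (le_of_eq ?_)
    have h4 : ∀ b ∈ Y, (∑ b' ∈ Y, ((if b = b' then (2 : ℝ) ^ n else 0) +
        2 ^ n * (2 : ℝ) ^ (-((D.card : ℝ)) / 4))) =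
        2 ^ n + Y.card * (2 ^ n * (2 : ℝ) ^ (-((D.card : ℝ)) / 4)) := by
      intro b hb
      rw [sum_add_distrib, sum_ite_eq, if_pos hb, sum_const, nsmul_eq_mul]
    rw [sum_congr rfl h4, sum_const, nsmul_eq_mul]
    ring
  -- conclusion
  rw [hsum, hcard]
  have h2n : (0 : ℝ) < 2 ^ n := by positivity
  have hx0 : (0 : ℝ) < X.card := lt_of_lt_of_le (by positivity) hX0
  have hy0 : (0 : ℝ) < Y.card := lt_of_lt_of_le (by positivity) hY0
  obtain ⟨x, hx⟩ : ∃ x : ℝ, (X.card : ℝ) = x := ⟨_, rfl⟩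
  obtain ⟨y, hy⟩ : ∃ y : ℝ, (Y.card : ℝ) = y := ⟨_, rfl⟩
  rw [hx] at hX0 hCS hx0 ⊢
  rw [hy] at hY0 hall hy0 ⊢
  obtain ⟨t, ht⟩ : ∃ t : ℝ, (D.card : ℝ) = t := ⟨_, rfl⟩
  have ht0 : 0 ≤ t := by
    rw [← ht]
    positivity
  have hpow : (2 : ℝ) ^ D.card = (2 : ℝ) ^ t := by rw [← ht, Real.rpow_natCast]
  rw [hpow] at hY0 hfib
  rw [ht] at hX0 hall ⊢
  have hp0 : (0 : ℝ) < (2 : ℝ) ^ (t / 8) := by positivity
  have hδ0 : (0 : ℝ) < (2 : ℝ) ^ (-t / 4) := by positivity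
  have h1 : (2 : ℝ) ^ t ≤ x * (2 : ℝ) ^ (t / 8) := by
    have h2 : (2 : ℝ) ^ t = (2 : ℝ) ^ (7 * t / 8) * (2 : ℝ) ^ (t / 8) := by
      rw [← Real.rpow_add (by norm_num)]
      congr 1
      ring
    rw [h2]
    exact mul_le_mul_of_nonneg_right hX0 hp0.le
  have h2 : y ≤ y ^ 2 * (2 : ℝ) ^ (-t / 4) := by
    have h3 : 1 ≤ y * (2 : ℝ) ^ (-t / 4) := by
      calc (1 : ℝ) ≤ (2 : ℝ) ^ (t + -t / 4) := by
            apply Real.one_le_rpow (by norm_num)
            linarith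
        _ = (2 : ℝ) ^ t * (2 : ℝ) ^ (-t / 4) := Real.rpow_add (by norm_num) _ _
        _ ≤ y * (2 : ℝ) ^ (-t / 4) := mul_le_mul_of_nonneg_right hY0 hδ0.le
    calc y = y * 1 := (mul_one y).symm
      _ ≤ y * (y * (2 : ℝ) ^ (-t / 4)) := mul_le_mul_of_nonneg_left h3 hy0.le
      _ = y ^ 2 * (2 : ℝ) ^ (-t / 4) := by ring
  have h3 : (2 : ℝ) ^ (t / 8) * (2 : ℝ) ^ (-t / 4) = ((2 : ℝ) ^ (-t / 16)) ^ 2 := by
    rw [← Real.rpow_add (by norm_num), ← Real.rpow_natCast, ← Real.rpow_mul (by norm_num)]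
    congr 1
    push_cast
    ring
  have hQ : ∑ a ∈ X, g a ^ 2 ≤ (2 : ℝ) ^ t * (y + y ^ 2 * (2 : ℝ) ^ (-t / 4)) := by
    have h4 : (2 : ℝ) ^ n * ∑ a ∈ X, g a ^ 2 ≤
        2 ^ n * ((2 : ℝ) ^ t * (y + y ^ 2 * (2 : ℝ) ^ (-t / 4))) := by
      refine hfib.trans ((mul_le_mul_of_nonneg_left hall (by positivity)).trans (le_of_eq ?_))
      ring
    exact le_of_mul_le_mul_left h4 h2n
  have hfin : (∑ a ∈ X, g a) ^ 2 ≤ (2 * (2 : ℝ) ^ (-t / 16) * (x * y)) ^ 2 := by
    calc (∑ a ∈ X, g a) ^ 2 ≤ x * ∑ a ∈ X, g a ^ 2 := hCS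
      _ ≤ x * ((2 : ℝ) ^ t * (y + y ^ 2 * (2 : ℝ) ^ (-t / 4))) :=
          mul_le_mul_of_nonneg_left hQ hx0.le
      _ ≤ x * ((x * (2 : ℝ) ^ (t / 8)) * (y ^ 2 * (2 : ℝ) ^ (-t / 4) +
            y ^ 2 * (2 : ℝ) ^ (-t / 4))) := by
          refine mul_le_mul_of_nonneg_left ?_ hx0.le
          refine mul_le_mul h1 (by linarith) (by positivity) (by positivity)
      _ = 2 * (x * y) ^ 2 * ((2 : ℝ) ^ (t / 8) * (2 : ℝ) ^ (-t / 4)) := by ring
      _ = 2 * (x * y) ^ 2 * ((2 : ℝ) ^ (-t / 16)) ^ 2 := by rw [h3]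
      _ ≤ 4 * (x * y) ^ 2 * ((2 : ℝ) ^ (-t / 16)) ^ 2 := by
          have : 0 ≤ (x * y) ^ 2 * ((2 : ℝ) ^ (-t / 16)) ^ 2 := by positivity
          linarith
      _ = (2 * (2 : ℝ) ^ (-t / 16) * (x * y)) ^ 2 := by ring
  exact abs_le_of_sq_le_sq hfin (by positivity)

end Pool.Agent.PPL
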