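import Mathlib

/-!
# Project PPL: statements, part 1 (rectangles, sampling, one point)

Correlation of deterministic Boolean programs of length `k n` with a function of good
autocorrelation. Every module proves one `S_XXX` as `theorem Pool.Agent.PPL.t_XXX : S_XXX`, or, if it
uses other statements, `theorem t_XXX (h : S_YYY) ... : S_XXX` with exactly the hypotheses named in
the doc string, in this order; so nobody waits.
-/

set_option autoImplicit false

open Finset
open scoped Classical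

namespace Pool.Agent.PPL

/-- the sign of a bit -/
noncomputable def sg (b : Bool) : ℝ := if b then -1 else 1

/-- `x` on `D` and `y` elsewhere -/
noncomputable def mix {n : ℕ} (D : Finset (Fin n)) (x y : Fin n → Bool) : Fin n → Bool :=
  fun v => if v ∈ D then x v else y v

/-- Good autocorrelation: for each set `D` of at least `d` variables and words `y`, `y'` which differ
outside of `D`, the functions `a ↦ f (y + a)`, `a ↦ f (y' + a)` of the words on `D` are almost
uncorrelated. (The sum over all words `a` of length `n` counts each word on `D` exactly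
`2 ^ (n - |D|)` times.) -/
def Auto {n : ℕ} (f : (Fin n → Bool) → Bool) (d : ℝ) : Prop :=
  ∀ D : Finset (Fin n), d ≤ D.card → ∀ y y' : Fin n → Bool, (∃ v, v ∉ D ∧ y v ≠ y' v) →
    |∑ a : Fin n → Bool, sg (f (mix D a y)) * sg (f (mix D a y'))| ≤
      2 ^ n * (2 : ℝ) ^ (-((D.card : ℝ)) / 4)

/-- RB.  The bias on a rectangle.
Proof.  Let `x₀ ∈ R`, `X` = the words of `R` which agree with `x₀` outside of `D`, `Y` = those which
agree with `x₀` outside of `E`.  `(a, b) ↦ mix D a b` is a bijection `X × Y → R` (inverse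
`x ↦ (mix D x x₀, mix D x₀ x)`; both are in `R`).  By Cauchy–Schwarz the square of the sum is at most
`|X| * ∑ a ∈ X, (∑ b ∈ Y, sg (f (mix D a b))) ^ 2`; the words of `X` differ on `D`, so the sum over `X`
is at most `2 ^ (|D| - n)` times the sum over all words `a : Fin n → Bool` (each word on `D` is counted
`2 ^ (n - |D|)` times), which is `∑ b b' ∈ Y, ∑ a, ... ≤ |Y| 2 ^ n + |Y| ^ 2 2 ^ n 2 ^ (-|D| / 4)` by
`Auto` (`b ≠ b'` differ in `E`, outside of `D`).  With `|X| ≥ 2 ^ (7 |D| / 8)`, `|Y| ≥ 2 ^ |D|` the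
square is at most `|X|^2 |Y|^2 * 2 ^ (|D| / 8) * (2 ^ (- |D|) + 2 ^ (- |D| / 4)) ≤
2 * (|R| 2 ^ (- |D| / 16)) ^ 2`. -/
def S_RB : Prop := ∀ (n : ℕ) (f : (Fin n → Bool) → Bool) (d : ℝ), Auto f d →
  ∀ (D E : Finset (Fin n)) (R : Finset (Fin n → Bool)), Disjoint D E → d ≤ D.card →
  (∀ x ∈ R, ∀ y ∈ R, ∀ v, v ∉ D → v ∉ E → x v = y v) →
  (∀ x ∈ R, ∀ y ∈ R, mix D x y ∈ R) →
  (∀ x ∈ R, (2 : ℝ) ^ (7 * (D.card : ℝ) / 8) ≤
    ((R.filter fun y => ∀ v, v ∉ D → y v = x v).card : ℝ)) →
  (∀ x ∈ R, (2 : ℝ) ^ D.card ≤ ((R.filter fun y => ∀ v, v ∉ E → y v = x v).card : ℝ)) →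
  |∑ x ∈ R, sg (f x)| ≤ 2 * (2 : ℝ) ^ (-((D.card : ℝ)) / 16) * R.card

/-- CUB.  Few words in sparse cubes.  The cubes `{y | y = x outside of N x}` are a partition.
Proof.  `y` is in the cube of `x` iff `y = x` outside of `N x`, then `N y = N x`, so the cubes of `x`
and `y` are equal. Double counting: `|B| = ∑ x ∈ B, 1 = ∑ x ∈ B, ∑ y ∈ cube x, 2 ^ (- |N x|)
= ∑ y, 2 ^ (- |N y|) * #{x ∈ B | x ∈ cube y} ≤ ∑ y, τ` (if `cube y` contains a word `x ∈ B` then it is
the cube of `x`). -/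
def S_CUB : Prop := ∀ (n : ℕ) (N : (Fin n → Bool) → Finset (Fin n)) (B : Finset (Fin n → Bool))
  (τ : ℝ), 0 ≤ τ → (∀ x y, (∀ v, v ∉ N x → x v = y v) → N y = N x) →
  (∀ x ∈ B, ((B.filter fun y => ∀ v, v ∉ N x → y v = x v).card : ℝ) ≤ τ * 2 ^ (N x).card) →
  (B.card : ℝ) ≤ τ * 2 ^ n

/-- SCB (uses `S_RB`).  A union of large cubes.
Proof.  Sum over the cubes contained in `B` (choose representatives, or the partition of `B` by the
map `x ↦ (N x, mix (N x) (fun _ => false) x)`); each cube `R` of `x` is a rectangle for `D ⊆ N x` with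
`|D| = ⌊|N x| / 2⌋` and `E = N x \ D`: the two numbers of RB are `2 ^ |D|`, `2 ^ |E| ≥ 2 ^ |D|`, and
`|D| ≥ (q - 1) / 2 ≥ d`. -/
def S_SCB : Prop := ∀ (n : ℕ) (f : (Fin n → Bool) → Bool) (d : ℝ), Auto f d →
  ∀ (N : (Fin n → Bool) → Finset (Fin n)) (B : Finset (Fin n → Bool)) (q : ℝ),
  (∀ x y, (∀ v, v ∉ N x → x v = y v) → N y = N x) →
  (∀ x ∈ B, ∀ y, (∀ v, v ∉ N x → x v = y v) → y ∈ B) →
  (∀ x ∈ B, q ≤ (N x).card) → 2 * d + 1 ≤ q →
  |∑ x ∈ B, sg (f x)| ≤ 2 * (2 : ℝ) ^ (-(q - 1) / 32) * B.card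

/-- A family of `r` deterministic segments with at most `w` tests each: `U j x` is the set of the
variables which the segment `j` reads on input `x`, `A j x` says that it ends as it should. -/
structure Seg {n r : ℕ} (w : ℕ) (U : Fin r → (Fin n → Bool) → Finset (Fin n))
    (A : Fin r → (Fin n → Bool) → Prop) : Prop where
  card : ∀ j x, (U j x).card ≤ w
  loc : ∀ j x y, (∀ v ∈ U j x, x v = y v) → U j y = U j x ∧ (A j y ↔ A j x)

section
variable {n r m : ℕ} (U : Fin r → (Fin n → Bool) → Finset (Fin n))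

/-- the variables that are not read outside of `J` -/
noncomputable def NJ (J : Finset (Fin r)) (x : Fin n → Bool) : Finset (Fin n) :=
  univ.filter fun v => ∀ j, j ∉ J → v ∉ U j x

/-- the variables that are read by `J` -/
noncomputable def UJ (J : Finset (Fin r)) (x : Fin n → Bool) : Finset (Fin n) :=
  univ.filter fun v => ∃ j ∈ J, v ∈ U j x

/-- the second side: the variables of `S` that are neither read by `J` nor in the first side -/
noncomputable def TJ (J : Finset (Fin r)) (S : Finset (Fin n)) (x : Fin n → Bool) :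
    Finset (Fin n) := S \ (UJ U J x ∪ NJ U J x)

/-- the read patterns on the sample `s` -/
noncomputable def psi (s : Fin m → Fin n) (x : Fin n → Bool) : Fin m → Fin r → Bool :=
  fun i j => decide (s i ∈ U j x)

end

/-- RCL.  Classes are rectangles.
Proof.  `z = x` outside of `TJ U J S x` (there `x = y`, or `z = x` on the first side), and for `j ∈ J` the
set `U j x` is disjoint from `TJ U J S x`; so `U j z = U j x`, `A j z`. And `z = y` outside of
`NJ U J x = NJ U J y`, which is disjoint from `U j y` for `j ∉ J`; so `U j z = U j y`, `A j z`.  Hence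
`UJ U J z = UJ U J x`, `NJ U J z = NJ U J y = NJ U J x`, and `psi` is the one of `x` for `j ∈ J`, that
of `y` for `j ∉ J`. -/
def S_RCL : Prop := ∀ (n r w m : ℕ) (U : Fin r → (Fin n → Bool) → Finset (Fin n))
  (A : Fin r → (Fin n → Bool) → Prop), Seg w U A →
  ∀ (J : Finset (Fin r)) (S : Finset (Fin n)) (s : Fin m → Fin n) (x y : Fin n → Bool),
  NJ U J x = NJ U J y → TJ U J S x = TJ U J S y →
  (∀ v, v ∉ NJ U J x → v ∉ TJ U J S x → x v = y v) → psi U s x = psi U s y →
  (∀ j, A j x) → (∀ j, A j y) →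
  NJ U J (mix (NJ U J x) x y) = NJ U J x ∧ TJ U J S (mix (NJ U J x) x y) = TJ U J S x ∧
    psi U s (mix (NJ U J x) x y) = psi U s x ∧ ∀ j, A j (mix (NJ U J x) x y)

/-- NCU.  `NJ` defines a partition into cubes; on a cube of `J = ∅` nothing changes.
Proof.  If `x = y` outside of `NJ U J x` then for `j ∉ J` the words agree on `U j x`. -/
def S_NCU : Prop := ∀ (n r w : ℕ) (U : Fin r → (Fin n → Bool) → Finset (Fin n))
  (A : Fin r → (Fin n → Bool) → Prop), Seg w U A →
  (∀ (J : Finset (Fin r)) (x y : Fin n → Bool), (∀ v, v ∉ NJ U J x → x v = y v) →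
    NJ U J y = NJ U J x) ∧
  ∀ x y : Fin n → Bool, (∀ v, v ∉ NJ U ∅ x → x v = y v) → ∀ j, U j y = U j x ∧ (A j y ↔ A j x)

/-! ## Sampling -/

/-- the transversals of the blocks `{v | v / g = i}`, `i < n / g` -/
noncomputable def smp (n g : ℕ) : Finset (Fin (n / g) → Fin n) :=
  Fintype.piFinset fun i => univ.filter fun v : Fin n => v.val / g = i.val

/-- TRS.  Tails for random transversals.
Proof.  `∑ s ∈ smp n g, exp (λ * #{i | s i ∈ S}) = ∏ i, ∑ v ∈ block i, exp (λ 1[v ∈ S])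
= ∏ i, (g + (exp λ - 1) |S ∩ block i|) ≤ g ^ (n / g) * exp ((exp λ - 1) |S ∩ ⋃ blocks| / g)`
(`Finset.prod_univ_sum`); the blocks have `g` elements and cover all but less than `g` variables.
First part: `λ = 1`, Markov: `exp ((exp 1 - 1) a - 4 a) ≤ exp (- 2 a)`. Second part: `λ = -1`:
`exp (a / 4 - (1 - exp (-1)) a) ≤ exp (- a / 4)`. -/
def S_TRS : Prop := ∀ (n g : ℕ), 1 ≤ g → 0 < (smp n g).card ∧ ∀ (S : Finset (Fin n)) (a : ℝ), 0 ≤ a →
  ((S.card : ℝ) ≤ a * g → (((smp n g).filter fun s =>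
      4 * a ≤ ((univ.filter fun i => s i ∈ S).card : ℝ)).card : ℝ) ≤
    Real.exp (-(2 * a)) * (smp n g).card) ∧
  ((a + 1) * g ≤ S.card → (((smp n g).filter fun s =>
      ((univ.filter fun i => s i ∈ S).card : ℝ) ≤ a / 4).card : ℝ) ≤
    Real.exp (-(a / 4)) * (smp n g).card)

/-- THIN (uses `S_TRS`).  A sparse set which meets few of the sets `H x` in too many variables.
Proof.  Double counting over `(s, x)`: for some `s ∈ smp n g` the number of the `x` with
`|H x| ≤ a g`, `4 a ≤ #{i | s i ∈ H x}` is at most `2 ^ n * exp (- 2 a)`. `S` = the image of `s`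
(`s` is injective: different blocks), `|S ∩ H x| = #{i | s i ∈ H x}`. -/
def S_THIN : Prop := ∀ (n g : ℕ) (H : (Fin n → Bool) → Finset (Fin n)) (a : ℝ), 1 ≤ g → 0 ≤ a →
  ∃ S : Finset (Fin n), S.card = n / g ∧
    ((univ.filter fun x : Fin n → Bool => ((H x).card : ℝ) ≤ a * g ∧
      4 * a < ((S ∩ H x).card : ℝ)).card : ℝ) ≤ 2 ^ n * Real.exp (-(2 * a))

/-- JAV.  Averaging over the sets `J` of size `m0`; `R v` is the set of the segments which read `v`.
Proof.  At least `n / 2` of the `v` have `|R v| ≤ 2 k`. For such a `v` the number of the `J ⊇ R v`,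
`|J| = m0`, is `(r - c).choose (m0 - c)`, `c = |R v|`, and
`(r - c).choose (m0 - c) / r.choose m0 = ∏ i < c, (m0 - i) / (r - i) ≥ ((m0 - 2 k) / r) ^ (2 k)
≥ (m0 / (2 r)) ^ (2 k)` (`Nat.choose_mul`, `Nat.descFactorial`). Average over `J`. -/
def S_JAV : Prop := ∀ (n r m0 k : ℕ) (R : Fin n → Finset (Fin r)), 1 ≤ k → 4 * k ≤ m0 → m0 ≤ r →
  ∑ v, (R v).card ≤ k * n → ∃ J : Finset (Fin r), J.card = m0 ∧
    (n : ℝ) / 2 * ((m0 : ℝ) / (2 * r)) ^ (2 * k) ≤ ((univ.filter fun v => R v ⊆ J).card : ℝ)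

/-- WCH (uses `S_TRS`, `S_JAV`).  The sample and the choice of `J` as a function of the patterns.
Proof.  `#{i | s i ∈ NJ U J x} = hit (psi U s x) J` with `hit ψ J = #{i | ∀ j ∉ J, ψ i j = false}`; let
`Jf ψ` be a set of size `m0` with the largest `hit ψ J`. For fixed `x` JAV (with
`R v = {j | v ∈ U j x}`, `∑ v, |R v| = ∑ j, |U j x| ≤ r w`) gives `J*` with `|NJ U J* x| ≥ ν n`. Let
`a = ν n / g - 1 ≥ 0`. Outside of a set of `s` of relative size `exp (- a / 4) + 2 ^ r exp (- a / 8)`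
(TRS) `NJ U J* x` has more than `a / 4` hits, and every `NJ U J x` with at most `(a / 16) g` elements
has less than `4 (a / 16)` hits; then `|NJ U (Jf ψ) x| > a g / 16 = (ν n - g) / 16`. Average over the
`x` to find `s`. -/
def S_WCH : Prop := ∀ (n r w k m0 g : ℕ) (U : Fin r → (Fin n → Bool) → Finset (Fin n))
  (A : Fin r → (Fin n → Bool) → Prop) (ν : ℝ), Seg w U A → 1 ≤ k → 4 * k ≤ m0 → m0 ≤ r →
  r * w ≤ k * n → 1 ≤ g → ν = 1 / 2 * ((m0 : ℝ) / (2 * r)) ^ (2 * k) → (g : ℝ) ≤ ν * n →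
  ∃ (s : Fin (n / g) → Fin n) (Jf : (Fin (n / g) → Fin r → Bool) → Finset (Fin r)),
    (∀ ψ, (Jf ψ).card = m0) ∧
    ((univ.filter fun x : Fin n → Bool =>
      ((NJ U (Jf (psi U s x)) x).card : ℝ) < (ν * n - g) / 16).card : ℝ) ≤
      2 ^ n * (2 ^ (r + 1) * Real.exp (-((ν * n / g - 1) / 8)))

/-! ## One level, one point -/

/-- LVL (uses `S_RB`, `S_CUB`, `S_RCL`, `S_NCU`).  The inputs whose first side has between `b / 2` and
`b` elements.  Write `N x = NJ U (Jf (psi U s x)) x`, `T x = TJ U (Jf (psi U s x)) S x`; the class of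
`x` is the set of the `y` of the level with all `A j y`, the same `psi`, `N`, `T` and the same bits
outside of `N x ∪ T x`.
Proof.  (0) the inputs with `|T x| < (1 - α) |S|`: the first term. All other sets below consist of
inputs with `(1 - α) |S| ≤ |T x|` and all `A j x`. (1) `B1` = those for which less than
`2 ^ (7 |N x| / 8)` words `y` of the class agree with `x` outside of `N x`: for each of the at most
`2 ^ (r m) CT` pairs `(ψ, T)` CUB with `x ↦ NJ U (Jf ψ) x` (NCU) and `τ = 2 ^ (- b / 16)`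
(`2 ^ (7 |N x| / 8) ≤ 2 ^ (- b / 16) 2 ^ |N x|`): two words of the part of `B1` for `(ψ, T)` in the same
cube are in the same class. (2) `B2` = those for which less than `2 ^ |N x|` words of the class agree
with `x` outside of `T x`: for each of the at most `2 ^ (r m) CN CT` triples `(ψ, N, T)` CUB with the
constant map `T` and `τ = 2 ^ (b - (1 - α) |S|)`. (3) The other inputs: the numbers of (1), (2) only
depend on the class (the class is a rectangle by RCL: translate by `mix`), so they are a union of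
classes; RB for each class (`D = N`, `E = T`, disjoint; `d ≤ b / 2 ≤ |N|`), the sum over the classes is
at most `2 * 2 ^ (- b / 32) * 2 ^ n`. -/
def S_LVL : Prop := ∀ (n r w m : ℕ) (U : Fin r → (Fin n → Bool) → Finset (Fin n))
  (A : Fin r → (Fin n → Bool) → Prop) (f : (Fin n → Bool) → Bool) (d : ℝ), Seg w U A → Auto f d →
  ∀ (s : Fin m → Fin n) (Jf : (Fin m → Fin r → Bool) → Finset (Fin r)) (S : Finset (Fin n))
    (b α CN CT : ℝ), d ≤ b / 2 → 0 ≤ b →
  ((univ.filter fun N : Finset (Fin n) => (N.card : ℝ) ≤ b).card : ℝ) ≤ CN →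
  ((S.powerset.filter fun T => (1 - α) * S.card ≤ T.card).card : ℝ) ≤ CT →
  |∑ x ∈ univ.filter (fun x : Fin n → Bool => (∀ j, A j x) ∧
      b / 2 < ((NJ U (Jf (psi U s x)) x).card : ℝ) ∧ ((NJ U (Jf (psi U s x)) x).card : ℝ) ≤ b),
    sg (f x)| ≤
  ((univ.filter fun x : Fin n → Bool => b / 2 < ((NJ U (Jf (psi U s x)) x).card : ℝ) ∧
      ((NJ U (Jf (psi U s x)) x).card : ℝ) ≤ b ∧
      ((TJ U (Jf (psi U s x)) S x).card : ℝ) < (1 - α) * S.card).card : ℝ) +
    2 ^ n * (CT * 2 ^ (r * m) * (2 : ℝ) ^ (-b / 16) +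
      CN * CT * 2 ^ (r * m) * (2 : ℝ) ^ (b - (1 - α) * S.card) + 2 * (2 : ℝ) ^ (-b / 32))

end Pool.Agent.PPL
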