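import Pool.Agent.PPL.St1

/-!
# Project PPL: statements, part 2 (numbers, one point, machines)
-/

set_option autoImplicit false

open Finset
open scoped Classical

namespace Pool.Agent.PPL

/-- LV2 (uses `S_LVL`, `S_THIN`, and `TKN.S_SUBS` = `TKN.t_SUBS`, file Pool/Agent/TKN/P_SUBS.lean).
One level with numbers; `b = n / 2 ^ p`.
Proof.  `g = 2 ^ p / (8 p)` (natural division; `2 ^ p / (16 p) ≤ g ≤ 2 ^ p / (8 p)`),
`ε = 1 / (2 ^ 40 k ^ 2)`, `a = (ε + 2 ^ (- p)) n / g`, `H x = UJ U J x ∪ NJ U J x` if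
`|NJ U J x| ≤ b` and `∅` otherwise (`J = Jf (psi U s x)`): `|UJ U J x| ≤ 4 k w ≤ 4 k * k n / r = ε n`, so
`|H x| ≤ a g`. THIN gives `S`, `|S| = n / g ≥ 8 p b - 1`, `|S| ≤ 16 p b`. `α = 5 (ε + 2 ^ (- p))`:
`4 a ≤ α |S|` as `n / g ≥ 8 p b ≥ 8` is large. The first term of LVL is at most `2 ^ n exp (- 2 a)`,
`2 a ≥ 2 * 2 ^ (- p) n * 8 p / 2 ^ p`. SUBS (`eta a = a (1 + log (1/a))`, see TKN/Defs): `CN = exp (eta (2 ^ (- p)) n)`,
`eta (2 ^ (- p)) n = b (1 + p log 2)`, `CT = exp (eta α |S|)` (complements in `S`), and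
`eta α * 16 p ≤ log 2 / 64`: `eta` is subadditive, `16 p eta (5 * 2 ^ (- p))` decreases for `p ≥ 22` and
is `≤ 0.0062` for `p = 22`, `16 p eta (5 / (2 ^ 40 k ^ 2)) ≤ 0.001` for the `p` allowed. So
`CT ≤ 2 ^ (b / 64)`, `2 ^ (r m) ≤ 2 ^ (b / 64)`, the two middle terms of LVL are at most
`2 ^ (- b / 32)` and `2 ^ (- b)` (`(1 - α) |S| ≥ 7.9 p b`, `CN ≤ 2 ^ (1.07 p b)`). -/
def S_LV2 : Prop := ∀ (k p n r w m : ℕ) (U : Fin r → (Fin n → Bool) → Finset (Fin n))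
  (A : Fin r → (Fin n → Bool) → Prop) (f : (Fin n → Bool) → Bool) (d : ℝ), Seg w U A → Auto f d →
  ∀ (s : Fin m → Fin n) (Jf : (Fin m → Fin r → Bool) → Finset (Fin r)), 2 ≤ k → 22 ≤ p →
  p ≤ 6 + 2 * k * (41 + 3 * (Nat.log 2 k + 1)) → r = 2 ^ 42 * k ^ 4 → r * w ≤ k * n →
  (∀ ψ, (Jf ψ).card = 4 * k) → 8 ^ p ≤ n → d ≤ (n : ℝ) / 2 ^ (p + 1) →
  (r : ℝ) * m ≤ (n : ℝ) / 2 ^ (p + 6) →
  |∑ x ∈ univ.filter (fun x : Fin n → Bool => (∀ j, A j x) ∧
      (n : ℝ) / 2 ^ (p + 1) < ((NJ U (Jf (psi U s x)) x).card : ℝ) ∧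
      ((NJ U (Jf (psi U s x)) x).card : ℝ) ≤ (n : ℝ) / 2 ^ p), sg (f x)| ≤
    2 ^ n * (Real.exp (-(16 * n / 4 ^ p)) + 4 * (2 : ℝ) ^ (-((n : ℝ) / 2 ^ (p + 5))))

/-- ONE (uses `S_LV2`, `S_WCH`, `S_NCU`, `S_SCB`).  One point, one trace.
Proof.  Let `m0 = 4 k`, `ρ = m0 / (2 r) = 1 / (2 ^ 41 k ^ 3)`, `ν = ρ ^ (2 k) / 2`,
`g = 2 ^ 54 k ^ 4 (2 ^ 41 k ^ 3) ^ (2 k)`, `P = 6 + 2 k (41 + 3 (Nat.log 2 k + 1))`: `2 ^ (- P) < ν / 32`
(as `k < 2 ^ (Nat.log 2 k + 1)`).  WCH gives `s`, `Jf` with `m = n / g`; `r m ≤ r n / g ≤ ν n / 2048 / 2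
≤ ...`; choose the constant in `g` so that `r m ≤ n / 2 ^ (P + 6)`: in fact take
`g = 2 ^ 42 k ^ 4 * 2 ^ (P + 6)`.  Write `N x = NJ U (Jf (psi U s x)) x`.
(1) `|N x| < (ν n - g) / 16`: at most `2 ^ n 2 ^ (r + 1) exp (- (ν n / g - 1) / 8)` inputs. The others
have `|N x| ≥ ν n / 32 > n / 2 ^ P`.
(2) `n / 2 ^ (p + 1) < |N x| ≤ n / 2 ^ p` for `p = 22, ..., P - 1`: LV2.
(3) `n / 2 ^ 22 < |N x|`: SCB with `NJ U ∅` (the variables that are not read at all; NCU: nothing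
changes on these cubes, so the set is a union of cubes), `q = n / 2 ^ 23`:
`|NJ U ∅ x| ≥ |N x| - |UJ U J x| ≥ n / 2 ^ 22 - ε n`.
All quantities `2 ^ P`, `g`, `1 / ν` are at most `k ^ (B k)`, so the sum of all bounds is at most
`2 ^ n * 2 ^ (- n / k ^ (A k))` for `n ≥ k ^ (A k)`, `A` large. -/
def S_ONE : Prop := ∃ A : ℕ, ∀ k : ℕ, 2 ≤ k → ∀ n : ℕ, k ^ (A * k) ≤ n →
  ∀ (r w : ℕ) (U : Fin r → (Fin n → Bool) → Finset (Fin n)) (E : Fin r → (Fin n → Bool) → Prop)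
    (f : (Fin n → Bool) → Bool), r = 2 ^ 42 * k ^ 4 → Seg w U E → r * w ≤ k * n →
  Auto f ((n : ℝ) / k ^ (A * k)) →
  |∑ x ∈ univ.filter (fun x : Fin n → Bool => ∀ j, E j x), sg (f x)| ≤
    2 ^ n * (2 : ℝ) ^ (-((n : ℝ) / k ^ (A * k)))

/-! ## Machines -/

/-- A deterministic transition system: at time `t` in state `v` it reads the input bits `rd t v`. -/
structure RS (P V : Type) where
  start : V
  rd : ℕ → V → Finset P
  next : ℕ → V → (P → Bool) → V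
  loc : ∀ t v x y, (∀ p ∈ rd t v, x p = y p) → next t v x = next t v y

/-- the state after `t` steps -/
def RS.st {P V : Type} (R : RS P V) (x : P → Bool) : ℕ → V
  | 0 => R.start
  | t + 1 => R.next t (R.st x t) x

/-- TRC.  Traces. `c` counts the bits read (along the computations).
Proof.  For `0 < j < r` let `t_j` be the largest `t ≤ T` with `c (st x t) ≤ j w0`, `t_0 = 0`, `t_r = T`.
A trace is a map `τ : Fin (r + 1) → Fin (T + 1) × V` with `τ 0 = (0, start)`, `τ r = (T, q)`,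
nondecreasing times, and for `0 < j < r`, `τ j = (t, v)`: `c v ≤ j w0` and (`t = T` or
`j w0 < c v + |rd t v|`). `ι` = the set of the traces. For `τ j = (t, v)`, `τ (j+1) = (t', v')` run the
system from `v` at time `t` on input `x` while the number of the bits read is at most `w0 + s`
(truncated run); `U τ j x` = the set of the bits read in the truncated run up to time `t'`, `A τ j x` =
the run is not truncated before `t'` and ends in `v'`. `loc`: the truncated run only depends on the bits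
it reads (if it is truncated at time `t''` then because of `rd t'' v''`, a function of the state).
If `st x T = q` then the trace of `x` satisfies all `A` (a segment from `t_j` to `t_{j+1}` reads at most
`(j+1) w0 - c (st x t_j) < w0 + s` bits if `t_j < T`, as `j w0 < c (st x t_j) + s`; none if `t_j = T`).
If all `A τ j x` hold then the computation on `x` passes through `τ j` for all `j` (induction), and the
times are the `t_j` by the condition on `c` (`c` is nondecreasing along the computation). -/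
def S_TRC : Prop := ∀ (n : ℕ) (V : Type) [Fintype V] (R : RS (Fin n) V) (c : V → ℕ)
  (s T r w0 : ℕ) (q : V), 1 ≤ r → (∀ t v, (R.rd t v).card ≤ s) → c R.start = 0 →
  (∀ x, ∀ t < T, c (R.st x (t + 1)) = c (R.st x t) + (R.rd t (R.st x t)).card) →
  c q ≤ r * w0 →
  ∃ (ι : Type) (_ : Fintype ι) (U : ι → Fin r → (Fin n → Bool) → Finset (Fin n))
    (E : ι → Fin r → (Fin n → Bool) → Prop),
    Fintype.card ι ≤ ((T + 1) * Fintype.card V) ^ (r + 1) ∧ (∀ i, Seg (w0 + s) (U i) (E i)) ∧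
    ∀ x, (R.st x T = q → ∃! i, ∀ j, E i j x) ∧ ((∃ i, ∀ j, E i j x) → R.st x T = q)

/-- PT (uses `S_ONE`, `S_TRC`).  One point, one final state.
Proof.  TRC with `r = 2 ^ 42 k ^ 4`, `w0 = k n / (2 r) + 1` (natural division): `r w0 ≥ k n / 2 ≥ c q`,
`r (w0 + s) ≤ k n` since `s + 1 ≤ k n / (2 r)` for large `A`. The sum over the `x` with `st x T = q` is
the sum over the traces `i` of the sums over `{x | ∀ j, E i j x}` (disjoint): ONE. `r + 1 ≤ k ^ A`. -/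
def S_PT : Prop := ∃ A : ℕ, ∀ k : ℕ, 2 ≤ k → ∀ n : ℕ, k ^ (A * k) ≤ n →
  ∀ (V : Type) [Fintype V] (R : RS (Fin n) V) (c : V → ℕ) (s T : ℕ) (q : V)
    (f : (Fin n → Bool) → Bool), (∀ t v, (R.rd t v).card ≤ s) → c R.start = 0 →
  (∀ x, ∀ t < T, c (R.st x (t + 1)) = c (R.st x t) + (R.rd t (R.st x t)).card) →
  2 * c q ≤ k * n → (s : ℝ) ≤ (n : ℝ) / k ^ (A * k) → Auto f ((n : ℝ) / k ^ (A * k)) →
  |∑ x ∈ univ.filter (fun x : Fin n → Bool => R.st x T = q), sg (f x)| ≤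
    (((T + 1) * Fintype.card V : ℕ) : ℝ) ^ k ^ A * 2 ^ n * (2 : ℝ) ^ (-((n : ℝ) / k ^ (A * k)))

/-- MUL (uses `S_PT`).  Many points: the parity of the values of `f` at the points `x l`.
Proof.  Let `V' = V × (Fin L → Fin (T s + 1))` with counters `c l` of the bits of the point `l` read so
far (`∑ p ∈ rd t v, if p.1 = l then 1 else 0`, saturated at `T s`; along the computations there is no
saturation up to time `T`: every step reads at most `s` bits). The sum over `x` is the sum over the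
final states `q'` of the system with counters; only `q'` which occur matter. `∑ l, c l (q') ≤ T s`, so
some `l` has `2 L c l (q') ≤ 2 T s ≤ k n L`. Fix the other points (`2 ^ (n (L - 1))` ways): the system
for the point `l` reads `{j | (l, j) ∈ rd t v}`, PT (the fixed values of the other points contribute a
sign). In total `|V'| * ((T + 1) |V'|) ^ (k ^ A) * 2 ^ (n L) * 2 ^ (- n / k ^ (A k))`. -/
def S_MUL : Prop := ∃ A : ℕ, ∀ k : ℕ, 2 ≤ k → ∀ n : ℕ, k ^ (A * k) ≤ n →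
  ∀ (L : ℕ) (V : Type) [Fintype V] (R : RS (Fin L × Fin n) V) (s T : ℕ)
    (f : (Fin n → Bool) → Bool) (g : V → ℝ), 1 ≤ L → (∀ t v, (R.rd t v).card ≤ s) →
  2 * (T * s) ≤ k * (n * L) → (s : ℝ) ≤ (n : ℝ) / k ^ (A * k) →
  Auto f ((n : ℝ) / k ^ (A * k)) → (∀ v, |g v| ≤ 1) →
  |∑ x : Fin L × Fin n → Bool, g (R.st x T) * ∏ l, sg (f fun j => x (l, j))| ≤
    (((T + 1) * (T * s + 1) ^ L * Fintype.card V : ℕ) : ℝ) ^ (k ^ A + 1) * 2 ^ (L * n) *
      (2 : ℝ) ^ (-((n : ℝ) / k ^ (A * k)))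

end Pool.Agent.PPL
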