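import Pool.Agent.PPL.St2
import Pool.Agent.TKN.St5
import Pool.Agent.UM.Defs

/-!
# Project PPL: statements, part 3 (the function, good seeds, upper bound, lower bound)

The variables, layouts and sizes are those of `Pool.Agent.TKN.ONE` (files Pool/Agent/TKN/St5.lean and
Pool/Agent/URG/Defs.lean). The value is the parity, over all parameters `e` whose switch is on, all
points and all tests, of the first coordinate of `q(x(a))`.
-/

set_option autoImplicit false

open Finset
open scoped Classical

namespace Pool.Agent.PPL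

open Pool.Agent.URG (VarX VarA deg lg pols Zero)
open Pool.Agent.HPM (GMachs DecOs)
open Pool.Agent.HPM.Fn (Coord)
open Pool.Agent.TKN.ONE (cop pt blk size BV Bas Lay sw inp Aut)

/-! ## The function -/

lemma one_le_deg (n e : ℕ) : 1 ≤ deg n e := by
  unfold deg lg
  omega

/-- The bit of the test `t` of the tests `u` at the point `x`: the first coordinate of `q(x(a))` is
not zero. -/
def Bit {n e : ℕ} (β : Coord (deg n e)) (u : VarX n e → Bool) (t : Fin (pols n e))
    (x : Fin n → Bool) : Prop :=
  ¬ Zero β (one_le_deg n e) (fun i => u (t, Sum.inl i)) (fun k i => u (t, Sum.inr (k, i))) x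

/-- the parity of the bits of all tests at the point `x` -/
noncomputable def par {n e : ℕ} (β : Coord (deg n e)) (u : VarX n e → Bool) (x : Fin n → Bool) :
    Bool := decide (Odd (univ.filter fun t => Bit β u t x).card)

/-- the items of the function: a parameter, a point and a test -/
abbrev Item (M : ℕ) : Type :=
  Σ e : Fin (blk M), Fin (cop (e.val + 1)) × Fin (pols (pt M (e.val + 1)) (e.val + 1))

/-- the item `q` counts for the input `v`: its switch is on and its bit is `1` -/
def On {M : ℕ} (β : Bas M) (ly : Lay M) (q : Item M) (v : Fin (size M) → Bool) : Prop :=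
  v (sw q.1) = true ∧ Bit (β q.1) (fun i => inp ly q.1 v (Sum.inl i)) q.2.2
    (fun j => inp ly q.1 v (Sum.inr (q.2.1, j)))

/-- **The function**: the parity of the number of the items that count. -/
noncomputable def fP {M : ℕ} (β : Bas M) (ly : Lay M) (v : Fin (size M) → Bool) : Bool :=
  decide (Odd (univ.filter fun q : Item M => On β ly q v).card)

/-! ## Good seeds -/

/-- MOM.  The moments.
Proof.  The sum over `u` is the product over the `pols n e` tests `t` of
`∑ σ : (Fin h → Bool) × (Fin (4^e) → Fin h → Bool), ∏ z ∈ O, (if Zero β _ σ.1 σ.2 z then 1 else -1)`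
(`sg (par β u z) = ∏ t, (if Bit β u t z then -1 else 1)`, `Finset.prod_univ_sum`; `h = deg n e`). If `a`
separates `O` (`z ↦ val z (elt β a)` is injective on `O`) then the sum over `q` is `0`: by interpolation
(`URG.BLK.ev_surj`, `|O| ≤ 4^e`) there is a `c` with value `β 0` (first coordinate `1`) at one point of
`O` and `0` at the others, and `q ↦ q + c` changes the sign of the product. The number of the other `a`
is at most `|O|^2 n ≤ 16^e n` (`URG.BLK.card_noninj`), so each factor is at most
`16^e n / 2^h ≤ 1 / n` times the number of the `σ` (`2 ^ (2 lg n) ≥ n ^ 2`), and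
`(1 / n) ^ pols n e ≤ 2 ^ (- 9 n)` since `pols n e ≥ 12 n / lg n`, `log₂ n ≥ (8/9) lg n` (`256 ≤ n`). -/
def S_MOM : Prop := ∀ (n e : ℕ) (β : Coord (deg n e)) (O : Finset (Fin n → Bool)), 256 ≤ n → 1 ≤ e →
  O.Nonempty → O.card ≤ 4 ^ e →
  |∑ u : VarX n e → Bool, ∏ z ∈ O, sg (par β u z)| ≤
    (2 : ℝ) ^ (-(9 * (n : ℝ))) * Fintype.card (VarX n e → Bool)

/-- EVN.  The number of the tuples in which every value occurs an even number of times.
Proof.  Induction on `t`: the value of the last component occurs at another place `j` (`≤ 2 t` choices);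
delete both. (Or: for `t ≥ 1` map an even tuple to (`j`, the common value, the rest).) -/
def S_EVN : Prop := ∀ (α : Type) [Fintype α] (t : ℕ),
  ((univ.filter fun a : Fin (2 * t) → α => ∀ z, Even (univ.filter fun i => a i = z).card).card : ℝ) ≤
    (2 * t) ^ t * (Fintype.card α : ℝ) ^ t

/-- GSD (uses `S_MOM`, `S_EVN`).  Good seeds exist.
Proof.  Let `|D| ≥ 64 n / 4^e`, `t = ⌈8 n / |D|⌉`: `4 t ≤ 4^e`, `8 n ≤ t |D| ≤ 9 n`. For `y`, `y'` which
differ outside of `D` let `S u = ∑ a, sg (f (mix D a y)) * sg (f (mix D a y'))`, `f = par β u`, where `a`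
runs over the words supported in `D` (the sum over all words is `2 ^ (n - |D|)` times this). Then
`∑ u, (S u) ^ (2 t) = ∑ (a_1, ..., a_{2t}), ∑ u, ∏ i, sg (f (mix D a_i y)) sg (f (mix D a_i y'))`. For
an even tuple (EVN with `α` = the words on `D`: at most `(2 t)^t 2^(t |D|)`) the inner sum is at most
`|U|`, `U` = the number of the `u`; otherwise the product over `i` is the product over the set `O ≠ ∅` of the words which occur an
odd number of times in the list of the `4 t` words (`sg ^ 2 = 1`; if `a` occurs an odd number of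
times then so does `mix D a y`, as `mix D a' y' ≠ mix D a y`), so MOM: in total at most
`(2 t)^t 2^(t |D|) + 2^(2 t |D|) 2^(- 9 n) ≤ 2 (2 t)^t 2^(t |D|)` times `|U|`. Markov: `|S u| > 2^(3 |D| / 4)`
for at most `2 (2 t)^t 2^(- t |D| / 2) ≤ 2 (2 t)^t 2^(- 4 n)` of the `u`; there are at most `2^(3 n)`
triples `(D, y, y')`, and `2 (2 t)^t < 2^n` as `4 t ≤ 4^e`, `64^e ≤ n`. -/
def S_GSD : Prop := ∀ (n e : ℕ) (β : Coord (deg n e)), 2 ≤ e → 64 ^ e ≤ n →
  ∃ u : VarX n e → Bool, Auto (par β u) (64 * (n : ℝ) / 4 ^ e)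

/-! ## Upper bound -/

/-- AUP.  An automaton for one item.
Proof.  Port of `ONE.t_AUT` (file Pool/Agent/TKN/O_AUT.lean) or `TWO.t_AUQ` (R_AUQ.lean): only the
acceptance condition changes. -/
def S_AUP : Prop := ∀ (n e L m : ℕ) (β : Coord (deg n e)) (pos : VarA n e L → Fin m),
  Function.Injective pos →
  (∀ t i p, pos (Sum.inl (t, Sum.inl i)) < pos (Sum.inr p)) →
  (∀ t q p, pos (Sum.inr p) < pos (Sum.inl (t, Sum.inr q))) →
  ∀ (t : Fin (pols n e)) (l : Fin L),
    Aut m (GaloisField 2 (deg n e) × GaloisField 2 (deg n e) × GaloisField 2 (deg n e))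
      (fun v => Bit β (fun i => v (pos (Sum.inl i))) t (fun j => v (pos (Sum.inr (l, j)))))

/-- UPP (uses `TKN.ONE.S_CLO`, `TKN.ONE.S_DEC`, `S_AUP`, `TKN.ONE.S_SIZ`).  The function is in parity
mode, and in PSPACE mode, of automata that read the input once.
Proof.  Port of `ONE.t_UPF` (file Pool/Agent/TKN/O_UPF.lean): `V = Fin (2 ^ (9 * lg M + 1))`, the
members are `On β ly q` for the items `q` (AUP, CLO (2), (3), (4), DEC), `|Item M| ≤ blk M * (M * M)`,
`w = Nat.clog 2 |Item M|`; `UM.PARM.par_sum` (file Pool/Agent/UM/Parm.lean) for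
`g q v = if On β ly q v then 1 else 0`; PSPACE mode: the general theorem `parity` of the file
Pool/Agent/UM/Modes.lean (the class contains the constants and complements: change `acc`). -/
def S_UPP : Prop := ∀ M : ℕ, 2 ^ 56 ≤ M → ∀ (β : Bas M) (ly : Lay M),
  ∃ (V : Type) (_ : Fintype V) (w : ℕ), Fintype.card V ≤ size M ^ 24 ∧ 2 ^ w ≤ size M ^ 24 ∧
    UM.InParity (DecOs 1 (Fin (size M)) V (size M) (fun t _ => t)) w (fun v => fP β ly v = true) ∧
    UM.InPSPACE (DecOs 1 (Fin (size M)) V (size M) (fun t _ => t)) (2 * w)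
      (fun v => fP β ly v = true)

/-! ## Lower bound -/

/-- The sets of inputs decided in `T` steps by deterministic machines with the states `V`: the time
and the state determine the `s` input bits read; these, the time and the state determine the next
state. -/
def Det (s : ℕ) (I V : Type) (T : ℕ) (L : (I → Bool) → Prop) : Prop :=
  ∃ M : GMachs s 0 I V, ∀ x, L x ↔ M.acc (M.state x (fun _ _ => false) T)

/-- `± 1` for membership -/
noncomputable def sgP (P : Prop) : ℝ := if P then -1 else 1

/-- LOW (uses `S_MUL`, `S_GSD`, `TKN.ONE.S_SIZ`).  Exponentially small correlation on a set `H` of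
inputs.
Proof.  MUL for `K = 12 k` with `A1`: `n = pt M e`, `L = cop e`, where `e ≥ 2` is minimal with
`64 * K ^ (A1 K) ≤ 4 ^ e` (then `64 n / 4^e ≤ n / K ^ (A1 K)`; `4 ^ e`, `cop e ≤ 2 ^ (6 + 3 e)` are at most
`k ^ (B k)`), so if `A` is large and `M ≥ k ^ (A k)` then `e ≤ blk M`, `n ≥ M / 2 ^ (7 + 3 e)` is at least
`K ^ (A1 K)` and `64 ^ e`. GSD gives `u`. `H` = the inputs with the switch `e - 1` on, all others off,
the bits of the tests of the layout `ly (e - 1)` equal to `u`, the data bits that are not positions of the layout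
`false`, the `n L` point bits arbitrary: `|H| = 2 ^ (n L)`. On `H` the value `fP` is the parity of the
`par β u (x l)`, `l < L`, so `sgP (fP = true) = ∏ l, sg (par β u (x l))`. A machine on `H` is an `RS` for
the point bits (`rd t v` = the point bits among `M.query t v`, the others are constants);
`2 T s ≤ 2 k N ≤ 6 k M ≤ 12 k n L = K n L` (`SIZ`: `M ≤ 2 n L`). `g v = sgP (acc v)`. MUL: the bound
`((T + 1) (T s + 1) ^ L |V|) ^ (K ^ A1 + 1) * 2 ^ (- n / K ^ (A1 K))`, with `|V| ≤ 2 ^ (c N)`,
`N ≤ 3 M ≤ 6 n L` and `T ≤ k N` (if `s ≥ 1`; if `s = 0` the machine is constant, take `T = 0`), is at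
most `2 ^ (- c N)` for `c = 1 / k ^ (A k)`, `A` large. -/
def S_LOW : Prop := ∃ A : ℕ, ∀ k M : ℕ, 2 ≤ k → k ^ (A * k) ≤ M → ∀ (β : Bas M) (ly : Lay M),
  ∃ H : Finset (Fin (size M) → Bool), H.Nonempty ∧
    ∀ (s T : ℕ) (V : Type) [Fintype V] (P : (Fin (size M) → Bool) → Prop),
      (s : ℝ) ≤ 1 / k ^ (A * k) * size M → T * s ≤ k * size M →
      (Fintype.card V : ℝ) ≤ (2 : ℝ) ^ (1 / (k : ℝ) ^ (A * k) * size M) →
      Det s (Fin (size M)) V T P →
      |∑ v ∈ H, sgP (P v) * sgP (fP β ly v = true)| ≤
        (2 : ℝ) ^ (-(1 / (k : ℝ) ^ (A * k) * size M)) * H.card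

end Pool.Agent.PPL
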