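import Pool.Agent.PPL.St3

/-!
# Project PPL: statements, part 4 (modes, superlinear time, all functions with `N + 1` coins)
-/

set_option autoImplicit false

open Finset
open scoped Classical

namespace Pool.Agent.PPL

open Pool.Agent.TKN.ONE (size Bas Lay)

/-- `L` is hard for the class `C`, with parameter `b`: on some set `H` of inputs every member of `C`
agrees with `L` for a fraction of at most `1/2 + 2 ^ (-b)` of the inputs (the correlation is at most
`2 ^ (-b)`), and `L` is neither in PP mode with `W` coins nor in randomised mode with gap `2 ^ (-W)`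
(any number of coins) over `C` for `W ≤ b`. -/
def Hard {I : Type} (C : ((I → Bool) → Prop) → Prop) (b : ℝ) (L : (I → Bool) → Prop) : Prop :=
  (∃ H : Finset (I → Bool), H.Nonempty ∧ ∀ P, C P →
    |∑ v ∈ H, sgP (P v) * sgP (L v)| ≤ (2 : ℝ) ^ (-b) * H.card) ∧
  ∀ W : ℕ, (W : ℝ) ≤ b → ¬ UM.InPP C W L ∧ ¬ UM.InGap C W L

/-- AVG.  From small correlation to the modes.
Proof.  If a member `P w` exists then `fun _ => False` is in `C`, so `|∑ v ∈ H, sgP (L v)| ≤ |H| / 2`, and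
at least `|H| / 4` inputs of `H` are in `L`. PP mode: for `v ∈ L`,
`∑ w, sgP (P w v) = 2 ^ W - 2 * #{w | P w v} ≤ -1`, otherwise `≥ 0`; so
`∑ v ∈ H, sgP (L v) * ∑ w, sgP (P w v) ≥ |H| / 4`, and some `w` has correlation at least
`2 ^ (- W - 2)`. Gap mode: `sgP (L v) * ∑ ω, p ω * sgP (P ω v) ≥ 2 * 2 ^ (- W)` for every `v`, so some `ω`
has correlation at least `2 ^ (1 - W)`. -/
def S_AVG : Prop := ∀ (I : Type) (C : ((I → Bool) → Prop) → Prop) (b : ℝ) (L : (I → Bool) → Prop)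
  (H : Finset (I → Bool)), H.Nonempty → (∀ P, C P → C fun _ => False) →
  (∀ P, C P → |∑ v ∈ H, sgP (P v) * sgP (L v)| ≤ (2 : ℝ) ^ (-b) * H.card) →
  ∀ W : ℕ, (W : ℝ) + 3 ≤ b → ¬ UM.InPP C W L ∧ ¬ UM.InGap C W L

/-- MN1 (uses `S_LOW`, `S_AVG`, `TKN.ONE.S_SIZ`).  The main theorem for fixed `k`.
Proof.  LOW for `A1`, `b = N / k ^ (A1 k)`; with `A = A1 + 1`, `c = 1 / k ^ (A k)`:
`c N + 3 ≤ N / k ^ (A1 k)` as `N ≥ k ^ (A k)`, `k ≥ 2` (take `A` larger if necessary); all conditions are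
monotone. `Det` contains `fun _ => False` if it is not empty (change `acc`). -/
def S_MN1 : Prop := ∃ A : ℕ, ∀ k M : ℕ, 2 ≤ k → k ^ (A * k) ≤ M → ∀ (β : Bas M) (ly : Lay M)
  (N s T : ℕ) (c : ℝ) (V : Type) [Fintype V], N = size M → c = 1 / (k : ℝ) ^ (A * k) →
  (s : ℝ) ≤ c * N → T * s ≤ k * N → (Fintype.card V : ℝ) ≤ (2 : ℝ) ^ (c * N) →
  Hard (Det s (Fin (size M)) V T) (c * N) (fun v => fP β ly v = true)

/-- MN2 (uses `S_MN1`, `TKN.ONE.S_SIZ`).  The main theorem for time `o(N log N / log log N)`.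
Proof.  `c = ε / (4 A + 4)` or smaller, `k = ⌈c log N / log log N⌉ ≥ 2` for large `N`; then
`A k log k ≤ 2 A c log N ≤ ε log N / 2` (as `k ≤ log N`), so `k ^ (A k) ≤ N ^ (ε / 2) ≤ M` and
`N ^ (1 - ε) ≤ N / k ^ (A k)`; `Hard` is monotone in `b` (smaller `b`). -/
def S_MN2 : Prop := ∀ ε : ℝ, 0 < ε → ε < 1 → ∃ c : ℝ, 0 < c ∧ ∃ M0 : ℕ, ∀ M ≥ M0, ∀ (β : Bas M)
  (ly : Lay M) (N s T : ℕ) (V : Type) [Fintype V], N = size M → (s : ℝ) ≤ (N : ℝ) ^ (1 - ε) →
  (T : ℝ) * s ≤ c * N * Real.log N / Real.log (Real.log N) →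
  (Fintype.card V : ℝ) ≤ (2 : ℝ) ^ ((N : ℝ) ^ (1 - ε)) →
  Hard (Det s (Fin (size M)) V T) ((N : ℝ) ^ (1 - ε)) (fun v => fP β ly v = true)

/-- ALLC.  With `N + 1` coins PP mode gives every function, by machines with two states that read
the input once.
Proof.  The members are numbered by pairs `(y, c)`, `y : Fin N → Bool`, `c : Bool` (an equivalence
`Fin (2 ^ (N + 1)) ≃ (Fin N → Bool) × Bool`); the member `(y, c)` accepts `x` iff (`x = y` and `L y`) or
(`x ≠ y` and `c`). The number of accepting members is `2 ^ N - 1 + (2 if L x else 0)`. The machine: the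
state says whether the bits read so far agree with `y`. (`0 < N`; `query t _ = t` for `t < N`.) -/
def S_ALLC : Prop := ∀ (N : ℕ) (L : (Fin N → Bool) → Prop), 0 < N →
  UM.InPP (Det 1 (Fin N) Bool N) (N + 1) L

end Pool.Agent.PPL
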