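import Pool.Agent.PPL.St4

/-!
# Project PPL: statements, part 5 (the main theorems, with one class for all numbers of states and
all times)
-/

set_option autoImplicit false

open Finset
open scoped Classical

namespace Pool.Agent.PPL

open Pool.Agent.TKN.ONE (size Bas Lay)

/-- The sets of inputs decided by deterministic machines with time `τ` and `2 ^ b` states: there are
at most `2 ^ b` states, and the time and the state determine the `s ≤ b` input bits read at each of
the `T` steps, `T s ≤ τ`. -/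
def Mch (I : Type) (τ b : ℝ) (P : (I → Bool) → Prop) : Prop :=
  ∃ (s T : ℕ) (V : Type) (_ : Fintype V), (s : ℝ) ≤ b ∧ (T : ℝ) * s ≤ τ ∧
    (Fintype.card V : ℝ) ≤ (2 : ℝ) ^ b ∧ Det s I V T P

/-- The main theorem for fixed `k`. -/
def S_MU1 : Prop := ∃ A : ℕ, ∀ k M : ℕ, 2 ≤ k → k ^ (A * k) ≤ M → ∀ (β : Bas M) (ly : Lay M)
  (N : ℕ) (c : ℝ), N = size M → c = 1 / (k : ℝ) ^ (A * k) →
  Hard (Mch (Fin (size M)) (k * N) (c * N)) (c * N) (fun v => fP β ly v = true)

/-- The main theorem for time `o(N log N / log log N)`. -/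
def S_MU2 : Prop := ∀ ε : ℝ, 0 < ε → ε < 1 → ∃ c : ℝ, 0 < c ∧ ∃ M0 : ℕ, ∀ M ≥ M0, ∀ (β : Bas M)
  (ly : Lay M) (N : ℕ) (b : ℝ), N = size M → b = (N : ℝ) ^ (1 - ε) →
  Hard (Mch (Fin (size M)) (c * N * Real.log N / Real.log (Real.log N)) b) b
    (fun v => fP β ly v = true)

end Pool.Agent.PPL
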